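import Pool.Agent.Work.MP_84019e_co.Cube.Main

set_option autoImplicit false

namespace Pool.Agent.Work.MP_84019e_co.Cube

open Finset
open Filter Topology

lemma ex_card_le {n : ℕ} (F : Finset (B n)) {c : ℝ}
    (hc : ∀ A ∈ F, (n.choose A.card : ℝ) ≤ c) : (F.card : ℝ) ≤ c * Lub F := by
  rw [Lub_eq, mul_sum, card_eq_sum_ones, Nat.cast_sum]
  refine sum_le_sum fun A hA => ?_
  have h1 : A.card ≤ n := by simpa using card_le_univ A
  have h2 : (0 : ℝ) < n.choose A.card := by exact_mod_cast Nat.choose_pos h1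
  rw [mul_one_div, le_div_iff₀ h2]
  simpa using hc A hA

lemma ex_Lub_free {P : Type} [PartialOrder P] [Fintype P] {n : ℕ} {F : Finset (B n)}
    (hF : WeakFree P F) : Lub F ≤ Fintype.card P := by
  obtain ⟨lev, h1, h2⟩ := exists_lev hF
  exact Lub_le (lev := lev) ⟨h1, h2⟩

lemma ex_mid_pos (n : ℕ) : (0 : ℝ) < n.choose (n / 2) := by
  exact_mod_cast Nat.choose_pos (Nat.div_le_self n 2)

lemma ex_mid_le (n s : ℕ) : (n.choose s : ℝ) ≤ n.choose (n / 2) := by
  exact_mod_cast Nat.choose_le_middle s n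

lemma ex_ratio_le (P : Type) [PartialOrder P] [Fintype P] [Nonempty P] (n : ℕ) :
    (La (Finset (Fin n)) P : ℝ) / (n.choose (n / 2) : ℝ) ≤ Fintype.card P := by
  obtain ⟨G, hG, hc⟩ := La_spec (P := P) n
  rw [div_le_iff₀ (ex_mid_pos n), ← hc, mul_comm]
  exact (ex_card_le G fun A _ => ex_mid_le n _).trans
    (mul_le_mul_of_nonneg_left (ex_Lub_free hG) (ex_mid_pos n).le)

lemma ex_stk_free {P : Type} [PartialOrder P] {n : ℕ} {H : Finset (B n)} (hH : WeakFree P H) :
    WeakFree P (stk ({0} : Finset ℤ) fun _ => H) := by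
  have key : ∀ x ∈ stk ({0} : Finset ℤ) fun _ => H, ∃ A ∈ H, x = toLex ((0 : ℤ), A) := by
    intro x hx
    simp only [stk, mem_biUnion, mem_singleton, mem_image] at hx
    obtain ⟨a, rfl, A, hA, rfl⟩ := hx
    exact ⟨A, hA, rfl⟩
  refine hH.of_map (fun x => (ofLex x).2) (fun x hx => ?_) (fun x hx y hy hxy => ?_)
    fun x hx y hy hxy => ?_
  · obtain ⟨A, hA, rfl⟩ := key x hx
    exact hA
  · obtain ⟨A, -, rfl⟩ := key x hx
    obtain ⟨A', -, rfl⟩ := key y hy
    have : A = A' := hxy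
    rw [this]
  · obtain ⟨A, -, rfl⟩ := key x hx
    obtain ⟨A', -, rfl⟩ := key y hy
    rcases Prod.Lex.toLex_le_toLex.1 hxy with h | h
    · exact absurd h (lt_irrefl _)
    · exact h.2

lemma ex_src (P : Type) [PartialOrder P] [Fintype P] [Nonempty P] {δ : ℝ} (hδ : 0 < δ) :
    ∀ᶠ n : ℕ in atTop, Src P n (n / 4)
      ((La (Finset (Fin n)) P : ℝ) / (n.choose (n / 2) : ℝ) - δ * Fintype.card P) := by
  classical
  filter_upwards [choose_far (γ := 1 / 4) (by norm_num) hδ] with n hn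
  obtain ⟨G, hG, hc⟩ := La_spec (P := P) n
  let p : B n → Prop := fun A => n / 4 ≤ A.card ∧ A.card + n / 4 ≤ n
  have hH : WeakFree P (G.filter p) := hG.mono (filter_subset _ _)
  have hK : WeakFree P (G.filter fun A => ¬ p A) := hG.mono (filter_subset _ _)
  refine ⟨{0}, fun _ => G.filter p, ⟨?_, fun _ _ A hA => (mem_filter.1 hA).2, ex_stk_free hH⟩, ?_⟩
  · rw [card_singleton]
    exact Fintype.card_pos
  · rw [sum_singleton]
    have h0 := ex_mid_pos n
    have h1 := ex_card_le (G.filter p) fun A _ => ex_mid_le n A.card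
    have h2 : (((G.filter fun A => ¬ p A).card : ℕ) : ℝ) ≤
        δ * n.choose (n / 2) * Lub (G.filter fun A => ¬ p A) := by
      refine ex_card_le _ fun A hA => hn _ ?_
      have h3 := (mem_filter.1 hA).2
      have h4 : 4 * A.card ≤ n ∨ 3 * n ≤ 4 * A.card := by
        simp only [p] at h3
        omega
      rcases h4 with h4 | h4
      · have h5 : (4 : ℝ) * A.card ≤ n := by exact_mod_cast h4
        exact le_abs.2 (Or.inr (by linarith))
      · have h5 : (3 : ℝ) * n ≤ 4 * A.card := by exact_mod_cast h4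
        exact le_abs.2 (Or.inl (by linarith))
    have h3 : δ * n.choose (n / 2) * Lub (G.filter fun A => ¬ p A) ≤
        δ * n.choose (n / 2) * Fintype.card P :=
      mul_le_mul_of_nonneg_left (ex_Lub_free hK) (mul_pos hδ h0).le
    have h4 : ((G.filter p).card : ℝ) + ((G.filter fun A => ¬ p A).card : ℕ) = G.card := by
      exact_mod_cast card_filter_add_card_filter_not p
    rw [sub_le_iff_le_add, div_le_iff₀ h0, ← hc]
    nlinarith

/-- The limit in the Boolean lattice exists (from `transfer` alone: one cube, sizes outside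
`[n/4, 3n/4]` dropped by `Lub_le` and `choose_far`). -/
theorem pi_exists (P : Type) [PartialOrder P] [Fintype P] [Nonempty P] :
    ∃ π : ℝ,
      Tendsto (fun n : ℕ => (La (Finset (Fin n)) P : ℝ) / (n.choose (n / 2) : ℝ)) atTop (𝓝 π) := by
  set r : ℕ → ℝ := fun n => (La (Finset (Fin n)) P : ℝ) / (n.choose (n / 2) : ℝ) with hr
  have hb : IsBoundedUnder (· ≤ ·) atTop r :=
    isBoundedUnder_of ⟨(Fintype.card P : ℝ), fun n => ex_ratio_le P n⟩
  have hc : IsCoboundedUnder (· ≤ ·) atTop r :=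
    isCoboundedUnder_le_of_le atTop (x := 0) fun n =>
      div_nonneg (Nat.cast_nonneg _) (Nat.cast_nonneg _)
  have hP : (0 : ℝ) < Fintype.card P := by exact_mod_cast Fintype.card_pos
  refine ⟨limsup r atTop, tendsto_order.2 ⟨fun a ha => ?_, fun a ha =>
    eventually_lt_of_limsup_lt ha hb⟩⟩
  obtain ⟨ε, hε, he⟩ : ∃ ε : ℝ, 0 < ε ∧ a + 4 * ε = limsup r atTop :=
    ⟨(limsup r atTop - a) / 4, by linarith, by ring⟩
  have hf : ∃ᶠ n in atTop, a + 3 * ε < r n := frequently_lt_of_lt_limsup hc (by linarith)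
  have hs : ∀ W : ℕ, ∃ n w, W ≤ w ∧ 2 * w ≤ n ∧ Src P n w (a + 2 * ε) := by
    intro W
    obtain ⟨n, h1, ⟨I, H, h2, h3⟩, h4⟩ := (hf.and_eventually
      ((ex_src P (div_pos hε hP)).and (eventually_ge_atTop (4 * W)))).exists
    refine ⟨n, n / 4, by omega, by omega, I, H, h2, le_trans ?_ h3⟩
    rw [div_mul_cancel₀ _ hP.ne']
    have : r n = (La (Finset (Fin n)) P : ℝ) / (n.choose (n / 2) : ℝ) := rfl
    linarith
  filter_upwards [transfer hε hs] with m hm
  have h1 : a + 2 * ε - ε ≤ r m := (le_div_iff₀ (ex_mid_pos m)).2 hm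
  linarith

end Pool.Agent.Work.MP_84019e_co.Cube
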