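import Pool.Agent.Work.MP_84019e_co.Cube.UpMain

-- merged part: Pool.Agent.Work.MP_84019e_co.Cube.GsChain
section
set_option autoImplicit false

namespace Pool.Agent.Work.MP_84019e_co.Cube

open Finset

lemma gsc_Lub_empty (n : ℕ) : Lub (∅ : Finset (B n)) = 0 := by
  refine sum_eq_zero fun t _ => ?_
  have : (fun π : Pm n => ind (ch π t ∈ (∅ : Finset (B n)))) = fun _ => (0 : ℝ) :=
    funext fun π => ind_neg (by simp)
  simp only [pd]
  rw [this, av_zero]

lemma gsc_corner_lt {D n : ℕ} (p : Pc D n) {A : B n} (hA : A.Nonempty) : p.1 < pt p A := by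
  obtain ⟨i, hi⟩ := hA
  refine lt_of_le_of_ne (by rw [← pt_empty p]; exact pt_mono p (empty_subset A)) fun h => ?_
  have h1 := congrFun h (p.2 i)
  have h2 : ∃ j ∈ A, p.2 j = p.2 i := ⟨i, hi, rfl⟩
  simp only [pt, if_pos h2] at h1
  omega

lemma gsc_pt_inj {D n : ℕ} {p : Pc D n} (hp : Function.Injective p.2) {A A' : B n}
    (h : pt p A = pt p A') : A = A' := by
  have key : ∀ {X Y : B n}, pt p X = pt p Y → X ⊆ Y := by
    intro X Y hXY i hi
    have h1 := congrFun hXY (p.2 i)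
    have h2 : ∃ j ∈ X, p.2 j = p.2 i := ⟨i, hi, rfl⟩
    simp only [pt, if_pos h2] at h1
    by_cases h3 : ∃ j ∈ Y, p.2 j = p.2 i
    · obtain ⟨j, hj, hji⟩ := h3
      rwa [← hp hji]
    · rw [if_neg h3] at h1
      omega
  exact Subset.antisymm (key h) (key h.symm)

lemma gsc_ne {D n w : ℕ} {F : Finset (Fin D → ℤ)} (hw : 1 ≤ w) {p : Pc D n} {A : B n}
    (hA : A ∈ pH F w p) : A.Nonempty :=
  card_pos.1 (lt_of_lt_of_le hw (mem_pH.1 hA).1)

lemma gsc_pt_lt {D n : ℕ} {p p' : Pc D n} (h : below p p') (A : B n) {A' : B n}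
    (hA' : A'.Nonempty) : pt p A < pt p' A' :=
  lt_of_le_of_lt ((pt_mono p (subset_univ A)).trans h) (gsc_corner_lt p' hA')

lemma gsc_sum_lt {D n : ℕ} {p p' : Pc D n} (h : below p p') {A : B n} (hA : A.Nonempty) :
    ∑ l, p.1 l < ∑ l, p'.1 l := by
  have h1 : p.1 < p'.1 :=
    lt_of_lt_of_le (gsc_corner_lt p hA) ((pt_mono p (subset_univ A)).trans h)
  obtain ⟨h2, l, hl⟩ := Pi.lt_def.1 h1
  exact sum_lt_sum (fun i _ => h2 i) ⟨l, mem_univ _, hl⟩

lemma gsc_mem_stk {n : ℕ} {I : Finset ℤ} {H : ℤ → Finset (B n)} {x : ℤ ×ₗ B n}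
    (hx : x ∈ stk I H) : ∃ a ∈ I, ∃ A ∈ H a, x = toLex (a, A) := by
  classical
  simp only [stk, mem_biUnion, mem_image] at hx
  obtain ⟨a, ha, A, hA, h⟩ := hx
  exact ⟨a, ha, A, hA, h.symm⟩

/-- Paper, GS, chains. -/
theorem gs_chain {P : Type} [PartialOrder P] [Fintype P] {D n k w : ℕ} {δ Λ : ℝ}
    {F : Finset (Fin D → ℤ)} (hF : WeakFree P F) (hw : 1 ≤ w)
    (hΛ : ∀ I H, Stack P n w I H → ∑ a ∈ I, Lub (H a) ≤ Λ) (C : Finset (Pc D n))
    (hC : C ⊆ pcs D n k δ) (hch : ∀ p ∈ C, ∀ p' ∈ C, p ≠ p' → below p p' ∨ below p' p) :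
    ∑ p ∈ C, Lub (pH F w p) ≤ Λ := by
  classical
  obtain ⟨C', hC'⟩ : ∃ C' : Finset (Pc D n), C' = C.filter fun p => (pH F w p).Nonempty :=
    ⟨_, rfl⟩
  have hm : ∀ p ∈ C', p ∈ C ∧ (pH F w p).Nonempty := fun p hp => by
    rw [hC'] at hp
    exact mem_filter.1 hp
  obtain ⟨s, hs⟩ : ∃ s : Pc D n → ℤ, ∀ p, s p = ∑ l, p.1 l := ⟨_, fun _ => rfl⟩
  have hlt : ∀ p ∈ C', ∀ p', below p p' → s p < s p' := by
    intro p hp p' hb
    obtain ⟨A, hA⟩ := (hm p hp).2
    rw [hs, hs]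
    exact gsc_sum_lt hb (gsc_ne hw hA)
  have hinj : ∀ p ∈ C', ∀ p' ∈ C', s p = s p' → p = p' := by
    intro p hp p' hp' h
    by_contra hne
    rcases hch p (hm p hp).1 p' (hm p' hp').1 hne with hb | hb
    · exact absurd h (hlt p hp p' hb).ne
    · exact absurd h (hlt p' hp' p hb).ne'
  have hex : ∀ a : ℤ, ∃ (G : Finset (B n)) (f : B n → Fin D → ℤ),
      ∀ p ∈ C', s p = a → G = pH F w p ∧ f = pt p := by
    intro a
    by_cases h : ∃ p ∈ C', s p = a
    · obtain ⟨p, hp, hpa⟩ := h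
      refine ⟨pH F w p, pt p, fun p' hp' hpa' => ?_⟩
      rw [hinj p hp p' hp' (hpa.trans hpa'.symm)]
      exact ⟨rfl, rfl⟩
    · exact ⟨∅, fun _ _ => 0, fun p hp hpa => absurd ⟨p, hp, hpa⟩ h⟩
  choose H f hHf using hex
  have hH : ∀ p ∈ C', H (s p) = pH F w p := fun p hp => (hHf _ p hp rfl).1
  have hf : ∀ p ∈ C', f (s p) = pt p := fun p hp => (hHf _ p hp rfl).2
  have hstk : ∀ x ∈ stk (C'.image s) H, ∃ p ∈ C', ∃ A ∈ pH F w p, x = toLex (s p, A) := by
    intro x hx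
    obtain ⟨a, ha, A, hA, rfl⟩ := gsc_mem_stk hx
    obtain ⟨p, hp, rfl⟩ := mem_image.1 ha
    exact ⟨p, hp, A, hH p hp ▸ hA, rfl⟩
  have hst : Stack P n w (C'.image s) H := by
    refine ⟨card_image_le.trans ?_, ?_, ?_⟩
    · obtain ⟨lev, h1, h2⟩ := exists_lev hF
      have hA : ∀ p : Pc D n, ∃ A : B n, p ∈ C' → A ∈ pH F w p := fun p => by
        by_cases hp : p ∈ C'
        · obtain ⟨A, hA⟩ := (hm p hp).2
          exact ⟨A, fun _ => hA⟩
        · exact ⟨∅, fun h => absurd h hp⟩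
      choose A hA using hA
      have hAF : ∀ p ∈ C', pt p (A p) ∈ F := fun p hp => (mem_pH.1 (hA p hp)).2.2
      rw [← card_range (Fintype.card P)]
      refine card_le_card_of_injOn (fun p => lev (pt p (A p)))
        (fun p hp => mem_coe.2 (mem_range.2 (h1 _ (hAF p hp)))) fun p hp p' hp' h => ?_
      by_contra hne
      rcases hch p (hm p hp).1 p' (hm p' hp').1 hne with hb | hb
      · exact absurd h (h2 _ (hAF p hp) _ (hAF p' hp')
          (gsc_pt_lt hb _ (gsc_ne hw (hA p' hp')))).ne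
      · exact absurd h (h2 _ (hAF p' hp') _ (hAF p hp)
          (gsc_pt_lt hb _ (gsc_ne hw (hA p hp)))).ne'
    · intro a ha A hA
      obtain ⟨p, hp, rfl⟩ := mem_image.1 ha
      rw [hH p hp] at hA
      exact ⟨(mem_pH.1 hA).1, (mem_pH.1 hA).2.1⟩
    · refine hF.of_map (fun x => f (ofLex x).1 (ofLex x).2) ?_ ?_ ?_
      · intro x hx
        obtain ⟨p, hp, A, hA, rfl⟩ := hstk x hx
        show f (s p) A ∈ F
        rw [hf p hp]
        exact (mem_pH.1 hA).2.2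
      · intro x hx y hy hxy
        obtain ⟨p, hp, A, hA, rfl⟩ := hstk x hx
        obtain ⟨p', hp', A', hA', rfl⟩ := hstk y hy
        have h1 : f (s p) A = f (s p') A' := hxy
        rw [hf p hp, hf p' hp'] at h1
        by_cases hne : p = p'
        · subst hne
          rw [gsc_pt_inj (mem_pcs.1 (hC (hm p hp).1)).2.1 h1]
        · rcases hch p (hm p hp).1 p' (hm p' hp').1 hne with hb | hb
          · exact absurd h1 (gsc_pt_lt hb _ (gsc_ne hw hA')).ne
          · exact absurd h1 (gsc_pt_lt hb _ (gsc_ne hw hA)).ne'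
      · intro x hx y hy hxy
        obtain ⟨p, hp, A, hA, rfl⟩ := hstk x hx
        obtain ⟨p', hp', A', hA', rfl⟩ := hstk y hy
        show f (s p) A ≤ f (s p') A'
        rw [hf p hp, hf p' hp']
        rcases Prod.Lex.toLex_le_toLex.1 hxy with h1 | ⟨h1, h2⟩
        · have hne : p ≠ p' := fun h => by
            rw [h] at h1
            exact lt_irrefl _ h1
          rcases hch p (hm p hp).1 p' (hm p' hp').1 hne with hb | hb
          · exact (gsc_pt_lt hb _ (gsc_ne hw hA')).le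
          · exact absurd h1 (not_lt.2 (hlt p' hp' p hb).le)
        · have h3 : p = p' := hinj p hp p' hp' h1
          subst h3
          exact pt_mono p h2
  have h1 := hΛ _ _ hst
  rw [sum_image hinj, sum_congr rfl fun p hp => congrArg Lub (hH p hp)] at h1
  refine le_trans (le_of_eq ?_) h1
  rw [hC']
  refine (sum_filter_of_ne fun p _ hp => ?_).symm
  by_contra hn
  rw [not_nonempty_iff_eq_empty.1 hn] at hp
  exact hp (gsc_Lub_empty n)

end Pool.Agent.Work.MP_84019e_co.Cube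
end

-- merged part: Pool.Agent.Work.MP_84019e_co.Cube.GsMain
section
set_option autoImplicit false

namespace Pool.Agent.Work.MP_84019e_co.Cube

open Finset
open Filter Topology

variable {P : Type} [PartialOrder P] [Fintype P] [Nonempty P]

lemma gm_stack_empty (n w : ℕ) : Stack P n w ∅ fun _ => (∅ : Finset (B n)) := by
  refine ⟨by simp, by simp, ?_⟩
  have : stk (∅ : Finset ℤ) (fun _ => (∅ : Finset (B n))) = ∅ := by simp [stk]
  rw [this]
  exact weakFree_empty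

lemma gm_below_trans {D n : ℕ} {p p' p'' : Pc D n} (h1 : below p p') (h2 : below p' p'') :
    below p p'' := by
  have h3 : p'.1 ≤ pt p' univ := by
    rw [← pt_empty p']
    exact pt_mono p' (empty_subset _)
  exact (le_trans h1 h3).trans h2

lemma gm_below_irr {D n : ℕ} (hn : 0 < n) (p : Pc D n) : ¬ below p p := by
  intro h
  have h1 := h (p.2 ⟨0, hn⟩)
  have h2 : ∃ i ∈ (univ : B n), p.2 i = p.2 ⟨0, hn⟩ := ⟨_, mem_univ _, rfl⟩
  simp only [pt, if_pos h2] at h1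
  omega

omit [Nonempty P] in
lemma gm_atyp {m k : ℕ} {δ : ℝ} (hδ : 0 < δ) (hδ1 : δ ≤ 1) (hd : 36 ≤ δ ^ 6 * (m + 1))
    (hk : 2 ≤ δ * k ^ 2) {F : Finset (Fin (m + 1) → ℤ)} (hB : F ⊆ box (m + 1) k)
    (hF : WeakFree P F) [DecidablePred (Atyp (d := m + 1) k δ)] :
    ((F.filter (Atyp k δ)).card : ℝ) ≤ Fintype.card P * (δ * G (Fin 2) (m + 1) k) := by
  classical
  obtain ⟨lev, h1, h2⟩ := exists_lev hF
  have h3 : (F.filter (Atyp k δ)).card ≤
      ∑ j ∈ range (Fintype.card P), ((F.filter fun x => lev x = j).filter (Atyp k δ)).card := by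
    refine le_trans (card_le_card ?_) card_biUnion_le
    intro x hx
    obtain ⟨a1, a2⟩ := mem_filter.1 hx
    exact mem_biUnion.2 ⟨lev x, mem_range.2 (h1 x a1),
      mem_filter.2 ⟨mem_filter.2 ⟨a1, rfl⟩, a2⟩⟩
  calc ((F.filter (Atyp k δ)).card : ℝ) ≤ ∑ j ∈ range (Fintype.card P),
        (((F.filter fun x => lev x = j).filter (Atyp k δ)).card : ℝ) := by exact_mod_cast h3
    _ ≤ ∑ _j ∈ range (Fintype.card P), δ * (G (Fin 2) (m + 1) k : ℝ) := by
        refine sum_le_sum fun j _ => atyp_small hδ hδ1 hd hk ((filter_subset _ _).trans hB) ?_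
        rw [weakFree_two_iff]
        intro x hx y hy hne hle
        have hx' := mem_filter.1 (mem_coe.1 hx)
        have hy' := mem_filter.1 (mem_coe.1 hy)
        have := h2 x hx'.1 y hy'.1 (lt_of_le_of_ne hle hne)
        omega
    _ = _ := by simp

lemma gm_param (n h : ℕ) {ε : ℝ} (hε : 0 < ε) : ∃ δ : ℝ, 0 < δ ∧ δ ≤ 1 / 20 ∧ h * δ ≤ ε ∧
    (1 / 6 + 4 * δ) ^ n ≤ (1 + ε) * (1 / 6 - 2 * δ) ^ n := by
  have hg : ContinuousAt (fun δ : ℝ => (1 / 6 + 4 * δ) ^ n - (1 + ε) * (1 / 6 - 2 * δ) ^ n) 0 := by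
    fun_prop
  have h0 : (1 / 6 + 4 * (0 : ℝ)) ^ n - (1 + ε) * (1 / 6 - 2 * (0 : ℝ)) ^ n < 0 := by
    have : (0 : ℝ) < ε * (1 / 6) ^ n := by positivity
    simp only [mul_zero, add_zero, sub_zero]
    linarith
  obtain ⟨δ, hδ, ⟨h1, h2⟩, h3⟩ := small_param (((hg.eventually (gt_mem_nhds h0)).and
    (ev_mul_lt 20 one_pos)).and (ev_mul_lt h hε))
  exact ⟨δ, hδ, by linarith, h3.le, by linarith⟩

/-- Paper, GS. -/
theorem grid_stack {n w : ℕ} {Λ ε : ℝ} (hε : 0 < ε) (hw : 1 ≤ w) (hn : 2 * w ≤ n)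
    (hΛ : ∀ I H, Stack P n w I H → ∑ a ∈ I, Lub (H a) ≤ Λ) :
    ∀ᶠ m : ℕ in atTop, ∀ᶠ k : ℕ in atTop, ((n : ℝ) - 2 * w + 1) * G P (m + 1) k ≤
      ((1 + ε) * n * Λ + ε * n) * G (Fin 2) (m + 1) k := by
  classical
  have hΛ0 : 0 ≤ Λ := by simpa using hΛ _ _ (gm_stack_empty n w)
  obtain ⟨δ, hδ, hδ1, hδ2, hδ3⟩ := gm_param n (Fintype.card P) hε
  filter_upwards [ev_ge_mul (pow_pos hδ 6) 36, ev_ge_mul (mul_pos two_pos hδ) n] with m hm1 hm2
  have hd : 36 ≤ δ ^ 6 * ((m : ℝ) + 1) := hm1.trans (by gcongr; linarith)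
  have hn2 : (n : ℝ) ≤ 2 * δ * ((m : ℝ) + 1) := hm2.trans (by gcongr; linarith)
  filter_upwards [ev_ge_mul hδ 2, eventually_ge_atTop 1] with k hk hk1
  have hk1' : (1 : ℝ) ≤ k := by exact_mod_cast hk1
  have hk2 : 2 ≤ δ * (k : ℝ) ^ 2 := hk.trans (by gcongr; nlinarith)
  obtain ⟨F, hB, hF, hc⟩ := G_spec (P := P) (m + 1) k
  set W : ℝ := (G (Fin 2) (m + 1) k : ℝ) with hW
  have hW0 : 0 ≤ W := Nat.cast_nonneg _
  have a1 := gm_atyp hδ (by linarith) hd hk2 hB hF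
  have a2 := gs_lower (D := m + 1) (w := w) hδ hδ1 (by exact_mod_cast hn2) hk hn F
    (F.filter fun z => ¬ Atyp k δ z) (filter_subset _ _) ((filter_subset _ _).trans hB)
    fun z hz => (mem_filter.1 hz).2
  have a3 := antiblock (below (D := m + 1) (n := n)) (pcs (m + 1) n k δ)
    (fun _ _ _ _ _ _ => gm_below_trans) (fun p _ => gm_below_irr (by omega) p) (pb k) _
    (fun A hA ha => gs_anti hδ hδ1 hd hn2 hk A hA ha) _ (fun p => Lub (pH F w p)) Λ le_rfl
    (fun p _ => Lub_nonneg _) fun C hC hch => gs_chain hF hw hΛ C hC hch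
  have a4 : ((F.filter (Atyp k δ)).card : ℝ) + (F.filter fun z => ¬ Atyp k δ z).card =
      G P (m + 1) k := by
    rw [← hc]
    exact_mod_cast card_filter_add_card_filter_not (s := F) (Atyp k δ)
  have hw' : (1 : ℝ) ≤ w := by exact_mod_cast hw
  have hn' : 2 * (w : ℝ) ≤ n := by exact_mod_cast hn
  set u : ℝ := ((m : ℝ) + 1) * (k : ℝ) ^ 2 with hu
  have hu0 : 0 < u := by positivity
  have hb : 0 < (u * (1 / 6 - 2 * δ)) ^ n := pow_pos (mul_pos hu0 (by linarith)) n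
  have a5 : (u * (1 / 6 + 4 * δ)) ^ n ≤ (1 + ε) * (u * (1 / 6 - 2 * δ)) ^ n := by
    rw [mul_pow u, mul_pow u, mul_left_comm]
    exact mul_le_mul_of_nonneg_left hδ3 (pow_pos hu0 n).le
  have a6 : ((n : ℝ) - 2 * w + 1) * (F.filter fun z => ¬ Atyp k δ z).card ≤
      (1 + ε) * n * Λ * W := by
    apply le_of_mul_le_mul_right _ hb
    push_cast at a2
    calc _ ≤ _ := a2
      _ ≤ Λ * (n * (u * (1 / 6 + 4 * δ)) ^ n * W) := a3
      _ ≤ Λ * (n * ((1 + ε) * (u * (1 / 6 - 2 * δ)) ^ n) * W) := by gcongr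
      _ = _ := by ring
  have a7 : ((n : ℝ) - 2 * w + 1) * (F.filter (Atyp k δ)).card ≤ n * (ε * W) := by
    refine mul_le_mul (by linarith) (a1.trans ?_) (Nat.cast_nonneg _) (Nat.cast_nonneg _)
    rw [← mul_assoc]
    exact mul_le_mul_of_nonneg_right hδ2 hW0
  rw [← a4]
  linarith

/-- Stacks reach every value below the limit of the grid densities. -/
theorem src_of_lim (F C : ℕ → ℝ)
    (hF : ∀ m, Tendsto (fun k : ℕ => (G P (m + 1) k : ℝ) / k ^ m) atTop (𝓝 (F m)))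
    (hC : ∀ m, Tendsto (fun k : ℕ => (G (Fin 2) (m + 1) k : ℝ) / k ^ m) atTop (𝓝 (C m)))
    {L lam : ℝ} (hL : Tendsto (fun m => F m / C m) atTop (𝓝 L)) (hlam : lam < L) (W : ℕ) :
    ∃ n w, W ≤ w ∧ 2 * w ≤ n ∧ Src P n w lam := by
  by_contra hno
  have hS : ∀ n w, W ≤ w → 2 * w ≤ n → ∀ I H, Stack P n w I H → ∑ a ∈ I, Lub (H a) < lam :=
    fun n w h1 h2 I H h3 => not_le.1 fun h4 => hno ⟨n, w, h1, h2, I, H, h3, h4⟩
  have hl0 : 0 < lam := by simpa using hS (2 * W) W le_rfl le_rfl _ _ (gm_stack_empty _ _)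
  have hL0 : 0 < L := hl0.trans hlam
  have hg : 0 < L - lam := sub_pos.2 hlam
  obtain ⟨K, hK1, hK2⟩ := ((ev_ge_mul hg (4 * L + 1)).and (eventually_ge_atTop 2)).exists
  set w := W + 1 with hw
  set ε : ℝ := (L - lam) / (2 * (lam + 1)) with hε
  have hε0 : 0 < ε := by positivity
  have hn : 2 * w ≤ K * w := Nat.mul_le_mul_right w hK2
  have h1 := grid_stack (P := P) (Λ := lam) hε0 (by omega : 1 ≤ w) hn
    fun I H h => (hS _ _ (by omega) hn I H h).le
  set a : ℝ := ((K * w : ℕ) : ℝ) - 2 * w + 1 with ha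
  set c : ℝ := (1 + ε) * ((K * w : ℕ) : ℝ) * lam + ε * ((K * w : ℕ) : ℝ) with hc
  have h2 : a * L ≤ c := by
    refine le_of_tendsto (hL.const_mul a) ?_
    filter_upwards [h1] with m hm
    rw [← mul_div_assoc, div_le_iff₀ (lim_two_pos (hC m))]
    refine le_of_tendsto_of_tendsto ((hF m).const_mul a) ((hC m).const_mul c) ?_
    filter_upwards [hm] with k hk
    rw [← mul_div_assoc, ← mul_div_assoc]
    exact div_le_div_of_nonneg_right hk (by positivity)
  have h3 : c = K * w * ((L + lam) / 2) := by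
    rw [hc, hε]
    push_cast
    field_simp
    ring
  have hw0 : (0 : ℝ) < w := by exact_mod_cast Nat.succ_pos W
  have h4 : (w : ℝ) * (4 * L + 1) ≤ w * ((L - lam) * K) := mul_le_mul_of_nonneg_left hK1 hw0.le
  rw [h3, ha] at h2
  push_cast at h2
  nlinarith

end Pool.Agent.Work.MP_84019e_co.Cube
end

-- merged part: Pool.Agent.Work.MP_84019e_co.Cube.Final
section
set_option autoImplicit false

namespace Pool.Agent.Work.MP_84019e_co.Cube

open Finset
open Filter Topology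

theorem weak_full (P : Type) [PartialOrder P] [Fintype P] [Nonempty P] :
    ∃ (πd : ℕ → ℝ) (π : ℝ),
      (∀ d : ℕ, 1 ≤ d → Tendsto
        (fun k : ℕ => (La (Fin d → Fin k) P : ℝ) / (width (Fin d → Fin k) : ℝ)) atTop (𝓝 (πd d))) ∧
      Tendsto πd atTop (𝓝 π) ∧
      Tendsto (fun n : ℕ => (La (Finset (Fin n)) P : ℝ) / (n.choose (n / 2) : ℝ)) atTop (𝓝 π) := by
  choose F hF using exists_lim (P := P)
  choose C hC using exists_lim (P := Fin 2)
  obtain ⟨L, hL⟩ := dim_limit F C hF hC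
  have C0 : ∀ n : ℕ, (0 : ℝ) < n.choose (n / 2) := fun n => by
    exact_mod_cast Nat.choose_pos (Nat.div_le_self n 2)
  refine ⟨fun d => F (d - 1) / C (d - 1), L, fun d hd => ?_, hL.comp (tendsto_sub_atTop_nat 1),
    tendsto_order.2 ⟨fun b hb => ?_, fun b hb => ?_⟩⟩
  · obtain ⟨m, rfl⟩ : ∃ m, d = m + 1 := ⟨d - 1, by omega⟩
    exact ratio_tendsto (hF m) (hC m)
  · filter_upwards [transfer (P := P) (lam := L - (L - b) / 3) (ε := (L - b) / 3) (by linarith)
      (src_of_lim F C hF hC hL (by linarith))] with n hn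
    rw [lt_div_iff₀ (C0 n)]
    exact lt_of_lt_of_le (mul_lt_mul_of_pos_right (by linarith) (C0 n)) hn
  · have hg : ContinuousAt (fun δ : ℝ => (L + δ) / (1 - 16 * δ) + δ) 0 := by
      fun_prop (disch := norm_num)
    obtain ⟨δ, hδ, h1, h2⟩ := small_param ((hg.eventually (gt_mem_nhds (a := b) (by simpa using hb))).and
      (ev_mul_lt 20 one_pos))
    obtain ⟨m, m1, m2⟩ := ((ev_ge_mul (pow_pos hδ 6) 36).and
      (hL.eventually (gt_mem_nhds (lt_add_of_pos_right L hδ)))).exists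
    have hd : 36 ≤ δ ^ 6 * (m + 1) := by linarith [pow_pos hδ 6]
    filter_upwards [upper hδ (by linarith) hd (hF m) (hC m) hδ] with n hn
    rw [div_lt_iff₀ (C0 n)]
    refine lt_of_le_of_lt hn (mul_lt_mul_of_pos_right (lt_of_le_of_lt ?_ h1) (C0 n))
    exact add_le_add_left (div_le_div_of_nonneg_right m2.le (by linarith)) _

end Pool.Agent.Work.MP_84019e_co.Cube
end
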