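import Pool.Agent.Work.MP_84019e_co.GridDefs

-- merged part: Pool.Agent.Work.MP_84019e_co.Cube.Defs
section
set_option autoImplicit false

namespace Pool.Agent.Work.MP_84019e_co.Cube

open Finset

/-- The mean of a function on a finite type. -/
noncomputable def av {Ω : Type} [Fintype Ω] (f : Ω → ℝ) : ℝ := (∑ ω, f ω) / Fintype.card Ω

open Classical in
/-- The indicator of a proposition. -/
noncomputable def ind (p : Prop) : ℝ := if p then 1 else 0

abbrev B (n : ℕ) : Type := Finset (Fin n)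

abbrev Pm (n : ℕ) : Type := Equiv.Perm (Fin n)

/-- The first `t` positions. -/
def init (n t : ℕ) : B n := univ.filter fun i => i.val < t

/-- The image of a set of positions. -/
def img {n : ℕ} (π : Pm n) (I : B n) : B n := I.map π.toEmbedding

/-- The member of size `t` of the chain of a permutation. -/
def ch {n : ℕ} (π : Pm n) (t : ℕ) : B n := img π (init n t)

/-- The first `k` positions and a copy of `A` after them. -/
def place (n k : ℕ) {l : ℕ} (A : B l) : B n :=
  univ.filter fun i => i.val < k ∨ ∃ a ∈ A, i.val = k + a.val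

/-- The density of a property on level `t`. -/
noncomputable def pd {n : ℕ} (U : B n → Prop) (t : ℕ) : ℝ := av fun π : Pm n => ind (U (ch π t))

/-- The mean number of members of `F` on a chain. -/
noncomputable def Lub {n : ℕ} (F : Finset (B n)) : ℝ := ∑ t ∈ range (n + 1), pd (· ∈ F) t

def IsUp {n : ℕ} (U : B n → Prop) : Prop := ∀ x y, x ⊆ y → U x → U y

def Lev {n : ℕ} (h : ℕ) (F : Finset (B n)) (lev : B n → ℕ) : Prop :=
  (∀ x ∈ F, lev x < h) ∧ ∀ x ∈ F, ∀ y ∈ F, x < y → lev x < lev y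

/-- `G` maps into `H` by a map that is injective and monotone on `G`. -/
def Emb {X Q : Type} [PartialOrder X] [PartialOrder Q] (H : Finset Q) (G : Finset X) : Prop :=
  ∃ ψ : X → Q, (∀ x ∈ G, ψ x ∈ H) ∧ Set.InjOn ψ G ∧ ∀ x ∈ G, ∀ y ∈ G, x ≤ y → ψ x ≤ ψ y

/-- Sets with size in `[s, s + S)`. -/
def lay (m s S : ℕ) : Finset (B m) := univ.filter fun A => s ≤ A.card ∧ A.card < s + S

open Classical in
/-- Families put one above the other. -/
noncomputable def stk {n : ℕ} (I : Finset ℤ) (H : ℤ → Finset (B n)) : Finset (ℤ ×ₗ B n) :=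
  I.biUnion fun a => (H a).image fun A => toLex (a, A)

structure Stack (P : Type) [PartialOrder P] [Fintype P] (n w : ℕ) (I : Finset ℤ)
    (H : ℤ → Finset (B n)) : Prop where
  card : I.card ≤ Fintype.card P
  bulk : ∀ a ∈ I, ∀ A ∈ H a, w ≤ A.card ∧ A.card + w ≤ n
  free : WeakFree P (stk I H)

def Src (P : Type) [PartialOrder P] [Fintype P] (n w : ℕ) (lam : ℝ) : Prop :=
  ∃ (I : Finset ℤ) (H : ℤ → Finset (B n)), Stack P n w I H ∧ lam ≤ ∑ a ∈ I, Lub (H a)

/-- The mass kept in the window around level `c`. -/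
noncomputable def nu {l : ℕ} (H : Finset (B l)) (V : B l → Prop) (T R c : ℕ) : ℝ :=
  ∑ t ∈ Icc (c - R) (c + R + T), av fun τ : Pm l => ind (ch τ t ∈ H ∧ ¬ V (ch τ (t - T)))

def zone (l m : ℕ) : Finset ℕ := Icc (3 * m) (l - 3 * m)

noncomputable def mu {l : ℕ} (m : ℕ) (H : Finset (B l)) : ℝ := ∑ t ∈ zone l m, pd (· ∈ H) t

noncomputable def gap {l : ℕ} (h m T : ℕ) (H : Finset (B l)) (V : ℕ → B l → Prop) : ℝ :=
  ∑ j ∈ range h, ind (¬ V j ∅) *
    ∑ t ∈ zone l m, av fun τ : Pm l => ind (ch τ t ∈ H ∧ V j (ch τ (t - T)))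

noncomputable def Phi {l : ℕ} (h m R : ℕ) (H : Finset (B l)) (lev : B l → ℕ)
    (V : ℕ → B l → Prop) : ℝ :=
  ∑ j ∈ range h, ∑ t ∈ zone l m,
    pd (fun x => x ∈ H ∧ lev x = j) t * (pd (V j) (t - R) + (1 - pd (V j) (t + R)))

noncomputable def val {l : ℕ} (h m T R : ℕ) (e : ℝ) (H : Finset (B l)) (lev : B l → ℕ)
    (V : ℕ → B l → Prop) : ℝ :=
  mu m H - gap h m T H V - h * Phi h m R H lev V / e

/-- The first `u` positions without position `t`. -/
def hole (n t u : ℕ) : B n := univ.filter fun i => i.val < u ∧ i.val ≠ t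

noncomputable def Y {n : ℕ} (U : B n → Prop) (s : ℕ) : ℝ :=
  ∑ t ∈ range (n - s - 1),
    av fun π : Pm n => ind (U (ch π (t + 1)) ∧ ¬ U (img π (hole n t (t + s + 2))))

structure Bulk {n : ℕ} (U : B n → Prop) (w : ℕ) : Prop where
  up : IsUp U
  lo : ∀ x, U x → w ≤ x.card
  hi : ∀ x : B n, n < x.card + w → U x

/-- A frame: `r` pairs of positions and a column. -/
abbrev Fr (r N n : ℕ) : Type := (Fin r × Bool) ⊕ Fin N ≃ Fin n

def fA {r N n : ℕ} (e : Fr r N n) (ε : Fin r → Bool) : B n :=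
  univ.image fun i => e (Sum.inl (i, ε i))

def fAll {r N n : ℕ} (e : Fr r N n) : B n := univ.image fun p => e (Sum.inl p)

def fX {r N n : ℕ} (e : Fr r N n) (k : ℕ) : B n :=
  (univ.filter fun j : Fin N => j.val < k).image fun j => e (Sum.inr j)

open Classical in
/-- The number of steps of the column over `A` outside `U`. -/
noncomputable def kap {r N n : ℕ} (U : B n → Prop) (e : Fr r N n) (π : Pm n) (A : B n) : ℕ :=
  ((range (N + 1)).filter fun k => ¬ U (img π (fX e k ∪ A))).card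

noncomputable def beta (l M T R : ℕ) (τ : ℝ) : ℝ :=
  2 * l / M + 4 * l * (T + M * τ) / (R : ℝ) ^ 2

/-- The up-set of level `j`. -/
def upS {n : ℕ} (F : Finset (B n)) (lev : B n → ℕ) (w j : ℕ) (x : B n) : Prop :=
  (∃ y ∈ F, j ≤ lev y ∧ y ⊆ x) ∨ n < x.card + w

noncomputable def zg {n : ℕ} (h : ℕ) (F : Finset (B n)) (lev : B n → ℕ) (w a : ℕ) : ℝ :=
  ∑ j ∈ range h, ∑ s ∈ range (n + 1), av fun π : Pm n =>
    ind (a < s ∧ ch π s ∈ F ∧ upS F lev w j (ch π (s - a)) ∧ ¬ upS F lev w j (ch π (s - a - 1)))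

/-- The block of a chain that starts at level `k`. -/
def blk {n : ℕ} (π : Pm n) (k : ℕ) {l : ℕ} (A : B l) : B n := img π (place n k A)

def blkH {n : ℕ} (F : Finset (B n)) (l m : ℕ) (π : Pm n) (k : ℕ) : Finset (B l) :=
  univ.filter fun A => blk π k A ∈ F ∧ A.card ∈ zone l m

noncomputable def blkVal {n : ℕ} (h l m T R : ℕ) (e : ℝ) (F : Finset (B n)) (lev : B n → ℕ)
    (w : ℕ) (π : Pm n) (k : ℕ) : ℝ :=
  val h m T R e (blkH F l m π k) (fun A => lev (blk π k A)) fun j A => upS F lev w j (blk π k A)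

noncomputable def alpha (S T N g : ℕ) (x : ℝ) : ℝ :=
  (1 - (T : ℝ) / g - N / x ^ 2) / (1 + (2 * x + 1) * g / S)

noncomputable def theta (l m S N : ℕ) : ℝ := S * (N : ℝ) ^ 2 * (1 - (m : ℝ) / l) ^ m

end Pool.Agent.Work.MP_84019e_co.Cube
end

-- merged part: Pool.Agent.Work.MP_84019e_co.Cube.Basic
section
set_option autoImplicit false

namespace Pool.Agent.Work.MP_84019e_co.Cube

open Finset

section Av

variable {Ω Ω' : Type} [Fintype Ω] [Fintype Ω']

lemma av_const [Nonempty Ω] (c : ℝ) : (av fun _ : Ω => c) = c := by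
  have : (Fintype.card Ω : ℝ) ≠ 0 := by exact_mod_cast Fintype.card_ne_zero
  simp only [av, sum_const, card_univ, nsmul_eq_mul]
  field_simp

lemma av_zero : (av fun _ : Ω => (0 : ℝ)) = 0 := by simp [av]

lemma av_add (f g : Ω → ℝ) : (av fun ω => f ω + g ω) = av f + av g := by
  simp only [av, sum_add_distrib, add_div]

lemma av_sub (f g : Ω → ℝ) : (av fun ω => f ω - g ω) = av f - av g := by
  simp only [av, sum_sub_distrib, sub_div]

lemma av_mul_left (c : ℝ) (f : Ω → ℝ) : (av fun ω => c * f ω) = c * av f := by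
  simp only [av, ← mul_sum, mul_div_assoc]

lemma av_mul_right (c : ℝ) (f : Ω → ℝ) : (av fun ω => f ω * c) = av f * c := by
  simp only [av, ← sum_mul, div_mul_eq_mul_div]

lemma av_div (c : ℝ) (f : Ω → ℝ) : (av fun ω => f ω / c) = av f / c := by
  simp only [div_eq_mul_inv, av_mul_right]

lemma av_sum {ι : Type} (s : Finset ι) (f : ι → Ω → ℝ) :
    (av fun ω => ∑ i ∈ s, f i ω) = ∑ i ∈ s, av (f i) := by
  simp only [av, ← sum_div]
  rw [sum_comm]

lemma av_mono {f g : Ω → ℝ} (h : ∀ ω, f ω ≤ g ω) : av f ≤ av g :=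
  div_le_div_of_nonneg_right (sum_le_sum fun ω _ => h ω) (Nat.cast_nonneg _)

lemma av_nonneg {f : Ω → ℝ} (h : ∀ ω, 0 ≤ f ω) : 0 ≤ av f :=
  div_nonneg (sum_nonneg fun ω _ => h ω) (Nat.cast_nonneg _)

lemma av_le [Nonempty Ω] {f : Ω → ℝ} {c : ℝ} (h : ∀ ω, f ω ≤ c) : av f ≤ c :=
  (av_mono h).trans (av_const c).le

lemma le_av [Nonempty Ω] {f : Ω → ℝ} {c : ℝ} (h : ∀ ω, c ≤ f ω) : c ≤ av f :=
  (av_const c).ge.trans (av_mono h)

lemma av_equiv (e : Ω ≃ Ω') (f : Ω' → ℝ) : (av fun ω => f (e ω)) = av f := by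
  simp only [av, Fintype.card_congr e, e.sum_comp f]

lemma av_comm (f : Ω → Ω' → ℝ) :
    (av fun ω => av fun ω' => f ω ω') = av fun ω' => av fun ω => f ω ω' := by
  simp only [av, ← sum_div]
  rw [sum_comm, div_div, div_div, mul_comm]

lemma av_prod (f : Ω × Ω' → ℝ) : av f = av fun ω => av fun ω' => f (ω, ω') := by
  simp only [av, ← sum_div, Fintype.sum_prod_type, Fintype.card_prod, Nat.cast_mul]
  rw [div_div, mul_comm]

lemma av_fin (N : ℕ) (f : ℕ → ℝ) :
    (av fun i : Fin N => f i) = (∑ i ∈ range N, f i) / N := by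
  simp only [av, Fintype.card_fin, Fin.sum_univ_eq_sum_range]

lemma exists_ge_av [Nonempty Ω] (f : Ω → ℝ) : ∃ ω, av f ≤ f ω := by
  obtain ⟨ω, -, h⟩ := exists_max_image univ f univ_nonempty
  exact ⟨ω, av_le fun ω' => h ω' (mem_univ _)⟩

end Av

lemma ind_pos {p : Prop} (h : p) : ind p = 1 := by simp [ind, h]

lemma ind_neg {p : Prop} (h : ¬ p) : ind p = 0 := by simp [ind, h]

lemma ind_nonneg (p : Prop) : 0 ≤ ind p := by
  by_cases h : p <;> simp [ind, h]

lemma ind_le_one (p : Prop) : ind p ≤ 1 := by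
  by_cases h : p <;> simp [ind, h]

lemma ind_and (p q : Prop) : ind (p ∧ q) = ind p * ind q := by
  by_cases h : p <;> by_cases h' : q <;> simp [ind, h, h']

lemma ind_not (p : Prop) : ind (¬ p) = 1 - ind p := by
  by_cases h : p <;> simp [ind, h]

lemma ind_mono {p q : Prop} (h : p → q) : ind p ≤ ind q := by
  by_cases hp : p
  · rw [ind_pos hp, ind_pos (h hp)]
  · rw [ind_neg hp]
    exact ind_nonneg q

lemma ind_congr {p q : Prop} (h : p ↔ q) : ind p = ind q := by rw [propext h]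

lemma ind_or_le (p q : Prop) : ind (p ∨ q) ≤ ind p + ind q := by
  by_cases h : p <;> by_cases h' : q <;> simp [ind, h, h']

lemma ind_eq_ite (p : Prop) [Decidable p] : ind p = if p then 1 else 0 := by
  by_cases h : p <;> simp [ind, h]

lemma sum_ind {ι : Type} (s : Finset ι) (p : ι → Prop) [DecidablePred p] :
    ∑ i ∈ s, ind (p i) = (s.filter p).card := by
  simp only [ind_eq_ite, sum_boole]

lemma ind_le_sum {ι : Type} (s : Finset ι) {p : Prop} (q : ι → Prop) (h : p → ∃ i ∈ s, q i) :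
    ind p ≤ ∑ i ∈ s, ind (q i) := by
  by_cases hp : p
  · obtain ⟨i, hi, hq⟩ := h hp
    rw [ind_pos hp, ← ind_pos hq]
    exact single_le_sum (f := fun i => ind (q i)) (fun j _ => ind_nonneg _) hi
  · rw [ind_neg hp]
    exact sum_nonneg fun j _ => ind_nonneg _

lemma sum_ind_le {ι : Type} (s : Finset ι) (q : ι → Prop) {p : Prop}
    (h1 : ∀ i ∈ s, q i → p) (h2 : ∀ i ∈ s, ∀ j ∈ s, q i → q j → i = j) :
    ∑ i ∈ s, ind (q i) ≤ ind p := by
  classical
  rw [sum_ind]
  by_cases hp : p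
  · rw [ind_pos hp]
    exact_mod_cast card_le_one.2 fun i hi j hj =>
      h2 i (mem_filter.1 hi).1 j (mem_filter.1 hj).1 (mem_filter.1 hi).2 (mem_filter.1 hj).2
  · rw [ind_neg hp, filter_eq_empty_iff.2 fun i hi hq => hp (h1 i hi hq)]
    simp

variable {n : ℕ}

lemma mem_init {t : ℕ} {i : Fin n} : i ∈ init n t ↔ i.val < t := by simp [init]

lemma card_init {t : ℕ} (h : t ≤ n) : (init n t).card = t := by
  rw [init, Fin.card_filter_val_lt]
  omega

lemma init_mono {s t : ℕ} (h : s ≤ t) : init n s ⊆ init n t := fun _ hi =>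
  mem_init.2 (lt_of_lt_of_le (mem_init.1 hi) h)

lemma init_zero : init n 0 = ∅ := by simp [init]

lemma mem_img {π : Pm n} {I : B n} {x : Fin n} : x ∈ img π I ↔ π.symm x ∈ I := by
  simp [img, mem_map_equiv]

lemma card_img (π : Pm n) (I : B n) : (img π I).card = I.card := card_map _

lemma img_subset {π : Pm n} {I J : B n} : img π I ⊆ img π J ↔ I ⊆ J := map_subset_map

lemma img_inj (π : Pm n) : Function.Injective (img π) := map_injective _

lemma img_ssubset {π : Pm n} {I J : B n} : img π I ⊂ img π J ↔ I ⊂ J := map_ssubset_map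

lemma img_mul (π σ : Pm n) (I : B n) : img (π * σ) I = img π (img σ I) := by
  ext x
  simp [mem_img, Equiv.Perm.mul_def]

lemma img_empty (π : Pm n) : img π ∅ = ∅ := map_empty _

lemma card_ch (π : Pm n) {t : ℕ} (h : t ≤ n) : (ch π t).card = t := by
  rw [ch, card_img, card_init h]

lemma ch_mono (π : Pm n) {s t : ℕ} (h : s ≤ t) : ch π s ⊆ ch π t := img_subset.2 (init_mono h)

lemma ch_zero (π : Pm n) : ch π 0 = ∅ := by rw [ch, init_zero, img_empty]

/-- Right multiplication by a fixed permutation keeps the mean. -/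
lemma av_mul_perm (σ : Pm n) (f : Pm n → ℝ) : (av fun π => f (π * σ)) = av f :=
  av_equiv (Equiv.mulRight σ) f

/-- Two colourings with equal class sizes differ by a permutation. -/
lemma exists_perm_color {α : Type} [DecidableEq α] (c c' : Fin n → α)
    (h : ∀ a, (univ.filter fun i => c i = a).card = (univ.filter fun i => c' i = a).card) :
    ∃ σ : Pm n, ∀ i, c' (σ i) = c i := by
  have h2 : ∀ a, Fintype.card {i // c i = a} = Fintype.card {i // c' i = a} := fun a => by
    rw [Fintype.card_subtype, Fintype.card_subtype, h a]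
  exact ⟨Equiv.ofFiberEquiv fun a => Fintype.equivOfCardEq (h2 a),
    fun i => Equiv.ofFiberEquiv_map _ i⟩

lemma img_eq_of {σ : Pm n} {I I' : B n} (h : ∀ i, σ i ∈ I' ↔ i ∈ I) : img σ I = I' := by
  ext x
  rw [mem_img, ← h, Equiv.apply_symm_apply]

lemma exists_perm_two {I J I' J' : B n} (hI : I.card = I'.card) (hJ : J.card = J'.card)
    (hIJ : (I ∩ J).card = (I' ∩ J').card) : ∃ σ : Pm n, img σ I = I' ∧ img σ J = J' := by
  have key : ∀ (K L : B n) (a : Bool × Bool),
      ((univ.filter fun i => (decide (i ∈ K), decide (i ∈ L)) = a).card : ℤ) =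
        if a.1 then (if a.2 then ((K ∩ L).card : ℤ) else K.card - (K ∩ L).card)
        else if a.2 then (L.card : ℤ) - (K ∩ L).card
        else n - K.card - L.card + (K ∩ L).card := by
    intro K L a
    have e1 := card_sdiff_add_card_inter K L
    have e2 := card_sdiff_add_card_inter L K
    have e3 := card_union_add_card_inter K L
    have e4 := card_compl_add_card (K ∪ L)
    rw [inter_comm] at e2
    rw [Fintype.card_fin] at e4
    obtain ⟨a1, a2⟩ := a
    cases a1 <;> cases a2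
    · have : (univ.filter fun i => (decide (i ∈ K), decide (i ∈ L)) = (false, false)) =
          (K ∪ L)ᶜ := by
        ext i
        simp
      rw [this]
      simp only [Bool.false_eq_true, if_false]
      omega
    · have : (univ.filter fun i => (decide (i ∈ K), decide (i ∈ L)) = (false, true)) = L \ K := by
        ext i
        simp [and_comm]
      rw [this]
      simp only [Bool.false_eq_true, if_false, if_true]
      omega
    · have : (univ.filter fun i => (decide (i ∈ K), decide (i ∈ L)) = (true, false)) = K \ L := by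
        ext i
        simp
      rw [this]
      simp only [Bool.false_eq_true, if_false, if_true]
      omega
    · have : (univ.filter fun i => (decide (i ∈ K), decide (i ∈ L)) = (true, true)) = K ∩ L := by
        ext i
        simp
      rw [this]
      simp only [if_true]
  obtain ⟨σ, hσ⟩ := exists_perm_color (fun i => (decide (i ∈ I), decide (i ∈ J)))
    (fun i => (decide (i ∈ I'), decide (i ∈ J'))) fun a => by
      have h1 := key I J a
      have h2 := key I' J' a
      rw [hI, hJ, hIJ, ← h2] at h1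
      exact_mod_cast h1
  refine ⟨σ, img_eq_of fun i => ?_, img_eq_of fun i => ?_⟩
  · simpa using congrArg Prod.fst (hσ i)
  · simpa using congrArg Prod.snd (hσ i)

lemma exists_perm_three {I J K I' J' K' : B n} (h1 : I ⊆ J) (h2 : J ⊆ K) (h1' : I' ⊆ J')
    (h2' : J' ⊆ K') (hI : I.card = I'.card) (hJ : J.card = J'.card) (hK : K.card = K'.card) :
    ∃ σ : Pm n, img σ I = I' ∧ img σ J = J' ∧ img σ K = K' := by
  have key : ∀ (A C D : B n), A ⊆ C → C ⊆ D → ∀ a : Fin 4,
      ((univ.filter fun i =>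
        (if i ∈ A then 0 else if i ∈ C then 1 else if i ∈ D then 2 else 3 : Fin 4) = a).card : ℤ) =
        ![(A.card : ℤ), C.card - A.card, D.card - C.card, n - D.card] a := by
    intro A C D hAC hCD a
    have e1 := card_sdiff_add_card_eq_card hAC
    have e2 := card_sdiff_add_card_eq_card hCD
    have e4 := card_compl_add_card D
    rw [Fintype.card_fin] at e4
    have t : ∀ i, (i ∈ A → i ∈ C) ∧ (i ∈ C → i ∈ D) := fun i => ⟨fun h => hAC h, fun h => hCD h⟩
    have f0 : (univ.filter fun i =>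
        (if i ∈ A then 0 else if i ∈ C then 1 else if i ∈ D then 2 else 3 : Fin 4) = 0) = A := by
      ext i
      have := t i
      by_cases x : i ∈ A <;> by_cases y : i ∈ C <;> by_cases z : i ∈ D <;> simp_all
    have f1 : (univ.filter fun i =>
        (if i ∈ A then 0 else if i ∈ C then 1 else if i ∈ D then 2 else 3 : Fin 4) = 1) =
        C \ A := by
      ext i
      have := t i
      by_cases x : i ∈ A <;> by_cases y : i ∈ C <;> by_cases z : i ∈ D <;> simp_all
    have f2 : (univ.filter fun i =>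
        (if i ∈ A then 0 else if i ∈ C then 1 else if i ∈ D then 2 else 3 : Fin 4) = 2) =
        D \ C := by
      ext i
      have := t i
      by_cases x : i ∈ A <;> by_cases y : i ∈ C <;> by_cases z : i ∈ D <;> simp_all
    have f3 : (univ.filter fun i =>
        (if i ∈ A then 0 else if i ∈ C then 1 else if i ∈ D then 2 else 3 : Fin 4) = 3) = Dᶜ := by
      ext i
      have := t i
      by_cases x : i ∈ A <;> by_cases y : i ∈ C <;> by_cases z : i ∈ D <;> simp_all
    have ha : a = 0 ∨ a = 1 ∨ a = 2 ∨ a = 3 := by omega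
    rcases ha with rfl | rfl | rfl | rfl
    · rw [f0]
      rfl
    · rw [f1]
      show _ = (C.card : ℤ) - A.card
      omega
    · rw [f2]
      show _ = (D.card : ℤ) - C.card
      omega
    · rw [f3]
      show _ = (n : ℤ) - D.card
      omega
  obtain ⟨σ, hσ⟩ := exists_perm_color
    (fun i => (if i ∈ I then 0 else if i ∈ J then 1 else if i ∈ K then 2 else 3 : Fin 4))
    (fun i => (if i ∈ I' then 0 else if i ∈ J' then 1 else if i ∈ K' then 2 else 3 : Fin 4))
    fun a => by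
      have e1 := key I J K h1 h2 a
      have e2 := key I' J' K' h1' h2' a
      rw [hI, hJ, hK, ← e2] at e1
      exact_mod_cast e1
  have key2 : ∀ i, (σ i ∈ I' ↔ i ∈ I) ∧ (σ i ∈ J' ↔ i ∈ J) ∧ (σ i ∈ K' ↔ i ∈ K) := by
    intro i
    have aux : ∀ a b c a' b' c' : Bool, (a → b) → (b → c) → (a' → b') → (b' → c') →
        (if a' then 0 else if b' then 1 else if c' then 2 else 3 : Fin 4) =
          (if a then 0 else if b then 1 else if c then 2 else 3 : Fin 4) →
        a' = a ∧ b' = b ∧ c' = c := by decide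
    have e := aux (decide (i ∈ I)) (decide (i ∈ J)) (decide (i ∈ K)) (decide (σ i ∈ I'))
      (decide (σ i ∈ J')) (decide (σ i ∈ K')) (by simpa using fun h => h1 h)
      (by simpa using fun h => h2 h) (by simpa using fun h => h1' h)
      (by simpa using fun h => h2' h) (by simpa only [decide_eq_true_eq] using hσ i)
    simpa only [decide_eq_decide] using e
  exact ⟨σ, img_eq_of fun i => (key2 i).1, img_eq_of fun i => (key2 i).2.1,
    img_eq_of fun i => (key2 i).2.2⟩

lemma sym_two {I J I' J' : B n} (hI : I.card = I'.card) (hJ : J.card = J'.card)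
    (hIJ : (I ∩ J).card = (I' ∩ J').card) (f : B n → B n → ℝ) :
    (av fun π : Pm n => f (img π I) (img π J)) = av fun π : Pm n => f (img π I') (img π J') := by
  obtain ⟨σ, h1, h2⟩ := exists_perm_two hI hJ hIJ
  rw [← av_mul_perm σ]
  simp only [img_mul, h1, h2]

lemma sym_one {I I' : B n} (hI : I.card = I'.card) (f : B n → ℝ) :
    (av fun π : Pm n => f (img π I)) = av fun π : Pm n => f (img π I') :=
  sym_two hI hI (by simpa using hI) fun x _ => f x

lemma sym_three {I J K I' J' K' : B n} (h1 : I ⊆ J) (h2 : J ⊆ K) (h1' : I' ⊆ J')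
    (h2' : J' ⊆ K') (hI : I.card = I'.card) (hJ : J.card = J'.card) (hK : K.card = K'.card)
    (f : B n → B n → B n → ℝ) :
    (av fun π : Pm n => f (img π I) (img π J) (img π K)) =
      av fun π : Pm n => f (img π I') (img π J') (img π K') := by
  obtain ⟨σ, a1, a2, a3⟩ := exists_perm_three h1 h2 h1' h2' hI hJ hK
  rw [← av_mul_perm σ]
  simp only [img_mul, a1, a2, a3]

lemma av_img (U : B n → Prop) (I : B n) :
    (av fun π : Pm n => ind (U (img π I))) = pd U I.card :=
  sym_one (card_init (by simpa using card_le_univ I)).symm fun x => ind (U x)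

lemma pd_nonneg (U : B n → Prop) (t : ℕ) : 0 ≤ pd U t := av_nonneg fun _ => ind_nonneg _

lemma pd_le_one (U : B n → Prop) (t : ℕ) : pd U t ≤ 1 := av_le fun _ => ind_le_one _

lemma pd_mono {U : B n → Prop} (hU : IsUp U) {s t : ℕ} (h : s ≤ t) : pd U s ≤ pd U t :=
  av_mono fun π => ind_mono (hU _ _ (ch_mono π h))

lemma Lub_nonneg (F : Finset (B n)) : 0 ≤ Lub F := sum_nonneg fun _ _ => pd_nonneg _ _

lemma mem_place {k l : ℕ} {A : B l} {i : Fin n} :
    i ∈ place n k A ↔ i.val < k ∨ ∃ a ∈ A, i.val = k + a.val := by simp [place]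

lemma place_mono (k : ℕ) {l : ℕ} {A A' : B l} (h : A ⊆ A') : place n k A ⊆ place n k A' :=
  fun _ hi => mem_place.2 ((mem_place.1 hi).imp_right fun ⟨a, ha, hia⟩ => ⟨a, h ha, hia⟩)

lemma init_subset_place (k : ℕ) {l : ℕ} (A : B l) : init n k ⊆ place n k A :=
  fun _ hi => mem_place.2 (Or.inl (mem_init.1 hi))

lemma place_subset_init (k : ℕ) {l : ℕ} (A : B l) : place n k A ⊆ init n (k + l) := by
  intro i hi
  rw [mem_init]
  rcases mem_place.1 hi with h | ⟨a, -, h⟩
  · omega
  · have := a.2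
    omega

lemma place_empty (k l : ℕ) : place n k (∅ : B l) = init n k := by simp [place, init]

lemma place_subset_iff {k l : ℕ} (h : k + l ≤ n) {A A' : B l} :
    place n k A ⊆ place n k A' ↔ A ⊆ A' := by
  refine ⟨fun hs a ha => ?_, place_mono k⟩
  have h1 : (⟨k + a.val, by have := a.2; omega⟩ : Fin n) ∈ place n k A :=
    mem_place.2 (Or.inr ⟨a, ha, rfl⟩)
  rcases mem_place.1 (hs h1) with h2 | ⟨a', ha', h2⟩
  · simp at h2
  · have : a = a' := Fin.ext (by simpa using h2)
    rwa [this]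

lemma place_inj {k l : ℕ} (h : k + l ≤ n) : Function.Injective (place n k : B l → B n) :=
  fun _ _ hA => Subset.antisymm ((place_subset_iff h).1 hA.le) ((place_subset_iff h).1 hA.ge)

lemma place_inter (k : ℕ) {l : ℕ} (A A' : B l) :
    place n k A ∩ place n k A' = place n k (A ∩ A') := by
  ext i
  simp only [mem_inter, mem_place]
  constructor
  · rintro ⟨h1 | ⟨a, ha, h1⟩, h2 | ⟨a', ha', h2⟩⟩
    · exact Or.inl h1
    · exact Or.inl h1
    · exact Or.inl h2
    · have : a = a' := Fin.ext (by omega)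
      subst this
      exact Or.inr ⟨a, ⟨ha, ha'⟩, h1⟩
  · rintro (h1 | ⟨a, ⟨ha, ha'⟩, h1⟩)
    · exact ⟨Or.inl h1, Or.inl h1⟩
    · exact ⟨Or.inr ⟨a, ha, h1⟩, Or.inr ⟨a, ha', h1⟩⟩

lemma card_place {k l : ℕ} (h : k + l ≤ n) (A : B l) : (place n k A).card = k + A.card := by
  let f : Fin l ↪ Fin n := ⟨fun a => ⟨k + a.val, by have := a.2; omega⟩, fun a b hab =>
    Fin.ext (by simpa using hab)⟩
  have e : place n k A = init n k ∪ A.map f := by
    ext i
    simp only [mem_place, mem_union, mem_init, mem_map]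
    refine or_congr_right ⟨fun ⟨a, ha, hi⟩ => ⟨a, ha, Fin.ext hi.symm⟩,
      fun ⟨a, ha, hi⟩ => ⟨a, ha, by rw [← hi]; rfl⟩⟩
  rw [e, card_union_of_disjoint, card_init (by omega), card_map]
  rw [disjoint_left]
  intro i hi hi'
  obtain ⟨a, -, rfl⟩ := mem_map.1 hi'
  have : k + a.val < k := mem_init.1 hi
  omega

/-- A chain meets `F` in at most `h` points. -/
lemma chain_le {h : ℕ} {F : Finset (B n)} {lev : B n → ℕ} (hl : Lev h F lev) (π : Pm n) :
    ∑ t ∈ range (n + 1), ind (ch π t ∈ F) ≤ h := by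
  rw [sum_ind]
  have : ((range (n + 1)).filter fun t => ch π t ∈ F).card ≤ (range h).card := by
    have lt : ∀ s t, s < t → t ≤ n → ch π s < ch π t := fun s t hst ht =>
      lt_of_le_of_ne (ch_mono π hst.le) fun e => by
        have := congrArg card e
        rw [card_ch π (by omega), card_ch π ht] at this
        omega
    refine card_le_card_of_injOn (fun t => lev (ch π t))
      (fun t ht => mem_coe.2 (mem_range.2 (hl.1 _ (mem_filter.1 (mem_coe.1 ht)).2))) ?_
    intro s hs t ht hst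
    have hs' := mem_filter.1 (mem_coe.1 hs)
    have ht' := mem_filter.1 (mem_coe.1 ht)
    have a1 := mem_range.1 hs'.1
    have a2 := mem_range.1 ht'.1
    have hst' : lev (ch π s) = lev (ch π t) := hst
    rcases lt_trichotomy s t with c | c | c
    · have := hl.2 _ hs'.2 _ ht'.2 (lt s t c (by omega))
      omega
    · exact c
    · have := hl.2 _ ht'.2 _ hs'.2 (lt t s c (by omega))
      omega
  rw [card_range] at this
  exact_mod_cast this

lemma Lub_le {h : ℕ} {F : Finset (B n)} {lev : B n → ℕ} (hl : Lev h F lev) : Lub F ≤ h := by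
  rw [Lub]
  simp only [pd]
  rw [← av_sum]
  exact av_le (chain_le hl)

lemma pd_eq (F : Finset (B n)) {t : ℕ} (ht : t ≤ n) :
    pd (· ∈ F) t = ((F.filter fun A => A.card = t).card : ℝ) / n.choose t := by
  have hc : (0 : ℝ) < n.choose t := by exact_mod_cast Nat.choose_pos ht
  have one : ∀ A : B n, A.card = t → ∀ A' : B n, A'.card = t →
      pd (· = A) t = pd (· = A') t := by
    intro A hA A' hA'
    obtain ⟨σ, hσ, -⟩ := exists_perm_two (I := A) (J := A) (I' := A') (J' := A')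
      (hA.trans hA'.symm) (hA.trans hA'.symm) (by simpa using hA.trans hA'.symm)
    rw [pd, pd, ← av_equiv (Equiv.mulLeft σ) fun π : Pm n => ind (ch π t = A')]
    refine congrArg av (funext fun π => ind_congr ?_)
    show _ ↔ img (σ * π) _ = A'
    rw [img_mul, ← hσ]
    exact ((img_inj σ).eq_iff).symm
  have split : ∀ E : Finset (B n),
      pd (· ∈ E) t = ∑ A ∈ E.filter fun A => A.card = t, pd (· = A) t := by
    intro E
    simp only [pd]
    rw [← av_sum]
    refine congrArg av (funext fun π => ?_)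
    rw [sum_ind]
    by_cases hE : ch π t ∈ E
    · rw [ind_pos hE]
      have : (E.filter fun A => A.card = t).filter (fun A => ch π t = A) = {ch π t} := by
        ext A
        simp only [mem_filter, mem_singleton]
        exact ⟨fun h => h.2.symm, fun h => by subst h; exact ⟨⟨hE, card_ch π ht⟩, rfl⟩⟩
      rw [this]
      simp
    · rw [ind_neg hE, filter_eq_empty_iff.2]
      · simp
      · intro A hA e
        exact hE (e ▸ (mem_filter.1 hA).1)
  have val : ∀ E : Finset (B n), pd (· ∈ E) t =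
      (E.filter fun A => A.card = t).card * pd (· = init n t) t := by
    intro E
    rw [split E, sum_congr rfl fun A hA => one A (mem_filter.1 hA).2 _ (card_init ht)]
    simp
  have hu := val univ
  have h1 : pd (· ∈ (univ : Finset (B n))) t = 1 := by
    simp only [pd, mem_univ, ind_pos trivial]
    exact av_const 1
  have h2 : ((univ : Finset (B n)).filter fun A => A.card = t).card = n.choose t := by
    rw [← powerset_univ, ← powersetCard_eq_filter, card_powersetCard, card_univ, Fintype.card_fin]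
  rw [h1, h2] at hu
  rw [val F, eq_div_iff hc.ne', mul_assoc, mul_comm (pd _ _), ← hu, mul_one]

lemma Lub_eq (F : Finset (B n)) : Lub F = ∑ A ∈ F, 1 / (n.choose A.card : ℝ) := by
  rw [Lub, ← sum_fiberwise_of_maps_to (s := F) (t := range (n + 1)) (g := fun A => A.card)
    fun A _ => mem_range.2 (Nat.lt_succ_of_le (by simpa using card_le_univ A))]
  refine sum_congr rfl fun t ht => ?_
  rw [pd_eq F (Nat.le_of_lt_succ (mem_range.1 ht)),
    sum_congr rfl fun A hA => by rw [(mem_filter.1 hA).2]]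
  simp [div_eq_mul_inv]

lemma Emb.free {P X Q : Type} [PartialOrder P] [PartialOrder X] [PartialOrder Q] {H : Finset Q}
    {G : Finset X} (h : Emb H G) (hH : WeakFree P H) : WeakFree P G := by
  obtain ⟨ψ, h1, h2, h3⟩ := h
  exact hH.of_map ψ h1 h2 h3

lemma Emb.empty {X Q : Type} [PartialOrder X] [PartialOrder Q] [Nonempty Q] (H : Finset Q) :
    Emb H (∅ : Finset X) :=
  ⟨fun _ => Classical.arbitrary Q, by simp, by simp, by simp⟩

lemma Emb.map {X Q Q' : Type} [PartialOrder X] [PartialOrder Q] [PartialOrder Q'] [DecidableEq Q']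
    {H : Finset Q} {G : Finset X} (h : Emb H G) (φ : Q → Q') (hi : Function.Injective φ)
    (hm : Monotone φ) : Emb (H.image φ) G := by
  obtain ⟨ψ, h1, h2, h3⟩ := h
  exact ⟨fun x => φ (ψ x), fun x hx => mem_image_of_mem _ (h1 x hx),
    fun x hx y hy hxy => h2 hx hy (hi hxy), fun x hx y hy hxy => hm (h3 x hx y hy hxy)⟩

lemma Emb.mono {X Q : Type} [PartialOrder X] [PartialOrder Q] {H H' : Finset Q} {G : Finset X}
    (h : Emb H G) (hs : H ⊆ H') : Emb H' G := by
  obtain ⟨ψ, h1, h2, h3⟩ := h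
  exact ⟨ψ, fun x hx => hs (h1 x hx), h2, h3⟩

lemma mem_lay {m s S : ℕ} {A : B m} : A ∈ lay m s S ↔ s ≤ A.card ∧ A.card < s + S := by
  simp [lay]

lemma card_lay (m s S : ℕ) : (lay m s S).card = ∑ t ∈ Ico s (s + S), m.choose t := by
  rw [card_eq_sum_card_fiberwise (f := fun A : B m => A.card) (t := Ico s (s + S))
    fun A hA => mem_coe.2 (mem_Ico.2 (mem_lay.1 (mem_coe.1 hA)))]
  refine sum_congr rfl fun t ht => ?_
  have : (lay m s S).filter (fun A => A.card = t) = powersetCard t univ := by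
    ext A
    simp only [mem_filter, mem_lay, mem_powersetCard, subset_univ, true_and]
    exact ⟨fun h => h.2, fun h => ⟨by rw [h]; exact mem_Ico.1 ht, h⟩⟩
  rw [this, card_powersetCard, card_univ, Fintype.card_fin]

/-- Families in increasing size windows whose images lie one above the other. -/
lemma emb_union {ι Q : Type} [LinearOrder ι] [PartialOrder Q] [Nonempty Q] {m s S : ℕ}
    (I : Finset ι) (F : Finset Q) (H : ι → Finset Q) (G : ι → Finset (B m))
    (hH : ∀ a ∈ I, H a ⊆ F)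
    (hlt : ∀ a ∈ I, ∀ b ∈ I, a < b → ∀ x ∈ H a, ∀ y ∈ H b, x < y)
    (hG : ∀ a ∈ I, G a ⊆ lay m (s + (I.filter (· < a)).card * S) S ∧ Emb (H a) (G a)) :
    I.biUnion G ⊆ lay m s (I.card * S) ∧ Emb F (I.biUnion G) ∧
      (I.biUnion G).card = ∑ a ∈ I, (G a).card := by
  classical
  have rk : ∀ a ∈ I, ∀ b, a < b →
      (I.filter (· < a)).card + 1 ≤ (I.filter (· < b)).card := by
    intro a ha b hab
    refine card_lt_card ⟨fun x hx => ?_, fun hs => ?_⟩
    · exact mem_filter.2 ⟨(mem_filter.1 hx).1, (mem_filter.1 hx).2.trans hab⟩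
    · exact lt_irrefl a (mem_filter.1 (hs (mem_filter.2 ⟨ha, hab⟩))).2
  have rk2 : ∀ a ∈ I, (I.filter (· < a)).card + 1 ≤ I.card := by
    intro a ha
    refine card_lt_card ⟨filter_subset _ _, fun hs => ?_⟩
    exact lt_irrefl a (mem_filter.1 (hs ha)).2
  have sz : ∀ a ∈ I, ∀ b ∈ I, a < b → ∀ A ∈ G a, ∀ A' ∈ G b, A.card < A'.card := by
    intro a ha b hb hab A hA A' hA'
    have h1 := (mem_lay.1 ((hG a ha).1 hA)).2
    have h2 := (mem_lay.1 ((hG b hb).1 hA')).1
    have h3 := Nat.mul_le_mul_right S (rk a ha b hab)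
    rw [Nat.add_mul, Nat.one_mul] at h3
    omega
  have uniq : ∀ a ∈ I, ∀ b ∈ I, ∀ A ∈ G a, A ∈ G b → a = b := by
    intro a ha b hb A hA hA'
    rcases lt_trichotomy a b with c | c | c
    · exact absurd (sz a ha b hb c A hA A hA') (lt_irrefl _)
    · exact c
    · exact absurd (sz b hb a ha c A hA' A hA) (lt_irrefl _)
  refine ⟨fun A hA => ?_, ?_, card_biUnion fun a ha b hb hab => ?_⟩
  · obtain ⟨a, ha, hA⟩ := mem_biUnion.1 hA
    have h1 := mem_lay.1 ((hG a ha).1 hA)
    have h3 := Nat.mul_le_mul_right S (rk2 a ha)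
    rw [Nat.add_mul, Nat.one_mul] at h3
    exact mem_lay.2 ⟨by omega, by omega⟩
  · choose! ψ h1 h2 h3 using fun a ha => (hG a ha).2
    let Ψ : B m → Q := fun A =>
      if h : ∃ a ∈ I, A ∈ G a then ψ h.choose A else Classical.arbitrary Q
    have hΨ : ∀ a ∈ I, ∀ A ∈ G a, Ψ A = ψ a A := by
      intro a ha A hA
      have h : ∃ a ∈ I, A ∈ G a := ⟨a, ha, hA⟩
      simp only [Ψ, dif_pos h]
      rw [uniq _ h.choose_spec.1 a ha A h.choose_spec.2 hA]
    refine ⟨Ψ, fun A hA => ?_, fun A hA A' hA' e => ?_, fun A hA A' hA' e => ?_⟩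
    · obtain ⟨a, ha, hA⟩ := mem_biUnion.1 hA
      rw [hΨ a ha A hA]
      exact hH a ha (h1 a ha A hA)
    · obtain ⟨a, ha, hA⟩ := mem_biUnion.1 (mem_coe.1 hA)
      obtain ⟨b, hb, hA'⟩ := mem_biUnion.1 (mem_coe.1 hA')
      rw [hΨ a ha A hA, hΨ b hb A' hA'] at e
      rcases lt_trichotomy a b with c | c | c
      · exact absurd e (hlt a ha b hb c _ (h1 a ha A hA) _ (h1 b hb A' hA')).ne
      · subst c
        exact h2 a ha hA hA' e
      · exact absurd e (hlt b hb a ha c _ (h1 b hb A' hA') _ (h1 a ha A hA)).ne'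
    · obtain ⟨a, ha, hA⟩ := mem_biUnion.1 hA
      obtain ⟨b, hb, hA'⟩ := mem_biUnion.1 hA'
      rw [hΨ a ha A hA, hΨ b hb A' hA']
      rcases lt_trichotomy a b with c | c | c
      · exact (hlt a ha b hb c _ (h1 a ha A hA) _ (h1 b hb A' hA')).le
      · subst c
        exact h3 a ha A hA A' hA' e
      · exact absurd (sz b hb a ha c A' hA' A hA) (not_lt.2 (card_le_card e))
  · exact disjoint_left.2 fun A hA hA' => hab (uniq a ha b hb A hA hA')

end Pool.Agent.Work.MP_84019e_co.Cube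
end

-- merged part: Pool.Agent.Work.MP_84019e_co.Cube.Poin
section
set_option autoImplicit false

namespace Pool.Agent.Work.MP_84019e_co.Cube

open Finset

lemma poin_av_bool (g : Bool → ℝ) : av g = (g false + g true) / 2 := by
  simp only [av, Fintype.sum_bool, Fintype.card_bool, Nat.cast_ofNat]
  ring

lemma poin_av_cons {r : ℕ} (F : (Fin (r + 1) → Bool) → ℝ) :
    av F = ((av fun ε : Fin r → Bool => F (Fin.cons false ε)) +
      av fun ε : Fin r → Bool => F (Fin.cons true ε)) / 2 := by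
  rw [← av_equiv (Fin.consEquiv fun _ : Fin (r + 1) => Bool) F, av_prod, poin_av_bool]
  rfl

lemma poin_av_sq {Ω : Type} [Fintype Ω] [Nonempty Ω] (g : Ω → ℝ) (c : ℝ) :
    (av fun ω => (g ω - c) ^ 2) = (av fun ω => g ω ^ 2) - 2 * c * av g + c ^ 2 := by
  have h : (fun ω => (g ω - c) ^ 2) = fun ω => (g ω ^ 2 - (2 * c) * g ω) + c ^ 2 := by
    funext ω
    ring
  rw [h, av_add, av_sub, av_mul_left, av_const]

lemma poin_jensen {Ω : Type} [Fintype Ω] [Nonempty Ω] (g : Ω → ℝ) :
    av g ^ 2 ≤ av fun ω => g ω ^ 2 := by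
  have h1 : 0 ≤ av fun ω => (g ω - av g) ^ 2 := av_nonneg fun _ => sq_nonneg _
  rw [poin_av_sq] at h1
  nlinarith

lemma poin_var (r : ℕ) : ∀ f : (Fin r → Bool) → ℝ,
    4 * ((av fun ε => f ε ^ 2) - av f ^ 2) ≤
      ∑ i, av fun ε : Fin r → Bool => (f ε - f (Function.update ε i (!ε i))) ^ 2 := by
  induction r with
  | zero =>
    intro f
    have h : f = fun _ => f default := funext fun ε => congrArg f (Subsingleton.elim _ _)
    rw [h, av_const, av_const]
    simp
  | succ r ih =>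
    intro f
    have h0 := ih fun ε => f (Fin.cons false ε)
    have h1 := ih fun ε => f (Fin.cons true ε)
    have hj := poin_jensen fun ε : Fin r → Bool => f (Fin.cons false ε) - f (Fin.cons true ε)
    rw [av_sub] at hj
    have hz : (av fun ε : Fin (r + 1) → Bool => (f ε - f (Function.update ε 0 (!ε 0))) ^ 2) =
        av fun ε : Fin r → Bool => (f (Fin.cons false ε) - f (Fin.cons true ε)) ^ 2 := by
      rw [poin_av_cons]
      simp only [Fin.cons_zero, Fin.update_cons_zero, Bool.not_false, Bool.not_true]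
      have h : (fun ε : Fin r → Bool => (f (Fin.cons true ε) - f (Fin.cons false ε)) ^ 2) =
          fun ε : Fin r → Bool => (f (Fin.cons false ε) - f (Fin.cons true ε)) ^ 2 := by
        funext ε
        ring
      rw [h]
      ring
    have hs : ∀ i : Fin r,
        (av fun ε : Fin (r + 1) → Bool => (f ε - f (Function.update ε i.succ (!ε i.succ))) ^ 2) =
        ((av fun ε : Fin r → Bool =>
            (f (Fin.cons false ε) - f (Fin.cons false (Function.update ε i (!ε i)))) ^ 2) +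
          av fun ε : Fin r → Bool =>
            (f (Fin.cons true ε) - f (Fin.cons true (Function.update ε i (!ε i)))) ^ 2) / 2 := by
      intro i
      rw [poin_av_cons]
      simp only [Fin.cons_succ, Fin.cons_update]
    rw [Fin.sum_univ_succ, hz, sum_congr rfl fun i _ => hs i, ← sum_div, sum_add_distrib,
      poin_av_cons f, poin_av_cons fun ε => f ε ^ 2]
    nlinarith

/-- The Poincare inequality on the discrete cube, for a point and its antipode. -/
theorem poincare (r : ℕ) (f : (Fin r → Bool) → ℝ) :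
    (av fun ε : Fin r → Bool => (f ε - f fun i => !ε i) ^ 2) ≤
      ∑ i, av fun ε : Fin r → Bool => (f ε - f (Function.update ε i (!ε i))) ^ 2 := by
  refine le_trans ?_ (poin_var r f)
  have hinv : Function.Involutive fun (ε : Fin r → Bool) (i : Fin r) => !ε i := fun ε => by
    funext i
    simp
  have h1 : (av fun ε : Fin r → Bool => (f (fun i => !ε i) - av f) ^ 2) =
      av fun ε : Fin r → Bool => (f ε - av f) ^ 2 :=
    av_equiv hinv.toPerm fun ε => (f ε - av f) ^ 2
  have h2 : (av fun ε : Fin r → Bool => (f ε - f fun i => !ε i) ^ 2) ≤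
      av fun ε : Fin r → Bool => 2 * (f ε - av f) ^ 2 + 2 * (f (fun i => !ε i) - av f) ^ 2 :=
    av_mono fun ε => by
      nlinarith [sq_nonneg (f ε + f (fun i => !ε i) - 2 * av f)]
  rw [av_add, av_mul_left, av_mul_left, h1, poin_av_sq] at h2
  nlinarith

lemma min_sq_le (d M : ℕ) :
    ((min d M : ℕ) : ℝ) ^ 2 ≤ 2 * ∑ s ∈ range M, (((d - s : ℕ) : ℝ) - ((d - M : ℕ) : ℝ)) := by
  induction M with
  | zero => simp
  | succ M ih =>
    rw [sum_range_succ]
    rcases lt_or_ge M d with h | h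
    · have e1 : ((d - (M + 1) : ℕ) : ℝ) = ((d - M : ℕ) : ℝ) - 1 := by
        have : d - M = d - (M + 1) + 1 := by omega
        rw [this]
        push_cast
        ring
      have e2 : min d (M + 1) = M + 1 := by omega
      have e3 : min d M = M := by omega
      have e4 : ∑ s ∈ range M, (((d - s : ℕ) : ℝ) - (((d - M : ℕ) : ℝ) - 1)) =
          ∑ s ∈ range M, (((d - s : ℕ) : ℝ) - ((d - M : ℕ) : ℝ)) + M := by
        have : ∀ s ∈ range M, (((d - s : ℕ) : ℝ) - (((d - M : ℕ) : ℝ) - 1)) =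
            (((d - s : ℕ) : ℝ) - ((d - M : ℕ) : ℝ)) + 1 := fun s _ => by ring
        rw [sum_congr rfl this, sum_add_distrib]
        simp
      rw [e3] at ih
      rw [e1, e2, e4]
      push_cast
      nlinarith
    · have e1 : d - (M + 1) = d - M := by omega
      have e2 : min d (M + 1) = min d M := by omega
      rw [e1, e2]
      linarith

lemma Y_nonneg {n : ℕ} (U : B n → Prop) (s : ℕ) : 0 ≤ Y U s :=
  sum_nonneg fun _ _ => av_nonneg fun _ => ind_nonneg _

lemma Y_succ_le {n : ℕ} {U : B n → Prop} (hU : IsUp U) (s : ℕ) : Y U (s + 1) ≤ Y U s := by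
  unfold Y
  refine le_trans (sum_le_sum fun t _ => av_mono fun π => ind_mono ?_)
    (sum_le_sum_of_subset_of_nonneg (range_subset_range.2 (by omega))
      fun _ _ _ => av_nonneg fun _ => ind_nonneg _)
  refine fun h => ⟨h.1, fun h2 => h.2 (hU _ _ (img_subset.2 fun i hi => ?_) h2)⟩
  simp only [hole, mem_filter, mem_univ, true_and] at hi ⊢
  omega

lemma Y_zero_le {n : ℕ} {U : B n → Prop} (hU : IsUp U) : Y U 0 ≤ 1 := by
  unfold Y
  have h : ∀ t ∈ range (n - 0 - 1),
      (av fun π : Pm n => ind (U (ch π (t + 1)) ∧ ¬ U (img π (hole n t (t + 0 + 2))))) ≤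
        pd U (t + 1) - pd U t := by
    intro t _
    rw [pd, pd, ← av_sub]
    refine av_mono fun π => ?_
    by_cases h1 : U (ch π (t + 1)) ∧ ¬ U (img π (hole n t (t + 0 + 2)))
    · have h2 : ¬ U (ch π t) := fun h2 => h1.2 (hU _ _ (img_subset.2 fun i hi => by
        rw [mem_init] at hi
        simp only [hole, mem_filter, mem_univ, true_and]
        omega) h2)
      rw [ind_pos h1, ind_pos h1.1, ind_neg h2]
      norm_num
    · rw [ind_neg h1]
      exact sub_nonneg.2 (ind_mono (hU _ _ (ch_mono π (Nat.le_succ t))))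
  refine (sum_le_sum h).trans ?_
  rw [sum_range_sub (pd U)]
  linarith [pd_le_one U (n - 0 - 1), pd_nonneg U 0]

lemma Y_anti {n : ℕ} {U : B n → Prop} (hU : IsUp U) : Antitone (Y U) :=
  antitone_nat_of_succ_le (Y_succ_le hU)

lemma Y_sum_le {n : ℕ} {U : B n → Prop} (hU : IsUp U) {T M : ℕ} {τ : ℝ} (hτ : 0 ≤ τ)
    (hY : Y U T - Y U M ≤ τ) : ∑ s ∈ range M, (Y U s - Y U M) ≤ T + M * τ := by
  have h : ∀ s ∈ range M, Y U s - Y U M ≤ ind (s < T) + τ := by
    intro s _
    by_cases hs : s < T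
    · rw [ind_pos hs]
      linarith [Y_anti hU (Nat.zero_le s), Y_zero_le hU, Y_nonneg U M]
    · rw [ind_neg hs]
      linarith [Y_anti hU (not_lt.1 hs)]
  refine (sum_le_sum h).trans ?_
  rw [sum_add_distrib, sum_ind, sum_const, card_range, nsmul_eq_mul]
  have h2 : ((range M).filter fun s => s < T).card ≤ T := by
    refine (card_le_card (t := range T) fun s hs => ?_).trans (card_range T).le
    exact mem_range.2 (mem_filter.1 hs).2
  have h3 : (((range M).filter fun s => s < T).card : ℝ) ≤ T := by exact_mod_cast h2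
  linarith

end Pool.Agent.Work.MP_84019e_co.Cube
end

-- merged part: Pool.Agent.Work.MP_84019e_co.Cube.Order
section
set_option autoImplicit false

namespace Pool.Agent.Work.MP_84019e_co.Cube

open Finset

section Ord

variable {Ω : Type} [Fintype Ω] [Nonempty Ω] {N : ℕ}

lemma ord_res (i : Fin N) (f : (Fin N → Ω) → ℝ) :
    av f = av fun ω : Fin N → Ω => av fun t : Ω => f (Function.update ω i t) := by
  have hi : Function.Involutive fun z : (Fin N → Ω) × Ω => (Function.update z.1 i z.2, z.1 i) :=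
    fun z => by simp
  have h1 := av_equiv hi.toPerm fun z : (Fin N → Ω) × Ω => f z.1
  rw [av_prod, av_prod] at h1
  simp only [av_const, Function.Involutive.coe_toPerm] at h1
  exact h1.symm

lemma ord_one (i : Fin N) (g : Ω → ℝ) : (av fun ω : Fin N → Ω => g (ω i)) = av g := by
  rw [ord_res i]
  simp only [Function.update_self]
  exact av_const _

lemma ord_two {i j : Fin N} (h : i ≠ j) (g : Ω → Ω → ℝ) :
    (av fun ω : Fin N → Ω => g (ω i) (ω j)) = av fun s => av fun t => g s t := by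
  rw [ord_res j]
  simp only [Function.update_self, Function.update_of_ne h]
  exact ord_one i fun s => av fun t => g s t

lemma ord_indep (i : Fin N) (g : Ω → ℝ) (F : (Fin N → Ω) → ℝ)
    (hF : ∀ ω t, F (Function.update ω i t) = F ω) :
    (av fun ω : Fin N → Ω => g (ω i) * F ω) = av g * av F := by
  rw [ord_res i]
  simp only [Function.update_self, hF, av_mul_right]
  exact av_mul_left _ _

lemma ord_var (s : Finset (Fin N)) (y : Ω → ℝ) (h0 : av y = 0) (h1 : ∀ t, y t * y t ≤ 1) :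
    (av fun ω : Fin N → Ω => (∑ j ∈ s, y (ω j)) ^ 2) ≤ N := by
  have h2 : (s.card : ℝ) ≤ N := by
    have := card_le_univ s
    rw [Fintype.card_fin] at this
    exact_mod_cast this
  simp only [sq, sum_mul_sum]
  rw [av_sum]
  refine le_trans ((sum_le_card_nsmul _ _ 1 fun j hj => ?_).trans (by simp)) h2
  rw [av_sum, sum_eq_single_of_mem j hj fun k _ hk => ?_]
  · exact av_le fun ω => h1 _
  · rw [ord_two hk.symm fun s t => y s * y t]
    simp only [av_mul_left, h0, mul_zero]
    exact av_zero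

lemma ord_pigeon {α : Type} (s : Finset α) (r : α → ℕ) {lo hi : ℝ} (h0 : lo ≤ hi)
    (h : ∀ a ∈ s, lo ≤ r a ∧ (r a : ℝ) ≤ hi) :
    ∃ ρ, (s.card : ℝ) ≤ (s.filter fun a => r a = ρ).card * (hi - lo + 1) := by
  classical
  rcases s.eq_empty_or_nonempty with rfl | hs
  · exact ⟨0, by simp⟩
  obtain ⟨a0, ha0, h1⟩ := exists_min_image s r hs
  obtain ⟨a1, ha1, h2⟩ := exists_max_image s r hs
  obtain ⟨ρ, -, h3⟩ := exists_max_image (Icc (r a0) (r a1))
    (fun ρ => (s.filter fun a => r a = ρ).card) ⟨r a0, mem_Icc.2 ⟨le_rfl, h2 a0 ha0⟩⟩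
  refine ⟨ρ, ?_⟩
  have h4 : s.card ≤ (Icc (r a0) (r a1)).card * (s.filter fun a => r a = ρ).card := by
    rw [card_eq_sum_card_fiberwise (f := r) (t := Icc (r a0) (r a1)) fun a ha =>
      mem_coe.2 (mem_Icc.2 ⟨h1 a ha, h2 a ha⟩)]
    exact sum_le_card_nsmul _ _ _ h3
  have h5 : ((Icc (r a0) (r a1)).card : ℝ) ≤ hi - lo + 1 := by
    have e := h2 a0 ha0
    rw [Nat.card_Icc, Nat.cast_sub (by omega)]
    push_cast
    linarith [(h a0 ha0).1, (h a1 ha1).2]
  calc (s.card : ℝ) ≤ (Icc (r a0) (r a1)).card * (s.filter fun a => r a = ρ).card := by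
        exact_mod_cast h4
    _ ≤ _ := by
        rw [mul_comm]
        exact mul_le_mul_of_nonneg_left h5 (Nat.cast_nonneg _)

lemma ord_point {ι : Type} (s : Finset ι) {g : Prop} (e k : ι → Prop) {S x : ℝ} (hx : 0 < x) :
    ind g * (1 - ∑ j ∈ s, ind (e j) - S ^ 2 / x ^ 2) - ∑ j ∈ s, ind (k j) ≤
      ind (g ∧ (∀ j ∈ s, ¬ e j) ∧ (∀ j ∈ s, ¬ k j) ∧ |S| ≤ x) := by
  have a1 : 0 ≤ ∑ j ∈ s, ind (e j) := sum_nonneg fun j _ => ind_nonneg _
  have a2 : 0 ≤ ∑ j ∈ s, ind (k j) := sum_nonneg fun j _ => ind_nonneg _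
  have a3 : 0 ≤ S ^ 2 / x ^ 2 := by positivity
  have a4 := ind_nonneg (g ∧ (∀ j ∈ s, ¬ e j) ∧ (∀ j ∈ s, ¬ k j) ∧ |S| ≤ x)
  by_cases hg : g
  · rw [ind_pos hg]
    by_cases h1 : ∀ j ∈ s, ¬ e j
    · by_cases h2 : ∀ j ∈ s, ¬ k j
      · by_cases h3 : |S| ≤ x
        · rw [ind_pos ⟨hg, h1, h2, h3⟩]
          linarith
        · have : 1 ≤ S ^ 2 / x ^ 2 := by
            rw [le_div_iff₀ (by positivity), one_mul, ← sq_abs S]
            exact pow_le_pow_left₀ hx.le (not_le.1 h3).le 2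
          linarith
      · have := ind_le_sum s k (p := True) fun _ => by
          by_contra hc
          exact h2 fun j hj hk => hc ⟨j, hj, hk⟩
        rw [ind_pos trivial] at this
        linarith
    · have := ind_le_sum s e (p := True) fun _ => by
        by_contra hc
        exact h1 fun j hj hk => hc ⟨j, hj, hk⟩
      rw [ind_pos trivial] at this
      linarith
  · rw [ind_neg hg]
    linarith

end Ord

/-- Paper, section A0: the order statistic of independent placements. -/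
theorem order_stat {Ω X Q : Type} [Fintype Ω] [Nonempty Ω] [PartialOrder X] [PartialOrder Q]
    [Nonempty Q] (N : ℕ) (hN : 0 < N) (J : Finset X) (H : Finset Q)
    (Ψ : Ω → X → Q) (a b good : Ω → X → Prop) (K : Ω → Q → Prop)
    (hmono : ∀ ω, Monotone (Ψ ω)) (hinj : ∀ ω, Function.Injective (Ψ ω))
    (ha : ∀ ω x y, x ≤ y → a ω x → a ω y) (hb : ∀ ω x y, x ≤ y → b ω x → b ω y)
    (hba : ∀ ω x, b ω x → a ω x)
    (hgood : ∀ ω x, good ω x → a ω x ∧ ¬ b ω x ∧ Ψ ω x ∈ H)
    (hK : ∀ ω x, K ω (Ψ ω x))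
    {p q c u Δ x : ℝ} (hx : 0 < x) (hΔ : 0 ≤ Δ) (hq0 : 0 ≤ q) (hc0 : 0 ≤ c)
    (hp : ∀ A ∈ J, p ≤ av fun ω => ind (good ω A))
    (hq : ∀ A ∈ J, (av fun ω => ind (a ω A ∧ ¬ b ω A)) ≤ q)
    (hc : ∀ A ∈ J, (av fun ω => av fun ω' => ind (K ω' (Ψ ω A))) ≤ c)
    (hu : ∀ A ∈ J, u ≤ (av fun ω => ind (b ω A)) ∧ (av fun ω => ind (b ω A)) ≤ u + Δ)
    (hκ : 0 ≤ 1 - N * q - N / x ^ 2) :
    ∃ G ⊆ J, Emb H G ∧
      J.card * (N * (p * (1 - N * q - N / x ^ 2) - N * c)) ≤ G.card * (N * Δ + 2 * x + 1) := by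
  classical
  haveI : Nonempty (Fin N) := ⟨⟨0, hN⟩⟩
  obtain ⟨Gd, hGd⟩ : ∃ Gd : (Fin N → Ω) → X → Fin N → Prop, Gd = fun ω A i =>
      good (ω i) A ∧ (∀ j ∈ univ.erase i, ¬ (a (ω j) A ∧ ¬ b (ω j) A)) ∧
        (∀ j ∈ univ.erase i, ¬ K (ω j) (Ψ (ω i) A)) ∧
        |∑ j ∈ univ.erase i, (ind (b (ω j) A) - av fun t => ind (b t A))| ≤ x := ⟨_, rfl⟩
  have hcard : ∀ i : Fin N, ((univ.erase i).card : ℝ) = N - 1 := fun i => by
    rw [card_erase_of_mem (mem_univ i), card_univ, Fintype.card_fin, Nat.cast_sub hN, Nat.cast_one]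
  have h1 : ∀ A ∈ J, ∀ i, p * (1 - N * q - N / x ^ 2) - N * c ≤
      av fun ω : Fin N → Ω => ind (Gd ω A i) := fun A hA i => by
    rw [hGd]
    refine le_trans ?_ (av_mono fun ω => ord_point (univ.erase i) _ _ hx)
    have e1 : (av fun ω : Fin N → Ω => ∑ j ∈ univ.erase i, ind (K (ω j) (Ψ (ω i) A))) ≤ N * c := by
      rw [av_sum]
      refine (sum_le_card_nsmul _ _ c fun j hj => ?_).trans ?_
      · exact (ord_two (ne_of_mem_erase hj).symm fun s t => ind (K t (Ψ s A))).trans_le (hc A hA)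
      · rw [nsmul_eq_mul, hcard]
        linarith
    have e2 : (av fun ω : Fin N → Ω => ∑ j ∈ univ.erase i, ind (a (ω j) A ∧ ¬ b (ω j) A)) ≤
        N * q := by
      rw [av_sum]
      refine (sum_le_card_nsmul _ _ q fun j _ => ?_).trans ?_
      · exact (ord_one j fun t => ind (a t A ∧ ¬ b t A)).trans_le (hq A hA)
      · rw [nsmul_eq_mul, hcard]
        linarith
    have e3 := ord_var (univ.erase i) (fun t => ind (b t A) - av fun t => ind (b t A))
      (by rw [av_sub, av_const, sub_self]) fun t => by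
        have := ind_nonneg (b t A)
        have := ind_le_one (b t A)
        have : 0 ≤ av fun t => ind (b t A) := av_nonneg fun _ => ind_nonneg _
        have : (av fun t => ind (b t A)) ≤ 1 := av_le fun _ => ind_le_one _
        nlinarith
    have e4 := div_le_div_of_nonneg_right e3 (sq_nonneg x)
    have e5 : 0 ≤ av fun t => ind (good t A) := av_nonneg fun _ => ind_nonneg _
    rw [av_sub, ord_indep i (fun t => ind (good t A)) _ fun ω t => ?_, av_sub, av_sub, av_const,
      av_div]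
    · refine sub_le_sub ((mul_le_mul_of_nonneg_right (hp A hA) hκ).trans
        (mul_le_mul_of_nonneg_left ?_ e5)) e1
      linarith
    · have e : ∀ F : Ω → ℝ, ∑ j ∈ univ.erase i, F (Function.update ω i t j) =
          ∑ j ∈ univ.erase i, F (ω j) := fun F =>
        sum_congr rfl fun j hj => by rw [Function.update_of_ne (ne_of_mem_erase hj)]
      rw [e fun s => ind (a s A ∧ ¬ b s A), e fun s => ind (b s A) - av fun t => ind (b t A)]
  obtain ⟨ω, hω⟩ := exists_ge_av fun ω : Fin N → Ω => ∑ A ∈ J, ∑ i, ind (Gd ω A i)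
  have h2 : J.card * (N * (p * (1 - N * q - N / x ^ 2) - N * c)) ≤
      ∑ A ∈ J, ∑ i, ind (Gd ω A i) := by
    refine le_trans ?_ hω
    rw [av_sum, ← nsmul_eq_mul]
    refine card_nsmul_le_sum _ _ _ fun A hA => ?_
    rw [av_sum]
    have := card_nsmul_le_sum univ (fun i => av fun ω : Fin N → Ω => ind (Gd ω A i)) _
      fun i _ => h1 A hA i
    rwa [card_univ, Fintype.card_fin, nsmul_eq_mul] at this
  have h3 : ∀ A B i j, Gd ω A i → Gd ω B j → A ≤ B → (b (ω i) B → b (ω i) A) → i = j := by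
    intro A B i j hi hj hAB hbb
    rw [hGd] at hi hj
    by_contra hij
    obtain ⟨g1, g2, -⟩ := hgood _ _ hi.1
    exact hj.2.1 i (mem_erase.2 ⟨hij, mem_univ i⟩) ⟨ha _ _ _ hAB g1, fun h => g2 (hbb h)⟩
  have h4 : ∑ A ∈ J, ∑ i, ind (Gd ω A i) ≤ (J.filter fun A => ∃ i, Gd ω A i).card := by
    rw [← sum_ind]
    exact sum_le_sum fun A _ => sum_ind_le _ _ (fun i _ h => ⟨i, h⟩)
      fun i _ j _ hi hj => h3 A A i j hi hj le_rfl id
  have hN1 : (0 : ℝ) ≤ N - 1 := by
    have : (1 : ℝ) ≤ N := by exact_mod_cast hN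
    linarith
  obtain ⟨ρ, hρ⟩ := ord_pigeon (J.filter fun A => ∃ i, Gd ω A i)
    (fun A => (univ.filter fun j => b (ω j) A).card) (lo := (N - 1) * u - x)
    (hi := (N - 1) * (u + Δ) + x) (by nlinarith) fun A hA => by
      obtain ⟨hA, i, hi⟩ := mem_filter.1 hA
      rw [hGd] at hi
      have e := abs_le.1 hi.2.2.2
      rw [sum_sub_distrib, sum_const, nsmul_eq_mul, hcard] at e
      rw [← sum_ind, ← add_sum_erase _ _ (mem_univ i), ind_neg (hgood _ _ hi.1).2.1, zero_add]
      have e1 := mul_le_mul_of_nonneg_left (hu A hA).1 hN1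
      have e2 := mul_le_mul_of_nonneg_left (hu A hA).2 hN1
      constructor <;> linarith [e.1, e.2]
  refine ⟨_, (filter_subset _ _).trans (filter_subset _ _), ?_, h2.trans (h4.trans (hρ.trans
    (mul_le_mul_of_nonneg_left (by linarith) (Nat.cast_nonneg _))))⟩
  have h5 : ∀ A ∈ (J.filter fun A => ∃ i, Gd ω A i).filter
      fun A => (univ.filter fun j => b (ω j) A).card = ρ, ∃ i, Gd ω A i :=
    fun A hA => (mem_filter.1 (mem_filter.1 hA).1).2
  choose! idx hidx using h5
  refine ⟨fun A => Ψ (ω (idx A)) A, fun A hA => ?_, fun A hA B hB hAB => ?_,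
    fun A hA B hB hAB => ?_⟩
  · have := hidx A hA
    rw [hGd] at this
    exact (hgood _ _ this.1).2.2
  · have e : Ψ (ω (idx A)) A = Ψ (ω (idx B)) B := hAB
    by_cases hi : idx B = idx A
    · rw [hi] at e
      exact hinj _ e
    · have := hidx A hA
      rw [hGd] at this
      exact absurd (e ▸ hK (ω (idx B)) B) (this.2.2.1 _ (mem_erase.2 ⟨hi, mem_univ _⟩))
  · have e : (univ.filter fun j => b (ω j) A) = univ.filter fun j => b (ω j) B :=
      eq_of_subset_of_card_le (fun j hj => mem_filter.2 ⟨mem_univ j, hb _ _ _ hAB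
        (mem_filter.1 hj).2⟩) ((mem_filter.1 hB).2.trans (mem_filter.1 hA).2.symm).le
    have hi := h3 A B _ _ (hidx A hA) (hidx B hB) hAB fun h =>
      (mem_filter.1 (e ▸ mem_filter.2 ⟨mem_univ _, h⟩ :
        idx A ∈ univ.filter fun j => b (ω j) A)).2
    change Ψ (ω (idx A)) A ≤ Ψ (ω (idx B)) B
    rw [hi]
    exact hmono _ hAB

end Pool.Agent.Work.MP_84019e_co.Cube
end

-- merged part: Pool.Agent.Work.MP_84019e_co.Cube.Frame
section
set_option autoImplicit false

namespace Pool.Agent.Work.MP_84019e_co.Cube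

open Finset

variable {r N n : ℕ}

lemma frame_inl_fA (e : Fr r N n) (ε : Fin r → Bool) (i : Fin r) (b : Bool) :
    e (Sum.inl (i, b)) ∈ fA e ε ↔ b = ε i := by
  simp only [fA, mem_image, mem_univ, true_and, EmbeddingLike.apply_eq_iff_eq, Sum.inl.injEq,
    Prod.mk.injEq]
  exact ⟨fun ⟨j, h1, h2⟩ => h1 ▸ h2.symm, fun h => ⟨i, rfl, h.symm⟩⟩

lemma frame_inr_fA (e : Fr r N n) (ε : Fin r → Bool) (j : Fin N) : e (Sum.inr j) ∉ fA e ε := by
  simp [fA]

lemma frame_inl_fAll (e : Fr r N n) (p : Fin r × Bool) : e (Sum.inl p) ∈ fAll e :=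
  mem_image.2 ⟨p, mem_univ _, rfl⟩

lemma frame_inr_fAll (e : Fr r N n) (j : Fin N) : e (Sum.inr j) ∉ fAll e := by
  simp [fAll]

lemma frame_inl_fX (e : Fr r N n) (k : ℕ) (p : Fin r × Bool) : e (Sum.inl p) ∉ fX e k := by
  simp [fX]

lemma frame_inr_fX (e : Fr r N n) (k : ℕ) (j : Fin N) : e (Sum.inr j) ∈ fX e k ↔ j.val < k := by
  simp [fX]

lemma frame_ext (e : Fr r N n) {A A' : B n} (h : ∀ y, e y ∈ A ↔ e y ∈ A') : A = A' := by
  ext x
  obtain ⟨y, rfl⟩ := e.surjective x
  exact h y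

lemma frame_card_fX (e : Fr r N n) {k : ℕ} (hk : k ≤ N) : (fX e k).card = k := by
  rw [fX, card_image_of_injective _ fun p q h => Sum.inr_injective (e.injective h),
    Fin.card_filter_val_lt]
  omega

lemma frame_kap_congr (U : B n → Prop) (e : Fr r N n) {π π' : Pm n} {A A' : B n}
    (h : ∀ k, img π (fX e k ∪ A) = img π' (fX e k ∪ A')) : kap U e π A = kap U e π' A' := by
  classical
  unfold kap
  exact congrArg card (filter_congr fun k _ => by rw [h k])

/-- The swap inside the pairs marked by `ε`. -/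
def frameSw (N : ℕ) (ε : Fin r → Bool) : (Fin r × Bool) ⊕ Fin N → (Fin r × Bool) ⊕ Fin N :=
  Sum.map (fun p => (p.1, xor p.2 (ε p.1))) id

lemma frameSw_inv (N : ℕ) (ε : Fin r → Bool) : Function.Involutive (frameSw N ε) := by
  rintro (⟨i, b⟩ | j)
  · cases b <;> cases h : ε i <;> simp [frameSw, h]
  · rfl

lemma frame_swap (e : Fr r N n) (ε : Fin r → Bool) : ∃ σ : Pm n,
    (∀ (k : ℕ) (δ : Fin r → Bool),
      img σ (fX e k ∪ fA e δ) = fX e k ∪ fA e fun i => xor (δ i) (ε i)) ∧
    ∀ k : ℕ, img σ (fX e k ∪ fAll e) = fX e k ∪ fAll e := by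
  have h0 : ∀ y, (e.permCongr (frameSw_inv N ε).toPerm).symm (e y) = e (frameSw N ε y) :=
    fun y => by
      rw [Equiv.symm_apply_eq, Equiv.permCongr_apply, e.symm_apply_apply,
        Function.Involutive.coe_toPerm, frameSw_inv N ε y]
  refine ⟨e.permCongr (frameSw_inv N ε).toPerm, fun k δ => frame_ext e fun y => ?_,
    fun k => frame_ext e fun y => ?_⟩
  · rw [mem_img, h0]
    rcases y with ⟨i, b⟩ | j
    · cases b <;> cases h : ε i <;> cases h' : δ i <;>
        simp [frameSw, frame_inl_fX, frame_inl_fA, h, h']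
    · simp [frameSw, frame_inr_fX, frame_inr_fA]
  · rw [mem_img, h0]
    rcases y with ⟨i, b⟩ | j
    · simp [frameSw, frame_inl_fAll]
    · simp [frameSw]

lemma frame_card (e : Fr r N n) : n = 2 * r + N := by
  have h := Fintype.card_congr e
  simp only [Fintype.card_sum, Fintype.card_prod, Fintype.card_fin, Fintype.card_bool] at h
  omega

lemma card_fA (e : Fr r N n) (ε : Fin r → Bool) : (fA e ε).card = r := by
  rw [fA, card_image_of_injective _ fun i j h => by
    simpa using (Prod.ext_iff.1 (Sum.inl_injective (e.injective h))).1]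
  simp

lemma card_fX_union_fA (e : Fr r N n) (ε : Fin r → Bool) {k : ℕ} (hk : k ≤ N) :
    (fX e k ∪ fA e ε).card = k + r := by
  rw [card_union_of_disjoint, frame_card_fX e hk, card_fA]
  refine disjoint_left.2 fun x h1 h2 => ?_
  obtain ⟨y, rfl⟩ := e.surjective x
  rcases y with p | j
  · exact frame_inl_fX e k p h1
  · exact frame_inr_fA e ε j h2

lemma card_fX_union_fAll (e : Fr r N n) {k : ℕ} (hk : k ≤ N) :
    (fX e k ∪ fAll e).card = k + 2 * r := by
  rw [card_union_of_disjoint, frame_card_fX e hk, fAll,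
    card_image_of_injective _ fun p q h => Sum.inl_injective (e.injective h)]
  · simp [mul_comm]
  refine disjoint_left.2 fun x h1 h2 => ?_
  obtain ⟨y, rfl⟩ := e.surjective x
  rcases y with p | j
  · exact frame_inl_fX e k p h1
  · exact frame_inr_fAll e j h2

lemma fX_mono (e : Fr r N n) {k k' : ℕ} (h : k ≤ k') : fX e k ⊆ fX e k' := by
  intro x hx
  obtain ⟨y, rfl⟩ := e.surjective x
  rcases y with p | j
  · exact absurd hx (frame_inl_fX e k p)
  · exact (frame_inr_fX e k' j).2 (((frame_inr_fX e k j).1 hx).trans_le h)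

lemma fA_subset_fAll (e : Fr r N n) (ε : Fin r → Bool) : fA e ε ⊆ fAll e := by
  intro x hx
  obtain ⟨y, rfl⟩ := e.surjective x
  rcases y with p | j
  · exact frame_inl_fAll e p
  · exact absurd hx (frame_inr_fA e ε j)

/-- Opposite choices meet only in the column. -/
lemma card_inter_opp (e : Fr r N n) {k k' : ℕ} (hk : k ≤ N) (hk' : k' ≤ N) :
    ((fX e k ∪ fA e fun _ => false) ∩ (fX e k' ∪ fA e fun _ => true)).card = min k k' := by
  rw [← frame_card_fX e (show min k k' ≤ N from (min_le_left _ _).trans hk)]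
  refine congrArg card (frame_ext e fun y => ?_)
  rcases y with ⟨i, b⟩ | j
  · cases b <;> simp [frame_inl_fX, frame_inl_fA]
  · simp [frame_inr_fX, frame_inr_fA]

/-- Choices that differ in one pair. -/
lemma card_inter_swap (e : Fr r N n) (ε : Fin r → Bool) (i : Fin r) {k k' : ℕ} (h : k ≤ k')
    (hk' : k' ≤ N) :
    ((fX e k ∪ fA e ε) ∩ (fX e k' ∪ fA e (Function.update ε i (!ε i)))).card + 1 = k + r := by
  have h1 : (fX e k ∪ fA e ε) ∩ (fX e k' ∪ fA e (Function.update ε i (!ε i))) =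
      (fX e k ∪ fA e ε).erase (e (Sum.inl (i, ε i))) := by
    refine frame_ext e fun y => ?_
    rcases y with ⟨j, b⟩ | j
    · by_cases hj : j = i
      · subst hj
        cases b <;> cases hb : ε j <;> simp [frame_inl_fX, frame_inl_fA, hb]
      · simp [frame_inl_fX, frame_inl_fA, hj]
    · simp only [mem_inter, mem_union, frame_inr_fX, frame_inr_fA, or_false, mem_erase, ne_eq,
        EmbeddingLike.apply_eq_iff_eq, reduceCtorEq, not_false_eq_true, true_and]
      omega
  rw [h1, card_erase_add_one (mem_union_right _ ((frame_inl_fA e ε i _).2 rfl)),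
    card_fX_union_fA e ε (h.trans hk')]

lemma kap_le (U : B n → Prop) (e : Fr r N n) (π : Pm n) (A : B n) : kap U e π A ≤ N + 1 := by
  classical
  exact (card_filter_le _ _).trans (card_range _).le

lemma kap_le_iff {U : B n → Prop} (hU : IsUp U) (e : Fr r N n) (π : Pm n) (A : B n) {k : ℕ}
    (hk : k ≤ N) : kap U e π A ≤ k ↔ U (img π (fX e k ∪ A)) := by
  classical
  have hm : ∀ {a b : ℕ}, a ≤ b → U (img π (fX e a ∪ A)) → U (img π (fX e b ∪ A)) :=
    fun h => hU _ _ (img_subset.2 (union_subset_union_left (fX_mono e h)))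
  constructor
  · intro h
    by_contra hn
    have h1 : range (k + 1) ⊆ (range (N + 1)).filter fun k => ¬ U (img π (fX e k ∪ A)) :=
      fun a ha => mem_filter.2 ⟨mem_range.2 (by have := mem_range.1 ha; omega),
        fun hu => hn (hm (by have := mem_range.1 ha; omega) hu)⟩
    have h2 := card_le_card h1
    rw [card_range] at h2
    exact absurd (h2.trans h) (by omega)
  · intro h
    have h1 : ((range (N + 1)).filter fun k => ¬ U (img π (fX e k ∪ A))) ⊆ range k :=
      fun a ha => mem_range.2 (lt_of_not_ge fun hle => (mem_filter.1 ha).2 (hm hle h))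
    exact (card_le_card h1).trans (card_range k).le

lemma kap_anti {U : B n → Prop} (hU : IsUp U) (e : Fr r N n) (π : Pm n) {A A' : B n}
    (h : A ⊆ A') : kap U e π A' ≤ kap U e π A := by
  classical
  exact card_le_card fun a ha => mem_filter.2 ⟨(mem_filter.1 ha).1, fun hu =>
    (mem_filter.1 ha).2 (hU _ _ (img_subset.2 (union_subset_union_right h)) hu)⟩

/-- Swapping inside the pairs. -/
lemma sym_eps (U : B n → Prop) (e : Fr r N n) (ε : Fin r → Bool) (g : ℕ → ℕ → ℕ → ℝ) :
    (av fun π : Pm n => g (kap U e π (fA e fun _ => false)) (kap U e π (fA e fun _ => true))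
        (kap U e π (fAll e))) =
      av fun π : Pm n => g (kap U e π (fA e ε)) (kap U e π (fA e fun i => !ε i))
        (kap U e π (fAll e)) := by
  obtain ⟨σ, h1, h2⟩ := frame_swap e ε
  have hA : ∀ (π : Pm n) (δ : Fin r → Bool),
      kap U e (π * σ) (fA e δ) = kap U e π (fA e fun i => xor (δ i) (ε i)) := fun π δ =>
    frame_kap_congr U e fun k => by rw [img_mul, h1]
  have hB : ∀ π : Pm n, kap U e (π * σ) (fAll e) = kap U e π (fAll e) := fun π =>
    frame_kap_congr U e fun k => by rw [img_mul, h2]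
  rw [← av_mul_perm σ]
  simp only [hA, hB, Bool.false_xor, Bool.true_xor]

end Pool.Agent.Work.MP_84019e_co.Cube
end

-- merged part: Pool.Agent.Work.MP_84019e_co.Cube.FrameLaw
section
set_option autoImplicit false

namespace Pool.Agent.Work.MP_84019e_co.Cube

open Finset

variable {r N n : ℕ}

lemma flaw_kap_eq (U : B n → Prop) (e : Fr r N n) (π : Pm n) (A : B n) :
    (kap U e π A : ℝ) = ∑ k ∈ range (N + 1), (1 - ind (U (img π (fX e k ∪ A)))) := by
  classical
  simp only [← ind_not]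
  rw [sum_ind]
  unfold kap
  congr

lemma flaw_av_kap (U : B n → Prop) (e : Fr r N n) (A : B n) :
    (av fun π : Pm n => (kap U e π A : ℝ)) =
      ∑ k ∈ range (N + 1), (1 - pd U (fX e k ∪ A).card) := by
  simp only [flaw_kap_eq]
  rw [av_sum]
  refine sum_congr rfl fun k _ => ?_
  rw [av_sub, av_const, av_img]

lemma flaw_tele (g : ℕ → ℝ) (h0 : ∀ k, 0 ≤ g k) (h1 : ∀ k, g k ≤ 1) (M r : ℕ) :
    ∑ k ∈ range M, g (r + k) - ∑ k ∈ range M, g k ≤ r := by
  have e1 := sum_range_add g M r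
  have e2 := sum_range_add g r M
  rw [add_comm r M] at e2
  have e3 : ∑ x ∈ range r, g (M + x) ≤ r := by
    refine (sum_le_card_nsmul _ _ 1 fun x _ => h1 _).trans ?_
    simp
  have e4 : 0 ≤ ∑ x ∈ range r, g x := sum_nonneg fun x _ => h0 x
  linarith

/-- Paper, FLcore (i). -/
lemma kap_all {U : B n → Prop} (hU : IsUp U) (e : Fr r N n) (ε : Fin r → Bool) :
    (av fun π : Pm n => ((kap U e π (fA e ε) - kap U e π (fAll e) : ℕ) : ℝ)) ≤ r := by
  have h1 : ∀ π : Pm n, ((kap U e π (fA e ε) - kap U e π (fAll e) : ℕ) : ℝ) =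
      (kap U e π (fA e ε) : ℝ) - (kap U e π (fAll e) : ℝ) := fun π =>
    Nat.cast_sub (kap_anti hU e π (fA_subset_fAll e ε))
  simp only [h1]
  rw [av_sub, flaw_av_kap, flaw_av_kap]
  have h2 : ∑ k ∈ range (N + 1), (1 - pd U (fX e k ∪ fA e ε).card) =
      ∑ k ∈ range (N + 1), (1 - pd U (k + r)) :=
    sum_congr rfl fun k hk => by
      rw [card_fX_union_fA e ε (Nat.lt_succ_iff.1 (mem_range.1 hk))]
  have h3 : ∑ k ∈ range (N + 1), (1 - pd U (fX e k ∪ fAll e).card) =
      ∑ k ∈ range (N + 1), (1 - pd U (r + k + r)) :=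
    sum_congr rfl fun k hk => by
      rw [card_fX_union_fAll e (Nat.lt_succ_iff.1 (mem_range.1 hk)),
        show k + 2 * r = r + k + r by ring]
  rw [h2, h3, sum_sub_distrib, sum_sub_distrib]
  have h4 := flaw_tele (fun k => pd U (k + r)) (fun k => pd_nonneg _ _) (fun k => pd_le_one _ _)
    (N + 1) r
  linarith

lemma flaw_count {a b s M : ℕ} (hb : b ≤ M) :
    ((b - (a + s) : ℕ) : ℝ) = ∑ k ∈ range (M - s), ind (a ≤ k ∧ ¬ b ≤ k + s) := by
  rw [sum_ind]
  have : (range (M - s)).filter (fun k => a ≤ k ∧ ¬ b ≤ k + s) = Ico a (b - s) := by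
    ext k
    simp only [mem_filter, mem_range, mem_Ico]
    omega
  rw [this, Nat.card_Ico]
  congr 1
  omega

lemma flaw_card_hole {t u : ℕ} (h1 : t < u) (h2 : u ≤ n) : (hole n t u).card + 1 = u := by
  have h3 : hole n t u = (init n u).erase ⟨t, by omega⟩ := by
    ext i
    simp only [hole, mem_filter, mem_univ, true_and, mem_erase, mem_init, ne_eq, Fin.ext_iff]
    tauto
  rw [h3, card_erase_add_one (mem_init.2 h1), card_init h2]

lemma flaw_inter_hole {t u : ℕ} (h1 : t < u) : init n (t + 1) ∩ hole n t u = init n t := by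
  ext i
  simp only [hole, mem_inter, mem_filter, mem_univ, true_and, mem_init, ne_eq]
  omega

/-- Paper, FLcore (iii): the law of one swap does not depend on the frame. -/
lemma swap_tail {U : B n → Prop} {w : ℕ} (hU : Bulk U w) (hr : r ≤ w) (e : Fr r N n)
    (ε : Fin r → Bool) (i : Fin r) (s : ℕ) :
    (av fun π : Pm n => ((kap U e π (fA e (Function.update ε i (!ε i))) -
      (kap U e π (fA e ε) + s) : ℕ) : ℝ)) = Y U s := by
  have hn := frame_card e
  have hr1 : 0 < r := i.pos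
  have h1 : ∀ π : Pm n, ((kap U e π (fA e (Function.update ε i (!ε i))) -
      (kap U e π (fA e ε) + s) : ℕ) : ℝ) = ∑ k ∈ range (N + 1 - s),
        ind (U (img π (fX e k ∪ fA e ε)) ∧
          ¬ U (img π (fX e (k + s) ∪ fA e (Function.update ε i (!ε i))))) := by
    intro π
    rw [flaw_count (kap_le U e π _)]
    refine sum_congr rfl fun k hk => ind_congr ?_
    have hk' := mem_range.1 hk
    rw [kap_le_iff hU.up e π _ (by omega : k ≤ N), kap_le_iff hU.up e π _ (by omega : k + s ≤ N)]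
  simp only [h1]
  rw [av_sum]
  have h2 : ∀ k ∈ range (N + 1 - s), (av fun π : Pm n => ind (U (img π (fX e k ∪ fA e ε)) ∧
      ¬ U (img π (fX e (k + s) ∪ fA e (Function.update ε i (!ε i)))))) =
      av fun π : Pm n => ind (U (ch π (r - 1 + k + 1)) ∧
        ¬ U (img π (hole n (r - 1 + k) (r - 1 + k + s + 2)))) := by
    intro k hk
    have hk' := mem_range.1 hk
    refine sym_two (I' := init n (r - 1 + k + 1)) ?_ ?_ ?_ fun x y => ind (U x ∧ ¬ U y)
    · rw [card_fX_union_fA e ε (by omega), card_init (by omega)]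
      omega
    · have := flaw_card_hole (n := n) (t := r - 1 + k) (u := r - 1 + k + s + 2) (by omega)
        (by omega)
      rw [card_fX_union_fA e _ (by omega)]
      omega
    · have := card_inter_swap e ε i (k := k) (k' := k + s) (by omega) (by omega)
      rw [flaw_inter_hole (by omega), card_init (by omega)]
      omega
  rw [sum_congr rfl h2]
  have h3 := sum_Ico_eq_sum_range (fun t => av fun π : Pm n => ind (U (ch π (t + 1)) ∧
    ¬ U (img π (hole n t (t + s + 2))))) (r - 1) (r - 1 + (N + 1 - s))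
  rw [Nat.add_sub_cancel_left] at h3
  rw [← h3, Y]
  refine sum_subset (fun t ht => ?_) fun t ht ht' => ?_
  · have := mem_Ico.1 ht
    rw [mem_range]
    omega
  · have ht1 := mem_range.1 ht
    rw [mem_Ico] at ht'
    rw [← av_zero (Ω := Pm n)]
    congr 1
    funext π
    refine ind_neg fun hc => ?_
    have a1 := hU.lo _ hc.1
    rw [card_ch π (by omega)] at a1
    refine hc.2 (hU.hi _ ?_)
    have := flaw_card_hole (n := n) (t := t) (u := t + s + 2) (by omega) (by omega)
    rw [card_img]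
    omega

end Pool.Agent.Work.MP_84019e_co.Cube
end

-- merged part: Pool.Agent.Work.MP_84019e_co.Cube.FlCore
section
set_option autoImplicit false

namespace Pool.Agent.Work.MP_84019e_co.Cube

open Finset

lemma flc_point {a b c M R : ℕ} (ha : c ≤ a) (hb : c ≤ b) (hM : 0 < M) (hR : 0 < R) :
    ind (a + R ≤ b ∨ b + R ≤ a) ≤ ((a - c : ℕ) : ℝ) / M + ((b - c : ℕ) : ℝ) / M +
      (((min (a - c) M : ℕ) : ℝ) - ((min (b - c) M : ℕ) : ℝ)) ^ 2 / (R : ℝ) ^ 2 := by
  have hM' : (0 : ℝ) < M := by exact_mod_cast hM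
  have hR' : (0 : ℝ) < R := by exact_mod_cast hR
  have h1 : (0 : ℝ) ≤ ((a - c : ℕ) : ℝ) / M := by positivity
  have h2 : (0 : ℝ) ≤ ((b - c : ℕ) : ℝ) / M := by positivity
  have h3 : (0 : ℝ) ≤
      (((min (a - c) M : ℕ) : ℝ) - ((min (b - c) M : ℕ) : ℝ)) ^ 2 / (R : ℝ) ^ 2 := by positivity
  by_cases hp : a + R ≤ b ∨ b + R ≤ a
  · rw [ind_pos hp]
    by_cases h4 : M ≤ a - c
    · have : (1 : ℝ) ≤ ((a - c : ℕ) : ℝ) / M := by
        rw [one_le_div hM']
        exact_mod_cast h4
      linarith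
    by_cases h5 : M ≤ b - c
    · have : (1 : ℝ) ≤ ((b - c : ℕ) : ℝ) / M := by
        rw [one_le_div hM']
        exact_mod_cast h5
      linarith
    have : (1 : ℝ) ≤
        (((min (a - c) M : ℕ) : ℝ) - ((min (b - c) M : ℕ) : ℝ)) ^ 2 / (R : ℝ) ^ 2 := by
      rw [one_le_div (by positivity), min_eq_left (by omega), min_eq_left (by omega),
        Nat.cast_sub ha, Nat.cast_sub hb]
      rcases hp with hp | hp
      · have h6 : (a : ℝ) + R ≤ b := by exact_mod_cast hp
        nlinarith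
      · have h6 : (b : ℝ) + R ≤ a := by exact_mod_cast hp
        nlinarith
    linarith
  · rw [ind_neg hp]
    linarith

lemma flc_step (a b c M : ℕ) :
    (((min (a - c) M : ℕ) : ℝ) - ((min (b - c) M : ℕ) : ℝ)) ^ 2 ≤
      ((min (b - a) M : ℕ) : ℝ) ^ 2 + ((min (a - b) M : ℕ) : ℝ) ^ 2 := by
  have h1 : min (a - c) M ≤ min (b - c) M + min (a - b) M := by omega
  have h2 : min (b - c) M ≤ min (a - c) M + min (b - a) M := by omega
  have h3 : ((min (a - c) M : ℕ) : ℝ) ≤ ((min (b - c) M : ℕ) : ℝ) + ((min (a - b) M : ℕ) : ℝ) := by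
    exact_mod_cast h1
  have h4 : ((min (b - c) M : ℕ) : ℝ) ≤ ((min (a - c) M : ℕ) : ℝ) + ((min (b - a) M : ℕ) : ℝ) := by
    exact_mod_cast h2
  have h5 : (0 : ℝ) ≤ ((min (a - b) M : ℕ) : ℝ) := Nat.cast_nonneg _
  have h6 : (0 : ℝ) ≤ ((min (b - a) M : ℕ) : ℝ) := Nat.cast_nonneg _
  generalize ((min (a - c) M : ℕ) : ℝ) = x at *
  generalize ((min (b - c) M : ℕ) : ℝ) = y at *
  generalize ((min (a - b) M : ℕ) : ℝ) = p at *
  generalize ((min (b - a) M : ℕ) : ℝ) = q at *
  rcases le_total x y with h | h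
  · nlinarith
  · nlinarith

lemma flc_swap {r N n w M T : ℕ} {τ : ℝ} {U : B n → Prop} (hU : Bulk U w) (hr : r ≤ w)
    (e : Fr r N n) (hτ : 0 ≤ τ) (hY : Y U T - Y U M ≤ τ) (ε : Fin r → Bool) (i : Fin r) :
    (av fun π : Pm n => ((min (kap U e π (fA e (Function.update ε i (!ε i))) -
      kap U e π (fA e ε)) M : ℕ) : ℝ) ^ 2) ≤ 2 * (T + M * τ) := by
  refine (av_mono fun π => min_sq_le _ M).trans ?_
  rw [av_mul_left, av_sum]
  refine mul_le_mul_of_nonneg_left (le_trans (le_of_eq ?_) (Y_sum_le hU.up hτ hY)) (by norm_num)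
  refine sum_congr rfl fun s _ => ?_
  rw [av_sub, ← swap_tail hU hr e ε i s, ← swap_tail hU hr e ε i M]
  simp only [Nat.sub_sub]

lemma flc_edge {r N n w M T : ℕ} {τ : ℝ} {U : B n → Prop} (hU : Bulk U w) (hr : r ≤ w)
    (e : Fr r N n) (hτ : 0 ≤ τ) (hY : Y U T - Y U M ≤ τ) (ε : Fin r → Bool) (i : Fin r) :
    (av fun π : Pm n => (((min (kap U e π (fA e ε) - kap U e π (fAll e)) M : ℕ) : ℝ) -
      ((min (kap U e π (fA e (Function.update ε i (!ε i))) - kap U e π (fAll e)) M : ℕ) : ℝ)) ^ 2)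
      ≤ 4 * (T + M * τ) := by
  refine (av_mono fun π => flc_step _ _ _ M).trans ?_
  rw [av_add]
  have h1 := flc_swap hU hr e hτ hY ε i
  have h2 := flc_swap hU hr e hτ hY (Function.update ε i (!ε i)) i
  have h3 : Function.update (Function.update ε i (!ε i)) i (!Function.update ε i (!ε i) i) = ε := by
    simp
  rw [h3] at h2
  linarith

lemma flc_var {r N n w M T : ℕ} {τ : ℝ} {U : B n → Prop} (hU : Bulk U w) (hr : r ≤ w)
    (e : Fr r N n) (hτ : 0 ≤ τ) (hY : Y U T - Y U M ≤ τ) :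
    (av fun π : Pm n =>
      (((min (kap U e π (fA e fun _ => false) - kap U e π (fAll e)) M : ℕ) : ℝ) -
        ((min (kap U e π (fA e fun _ => true) - kap U e π (fAll e)) M : ℕ) : ℝ)) ^ 2) ≤
      4 * r * (T + M * τ) := by
  have h1 := fun ε => sym_eps U e ε fun a b c =>
    (((min (a - c) M : ℕ) : ℝ) - ((min (b - c) M : ℕ) : ℝ)) ^ 2
  refine (le_av fun ε => (h1 ε).le).trans ?_
  rw [av_comm]
  refine (av_mono fun π => poincare r fun ε =>
    ((min (kap U e π (fA e ε) - kap U e π (fAll e)) M : ℕ) : ℝ)).trans ?_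
  rw [av_sum]
  refine (sum_le_sum (g := fun _ => 4 * ((T : ℝ) + M * τ)) fun i _ => ?_).trans ?_
  · rw [av_comm]
    exact av_le fun ε => flc_edge hU hr e hτ hY ε i
  · rw [sum_const, card_univ, Fintype.card_fin, nsmul_eq_mul]
    exact le_of_eq (by ring)

/-- Paper, FLcore. -/
theorem fl_core {r N n w M T R : ℕ} {τ : ℝ} {U : B n → Prop} (hU : Bulk U w) (hr : r ≤ w)
    (e : Fr r N n) (hM : 0 < M) (hR : 0 < R) (hτ : 0 ≤ τ) (hY : Y U T - Y U M ≤ τ) :
    (av fun π : Pm n =>
      ind (kap U e π (fA e fun _ => false) + R ≤ kap U e π (fA e fun _ => true) ∨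
        kap U e π (fA e fun _ => true) + R ≤ kap U e π (fA e fun _ => false))) ≤
      beta r M T R τ := by
  refine (av_mono fun π => flc_point (kap_anti hU.up e π (fA_subset_fAll e _))
    (kap_anti hU.up e π (fA_subset_fAll e _)) hM hR).trans ?_
  rw [av_add, av_add, av_div, av_div, av_div, beta]
  have hM' : (0 : ℝ) < M := by exact_mod_cast hM
  have h1 := div_le_div_of_nonneg_right (kap_all hU.up e fun _ => false) hM'.le
  have h2 := div_le_div_of_nonneg_right (kap_all hU.up e fun _ => true) hM'.le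
  have h3 := div_le_div_of_nonneg_right (flc_var hU hr e hτ hY) (sq_nonneg (R : ℝ))
  have h4 : (2 : ℝ) * r / M = r / M + r / M := by ring
  linarith

end Pool.Agent.Work.MP_84019e_co.Cube
end

-- merged part: Pool.Agent.Work.MP_84019e_co.Cube.FlPm
section
set_option autoImplicit false

namespace Pool.Agent.Work.MP_84019e_co.Cube

open Finset

lemma beta_mono {r l M T R : ℕ} {τ : ℝ} (hτ : 0 ≤ τ) (h : r ≤ l) :
    beta r M T R τ ≤ beta l M T R τ := by
  have h' : (r : ℝ) ≤ l := by exact_mod_cast h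
  unfold beta
  gcongr

lemma flpm_kap {r N n : ℕ} {U : B n → Prop} (hU : IsUp U) (e : Fr r N n) (π : Pm n)
    (ε : Fin r → Bool) {k : ℕ} (hk : k ≤ N) (h1 : U (img π (fX e k ∪ fA e ε)))
    (h2 : ∀ y, y ⊂ img π (fX e k ∪ fA e ε) → ¬ U y) : kap U e π (fA e ε) = k := by
  refine le_antisymm ((kap_le_iff hU e π _ hk).2 h1) (not_lt.1 fun h => ?_)
  have hj := h.le.trans hk
  refine h2 _ (img_ssubset.2 ?_) ((kap_le_iff hU e π _ hj).1 le_rfl)
  refine Finset.ssubset_iff_subset_ne.2
    ⟨union_subset_union (fX_mono e h.le) Subset.rfl, fun hc => ?_⟩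
  have := congrArg card hc
  rw [card_fX_union_fA e ε hj, card_fX_union_fA e ε hk] at this
  omega

lemma flpm_core {n w l M T R : ℕ} {τ : ℝ} {U : B n → Prop} (hU : Bulk U w) (Mn : B n → Prop)
    (hMn : ∀ x, Mn x → U x ∧ ∀ y, y ⊂ x → ¬ U y) (hl : l ≤ w) (hw : 2 * w ≤ n) (hM : 0 < M)
    (hR : 0 < R) (hτ : 0 ≤ τ) (hY : Y U T - Y U M ≤ τ) (A' A : B l) (q : Prop → Prop)
    (a' a r : ℕ) (h0 : min a' a = 0) (hA' : A'.card = (A' ∩ A).card + a' + r)
    (hA : A.card = (A' ∩ A).card + a + r)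
    (hq : ∀ k u : ℕ, q (u ≤ k + a) → k + a' + R ≤ u ∨ u + R ≤ k + a') :
    ∑ k ∈ range (n - l + 1), (av fun π : Pm n => ind (Mn (blk π k A') ∧ q (U (blk π k A)))) ≤
      beta l M T R τ := by
  have hu := card_union_add_card_inter A' A
  have hu' : (A' ∪ A).card ≤ l := by simpa using card_le_univ (A' ∪ A)
  set c := (A' ∩ A).card with hc
  have e : Fr r (n - 2 * r) n := Fintype.equivOfCardEq (by simp; omega)
  have h1 : ∀ k ∈ range (n - l + 1),
      (av fun π : Pm n => ind (Mn (blk π k A') ∧ q (U (blk π k A)))) =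
      av fun π : Pm n => ind (Mn (img π (fX e (k + c + a') ∪ fA e fun _ => false)) ∧
        q (U (img π (fX e (k + c + a) ∪ fA e fun _ => true)))) := fun k hk => by
    have hk' : k + l ≤ n := by
      have := mem_range.1 hk
      omega
    refine sym_two ?_ ?_ ?_ fun x y => ind (Mn x ∧ q (U y))
    · rw [card_place hk', card_fX_union_fA e _ (by omega)]
      omega
    · rw [card_place hk', card_fX_union_fA e _ (by omega)]
      omega
    · rw [place_inter, card_place hk', card_inter_opp e (by omega) (by omega)]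
      omega
  rw [sum_congr rfl h1, ← av_sum]
  refine le_trans (av_mono fun π => ?_)
    ((fl_core hU (show r ≤ w by omega) e hM hR hτ hY).trans (beta_mono hτ (by omega)))
  have h2 : ∀ k ∈ range (n - l + 1), Mn (img π (fX e (k + c + a') ∪ fA e fun _ => false)) →
      kap U e π (fA e fun _ => false) = k + c + a' := fun k hk h => by
    have := mem_range.1 hk
    exact flpm_kap hU.up e π _ (by omega) (hMn _ h).1 (hMn _ h).2
  refine sum_ind_le _ _ (fun k hk h => ?_) fun k hk k' hk' h h' => ?_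
  · have := mem_range.1 hk
    rw [h2 k hk h.1]
    refine hq (k + c) _ ?_
    rw [kap_le_iff hU.up e π _ (by omega)]
    exact h.2
  · have := h2 k hk h.1
    have := h2 k' hk' h'.1
    omega

/-- Paper, FL+. -/
theorem fl_plus {n w l M T R : ℕ} {τ : ℝ} {U : B n → Prop} (hU : Bulk U w) (Mn : B n → Prop)
    (hMn : ∀ x, Mn x → U x ∧ ∀ y, y ⊂ x → ¬ U y) (hl : l ≤ w) (hw : 2 * w ≤ n) (hM : 0 < M)
    (hR : 0 < R) (hτ : 0 ≤ τ) (hY : Y U T - Y U M ≤ τ) (A' A : B l)
    (hA : A.card = A'.card + R) :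
    ∑ k ∈ range (n - l + 1), (av fun π : Pm n => ind (Mn (blk π k A') ∧ ¬ U (blk π k A))) ≤
      beta l M T R τ := by
  have h := card_sdiff_add_card_inter A' A
  exact flpm_core hU Mn hMn hl hw hM hR hτ hY A' A Not 0 R (A' \ A).card (by simp) (by omega)
    (by omega) fun k u hu => by omega

/-- Paper, FL-. -/
theorem fl_minus {n w l M T R : ℕ} {τ : ℝ} {U : B n → Prop} (hU : Bulk U w) (Mn : B n → Prop)
    (hMn : ∀ x, Mn x → U x ∧ ∀ y, y ⊂ x → ¬ U y) (hl : l ≤ w) (hw : 2 * w ≤ n) (hM : 0 < M)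
    (hR : 0 < R) (hτ : 0 ≤ τ) (hY : Y U T - Y U M ≤ τ) (A' A : B l)
    (hA : A'.card = A.card + R) :
    ∑ k ∈ range (n - l + 1), (av fun π : Pm n => ind (Mn (blk π k A') ∧ U (blk π k A))) ≤
      beta l M T R τ := by
  have h := card_sdiff_add_card_inter A A'
  rw [inter_comm] at h
  exact flpm_core hU Mn hMn hl hw hM hR hτ hY A' A id R 0 (A \ A').card (by simp) (by omega)
    (by omega) fun k u (hu : u ≤ k + 0) => by omega

end Pool.Agent.Work.MP_84019e_co.Cube
end

-- merged part: Pool.Agent.Work.MP_84019e_co.Cube.BlkSum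
section
set_option autoImplicit false

namespace Pool.Agent.Work.MP_84019e_co.Cube

open Finset

variable {n : ℕ}

lemma upS_up (F : Finset (B n)) (lev : B n → ℕ) (w j : ℕ) : IsUp (upS F lev w j) := by
  rintro x y hxy (⟨z, hz, hj, hzx⟩ | h)
  · exact Or.inl ⟨z, hz, hj, hzx.trans hxy⟩
  · have := card_le_card hxy
    exact Or.inr (by omega)

lemma upS_bulk {F : Finset (B n)} (lev : B n → ℕ) {w : ℕ} (j : ℕ)
    (hF : ∀ A ∈ F, w ≤ A.card ∧ A.card + w ≤ n) (hw : 2 * w ≤ n) : Bulk (upS F lev w j) w := by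
  refine ⟨upS_up F lev w j, ?_, fun x hx => Or.inr hx⟩
  rintro x (⟨z, hz, -, hzx⟩ | h)
  · exact (hF z hz).1.trans (card_le_card hzx)
  · omega

lemma upS_of_mem {F : Finset (B n)} {lev : B n → ℕ} (w : ℕ) {j : ℕ} {x : B n} (hx : x ∈ F)
    (hj : j ≤ lev x) : upS F lev w j x := Or.inl ⟨x, hx, hj, Subset.refl x⟩

lemma upS_min {h : ℕ} {F : Finset (B n)} {lev : B n → ℕ} {w : ℕ} (hlev : Lev h F lev)
    (hF : ∀ A ∈ F, w ≤ A.card ∧ A.card + w ≤ n) {x y : B n} (hx : x ∈ F) (hy : y ⊂ x) :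
    ¬ upS F lev w (lev x) y := by
  rintro (⟨z, hz, hj, hzy⟩ | h)
  · have := hlev.2 z hz x hx (lt_of_le_of_lt (show z ≤ y from hzy) hy)
    omega
  · have h1 := card_lt_card hy
    have h2 := (hF x hx).2
    omega

lemma zg_nonneg (h : ℕ) (F : Finset (B n)) (lev : B n → ℕ) (w a : ℕ) : 0 ≤ zg h F lev w a :=
  sum_nonneg fun _ _ => sum_nonneg fun _ _ => av_nonneg fun _ => ind_nonneg _

lemma zg_sum {h : ℕ} {F : Finset (B n)} {lev : B n → ℕ} (hlev : Lev h F lev) (w K : ℕ) :
    ∑ a ∈ range K, zg h F lev w a ≤ (h : ℝ) ^ 2 := by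
  unfold zg
  rw [sum_comm]
  have key : ∀ j ∈ range h, ∑ a ∈ range K, ∑ s ∈ range (n + 1), (av fun π : Pm n =>
      ind (a < s ∧ ch π s ∈ F ∧ upS F lev w j (ch π (s - a)) ∧
        ¬ upS F lev w j (ch π (s - a - 1)))) ≤ (h : ℝ) := by
    intro j _
    rw [sum_comm]
    refine le_trans (sum_le_sum fun s _ => ?_) (Lub_le hlev)
    rw [← av_sum]
    refine av_mono fun π => sum_ind_le _ _ (fun a _ ha => ha.2.1) fun a _ b _ ha hb => ?_
    by_contra hab
    rcases lt_or_gt_of_ne hab with h1 | h1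
    · exact ha.2.2.2 (upS_up F lev w j _ _ (ch_mono π (by omega)) hb.2.2.1)
    · exact hb.2.2.2 (upS_up F lev w j _ _ (ch_mono π (by omega)) ha.2.2.1)
  refine (sum_le_sum key).trans ?_
  simp [sq]

lemma bs_zone {l m t : ℕ} (ht : t ∈ zone l m) : 3 * m ≤ t ∧ t ≤ l := by
  have := mem_Icc.1 ht
  omega

lemma bs_shift (f : ℕ → ℝ) (N t : ℕ) :
    ∑ k ∈ range N, f (k + t) = ∑ s ∈ Ico t (t + N), f s := by
  rw [sum_Ico_eq_sum_range, Nat.add_sub_cancel_left]
  exact sum_congr rfl fun k _ => by rw [add_comm]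

lemma bs_cross (U : ℕ → Prop) (k d : ℕ) (h0 : ¬ U k) (h1 : U (k + d)) :
    ∃ c, k < c ∧ c ≤ k + d ∧ U c ∧ ¬ U (c - 1) := by
  induction d with
  | zero => exact absurd h1 h0
  | succ d ih =>
    by_cases h2 : U (k + d)
    · obtain ⟨c, a1, a2, a3⟩ := ih h2
      exact ⟨c, a1, by omega, a3⟩
    · exact ⟨k + (d + 1), by omega, le_rfl, h1, h2⟩

lemma bs_mu (F : Finset (B n)) {l m k : ℕ} (hk : k + l ≤ n) :
    (av fun π : Pm n => mu m (blkH F l m π k)) = ∑ t ∈ zone l m, pd (· ∈ F) (k + t) := by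
  unfold mu
  rw [av_sum]
  refine sum_congr rfl fun t ht => ?_
  have h1 := (bs_zone ht).2
  unfold pd
  rw [av_comm, ← av_const (Ω := Pm l) (av fun π : Pm n => ind (ch π (k + t) ∈ F))]
  congr 1
  funext τ
  have h2 := av_img (· ∈ F) (place n k (ch τ t))
  rw [card_place hk, card_ch τ h1] at h2
  refine Eq.trans ?_ h2
  congr 1
  funext π
  exact ind_congr (by simp [blkH, blk, card_ch τ h1, ht])

lemma bs_gap (F : Finset (B n)) (U : B n → Prop) {l m T k t : ℕ} (hk : k + l ≤ n)
    (hT : T ≤ m) (ht : t ∈ zone l m) :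
    (av fun π : Pm n => ind (¬ U (blk π k (∅ : B l))) * av fun τ : Pm l =>
        ind (ch τ t ∈ blkH F l m π k ∧ U (blk π k (ch τ (t - T))))) ≤
      ∑ a ∈ Ico T l, av fun π : Pm n => ind (a < k + t ∧ ch π (k + t) ∈ F ∧
        U (ch π (k + t - a)) ∧ ¬ U (ch π (k + t - a - 1))) := by
  obtain ⟨h1, h2⟩ := bs_zone ht
  simp only [← av_mul_left, ← ind_and]
  rw [av_comm]
  refine av_le fun τ => ?_
  have h3 := sym_three (I := place n k (∅ : B l)) (J := place n k (ch τ (t - T)))
    (K := place n k (ch τ t)) (I' := init n k) (J' := init n (k + (t - T)))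
    (K' := init n (k + t)) (place_mono k (empty_subset _))
    (place_mono k (ch_mono τ (Nat.sub_le _ _))) (init_mono (by omega)) (init_mono (by omega))
    (by rw [place_empty])
    (by rw [card_place hk, card_ch τ (by omega), card_init (by omega)])
    (by rw [card_place hk, card_ch τ h2, card_init (by omega)])
    fun x y z => ind (¬ U x ∧ z ∈ F ∧ U y)
  refine le_trans (av_mono fun π => ind_mono ?_) (h3.le.trans ?_)
  · rintro ⟨a1, a2, a3⟩
    exact ⟨a1, (mem_filter.1 a2).2.1, a3⟩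
  · rw [← av_sum]
    refine av_mono fun π => ind_le_sum _ _ ?_
    rintro ⟨a1, a2, a3⟩
    obtain ⟨c, c1, c2, c3, c4⟩ := bs_cross (fun s => U (ch π s)) k (t - T) a1 a3
    have e1 : k + t - (k + t - c) = c := by omega
    refine ⟨k + t - c, mem_Ico.2 (by omega), by omega, a2, ?_⟩
    rw [e1]
    exact ⟨c3, c4⟩

/-- Paper, B2: the mass. -/
lemma mu_sum {F : Finset (B n)} {w l m : ℕ} (hF : ∀ A ∈ F, w ≤ A.card ∧ A.card + w ≤ n)
    (hw : 2 * w ≤ n) (hl : l ≤ w) :
    (zone l m).card * Lub F ≤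
      ∑ k ∈ range (n - l + 1), av fun π : Pm n => mu m (blkH F l m π k) := by
  have h1 : ∀ k ∈ range (n - l + 1), (av fun π : Pm n => mu m (blkH F l m π k)) =
      ∑ t ∈ zone l m, pd (· ∈ F) (k + t) := fun k hk =>
    bs_mu F (by have := mem_range.1 hk; omega)
  rw [sum_congr rfl h1, sum_comm, ← nsmul_eq_mul]
  refine card_nsmul_le_sum _ _ _ fun t ht => ?_
  have h2 := (bs_zone ht).2
  rw [bs_shift (pd (· ∈ F)), Lub, ← sum_filter_ne_zero]
  refine sum_le_sum_of_subset_of_nonneg (fun s hs => ?_) fun s _ _ => pd_nonneg _ s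
  obtain ⟨a1, a2⟩ := mem_filter.1 hs
  have a3 : s ≤ n := by have := mem_range.1 a1; omega
  by_contra a4
  refine a2 ?_
  unfold pd
  rw [← av_zero (Ω := Pm n)]
  congr 1
  funext π
  refine ind_neg fun a5 => a4 ?_
  have a6 := hF _ a5
  rw [card_ch π a3] at a6
  exact mem_Ico.2 (by omega)

/-- Paper, B2: the gaps. -/
lemma gap_sum (F : Finset (B n)) (lev : B n → ℕ) {h w l m T : ℕ} (hl : l ≤ n) (hm : 0 < m)
    (hT : T ≤ m) :
    ∑ k ∈ range (n - l + 1), (av fun π : Pm n =>
        gap h m T (blkH F l m π k) fun j A => upS F lev w j (blk π k A)) ≤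
      (zone l m).card * ∑ a ∈ Ico T l, zg h F lev w a := by
  have h1 : ∀ k ∈ range (n - l + 1), (av fun π : Pm n =>
      gap h m T (blkH F l m π k) fun j A => upS F lev w j (blk π k A)) ≤
      ∑ t ∈ zone l m, ∑ a ∈ Ico T l, ∑ j ∈ range h, av fun π : Pm n =>
        ind (a < k + t ∧ ch π (k + t) ∈ F ∧ upS F lev w j (ch π (k + t - a)) ∧
          ¬ upS F lev w j (ch π (k + t - a - 1))) := by
    intro k hk
    have hk' : k + l ≤ n := by have := mem_range.1 hk; omega
    unfold gap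
    simp only [mul_sum]
    rw [av_sum]
    simp only [av_sum]
    rw [sum_comm]
    refine sum_le_sum fun t ht => ?_
    rw [sum_comm]
    exact sum_le_sum fun j _ => bs_gap F (upS F lev w j) hk' hT ht
  refine (sum_le_sum h1).trans ?_
  rw [sum_comm, ← nsmul_eq_mul]
  refine sum_le_card_nsmul _ _ _ fun t ht => ?_
  have h2 := (bs_zone ht).2
  rw [sum_comm]
  refine sum_le_sum fun a _ => ?_
  rw [sum_comm]
  refine sum_le_sum fun j _ => ?_
  rw [bs_shift fun s => av fun π : Pm n => ind (a < s ∧ ch π s ∈ F ∧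
    upS F lev w j (ch π (s - a)) ∧ ¬ upS F lev w j (ch π (s - a - 1)))]
  refine sum_le_sum_of_subset_of_nonneg (fun s hs => ?_)
    fun s _ _ => av_nonneg fun _ => ind_nonneg _
  have := mem_Ico.1 hs
  exact mem_range.2 (by omega)

end Pool.Agent.Work.MP_84019e_co.Cube
end

-- merged part: Pool.Agent.Work.MP_84019e_co.Cube.BlkPhi
section
set_option autoImplicit false

namespace Pool.Agent.Work.MP_84019e_co.Cube

open Finset

lemma bphi_mul {l : ℕ} (P Q : B l → Prop) (t s : ℕ) :
    pd P t * pd Q s = av fun τ : Pm l => av fun τ' : Pm l => ind (P (ch τ t) ∧ Q (ch τ' s)) := by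
  simp only [pd, ind_and, av_mul_left, av_mul_right]

lemma bphi_not {l : ℕ} (Q : B l → Prop) (s : ℕ) : 1 - pd Q s = pd (fun x => ¬ Q x) s := by
  simp only [pd, ind_not, av_sub, av_const]

lemma bphi_swap {n l : ℕ} (S : Finset ℕ) (f : ℕ → Pm n → Pm l → Pm l → ℝ) {c : ℝ}
    (h : ∀ τ τ', ∑ k ∈ S, (av fun π => f k π τ τ') ≤ c) :
    ∑ k ∈ S, (av fun π => av fun τ => av fun τ' => f k π τ τ') ≤ c := by
  have e : ∀ k, (av fun π => av fun τ => av fun τ' => f k π τ τ') =
      av fun τ => av fun τ' => av fun π => f k π τ τ' := fun k => by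
    rw [av_comm]
    exact congrArg av (funext fun τ => av_comm _)
  rw [sum_congr rfl fun k _ => e k, ← av_sum]
  refine av_le fun τ => ?_
  rw [← av_sum]
  exact av_le fun τ' => h τ τ'

lemma bphi_term {n h w l m M T R j t : ℕ} {τ : ℝ} {F : Finset (B n)} {lev : B n → ℕ}
    (hlev : Lev h F lev) (hF : ∀ A ∈ F, w ≤ A.card ∧ A.card + w ≤ n) (hw : 2 * w ≤ n)
    (hl : l ≤ w) (hRm : R ≤ m) (hM : 0 < M) (hR : 0 < R) (hτ : 0 ≤ τ)
    (hY : Y (upS F lev w j) T - Y (upS F lev w j) M ≤ τ) (ht : t ∈ zone l m) :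
    ∑ k ∈ range (n - l + 1), (av fun π : Pm n =>
      pd (fun x : B l => x ∈ blkH F l m π k ∧ lev (blk π k x) = j) t *
        (pd (fun A : B l => upS F lev w j (blk π k A)) (t - R) +
          (1 - pd (fun A : B l => upS F lev w j (blk π k A)) (t + R)))) ≤
      2 * beta l M T R τ := by
  obtain ⟨t1, t2⟩ := mem_Icc.1 ht
  have hMn : ∀ x, (x ∈ F ∧ lev x = j) → upS F lev w j x ∧ ∀ y, y ⊂ x → ¬ upS F lev w j y :=
    fun x hx => ⟨upS_of_mem w hx.1 hx.2.ge, fun y hy => hx.2 ▸ upS_min hlev hF hx.1 hy⟩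
  have hU := upS_bulk lev j hF hw
  simp only [mul_add, bphi_not, bphi_mul, av_add, sum_add_distrib, two_mul]
  refine add_le_add (bphi_swap _ _ fun σ σ' => ?_) (bphi_swap _ _ fun σ σ' => ?_)
  · refine le_trans (sum_le_sum fun k _ => av_mono fun π => ind_mono fun hx => ?_)
      (fl_minus hU (fun x => x ∈ F ∧ lev x = j) hMn hl hw hM hR hτ hY (ch σ t) (ch σ' (t - R))
        (by rw [card_ch _ (by omega), card_ch _ (by omega)]; omega))
    exact ⟨⟨(mem_filter.1 hx.1.1).2.1, hx.1.2⟩, hx.2⟩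
  · refine le_trans (sum_le_sum fun k _ => av_mono fun π => ind_mono fun hx => ?_)
      (fl_plus hU (fun x => x ∈ F ∧ lev x = j) hMn hl hw hM hR hτ hY (ch σ t) (ch σ' (t + R))
        (by rw [card_ch _ (by omega), card_ch _ (by omega)]))
    exact ⟨⟨(mem_filter.1 hx.1.1).2.1, hx.1.2⟩, hx.2⟩

/-- Paper, B2: the threshold widths. -/
lemma Phi_sum {n h w l m M T R : ℕ} {τ : ℝ} {F : Finset (B n)} {lev : B n → ℕ}
    (hlev : Lev h F lev) (hF : ∀ A ∈ F, w ≤ A.card ∧ A.card + w ≤ n) (hw : 2 * w ≤ n)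
    (hl : l ≤ w) (hRm : R ≤ m) (hM : 0 < M) (hR : 0 < R) (hτ : 0 ≤ τ)
    (hY : ∀ j < h, Y (upS F lev w j) T - Y (upS F lev w j) M ≤ τ) :
    ∑ k ∈ range (n - l + 1), (av fun π : Pm n =>
        Phi h m R (blkH F l m π k) (fun A => lev (blk π k A))
          fun j A => upS F lev w j (blk π k A)) ≤
      (zone l m).card * (2 * h * beta l M T R τ) := by
  simp only [Phi, av_sum]
  rw [sum_comm]
  refine le_trans (sum_le_sum fun j hj => ?_)
    (le_of_eq (?_ : ∑ _j ∈ range h, ∑ _t ∈ zone l m, 2 * beta l M T R τ = _))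
  · rw [sum_comm]
    exact sum_le_sum fun t ht => bphi_term hlev hF hw hl hRm hM hR hτ (hY j (mem_range.1 hj)) ht
  · simp only [sum_const, card_range, nsmul_eq_mul]
    ring

/-- Paper, B2: a good chain and a good residue. -/
lemma blocks_exist {n h w l m M T T' R : ℕ} {τ e : ℝ} {F : Finset (B n)} {lev : B n → ℕ}
    (hlev : Lev h F lev) (hF : ∀ A ∈ F, w ≤ A.card ∧ A.card + w ≤ n) (hw : 2 * w ≤ n)
    (hl : l ≤ w) (hm : 0 < m) (h6 : 6 * m ≤ l) (hTm : T ≤ m) (hRm : R ≤ m) (hM : 0 < M)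
    (hR : 0 < R) (hτ : 0 ≤ τ) (he : 0 < e)
    (hY : ∀ j < h, Y (upS F lev w j) T' - Y (upS F lev w j) M ≤ τ) :
    ∃ (π : Pm n) (o : ℕ), (1 - 6 * (m : ℝ) / l) * Lub F - ∑ a ∈ Ico T l, zg h F lev w a -
        2 * (h : ℝ) ^ 2 * beta l M T' R τ / e ≤
      ∑ k ∈ (range (n - l + 1)).filter fun k => k % l = o, blkVal h l m T R e F lev w π k := by
  have hl0 : 0 < l := by omega
  have hl' : (0 : ℝ) < l := by exact_mod_cast hl0
  have hZ : ((zone l m).card : ℝ) = l - 6 * m + 1 := by
    have a : (zone l m).card + 6 * m = l + 1 := by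
      rw [zone, Nat.card_Icc]
      omega
    have b : ((zone l m).card : ℝ) + 6 * m = l + 1 := by exact_mod_cast a
    linarith
  have hm' : (1 : ℝ) ≤ m := by exact_mod_cast hm
  have h1 := mu_sum (m := m) hF hw hl
  have h2 := gap_sum F lev (h := h) (w := w) (show l ≤ n by omega) hm hTm
  have h3 := Phi_sum hlev hF hw hl hRm hM hR hτ hY
  have hL := Lub_nonneg F
  have hg : 0 ≤ ∑ a ∈ Ico T l, zg h F lev w a := sum_nonneg fun a _ => zg_nonneg _ _ _ _ _
  have hb : 0 ≤ 2 * (h : ℝ) ^ 2 * beta l M T' R τ / e := by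
    unfold beta
    positivity
  have h4 := div_le_div_of_nonneg_right (mul_le_mul_of_nonneg_left h3 (Nat.cast_nonneg h)) he.le
  have hsum : (l : ℝ) * ((1 - 6 * (m : ℝ) / l) * Lub F - ∑ a ∈ Ico T l, zg h F lev w a -
      2 * (h : ℝ) ^ 2 * beta l M T' R τ / e) ≤
      av fun π : Pm n => ∑ k ∈ range (n - l + 1), blkVal h l m T R e F lev w π k := by
    rw [av_sum]
    simp only [blkVal, val, av_sub, av_div, av_mul_left, sum_sub_distrib, ← sum_div, ← mul_sum]
    have e1 : (h : ℝ) * ((zone l m).card * (2 * h * beta l M T' R τ)) / e =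
        (zone l m).card * (2 * (h : ℝ) ^ 2 * beta l M T' R τ / e) := by ring
    have e2 : (l : ℝ) * ((1 - 6 * (m : ℝ) / l) * Lub F) = (l - 6 * m) * Lub F := by
      field_simp
    rw [e1] at h4
    rw [hZ] at h1 h2 h4
    rw [mul_sub, mul_sub, e2]
    have a1 := mul_nonneg (show (0 : ℝ) ≤ 6 * m - 1 by linarith) hg
    have a2 := mul_nonneg (show (0 : ℝ) ≤ 6 * m - 1 by linarith) hb
    linarith
  obtain ⟨π, hπ⟩ := exists_ge_av
    fun π : Pm n => ∑ k ∈ range (n - l + 1), blkVal h l m T R e F lev w π k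
  refine ⟨π, ?_⟩
  by_contra hc
  have hlt := sum_lt_sum_of_nonempty (nonempty_range_iff.2 hl0.ne')
    fun o (_ : o ∈ range l) => not_le.1 fun a => hc ⟨o, a⟩
  rw [sum_fiberwise_of_maps_to fun k _ => mem_range.2 (Nat.mod_lt k hl0), sum_const, card_range,
    nsmul_eq_mul] at hlt
  exact absurd (hsum.trans hπ) (not_le.2 hlt)

end Pool.Agent.Work.MP_84019e_co.Cube
end

-- merged part: Pool.Agent.Work.MP_84019e_co.Cube.Block
section
set_option autoImplicit false

namespace Pool.Agent.Work.MP_84019e_co.Cube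

open Finset

lemma blk_nu_nonneg {l : ℕ} (H : Finset (B l)) (V : B l → Prop) (T R c : ℕ) :
    0 ≤ nu H V T R c :=
  sum_nonneg fun _ _ => av_nonneg fun _ => ind_nonneg _

lemma blk_gap_term_nonneg {l : ℕ} (m T : ℕ) (H : Finset (B l)) (V : ℕ → B l → Prop) (j : ℕ) :
    0 ≤ ind (¬ V j ∅) *
      ∑ t ∈ zone l m, av fun τ : Pm l => ind (ch τ t ∈ H ∧ V j (ch τ (t - T))) :=
  mul_nonneg (ind_nonneg _) (sum_nonneg fun _ _ => av_nonneg fun _ => ind_nonneg _)

lemma blk_psi_nonneg {l : ℕ} (U : B l → Prop) (a b : ℕ) : 0 ≤ pd U a + (1 - pd U b) := by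
  have h1 := pd_nonneg U a
  have h2 := pd_le_one U b
  linarith

lemma blk_phi_term_nonneg {l : ℕ} (m R : ℕ) (H : Finset (B l)) (lev : B l → ℕ)
    (V : ℕ → B l → Prop) (j : ℕ) :
    0 ≤ ∑ t ∈ zone l m,
      pd (fun x => x ∈ H ∧ lev x = j) t * (pd (V j) (t - R) + (1 - pd (V j) (t + R))) :=
  sum_nonneg fun _ _ => mul_nonneg (pd_nonneg _ _) (blk_psi_nonneg _ _ _)

/-- The mass of `H` is the mass of the levels below `j0` plus the mass of a covering property. -/
lemma blk_mu_le {l : ℕ} (m j0 : ℕ) (H : Finset (B l)) (lev : B l → ℕ)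
    (f : ℕ → Pm l → ℝ) (hf0 : ∀ t τ, 0 ≤ f t τ)
    (hf : ∀ t τ, ch τ t ∈ H → j0 ≤ lev (ch τ t) → 1 ≤ f t τ) :
    mu m H ≤ ∑ j ∈ range j0, ∑ t ∈ zone l m, pd (fun x => x ∈ H ∧ lev x = j) t +
      ∑ t ∈ zone l m, av (f t) := by
  rw [sum_comm, ← sum_add_distrib, mu]
  refine sum_le_sum fun t _ => ?_
  simp only [pd]
  rw [← av_sum, ← av_add]
  refine av_mono fun τ => ?_
  have hs : 0 ≤ ∑ j ∈ range j0, ind (ch τ t ∈ H ∧ lev (ch τ t) = j) :=
    sum_nonneg fun _ _ => ind_nonneg _
  by_cases hH : ch τ t ∈ H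
  · by_cases hj : j0 ≤ lev (ch τ t)
    · have h1 := hf t τ hH hj
      rw [ind_pos hH]
      linarith
    · have h1 : ind (ch τ t ∈ H) ≤ ∑ j ∈ range j0, ind (ch τ t ∈ H ∧ lev (ch τ t) = j) :=
        ind_le_sum _ _ fun _ => ⟨lev (ch τ t), mem_range.2 (by omega), hH, rfl⟩
      have h2 := hf0 t τ
      linarith
  · have h2 := hf0 t τ
    rw [ind_neg hH]
    linarith

/-- The two tails outside the window. -/
lemma blk_tails {l h : ℕ} (m T R c : ℕ) (H H' : Finset (B l)) (lev : B l → ℕ) (U : B l → Prop)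
    (hlev : Lev h H lev) (hU : IsUp U) (hs : H' ⊆ H) (hHU : ∀ y ∈ H', U y) :
    ∑ t ∈ zone l m, (av fun τ : Pm l => ind (ch τ t ∈ H' ∧ ¬ U (ch τ (t - T)))) ≤
      nu H' U T R c + h * (pd U (c - R) + (1 - pd U (c + R))) := by
  have e1 : (h : ℝ) * (pd U (c - R) + (1 - pd U (c + R))) =
      av fun τ : Pm l => (h : ℝ) * (ind (U (ch τ (c - R))) + ind (¬ U (ch τ (c + R)))) := by
    rw [av_mul_left, av_add]
    simp only [ind_not]
    rw [av_sub, av_const]
    rfl
  rw [e1, nu, ← av_sum, ← av_sum, ← av_add]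
  refine av_mono fun τ => ?_
  have hw : 0 ≤ ind (U (ch τ (c - R))) + ind (¬ U (ch τ (c + R))) :=
    add_nonneg (ind_nonneg _) (ind_nonneg _)
  have hpt : ∀ t ∈ zone l m, ind (ch τ t ∈ H' ∧ ¬ U (ch τ (t - T))) ≤
      (if t ∈ Icc (c - R) (c + R + T) then ind (ch τ t ∈ H' ∧ ¬ U (ch τ (t - T))) else 0) +
        ind (ch τ t ∈ H) * (ind (U (ch τ (c - R))) + ind (¬ U (ch τ (c + R)))) := by
    intro t _
    have h2 : 0 ≤ ind (ch τ t ∈ H) * (ind (U (ch τ (c - R))) + ind (¬ U (ch τ (c + R)))) :=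
      mul_nonneg (ind_nonneg _) hw
    by_cases ht : t ∈ Icc (c - R) (c + R + T)
    · rw [if_pos ht]
      linarith
    · rw [if_neg ht]
      by_cases hG : ch τ t ∈ H' ∧ ¬ U (ch τ (t - T))
      · rw [ind_pos hG, ind_pos (hs hG.1), one_mul, zero_add]
        rw [mem_Icc] at ht
        by_cases h3 : t < c - R
        · have h4 : U (ch τ (c - R)) := hU _ _ (ch_mono τ h3.le) (hHU _ hG.1)
          have h5 := ind_nonneg (¬ U (ch τ (c + R)))
          rw [ind_pos h4]
          linarith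
        · have h4 : ¬ U (ch τ (c + R)) := fun h5 =>
            hG.2 (hU _ _ (ch_mono τ (by omega)) h5)
          have h5 := ind_nonneg (U (ch τ (c - R)))
          rw [ind_pos h4]
          linarith
      · rw [ind_neg hG]
        linarith
  refine (sum_le_sum hpt).trans ?_
  rw [sum_add_distrib, ← sum_mul]
  refine add_le_add ?_ (mul_le_mul_of_nonneg_right ?_ hw)
  · rw [sum_ite_mem]
    exact sum_le_sum_of_subset_of_nonneg inter_subset_right fun _ _ _ => ind_nonneg _
  · refine le_trans (sum_le_sum_of_subset_of_nonneg ?_ fun _ _ _ => ind_nonneg _)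
      (chain_le hlev τ)
    intro t ht
    rw [zone, mem_Icc] at ht
    exact mem_range.2 (by omega)

/-- Paper, section B1. -/
theorem block_choice {l h m T R : ℕ} {e : ℝ} (H : Finset (B l)) (lev : B l → ℕ)
    (V : ℕ → B l → Prop) (h6 : 6 * m ≤ l) (hR : R ≤ m) (hT : T ≤ m) (he : 0 < e)
    (hlev : Lev h H lev) (hV : ∀ j, IsUp (V j)) (hHV : ∀ x ∈ H, ∀ j ≤ lev x, V j x)
    (h0 : ∀ x ∈ H, ¬ V (lev x) ∅) :
    ∃ (V' : B l → Prop) (H' : Finset (B l)) (c : ℕ), IsUp V' ∧ H' ⊆ H ∧ (∀ y ∈ H', V' y) ∧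
      3 * m ≤ c ∧ c + 3 * m ≤ l ∧ val h m T R e H lev V - h * e ≤ nu H' V' T R c := by
  classical
  have _ := hR
  have _ := hT
  have hgap : 0 ≤ gap h m T H V := sum_nonneg fun j _ => blk_gap_term_nonneg m T H V j
  have hPhi : 0 ≤ Phi h m R H lev V := sum_nonneg fun j _ => blk_phi_term_nonneg m R H lev V j
  have hh : (0 : ℝ) ≤ h := Nat.cast_nonneg h
  have hlow : ∀ j0 : ℕ, j0 ≤ h →
      (∀ j < j0, ∑ t ∈ zone l m, pd (fun x => x ∈ H ∧ lev x = j) t ≤ e) →
      ∑ j ∈ range j0, ∑ t ∈ zone l m, pd (fun x => x ∈ H ∧ lev x = j) t ≤ h * e := by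
    intro j0 hj0 hj
    have h1 := sum_le_card_nsmul (range j0) _ e fun j hjm => hj j (mem_range.1 hjm)
    rw [card_range, nsmul_eq_mul] at h1
    have h2 : (j0 : ℝ) ≤ h := by exact_mod_cast hj0
    exact h1.trans (mul_le_mul_of_nonneg_right h2 he.le)
  by_cases hex : ∃ j, j < h ∧ e ≤ ∑ t ∈ zone l m, pd (fun x => x ∈ H ∧ lev x = j) t
  · obtain ⟨hj0, hmass⟩ := Nat.find_spec hex
    have hmin : ∀ j < Nat.find hex,
        ∑ t ∈ zone l m, pd (fun x => x ∈ H ∧ lev x = j) t ≤ e := by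
      intro j hj
      have h1 := Nat.find_min hex hj
      by_contra h2
      exact h1 ⟨by omega, (not_le.1 h2).le⟩
    generalize Nat.find hex = j0 at hj0 hmass hmin
    have hZ : (zone l m).Nonempty := ⟨3 * m, by rw [zone, mem_Icc]; omega⟩
    obtain ⟨c, hc, hcmin⟩ := exists_min_image (zone l m)
      (fun t => pd (V j0) (t - R) + (1 - pd (V j0) (t + R))) hZ
    have hpsi0 := blk_psi_nonneg (V j0) (c - R) (c + R)
    have hpsi : (pd (V j0) (c - R) + (1 - pd (V j0) (c + R))) * e ≤ Phi h m R H lev V := by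
      refine (mul_le_mul_of_nonneg_left hmass hpsi0).trans ?_
      refine le_trans ?_ (single_le_sum (f := fun j => ∑ t ∈ zone l m,
        pd (fun x => x ∈ H ∧ lev x = j) t * (pd (V j) (t - R) + (1 - pd (V j) (t + R))))
        (fun j _ => blk_phi_term_nonneg m R H lev V j) (mem_range.2 hj0))
      rw [mul_sum]
      refine sum_le_sum fun t ht => ?_
      rw [mul_comm]
      exact mul_le_mul_of_nonneg_left (hcmin t ht) (pd_nonneg _ _)
    have hempty : ¬ V j0 ∅ := by
      intro hV0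
      have h1 : ∑ t ∈ zone l m, pd (fun x => x ∈ H ∧ lev x = j0) t ≤ 0 := by
        refine sum_nonpos fun t _ => av_le fun τ => le_of_eq (ind_neg ?_)
        rintro ⟨h2, h3⟩
        exact h0 _ h2 (h3 ▸ hV0)
      linarith
    have hsub : H.filter (fun x => j0 ≤ lev x) ⊆ H := filter_subset _ _
    have hHU : ∀ y ∈ H.filter (fun x => j0 ≤ lev x), V j0 y := fun y hy =>
      hHV y (mem_filter.1 hy).1 j0 (mem_filter.1 hy).2
    rw [zone, mem_Icc] at hc
    refine ⟨V j0, H.filter fun x => j0 ≤ lev x, c, hV j0, hsub, hHU, hc.1, by omega, ?_⟩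
    have h1 := blk_tails m T R c H _ lev (V j0) hlev (hV j0) hsub hHU
    have h2 := blk_mu_le m j0 H lev
      (fun t τ => ind (ch τ t ∈ H ∧ V j0 (ch τ (t - T))) +
        ind (ch τ t ∈ H.filter (fun x => j0 ≤ lev x) ∧ ¬ V j0 (ch τ (t - T))))
      (fun t τ => add_nonneg (ind_nonneg _) (ind_nonneg _)) (by
        intro t τ hH hj
        have a1 := ind_nonneg (ch τ t ∈ H ∧ V j0 (ch τ (t - T)))
        have a2 := ind_nonneg (ch τ t ∈ H.filter (fun x => j0 ≤ lev x) ∧ ¬ V j0 (ch τ (t - T)))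
        by_cases hv : V j0 (ch τ (t - T))
        · rw [ind_pos (And.intro hH hv)]
          linarith
        · rw [ind_pos (And.intro (mem_filter.2 ⟨hH, hj⟩) hv)]
          linarith)
    simp only [av_add] at h2
    rw [sum_add_distrib] at h2
    have h3 := hlow j0 hj0.le hmin
    have h4 : ∑ t ∈ zone l m, (av fun τ : Pm l => ind (ch τ t ∈ H ∧ V j0 (ch τ (t - T)))) ≤
        gap h m T H V := by
      refine le_trans ?_ (single_le_sum (f := fun j => ind (¬ V j ∅) *
        ∑ t ∈ zone l m, av fun τ : Pm l => ind (ch τ t ∈ H ∧ V j (ch τ (t - T))))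
        (fun j _ => blk_gap_term_nonneg m T H V j) (mem_range.2 hj0))
      rw [ind_pos hempty, one_mul]
    have h5 : (h : ℝ) * (pd (V j0) (c - R) + (1 - pd (V j0) (c + R))) ≤
        h * Phi h m R H lev V / e := by
      rw [mul_div_assoc]
      exact mul_le_mul_of_nonneg_left ((le_div_iff₀ he).2 hpsi) hh
    rw [val]
    linarith
  · refine ⟨fun _ => True, ∅, 3 * m, fun _ _ _ _ => trivial, empty_subset _,
      fun _ _ => trivial, le_rfl, by omega, ?_⟩
    have h1 := blk_nu_nonneg (∅ : Finset (B l)) (fun _ => True) T R (3 * m)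
    have h2 := blk_mu_le m h H lev (fun _ _ => 0) (fun _ _ => le_rfl) (by
      intro t τ hH hj
      have := hlev.1 _ hH
      omega)
    simp only [av_zero, sum_const_zero, add_zero] at h2
    have h3 := hlow h le_rfl fun j hj => by
      by_contra h4
      exact hex ⟨j, hj, (not_le.1 h4).le⟩
    have h5 : 0 ≤ h * Phi h m R H lev V / e := div_nonneg (mul_nonneg hh hPhi) he.le
    rw [val]
    linarith

end Pool.Agent.Work.MP_84019e_co.Cube
end

-- merged part: Pool.Agent.Work.MP_84019e_co.Cube.CubeSel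
section
set_option autoImplicit false

namespace Pool.Agent.Work.MP_84019e_co.Cube

open Finset

lemma cs_desc {a l : ℕ} (h : a ≤ l) (m : ℕ) :
    a.descFactorial m * l ^ m ≤ a ^ m * l.descFactorial m := by
  induction m with
  | zero => simp
  | succ m ih =>
    have h1 : (a - m) * l ≤ a * (l - m) := by
      rw [Nat.sub_mul, Nat.mul_sub]
      exact Nat.sub_le_sub_left (by rw [mul_comm m l]; exact Nat.mul_le_mul_right m h) _
    rw [Nat.descFactorial_succ, Nat.descFactorial_succ, pow_succ, pow_succ]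
    calc (a - m) * a.descFactorial m * (l ^ m * l)
        = ((a - m) * l) * (a.descFactorial m * l ^ m) := by ring
      _ ≤ (a * (l - m)) * (a ^ m * l.descFactorial m) := Nat.mul_le_mul h1 ih
      _ = a ^ m * a * ((l - m) * l.descFactorial m) := by ring

lemma cs_choose {a l : ℕ} (h : a ≤ l) (m : ℕ) :
    a.choose m * l ^ m ≤ a ^ m * l.choose m := by
  have h1 := cs_desc h m
  rw [Nat.descFactorial_eq_factorial_mul_choose, Nat.descFactorial_eq_factorial_mul_choose] at h1
  refine Nat.le_of_mul_le_mul_left (c := m.factorial) ?_ (Nat.factorial_pos m)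
  calc m.factorial * (a.choose m * l ^ m) = m.factorial * a.choose m * l ^ m := by ring
    _ ≤ a ^ m * (m.factorial * l.choose m) := h1
    _ = m.factorial * (a ^ m * l.choose m) := by ring

lemma cs_shift (f : ℕ → ℝ) (h0 : ∀ t, 0 ≤ f t) (h1 : ∀ t, f t ≤ 1) (a d M : ℕ) :
    ∑ i ∈ range M, f (a + d + i) ≤ ∑ i ∈ range M, f (a + i) + d := by
  have e1 := sum_range_add (fun i => f (a + i)) d M
  have e2 := sum_range_add (fun i => f (a + i)) M d
  rw [add_comm M d, e1] at e2
  have e3 : 0 ≤ ∑ i ∈ range d, f (a + i) := sum_nonneg fun i _ => h0 _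
  have e4 : ∑ i ∈ range d, f (a + (M + i)) ≤ d := by
    have := sum_le_card_nsmul (range d) (fun i => f (a + (M + i))) 1 fun i _ => h1 _
    simpa using this
  have e5 : ∑ i ∈ range M, f (a + d + i) = ∑ i ∈ range M, f (a + (d + i)) :=
    sum_congr rfl fun i _ => by rw [add_assoc]
  linarith

lemma cs_av {l M : ℕ} (f : Pm l → ℕ → ℝ) (w : ℕ → ℝ)
    (h : ∀ i < M, (av fun τ : Pm l => f τ i) = w i) :
    (av fun ω : Pm l × Fin M => f ω.1 ω.2) = (∑ i ∈ range M, w i) / M := by
  rw [av_prod, av_comm, ← av_fin]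
  congr 1
  funext i
  exact h i i.2

lemma cs_card_cut {l m k T : ℕ} (h : k + m ≤ l) (hT : T ≤ k) (A : B m) :
    (place l k A \ init l T).card = k + A.card - T := by
  rw [card_sdiff_of_subset ((init_mono hT).trans (init_subset_place k A)), card_place h,
    card_init (by omega)]

/-- The first `m` positions rarely fall inside a given set. -/
lemma coll {l m : ℕ} (hm : m ≤ l) (y : B l) :
    (av fun τ : Pm l => ind (ch τ m ⊆ y)) ≤ ((y.card : ℝ) / l) ^ m := by
  classical
  have h1 : (av fun τ : Pm l => ind (ch τ m ⊆ y)) = pd (· ∈ y.powerset) m := by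
    simp only [pd, mem_powerset]
  have h2 : (y.powerset.filter fun A => A.card = m) = y.powersetCard m := by
    rw [powersetCard_eq_filter]
  have hy : y.card ≤ l := by simpa using card_le_univ y
  have h3 : (0 : ℝ) < l.choose m := by exact_mod_cast Nat.choose_pos hm
  have h4 : (0 : ℝ) < (l : ℝ) ^ m := by
    rcases Nat.eq_zero_or_pos m with h | h
    · simp [h]
    · have : 0 < l := by omega
      positivity
  rw [h1, pd_eq _ hm, h2, card_powersetCard, div_pow, div_le_div_iff₀ h3 h4]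
  exact_mod_cast cs_choose hy m

/-- Paper, section A. -/
theorem cube_sel {l m S T N g R c s : ℕ} {x : ℝ} (V : B l → Prop) (hV : IsUp V)
    (H : Finset (B l)) (hH : ∀ y ∈ H, V y) (hN : 0 < N) (hg : 0 < g) (h1 : N * g ≤ m)
    (h2 : s + S ≤ m) (h3 : 2 * R + T + S + 1 ≤ N * g) (h4 : 3 * m ≤ c) (h5 : c + 3 * m ≤ l)
    (hx : 0 < x) (hκ : 0 ≤ 1 - (T : ℝ) / g - N / x ^ 2) :
    ∃ G ⊆ lay m s S, Emb H G ∧
      (lay m s S).card * (nu H V T R c * (1 - (T : ℝ) / g - N / x ^ 2) / g -
        (N : ℝ) ^ 2 * (1 - (m : ℝ) / l) ^ m) ≤ G.card * ((S : ℝ) / g + 2 * x + 1) := by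
  classical
  obtain ⟨M, hM⟩ : ∃ M, M = N * g := ⟨_, rfl⟩
  have hM0 : 0 < M := hM ▸ Nat.mul_pos hN hg
  rw [← hM] at h1 h3
  obtain ⟨D, hD⟩ : ∃ D, D + T + R + s + S = c := ⟨c - (T + R + s + S), by omega⟩
  have : Nonempty (Fin M) := ⟨⟨0, hM0⟩⟩
  have hMr : (M : ℝ) = N * g := by rw [hM]; push_cast; ring
  have hNr : (0 : ℝ) < N := by exact_mod_cast hN
  have hgr : (0 : ℝ) < g := by exact_mod_cast hg
  have hMp : (0 : ℝ) < M := by exact_mod_cast hM0
  have hlr : (0 : ℝ) < l := by exact_mod_cast (by omega : 0 < l)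
  have hk : ∀ i < M, D + T + i + m ≤ l := fun i hi => by omega
  have hcA : ∀ A : B m, A.card ≤ m := fun A => by simpa using card_le_univ A
  have hb : ∀ A : B m, (av fun ω : Pm l × Fin M =>
      ind (V (img ω.1 (place l (D + T + ω.2) A \ init l T)))) =
      (∑ i ∈ range M, pd V (D + A.card + i)) / M := fun A =>
    cs_av (fun τ i => ind (V (img τ (place l (D + T + i) A \ init l T)))) _ fun i hi => by
      rw [av_img, cs_card_cut (hk i hi) (by omega)]
      congr 1
      omega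
  have ha : ∀ A : B m, (av fun ω : Pm l × Fin M =>
      ind (V (img ω.1 (place l (D + T + ω.2) A)))) =
      (∑ i ∈ range M, pd V (D + A.card + T + i)) / M := fun A =>
    cs_av (fun τ i => ind (V (img τ (place l (D + T + i) A)))) _ fun i hi => by
      rw [av_img, card_place (hk i hi)]
      congr 1
      omega
  have hc0 : (0 : ℝ) ≤ 1 - (m : ℝ) / l := by
    rw [sub_nonneg, div_le_one hlr]
    exact_mod_cast (by omega : m ≤ l)
  have e1 : (N : ℝ) * (T / M) = T / g := by rw [hMr]; field_simp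
  have e2 : (N : ℝ) * (S / M) = S / g := by rw [hMr]; field_simp
  obtain ⟨G, hG, hE, hin⟩ := order_stat (Ω := Pm l × Fin M) N hN (lay m s S) H
    (fun ω A => img ω.1 (place l (D + T + ω.2) A))
    (fun ω A => V (img ω.1 (place l (D + T + ω.2) A)))
    (fun ω A => V (img ω.1 (place l (D + T + ω.2) A \ init l T)))
    (fun ω A => img ω.1 (place l (D + T + ω.2) A) ∈ H ∧
      ¬ V (img ω.1 (place l (D + T + ω.2) A \ init l T)))
    (fun ω y => ch ω.1 m ⊆ y)
    (fun ω A A' h => img_subset.2 (place_mono _ h))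
    (fun ω => (img_inj ω.1).comp (place_inj (hk _ ω.2.2)))
    (fun ω A A' h => hV _ _ (img_subset.2 (place_mono _ h)))
    (fun ω A A' h => hV _ _ (img_subset.2 (sdiff_subset_sdiff (place_mono _ h) subset_rfl)))
    (fun ω A => hV _ _ (img_subset.2 sdiff_subset))
    (fun ω A h => ⟨hH _ h.1, h.2, h.1⟩)
    (fun ω A => img_subset.2 ((init_mono (by omega)).trans (init_subset_place _ A)))
    (p := nu H V T R c / M) (q := T / M) (c := (1 - (m : ℝ) / l) ^ m)
    (u := (∑ i ∈ range M, pd V (D + s + i)) / M) (Δ := S / M) hx (by positivity) (by positivity)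
    (pow_nonneg hc0 m)
    (fun A hA => by
      obtain ⟨hA1, hA2⟩ := mem_lay.1 hA
      have hw := cs_av (M := M) (fun τ i => ind (img τ (place l (D + T + i) A) ∈ H ∧
        ¬ V (img τ (place l (D + T + i) A \ init l T))))
        (fun i => av fun τ : Pm l => ind (ch τ (D + T + A.card + i) ∈ H ∧
          ¬ V (ch τ (D + T + A.card + i - T)))) fun i hi => by
          have := hk i hi
          have := hcA A
          refine sym_two (I := place l (D + T + i) A) (J := place l (D + T + i) A \ init l T)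
            (I' := init l (D + T + A.card + i)) (J' := init l (D + T + A.card + i - T))
            ?_ ?_ ?_ fun y z => ind (y ∈ H ∧ ¬ V z)
          · rw [card_place (hk i hi), card_init (by omega)]
            omega
          · rw [cs_card_cut (hk i hi) (by omega), card_init (by omega)]
            omega
          · rw [inter_eq_right.2 sdiff_subset, inter_eq_right.2 (init_mono (by omega)),
              cs_card_cut (hk i hi) (by omega), card_init (by omega)]
            omega
      rw [hw]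
      refine div_le_div_of_nonneg_right ?_ hMp.le
      have e := sum_Ico_eq_sum_range (fun t => av fun τ : Pm l => ind (ch τ t ∈ H ∧
        ¬ V (ch τ (t - T)))) (D + T + A.card) (D + T + A.card + M)
      rw [Nat.add_sub_cancel_left] at e
      rw [← e, nu]
      refine sum_le_sum_of_subset_of_nonneg (fun t ht => ?_) fun t _ _ =>
        av_nonneg fun _ => ind_nonneg _
      rw [mem_Icc] at ht
      rw [mem_Ico]
      omega)
    (fun A _ => by
      have e : (av fun ω : Pm l × Fin M => ind (V (img ω.1 (place l (D + T + ω.2) A)) ∧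
          ¬ V (img ω.1 (place l (D + T + ω.2) A \ init l T)))) =
          av fun ω : Pm l × Fin M => ind (V (img ω.1 (place l (D + T + ω.2) A))) -
            ind (V (img ω.1 (place l (D + T + ω.2) A \ init l T))) := by
        congr 1
        funext ω
        by_cases hb' : V (img ω.1 (place l (D + T + ω.2) A \ init l T))
        · rw [ind_neg fun h => h.2 hb', ind_pos hb',
            ind_pos (hV _ _ (img_subset.2 sdiff_subset) hb'), sub_self]
        · rw [ind_neg hb', sub_zero]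
          exact ind_congr (and_iff_left hb')
      rw [e, av_sub, ha, hb, ← sub_div]
      refine div_le_div_of_nonneg_right ?_ hMp.le
      have := cs_shift (pd V) (pd_nonneg V) (pd_le_one V) (D + A.card) T M
      linarith)
    (fun A hA => by
      obtain ⟨hA1, hA2⟩ := mem_lay.1 hA
      refine av_le fun ω => ?_
      rw [av_prod]
      simp only [av_const]
      refine (coll (by omega) _).trans (pow_le_pow_left₀ (by positivity) ?_ m)
      rw [card_img, card_place (hk _ ω.2.2), le_sub_iff_add_le, ← add_div, div_le_one hlr]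
      have := ω.2.2
      exact_mod_cast (by omega : D + T + ω.2 + A.card + m ≤ l))
    (fun A hA => by
      obtain ⟨hA1, hA2⟩ := mem_lay.1 hA
      rw [hb, ← add_div]
      refine ⟨div_le_div_of_nonneg_right ?_ hMp.le, div_le_div_of_nonneg_right ?_ hMp.le⟩
      · exact sum_le_sum fun i _ => pd_mono hV (by omega)
      · refine le_trans ?_ (cs_shift (pd V) (pd_nonneg V) (pd_le_one V) (D + s) S M)
        exact sum_le_sum fun i _ => pd_mono hV (by omega))
    (by rw [e1]; exact hκ)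
  refine ⟨G, hG, hE, ?_⟩
  rw [e1, e2] at hin
  refine le_trans (le_of_eq ?_) hin
  rw [hMr]
  field_simp

/-- The same with a lower bound `b` for the binomial coefficients of the window. -/
theorem cube_sel' {l m S T N g R c s : ℕ} {x b : ℝ} (V : B l → Prop) (hV : IsUp V)
    (H : Finset (B l)) (hH : ∀ y ∈ H, V y) (hN : 0 < N) (hg : 0 < g) (h1 : N * g ≤ m)
    (h2 : s + S ≤ m) (h3 : 2 * R + T + S + 1 ≤ N * g) (h4 : 3 * m ≤ c) (h5 : c + 3 * m ≤ l)
    (hx : 0 < x) (hκ : 0 ≤ 1 - (T : ℝ) / g - N / x ^ 2) (hS : 0 < S) (hb0 : 0 ≤ b)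
    (hb : ∀ t, s ≤ t → t < s + S → b ≤ m.choose t) :
    ∃ G ⊆ lay m s S, Emb H G ∧
      b * (alpha S T N g x * nu H V T R c - theta l m S N) ≤ G.card := by
  obtain ⟨G, hG, hE, hin⟩ := cube_sel V hV H hH hN hg h1 h2 h3 h4 h5 hx hκ
  refine ⟨G, hG, hE, ?_⟩
  have hgr : (0 : ℝ) < g := by exact_mod_cast hg
  have hSr : (0 : ℝ) < S := by exact_mod_cast hS
  have hm0 : 0 < m := lt_of_lt_of_le (Nat.mul_pos hN hg) h1
  have hlr : (0 : ℝ) < l := by exact_mod_cast (by omega : 0 < l)
  have hc0 : (0 : ℝ) ≤ 1 - (m : ℝ) / l := by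
    rw [sub_nonneg, div_le_one hlr]
    exact_mod_cast (by omega : m ≤ l)
  have hJ : S * b ≤ ((lay m s S).card : ℝ) := by
    rw [card_lay]
    push_cast
    have := card_nsmul_le_sum (Ico s (s + S)) (fun t => (m.choose t : ℝ)) b fun t ht =>
      hb t (mem_Ico.1 ht).1 (mem_Ico.1 ht).2
    simpa using this
  obtain ⟨E, hEq⟩ : ∃ E, E = nu H V T R c * (1 - (T : ℝ) / g - N / x ^ 2) / g -
    (N : ℝ) ^ 2 * (1 - (m : ℝ) / l) ^ m := ⟨_, rfl⟩
  obtain ⟨D, hD⟩ : ∃ D, D = (S : ℝ) / g + 2 * x + 1 := ⟨_, rfl⟩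
  have hD1 : 1 ≤ D := by
    have : (0 : ℝ) ≤ (S : ℝ) / g + 2 * x := by positivity
    linarith
  have hD0 : 0 < D := by linarith
  have hθ : 0 ≤ theta l m S N := by
    have := pow_nonneg hc0 m
    rw [theta]
    positivity
  have e1 : S * E / D = alpha S T N g x * nu H V T R c - theta l m S N / D := by
    rw [hEq, hD, alpha, theta]
    field_simp
    ring
  have e2 : alpha S T N g x * nu H V T R c - theta l m S N ≤ S * E / D := by
    have := div_le_self hθ hD1
    linarith
  rw [← hEq, ← hD] at hin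
  refine (mul_le_mul_of_nonneg_left e2 hb0).trans ?_
  rw [← mul_div_assoc, div_le_iff₀ hD0]
  rcases le_total 0 E with h | h
  · refine le_trans ?_ hin
    rw [← mul_assoc, mul_comm b]
    exact mul_le_mul_of_nonneg_right hJ h
  · have a1 : b * (S * E) ≤ 0 :=
      mul_nonpos_of_nonneg_of_nonpos hb0 (mul_nonpos_of_nonneg_of_nonpos hSr.le h)
    have a2 : 0 ≤ (G.card : ℝ) * D := by positivity
    linarith

end Pool.Agent.Work.MP_84019e_co.Cube
end

-- merged part: Pool.Agent.Work.MP_84019e_co.Cube.OneCube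
section
set_option autoImplicit false

namespace Pool.Agent.Work.MP_84019e_co.Cube

open Finset

lemma oc_mono {n l : ℕ} (π : Pm n) (k : ℕ) : Monotone (blk π k : B l → B n) :=
  fun _ _ h => img_subset.2 (place_mono k h)

lemma oc_inj {n l k : ℕ} (π : Pm n) (h : k + l ≤ n) : Function.Injective (blk π k : B l → B n) :=
  (img_inj π).comp (place_inj h)

lemma oc_mem {n l m k : ℕ} {F : Finset (B n)} {π : Pm n} {A : B l} :
    A ∈ blkH F l m π k ↔ blk π k A ∈ F ∧ A.card ∈ zone l m := by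
  simp only [blkH, mem_filter, mem_univ, true_and]

/-- Blocks that start at least `l` levels apart lie one above the other. -/
lemma oc_lt {n l a b : ℕ} (π : Pm n) (hab : a + l ≤ b) (hb : b + l ≤ n) (A A' : B l)
    (hA' : 0 < A'.card) : blk π a A < blk π b A' := by
  have h1 : blk π a A ⊆ blk π b A' :=
    img_subset.2 ((place_subset_init a A).trans ((init_mono hab).trans (init_subset_place b A')))
  refine lt_of_le_of_ne h1 fun e => ?_
  have h2 := congrArg card e
  have h3 : A.card ≤ l := by simpa using card_le_univ A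
  rw [blk, blk, card_img, card_img, card_place (by omega), card_place hb] at h2
  omega

lemma oc_val_empty {l h m T R : ℕ} {e : ℝ} (he : 0 < e) (lev : B l → ℕ) (V : ℕ → B l → Prop) :
    val h m T R e ∅ lev V ≤ 0 := by
  have hgap : 0 ≤ gap h m T ∅ V := sum_nonneg fun j _ => blk_gap_term_nonneg m T ∅ V j
  have hPhi : 0 ≤ Phi h m R ∅ lev V := sum_nonneg fun j _ => blk_phi_term_nonneg m R ∅ lev V j
  have h1 : mu m (∅ : Finset (B l)) ≤ 0 :=
    sum_nonpos fun t _ => av_le fun τ => le_of_eq (ind_neg (notMem_empty _))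
  have h2 : 0 ≤ h * Phi h m R ∅ lev V / e :=
    div_nonneg (mul_nonneg (Nat.cast_nonneg h) hPhi) he.le
  rw [val]
  linarith

lemma oc_alpha {S T N g : ℕ} {x : ℝ} (hx : 0 < x) (hκ : 0 ≤ 1 - (T : ℝ) / g - N / x ^ 2) :
    0 ≤ alpha S T N g x := div_nonneg hκ (by positivity)

lemma oc_theta {l m : ℕ} (S N : ℕ) (hm : m ≤ l) (hl : 0 < l) : 0 ≤ theta l m S N := by
  have hlr : (0 : ℝ) < l := by exact_mod_cast hl
  have hc0 : (0 : ℝ) ≤ 1 - (m : ℝ) / l := by
    rw [sub_nonneg, div_le_one hlr]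
    exact_mod_cast hm
  have := pow_nonneg hc0 m
  rw [theta]
  positivity

/-- One block gives one window. -/
lemma oc_block {n h w l m S T N g R s k : ℕ} {x e b : ℝ} {F : Finset (B n)}
    {lev : B n → ℕ} (hlev : Lev h F lev) (hF : ∀ A ∈ F, w ≤ A.card ∧ A.card + w ≤ n)
    (h6 : 6 * m ≤ l) (hN : 0 < N) (hg : 0 < g) (h1 : N * g ≤ m)
    (h2 : s + S ≤ m) (h3 : 2 * R + T + S + 1 ≤ N * g) (hS : 0 < S)
    (hx : 0 < x) (he : 0 < e) (hκ : 0 ≤ 1 - (T : ℝ) / g - N / x ^ 2) (hb0 : 0 ≤ b)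
    (hb : ∀ t, s ≤ t → t < s + S → b ≤ m.choose t) (π : Pm n) (hk : k + l ≤ n) :
    ∃ G ⊆ lay m s S, Emb ((blkH F l m π k).image (blk π k)) G ∧
      b * (alpha S T N g x * (blkVal h l m T R e F lev w π k - h * e) - theta l m S N) ≤
        G.card := by
  have hsm : StrictMono (blk π k : B l → B n) :=
    (oc_mono π k).strictMono_of_injective (oc_inj π hk)
  obtain ⟨V', H', c, hV', hsub, hHV, c1, c2, hnu⟩ := block_choice (h := h) (T := T) (R := R)
    (blkH F l m π k) (fun A => lev (blk π k A)) (fun j A => upS F lev w j (blk π k A)) h6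
    (by omega) (by omega) he
    ⟨fun A hA => hlev.1 _ (oc_mem.1 hA).1, fun A hA A' hA' hlt =>
      hlev.2 _ (oc_mem.1 hA).1 _ (oc_mem.1 hA').1 (hsm hlt)⟩
    (fun j A A' hAA => upS_up F lev w j _ _ (oc_mono π k hAA))
    (fun A hA j hj => upS_of_mem w (oc_mem.1 hA).1 hj)
    (fun A hA => upS_min hlev hF (oc_mem.1 hA).1 (hsm (by
      have a1 := (mem_Icc.1 (oc_mem.1 hA).2).1
      exact (card_pos.1 (by omega : 0 < A.card)).empty_ssubset)))
  obtain ⟨G, hG, hE, hin⟩ := cube_sel' V' hV' H' hHV hN hg h1 h2 h3 c1 c2 hx hκ hS hb0 hb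
  refine ⟨G, hG, (hE.mono hsub).map _ (oc_inj π hk) (oc_mono π k), le_trans ?_ hin⟩
  exact mul_le_mul_of_nonneg_left
    (sub_le_sub_right (mul_le_mul_of_nonneg_left hnu (oc_alpha hx hκ)) _) hb0

/-- Paper, one-cube transfer. -/
theorem one_cube {n h w l m S T N g R M T' s : ℕ} {x e τ b : ℝ} {F : Finset (B n)}
    {lev : B n → ℕ} (hlev : Lev h F lev) (hF : ∀ A ∈ F, w ≤ A.card ∧ A.card + w ≤ n)
    (hw : 2 * w ≤ n) (hl : l ≤ w) (h6 : 6 * m ≤ l) (hN : 0 < N) (hg : 0 < g) (h1 : N * g ≤ m)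
    (h2 : s + h * S ≤ m) (h3 : 2 * R + T + S + 1 ≤ N * g) (hS : 0 < S) (hR : 0 < R) (hM : 0 < M)
    (hx : 0 < x) (he : 0 < e) (hτ : 0 ≤ τ) (hκ : 0 ≤ 1 - (T : ℝ) / g - N / x ^ 2) (hb0 : 0 ≤ b)
    (hb : ∀ t, s ≤ t → t < s + h * S → b ≤ m.choose t)
    (hY : ∀ j < h, Y (upS F lev w j) T' - Y (upS F lev w j) M ≤ τ) :
    ∃ G ⊆ lay m s (h * S), Emb F G ∧
      b * (alpha S T N g x * ((1 - 6 * (m : ℝ) / l) * Lub F - ∑ a ∈ Ico T l, zg h F lev w a -
        2 * (h : ℝ) ^ 2 * beta l M T' R τ / e - (h : ℝ) ^ 2 * e) - h * theta l m S N) ≤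
        G.card := by
  classical
  have hm : 0 < m := by omega
  obtain ⟨π, o, hsum⟩ := blocks_exist (T := T) hlev hF hw hl hm h6 (by omega) (by omega) hM hR
    hτ he hY
  obtain ⟨K, hK⟩ : ∃ K, K = (range (n - l + 1)).filter fun k => k % l = o := ⟨_, rfl⟩
  rw [← hK] at hsum
  obtain ⟨I, hI⟩ : ∃ I, I = K.filter fun k => (blkH F l m π k).Nonempty := ⟨_, rfl⟩
  have mI : ∀ k ∈ I, k + l ≤ n ∧ k % l = o ∧ (blkH F l m π k).Nonempty := by
    intro k hk
    rw [hI, mem_filter, hK, mem_filter, mem_range] at hk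
    exact ⟨by omega, hk.1.2, hk.2⟩
  have hlt : ∀ a ∈ I, ∀ c ∈ I, a < c → ∀ y ∈ (blkH F l m π a).image (blk π a),
      ∀ z ∈ (blkH F l m π c).image (blk π c), y < z := by
    intro a ha c hc hac y hy z hz
    obtain ⟨A, -, rfl⟩ := mem_image.1 hy
    obtain ⟨A', hA', rfl⟩ := mem_image.1 hz
    have a1 := (mem_Icc.1 (oc_mem.1 hA').2).1
    have a2 : l ∣ c - a :=
      (Nat.modEq_iff_dvd' hac.le).1 ((mI a ha).2.1.trans (mI c hc).2.1.symm)
    have a3 := Nat.le_of_dvd (by omega) a2
    exact oc_lt π (by omega) (mI c hc).1 A A' (by omega)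
  have hsubF : ∀ a ∈ I, (blkH F l m π a).image (blk π a) ⊆ F := by
    intro a _ y hy
    obtain ⟨A, hA, rfl⟩ := mem_image.1 hy
    exact (oc_mem.1 hA).1
  have hcard : I.card ≤ h := by
    choose! y hy using fun a ha => ((mI a ha).2.2.image (blk π a))
    have a1 : ∀ a ∈ I, ∀ c ∈ I, a < c → lev (y a) < lev (y c) := fun a ha c hc hac =>
      hlev.2 _ (hsubF a ha (hy a ha)) _ (hsubF c hc (hy c hc))
        (hlt a ha c hc hac _ (hy a ha) _ (hy c hc))
    rw [← card_range h]
    refine card_le_card_of_injOn (fun a => lev (y a))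
      (fun a ha => mem_coe.2 (mem_range.2 (hlev.1 _ (hsubF a ha (hy a ha))))) fun a ha c hc e => ?_
    rcases lt_trichotomy a c with d | d | d
    · exact absurd e (a1 a ha c hc d).ne
    · exact d
    · exact absurd e (a1 c hc a ha d).ne'
  have hrk : ∀ a ∈ I, (I.filter (· < a)).card * S + S ≤ h * S := by
    intro a ha
    have a1 : (I.filter (· < a)).card < I.card :=
      card_lt_card ⟨filter_subset _ _, fun hs => lt_irrefl a (mem_filter.1 (hs ha)).2⟩
    have a2 := Nat.mul_le_mul_right S (show (I.filter (· < a)).card + 1 ≤ h by omega)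
    rwa [Nat.add_mul, Nat.one_mul] at a2
  choose! G hG hE hin using fun a (ha : a ∈ I) =>
    oc_block (s := s + (I.filter (· < a)).card * S) hlev hF h6 hN hg h1
      (by have := hrk a ha; omega) h3 hS hx he hκ hb0
      (fun t t1 t2 => hb t (by omega) (by have := hrk a ha; omega)) π (mI a ha).1
  obtain ⟨u1, u2, u3⟩ := emb_union I F (fun a => (blkH F l m π a).image (blk π a)) G hsubF hlt
    fun a ha => ⟨hG a ha, hE a ha⟩
  refine ⟨I.biUnion G, fun A hA => ?_, u2, ?_⟩
  · have a1 := mem_lay.1 (u1 hA)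
    have a2 := Nat.mul_le_mul_right S hcard
    exact mem_lay.2 ⟨a1.1, by omega⟩
  have hKI : ∑ k ∈ K, blkVal h l m T R e F lev w π k ≤
      ∑ k ∈ I, blkVal h l m T R e F lev w π k := by
    rw [hI, sum_filter]
    refine sum_le_sum fun k _ => ?_
    split_ifs with hk
    · exact le_rfl
    · rw [blkVal, not_nonempty_iff_eq_empty.1 hk]
      exact oc_val_empty he _ _
  have hα := oc_alpha (S := S) hx hκ
  have hθ := oc_theta S N (show m ≤ l by omega) (by omega)
  have hc : (I.card : ℝ) ≤ h := by exact_mod_cast hcard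
  have s1 := sum_le_sum hin
  rw [← mul_sum, sum_sub_distrib, ← mul_sum, sum_sub_distrib, sum_const, sum_const, nsmul_eq_mul,
    nsmul_eq_mul] at s1
  rw [u3]
  push_cast
  refine le_trans (mul_le_mul_of_nonneg_left (sub_le_sub (mul_le_mul_of_nonneg_left ?_ hα)
    (mul_le_mul_of_nonneg_right hc hθ)) hb0) s1
  have s2 := mul_le_mul_of_nonneg_right hc (mul_nonneg (Nat.cast_nonneg h) he.le)
  have s3 : (h : ℝ) ^ 2 * e = h * (h * e) := by ring
  linarith

end Pool.Agent.Work.MP_84019e_co.Cube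
end
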