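import Pool.Agent.Work.MP_84019e_co.GridDefs
import Pool.Agent.Work.MP_84019e_co.Cube.OneCube

-- merged part: Pool.Agent.Work.MP_84019e_co.GridGeom
section
-- merged part: Pool.Agent.Work.MP_84019e_co.GridRad
section
-- merged part: Pool.Agent.Work.MP_84019e_co.GridPull
section
set_option autoImplicit false

namespace Pool.Agent.Work.MP_84019e_co

open Finset

variable {P : Type} [PartialOrder P]

/-- `f` embeds the part `Q` of `P` weakly into `R`. -/
def Emb {X : Type} [PartialOrder X] (Q : Finset P) (R : Finset X) (f : P → X) : Prop :=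
  Set.InjOn f Q ∧ (∀ p ∈ Q, f p ∈ R) ∧ ∀ p ∈ Q, ∀ q ∈ Q, p ≤ q → f p ≤ f q

/-- Every part of `P` that embeds into `R'` embeds into `R` away from any `|P|` points. -/
def Robust (P : Type) [PartialOrder P] [Fintype P] {X : Type} [PartialOrder X] [DecidableEq X]
    (R' R : Finset X) : Prop :=
  ∀ (Q : Finset P) (f : P → X), Emb Q R' f → ∀ U : Finset X, U.card ≤ Fintype.card P →
    ∃ g, Emb Q (R \ U) g

lemma exists_clean [Fintype P] {X : Type} [PartialOrder X] [DecidableEq X] (R : Finset X) :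
    ∃ R' ⊆ R, R.card ≤ R'.card + 2 ^ Fintype.card P * Fintype.card P ∧ Robust P R' R := by
  classical
  have h1 : ∀ Q : Finset P, ∃ U : Finset X, U.card ≤ Fintype.card P ∧
      ((∃ g, Emb Q (R \ U) g) → ∀ U' : Finset X, U'.card ≤ Fintype.card P →
        ∃ g, Emb Q (R \ U') g) := by
    intro Q
    by_cases h : ∀ U' : Finset X, U'.card ≤ Fintype.card P → ∃ g, Emb Q (R \ U') g
    · exact ⟨∅, by simp, fun _ => h⟩
    · push Not at h
      obtain ⟨U, hU, hn⟩ := h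
      exact ⟨U, hU, fun ⟨g, hg⟩ => absurd hg (hn g)⟩
  choose U hU hR using h1
  refine ⟨R \ univ.biUnion U, sdiff_subset, ?_, ?_⟩
  · have h2 : (univ.biUnion U).card ≤ 2 ^ Fintype.card P * Fintype.card P := by
      calc (univ.biUnion U).card ≤ ∑ Q, (U Q).card := card_biUnion_le
        _ ≤ ∑ _Q : Finset P, Fintype.card P := sum_le_sum fun Q _ => hU Q
        _ = _ := by simp
    have h3 := le_card_sdiff (univ.biUnion U) R
    omega
  · intro Q f hf U' hU'
    refine hR Q ⟨f, hf.1, fun p hp => ?_, hf.2.2⟩ U' hU'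
    have := mem_sdiff.1 (hf.2.1 p hp)
    exact mem_sdiff.2 ⟨this.1, fun h => this.2 (mem_biUnion.2 ⟨Q, mem_univ _, h⟩)⟩

/-- Copies of cleaned pieces form a weak `P`-free family when a comparability between two
different copies forces the two original pieces to be completely comparable. -/
lemma weakFree_copies [Fintype P] {X Y ι : Type} [PartialOrder X] [PartialOrder Y]
    [DecidableEq X] [DecidableEq Y] {F : Finset X} (hF : WeakFree P F) (I : Finset ι)
    (orig cl : ι → Finset X) (T : ι → X → Y) (hsub : ∀ i ∈ I, orig i ⊆ F)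
    (hrob : ∀ i ∈ I, Robust P (cl i) (orig i))
    (hrefl : ∀ i ∈ I, ∀ x ∈ cl i, ∀ y ∈ cl i, T i x ≤ T i y → x ≤ y)
    (hcross : ∀ i ∈ I, ∀ i' ∈ I, i ≠ i' → ∀ x ∈ cl i, ∀ y ∈ cl i', T i x ≤ T i' y →
      ∀ a ∈ orig i, ∀ b ∈ orig i', a ≤ b) :
    WeakFree P (I.biUnion fun i => (cl i).image (T i)) := by
  classical
  rintro ⟨f, hf, hm, ho⟩
  have h1 : ∀ p, ∃ i ∈ I, ∃ x ∈ cl i, T i x = f p := fun p => by
    obtain ⟨i, hi, hx⟩ := mem_biUnion.1 (hm p)
    obtain ⟨x, hx, hT⟩ := mem_image.1 hx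
    exact ⟨i, hi, x, hx, hT⟩
  choose idx hidx x hx hT using h1
  have hemb : ∀ i ∈ I, Emb (univ.filter fun p => idx p = i) (cl i) x := by
    intro i hi
    refine ⟨fun p hp q hq hpq => ?_, fun p hp => ?_, fun p hp q hq hpq => ?_⟩
    · have hp' : idx p = i := (mem_filter.1 hp).2
      have hq' : idx q = i := (mem_filter.1 hq).2
      apply hf
      rw [← hT p, ← hT q, hp', hq', hpq]
    · have hp' : idx p = i := (mem_filter.1 hp).2
      exact hp' ▸ hx p
    · have hp' : idx p = i := (mem_filter.1 hp).2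
      have hq' : idx q = i := (mem_filter.1 hq).2
      refine hrefl i hi _ (hp' ▸ hx p) _ (hq' ▸ hx q) ?_
      have := ho p q hpq
      rwa [← hT p, ← hT q, hp', hq'] at this
  have key : ∀ J : Finset ι, J ⊆ I → ∃ g : P → X,
      (∀ p q, idx p ∈ J → idx q ∈ J → g p = g q → p = q) ∧
      (∀ p, idx p ∈ J → g p ∈ orig (idx p)) ∧
      ∀ p q, idx p ∈ J → idx p = idx q → p ≤ q → g p ≤ g q := by
    intro J
    induction J using Finset.induction_on with
    | empty => exact fun _ => ⟨x, by simp, by simp, by simp⟩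
    | insert i J hi ih =>
      intro hJ
      obtain ⟨g, hg1, hg2, hg3⟩ := ih ((subset_insert _ _).trans hJ)
      have hiI : i ∈ I := hJ (mem_insert_self _ _)
      obtain ⟨g', hg'1, hg'2, hg'3⟩ := hrob i hiI _ x (hemb i hiI) (univ.image g)
        (card_image_le.trans (by simp))
      have hmem : ∀ p, idx p = i → p ∈ univ.filter fun p => idx p = i :=
        fun p hp => mem_filter.2 ⟨mem_univ _, hp⟩
      refine ⟨fun p => if idx p = i then g' p else g p, ?_, ?_, ?_⟩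
      · intro p q hp hq hpq
        by_cases h1 : idx p = i <;> by_cases h2 : idx q = i <;> simp only [h1, h2, if_true,
          if_false] at hpq
        · exact hg'1 (hmem p h1) (hmem q h2) hpq
        · exact absurd (mem_image.2 ⟨q, mem_univ _, hpq.symm⟩)
            (mem_sdiff.1 (hg'2 p (hmem p h1))).2
        · exact absurd (mem_image.2 ⟨p, mem_univ _, hpq⟩)
            (mem_sdiff.1 (hg'2 q (hmem q h2))).2
        · exact hg1 p q ((mem_insert.1 hp).resolve_left h1) ((mem_insert.1 hq).resolve_left h2)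
            hpq
      · intro p hp
        by_cases h1 : idx p = i
        · simp only [h1, if_true]
          exact (mem_sdiff.1 (hg'2 p (hmem p h1))).1
        · simp only [h1, if_false]
          exact hg2 p ((mem_insert.1 hp).resolve_left h1)
      · intro p q hp hpq hle
        by_cases h1 : idx p = i
        · have h2 : idx q = i := hpq ▸ h1
          simp only [h1, h2, if_true]
          exact hg'3 p (hmem p h1) q (hmem q h2) hle
        · have h2 : ¬ idx q = i := hpq ▸ h1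
          simp only [h1, h2, if_false]
          exact hg3 p q ((mem_insert.1 hp).resolve_left h1) hpq hle
  obtain ⟨g, hg1, hg2, hg3⟩ := key I subset_rfl
  refine hF ⟨g, fun p q h => hg1 p q (hidx p) (hidx q) h,
    fun p => hsub _ (hidx p) (hg2 p (hidx p)), fun p q hpq => ?_⟩
  by_cases h : idx p = idx q
  · exact hg3 p q (hidx p) h hpq
  · refine hcross _ (hidx p) _ (hidx q) h _ (hx p) _ (hx q) ?_ _ (hg2 p (hidx p)) _
      (hg2 q (hidx q))
    rw [hT, hT]
    exact ho p q hpq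

end Pool.Agent.Work.MP_84019e_co
end

-- merged part: Pool.Agent.Work.MP_84019e_co.GridPhi
section
set_option autoImplicit false

namespace Pool.Agent.Work.MP_84019e_co

open Finset

/-- Real coordinates of an integer point. -/
def toR {d : ℕ} (x : Fin d → ℤ) : Fin d → ℝ := fun i => (x i : ℝ)

/-- Monotone functions that commute with diagonal translations. -/
structure Topical {d : ℕ} (φ : (Fin d → ℝ) → ℝ) : Prop where
  mono : ∀ x y, x ≤ y → φ x ≤ φ y
  shift : ∀ (x : Fin d → ℝ) (c : ℝ), φ (fun i => x i + c) = φ x + c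

lemma Topical.le_add {d : ℕ} {φ : (Fin d → ℝ) → ℝ} (h : Topical φ) {x y : Fin d → ℝ} {r : ℝ}
    (hxy : ∀ i, x i ≤ y i + r) : φ x ≤ φ y + r := by
  rw [← h.shift]
  exact h.mono _ _ hxy

lemma Topical.lip {d : ℕ} {φ : (Fin d → ℝ) → ℝ} (h : Topical φ) {x y : Fin d → ℝ} {r : ℝ}
    (hxy : ∀ i, |x i - y i| ≤ r) : |φ x - φ y| ≤ r := by
  have h1 := h.le_add (x := x) (y := y) (r := r) fun i => by linarith [(abs_le.1 (hxy i)).2]
  have h2 := h.le_add (x := y) (y := x) (r := r) fun i => by linarith [(abs_le.1 (hxy i)).1]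
  rw [abs_le]
  constructor <;> linarith

/-- The level structure of a family together with the signed diagonal distances to the
down-sets spanned by its lowest levels. -/
structure Sheets {d : ℕ} (h K : ℕ) (F : Finset (Fin d → ℤ)) (lev : (Fin d → ℤ) → ℕ)
    (φ : ℕ → (Fin d → ℝ) → ℝ) : Prop where
  sub : F ⊆ box d K
  lev_lt : ∀ x ∈ F, lev x < h
  lev_mono : ∀ x ∈ F, ∀ y ∈ F, x < y → lev x < lev y
  top : ∀ j, Topical (φ j)
  anti : ∀ j j', j ≤ j' → ∀ x, φ j' x ≤ φ j x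
  zero : ∀ x ∈ F, φ (lev x) (toR x) = 0
  step : ∀ x ∈ F, ∀ i, 1 ≤ φ (lev x) (toR x + Pi.single i 1)
  bound : ∀ j, |φ j 0| ≤ K + 1

/-- Signed diagonal distance to the down-set of a finite set. -/
noncomputable def sdist {m : ℕ} (S : Finset (Fin (m + 1) → ℤ)) (hS : S.Nonempty)
    (x : Fin (m + 1) → ℝ) : ℝ :=
  S.inf' hS fun a => univ.sup' univ_nonempty fun i => x i - a i

lemma sdist_le_iff {m : ℕ} {S : Finset (Fin (m + 1) → ℤ)} (hS : S.Nonempty)
    {x : Fin (m + 1) → ℝ} {c : ℝ} : sdist S hS x ≤ c ↔ ∃ a ∈ S, ∀ i, x i - a i ≤ c := by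
  simp [sdist, inf'_le_iff, sup'_le_iff]

lemma sdist_spec {m : ℕ} {S : Finset (Fin (m + 1) → ℤ)} (hS : S.Nonempty)
    (x : Fin (m + 1) → ℝ) : ∃ a ∈ S, ∀ i, x i - a i ≤ sdist S hS x :=
  (sdist_le_iff hS).1 le_rfl

lemma sdist_topical {m : ℕ} {S : Finset (Fin (m + 1) → ℤ)} (hS : S.Nonempty) :
    Topical (sdist S hS) := by
  constructor
  · intro x y hxy
    obtain ⟨a, ha, h⟩ := sdist_spec hS y
    exact (sdist_le_iff hS).2 ⟨a, ha, fun i => by linarith [h i, hxy i]⟩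
  · intro x c
    apply le_antisymm
    · obtain ⟨a, ha, h⟩ := sdist_spec hS x
      exact (sdist_le_iff hS).2 ⟨a, ha, fun i => by linarith [h i]⟩
    · obtain ⟨a, ha, h⟩ := sdist_spec hS (fun i => x i + c)
      have : sdist S hS x ≤ sdist S hS (fun i => x i + c) - c :=
        (sdist_le_iff hS).2 ⟨a, ha, fun i => by linarith [h i]⟩
      linarith

lemma exists_sheets {P : Type} [PartialOrder P] [Fintype P] {m K : ℕ}
    {F : Finset (Fin (m + 1) → ℤ)} (hB : F ⊆ box (m + 1) K) (hF : WeakFree P F) :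
    ∃ lev φ, Sheets (Fintype.card P) K F lev φ := by
  classical
  obtain ⟨lev, h1, h2⟩ := exists_lev hF
  let S : ℕ → Finset (Fin (m + 1) → ℤ) := fun j => insert (fun _ => -1) (F.filter (lev · ≤ j))
  have hS : ∀ j, (S j).Nonempty := fun j => insert_nonempty _ _
  have hstep : ∀ x ∈ F, ∀ i, 1 ≤ sdist (S (lev x)) (hS _) (toR x + Pi.single i 1) := by
    intro x hx i
    by_contra hn
    push Not at hn
    obtain ⟨a, ha, h⟩ := sdist_spec (hS (lev x)) (toR x + Pi.single i 1)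
    have hle : ∀ l, x l + (Pi.single i (1 : ℤ) : Fin (m + 1) → ℤ) l ≤ a l := by
      intro l
      have h3 := (h l).trans_lt hn
      have h4 : (((x l + (Pi.single i (1 : ℤ) : Fin (m + 1) → ℤ) l - a l : ℤ)) : ℝ) < 1 := by
        by_cases hl : l = i
        · subst hl
          simpa [toR] using h3
        · simpa [toR, Pi.single_eq_of_ne hl] using h3
      have h5 : x l + (Pi.single i (1 : ℤ) : Fin (m + 1) → ℤ) l - a l < 1 := by exact_mod_cast h4
      omega
    have hi := hle i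
    simp only [Pi.single_eq_same] at hi
    rcases mem_insert.1 ha with rfl | ha
    · have := (mem_box.1 (hB hx) i).1
      simp only at hi
      omega
    · have hlt : x < a := by
        refine lt_of_le_of_ne (fun l => ?_) (fun h => by rw [h] at hi; omega)
        have h6 := hle l
        have h7 : 0 ≤ (Pi.single i (1 : ℤ) : Fin (m + 1) → ℤ) l := by
          by_cases hl : l = i
          · subst hl; simp
          · simp [Pi.single_eq_of_ne hl]
        show x l ≤ a l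
        omega
      have := h2 x hx a (mem_filter.1 ha).1 hlt
      have := (mem_filter.1 ha).2
      omega
  refine ⟨lev, fun j => sdist (S j) (hS j), hB, h1, h2, fun j => sdist_topical _, ?_, ?_, hstep,
    ?_⟩
  · intro j j' hj x
    obtain ⟨a, ha, h⟩ := sdist_spec (hS j) x
    refine (sdist_le_iff _).2 ⟨a, ?_, h⟩
    rcases mem_insert.1 ha with rfl | ha
    · exact mem_insert_self _ _
    · exact mem_insert_of_mem (mem_filter.2 ⟨(mem_filter.1 ha).1, (mem_filter.1 ha).2.trans hj⟩)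
  · intro x hx
    apply le_antisymm
    · exact (sdist_le_iff _).2 ⟨x, mem_insert_of_mem (mem_filter.2 ⟨hx, le_rfl⟩),
        fun i => by simp [toR]⟩
    · have h3 := hstep x hx 0
      have h4 := (sdist_topical (hS (lev x))).le_add (x := toR x + Pi.single 0 1) (y := toR x)
        (r := 1) (fun i => by
          by_cases hi : i = 0
          · subst hi; simp
          · simp [Pi.single_eq_of_ne hi])
      linarith
  · intro j
    rw [abs_le]
    constructor
    · obtain ⟨a, ha, h⟩ := sdist_spec (hS j) 0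
      have h0 := h 0
      have ha0 : a 0 ≤ K := by
        rcases mem_insert.1 ha with rfl | ha
        · show (-1 : ℤ) ≤ K
          omega
        · exact (mem_box.1 (hB (mem_filter.1 ha).1) 0).2.le
      have : ((a 0 : ℤ) : ℝ) ≤ K := by exact_mod_cast ha0
      simp only [Pi.zero_apply] at h0
      linarith
    · have : sdist (S j) (hS j) 0 ≤ 1 :=
        (sdist_le_iff _).2 ⟨fun _ => -1, mem_insert_self _ _, fun i => by simp⟩
      have hK : (0 : ℝ) ≤ K := Nat.cast_nonneg K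
      linarith

/-- Projection along the diagonal. -/
def yOf {m : ℕ} (x : Fin (m + 1) → ℤ) : Fin m → ℤ := fun l => x l.succ - x 0

/-- The point over `y` with first coordinate zero. -/
def lift {m : ℕ} (y : Fin m → ℤ) : Fin (m + 1) → ℝ := Fin.cons 0 fun l => (y l : ℝ)

@[simp] lemma lift_zero {m : ℕ} (y : Fin m → ℤ) : lift y 0 = 0 := rfl

@[simp] lemma lift_succ {m : ℕ} (y : Fin m → ℤ) (l : Fin m) : lift y l.succ = y l := by
  simp [lift]

lemma toR_eq_lift {m : ℕ} (x : Fin (m + 1) → ℤ) :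
    toR x = fun i => lift (yOf x) i + (x 0 : ℝ) := by
  funext i
  refine Fin.cases ?_ (fun l => ?_) i
  · simp [toR]
  · simp [toR, yOf]

/-- A box of integer points in the projection. -/
noncomputable def cellY {m : ℕ} (a b : Fin m → ℤ) : Finset (Fin m → ℤ) :=
  Fintype.piFinset fun l => Finset.Ico (a l) (b l)

lemma mem_cellY {m : ℕ} {a b y : Fin m → ℤ} : y ∈ cellY a b ↔ ∀ l, a l ≤ y l ∧ y l < b l := by
  simp [cellY, Fintype.mem_piFinset]

lemma card_cellY {m : ℕ} {a b : Fin m → ℤ} {n : ℕ} (h : ∀ l, b l - a l = n) :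
    (cellY a b).card = n ^ m := by
  rw [cellY, Fintype.card_piFinset]
  simp [Int.card_Ico, h]

/-- The cell of side `s` with index `α`. -/
noncomputable def cell {m : ℕ} (s : ℕ) (α : Fin m → ℤ) : Finset (Fin m → ℤ) :=
  cellY (fun l => s * α l) fun l => s * α l + s

lemma card_cell {m : ℕ} (s : ℕ) (α : Fin m → ℤ) : (cell s α).card = s ^ m :=
  card_cellY fun l => by ring

lemma Sheets.eq_of_le {d h K : ℕ} {F : Finset (Fin d → ℤ)} {lev : (Fin d → ℤ) → ℕ}
    {φ : ℕ → (Fin d → ℝ) → ℝ} (hS : Sheets h K F lev φ) {x y : Fin d → ℤ} (hx : x ∈ F)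
    (hy : y ∈ F) (hl : lev x = lev y) (hle : x ≤ y) : x = y := by
  by_contra hne
  have := hS.lev_mono x hx y hy (lt_of_le_of_ne hle hne)
  omega

lemma Sheets.inj {m h K : ℕ} {F : Finset (Fin (m + 1) → ℤ)} {lev : (Fin (m + 1) → ℤ) → ℕ}
    {φ : ℕ → (Fin (m + 1) → ℝ) → ℝ} (hS : Sheets h K F lev φ) {x y : Fin (m + 1) → ℤ}
    (hx : x ∈ F) (hy : y ∈ F) (hl : lev x = lev y) (hxy : yOf x = yOf y) : x = y := by
  have h1 : ∀ i, y i - y 0 = x i - x 0 := by
    intro i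
    refine Fin.cases (by simp) (fun l => ?_) i
    exact (congrFun hxy l).symm
  rcases le_total (x 0) (y 0) with h | h
  · exact hS.eq_of_le hx hy hl fun i => by have := h1 i; show x i ≤ y i; omega
  · exact (hS.eq_of_le hy hx hl.symm fun i => by have := h1 i; show y i ≤ x i; omega).symm

lemma Sheets.card_level_le {m h K : ℕ} {F : Finset (Fin (m + 1) → ℤ)}
    {lev : (Fin (m + 1) → ℤ) → ℕ} {φ : ℕ → (Fin (m + 1) → ℝ) → ℝ} (hS : Sheets h K F lev φ)
    (A : Finset (Fin m → ℤ)) (j : ℕ) :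
    (F.filter fun x => yOf x ∈ A ∧ lev x = j).card ≤ A.card := by
  refine card_le_card_of_injOn yOf (fun x hx => (mem_filter.1 hx).2.1) fun x hx y hy hxy => ?_
  have hx' := mem_filter.1 hx
  have hy' := mem_filter.1 hy
  exact hS.inj hx'.1 hy'.1 (hx'.2.2.trans hy'.2.2.symm) hxy

/-- Increment in direction `i` over the projected point `y`. -/
noncomputable def incr {m : ℕ} (φ : (Fin (m + 1) → ℝ) → ℝ) (i : Fin (m + 1)) (y : Fin m → ℤ) :
    ℝ := φ (lift y + Pi.single i 1) - φ (lift y)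

/-- Projection of the unit vector. -/
def ebar {m : ℕ} (i : Fin (m + 1)) : Fin m → ℤ := yOf (Pi.single i 1)

lemma abs_ebar_le {m : ℕ} (i : Fin (m + 1)) (l : Fin m) : |ebar i l| ≤ 1 := by
  simp only [ebar, yOf, Pi.single_apply]
  split_ifs <;> simp

lemma Topical.incr_nonneg {m : ℕ} {φ : (Fin (m + 1) → ℝ) → ℝ} (h : Topical φ)
    (i : Fin (m + 1)) (y : Fin m → ℤ) : 0 ≤ incr φ i y := by
  have := h.mono (lift y) (lift y + Pi.single i 1) fun l => by
    by_cases hl : l = i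
    · subst hl; simp
    · simp [Pi.single_eq_of_ne hl]
  simp only [incr]
  linarith

lemma lift_add_ebar {m : ℕ} (i : Fin (m + 1)) (y : Fin m → ℤ) (τ : ℕ) :
    lift (y + (τ : ℤ) • ebar i) = fun l => (lift y + Pi.single i (τ : ℝ) : Fin (m + 1) → ℝ) l
      + -((Pi.single i (τ : ℝ) : Fin (m + 1) → ℝ) 0) := by
  funext l
  refine Fin.cases (by simp) (fun l => ?_) l
  simp only [lift_succ, Pi.add_apply, Pi.smul_apply, smul_eq_mul, ebar, yOf, Pi.single_apply]
  split_ifs <;> push_cast <;> ring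

lemma Topical.telescope {m : ℕ} {φ : (Fin (m + 1) → ℝ) → ℝ} (h : Topical φ)
    (i : Fin (m + 1)) (y : Fin m → ℤ) (r : ℕ) :
    ∑ τ ∈ range r, incr φ i (y + (τ : ℤ) • ebar i) =
      φ (lift y + Pi.single i (r : ℝ)) - φ (lift y) := by
  induction r with
  | zero => simp
  | succ r ih =>
    rw [sum_range_succ, ih, incr, lift_add_ebar, h.shift]
    have : ((fun l => (lift y + Pi.single i (r : ℝ) : Fin (m + 1) → ℝ) l
        + -((Pi.single i (r : ℝ) : Fin (m + 1) → ℝ) 0)) + Pi.single i 1 : Fin (m + 1) → ℝ) =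
        fun l => (lift y + Pi.single i ((r + 1 : ℕ) : ℝ) : Fin (m + 1) → ℝ) l
        + -((Pi.single i (r : ℝ) : Fin (m + 1) → ℝ) 0) := by
      funext l
      simp only [Pi.add_apply, Pi.single_apply]
      split_ifs <;> push_cast <;> ring
    rw [this, h.shift]
    ring

/-- The prism of width `R * s` around the corner of the cell `α`. -/
def Prism {m : ℕ} (s : ℝ) (α : Fin m → ℤ) (R : ℝ) (x : Fin (m + 1) → ℝ) : Prop :=
  ∀ l : Fin m, |x l.succ - x 0 - s * α l| ≤ R * s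

lemma Prism.mono {m : ℕ} {s : ℝ} {α : Fin m → ℤ} {R R' : ℝ} {x : Fin (m + 1) → ℝ}
    (h : Prism s α R x) (hs : 0 ≤ s) (hR : R ≤ R') : Prism s α R' x :=
  fun l => (h l).trans (mul_le_mul_of_nonneg_right hR hs)

lemma sum_mul_add_single {d : ℕ} (ν x : Fin d → ℝ) (i : Fin d) (r : ℝ) :
    ∑ l, ν l * (x + Pi.single i r : Fin d → ℝ) l = ∑ l, ν l * x l + ν i * r := by
  simp only [Pi.add_apply, mul_add, sum_add_distrib, Pi.single_apply, mul_ite, mul_zero,
    sum_ite_eq', mem_univ, if_true]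

/-- A sheet with a nearly vanishing normal component carries few points. -/
lemma Sheets.deg_count {m h K : ℕ} {F : Finset (Fin (m + 1) → ℤ)}
    {lev : (Fin (m + 1) → ℤ) → ℕ} {φ : ℕ → (Fin (m + 1) → ℝ) → ℝ} (hS : Sheets h K F lev φ)
    {s : ℕ} (hs : 0 < s) (α : Fin m → ℤ) (j : ℕ) (ν : Fin (m + 1) → ℝ) (c ε : ℝ)
    (happ : ∀ x, Prism s α 3 x → |φ j x - (∑ i, ν i * x i - c)| ≤ ε * s) (i : Fin (m + 1)) :
    ((F.filter fun x => yOf x ∈ cell s α ∧ lev x = j).card : ℝ) ≤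
      (3 * s) ^ m * (ν i + 2 * ε) := by
  classical
  have hT := hS.top j
  have hs' : (0 : ℝ) < s := by exact_mod_cast hs
  let A' : Finset (Fin m → ℤ) := cellY (fun l => s * α l - s) fun l => s * α l + 2 * s
  have hA' : A'.card = (3 * s) ^ m := card_cellY fun l => by push_cast; ring
  have h1 : ((F.filter fun x => yOf x ∈ cell s α ∧ lev x = j).card : ℝ) ≤
      ∑ y ∈ cell s α, incr (φ j) i y := by
    rw [← card_image_of_injOn (f := yOf) (fun x hx y hy hxy =>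
      hS.inj (mem_filter.1 hx).1 (mem_filter.1 hy).1
        ((mem_filter.1 hx).2.2.trans (mem_filter.1 hy).2.2.symm) hxy)]
    rw [card_eq_sum_ones, Nat.cast_sum]
    refine le_trans (sum_le_sum fun y hy => ?_) (sum_le_sum_of_subset_of_nonneg (fun y hy => ?_)
      fun y _ _ => hT.incr_nonneg i y)
    · obtain ⟨x, hx, rfl⟩ := mem_image.1 hy
      have hx' := mem_filter.1 hx
      have h2 := hS.zero x hx'.1
      have h3 := hS.step x hx'.1 i
      rw [hx'.2.2, toR_eq_lift, hT.shift] at h2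
      have h4 : toR x + Pi.single i 1 =
          fun l => (lift (yOf x) + Pi.single i 1 : Fin (m + 1) → ℝ) l + (x 0 : ℝ) := by
        rw [toR_eq_lift]
        funext l
        simp only [Pi.add_apply]
        ring
      rw [hx'.2.2, h4, hT.shift] at h3
      simp only [incr, Nat.cast_one]
      linarith only [h2, h3]
    · obtain ⟨x, hx, rfl⟩ := mem_image.1 hy
      exact (mem_filter.1 hx).2.1
  have h2 : ∀ τ ∈ range s, ∑ y ∈ cell s α, incr (φ j) i y ≤
      ∑ y ∈ A', incr (φ j) i (y + (τ : ℤ) • ebar i) := by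
    intro τ hτ
    have hτ' : (τ : ℤ) < s := by exact_mod_cast mem_range.1 hτ
    have h3 : ∑ y ∈ cell s α, incr (φ j) i y =
        ∑ y ∈ (cell s α).image (fun y => y - (τ : ℤ) • ebar i),
          incr (φ j) i (y + (τ : ℤ) • ebar i) := by
      rw [sum_image (fun x _ y _ hxy => sub_left_injective hxy)]
      simp
    rw [h3]
    refine sum_le_sum_of_subset_of_nonneg (fun y hy => ?_) fun y _ _ => hT.incr_nonneg i _
    obtain ⟨z, hz, rfl⟩ := mem_image.1 hy
    rw [mem_cellY]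
    intro l
    have h4 := mem_cellY.1 hz l
    have h5 := abs_le.1 (abs_ebar_le i l)
    simp only [Pi.sub_apply, Pi.smul_apply, smul_eq_mul] at h4 ⊢
    constructor <;> linarith only [hτ', h4, h5, Int.natCast_nonneg τ, mul_nonneg_of_nonpos_of_nonpos (Mathlib.Tactic.Linarith.sub_nonpos_of_le (Mathlib.Tactic.Linarith.natCast_nonneg ℤ τ)) (Mathlib.Tactic.Linarith.sub_nonpos_of_le h5.right), mul_nonneg_of_nonpos_of_nonpos (Mathlib.Tactic.Linarith.sub_nonpos_of_le (Mathlib.Tactic.Linarith.natCast_nonneg ℤ τ)) (Mathlib.Tactic.Linarith.sub_nonpos_of_le h5.left)]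
  have h3 : ∀ y ∈ A', φ j (lift y + Pi.single i (s : ℝ)) - φ j (lift y) ≤ (ν i + 2 * ε) * s := by
    intro y hy
    have hy' : ∀ l, (s : ℝ) * α l - s ≤ y l ∧ (y l : ℝ) ≤ s * α l + 2 * s := fun l => by
      have := mem_cellY.1 hy l
      exact ⟨by exact_mod_cast this.1, by exact_mod_cast this.2.le⟩
    have p1 : Prism s α 3 (lift y) := fun l => by
      rw [abs_le]
      simp only [lift_succ, lift_zero]
      constructor <;> linarith only [hs', hy', (hy' l).1, (hy' l).2]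
    have p2 : Prism s α 3 (lift y + Pi.single i (s : ℝ)) := fun l => by
      rw [abs_le]
      simp only [Pi.add_apply, lift_succ, lift_zero, Pi.single_apply]
      split_ifs <;> constructor <;> linarith only [hs', hy', (hy' l).1, (hy' l).2]
    have q1 := abs_le.1 (happ _ p1)
    have q2 := abs_le.1 (happ _ p2)
    rw [sum_mul_add_single] at q2
    linarith only [q1, q2, q1.1, q2.2]
  have h4 : (s : ℝ) * ∑ y ∈ cell s α, incr (φ j) i y ≤ (3 * s) ^ m * ((ν i + 2 * ε) * s) := by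
    calc (s : ℝ) * ∑ y ∈ cell s α, incr (φ j) i y
        = ∑ _τ ∈ range s, ∑ y ∈ cell s α, incr (φ j) i y := by simp
      _ ≤ ∑ τ ∈ range s, ∑ y ∈ A', incr (φ j) i (y + (τ : ℤ) • ebar i) := sum_le_sum h2
      _ = ∑ y ∈ A', (φ j (lift y + Pi.single i (s : ℝ)) - φ j (lift y)) := by
          rw [sum_comm]
          exact sum_congr rfl fun y _ => hT.telescope i y s
      _ ≤ ∑ _y ∈ A', (ν i + 2 * ε) * s := sum_le_sum h3
      _ = _ := by rw [sum_const, hA', nsmul_eq_mul]; push_cast; ring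
  have h5 : ∑ y ∈ cell s α, incr (φ j) i y ≤ (3 * s) ^ m * (ν i + 2 * ε) := by
    apply le_of_mul_le_mul_left _ hs'
    linarith only [h4]
  linarith only [h1, h5]

/-- All sheets are nearly flat over the cell `α`, and two sheets have the same affine
approximation or are far apart. -/
structure Good {m : ℕ} (h : ℕ) (φ : ℕ → (Fin (m + 1) → ℝ) → ℝ) (s ε R M : ℝ) (α : Fin m → ℤ)
    (ν : ℕ → Fin (m + 1) → ℝ) (c : ℕ → ℝ) : Prop where
  nonneg : ∀ j < h, ∀ i, 0 ≤ ν j i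
  sum : ∀ j < h, ∑ i, ν j i = 1
  approx : ∀ j < h, ∀ x, Prism s α R x → |φ j x - (∑ i, ν j i * x i - c j)| ≤ ε * s
  gap : ∀ j < h, ∀ j' < h, (ν j = ν j' ∧ c j = c j') ∨
    ∀ x, Prism s α R x → M * s ≤ |φ j x - φ j' x|

end Pool.Agent.Work.MP_84019e_co
end

-- merged part: Pool.Agent.Work.MP_84019e_co.GridRad
section
set_option autoImplicit false

namespace Pool.Agent.Work.MP_84019e_co

open Finset Filter Topology MeasureTheory

lemma fderiv_le_of_slope {m : ℕ} {f : (Fin m → ℝ) → ℝ} {L : (Fin m → ℝ) →L[ℝ] ℝ}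
    {y v : Fin m → ℝ} {a : ℝ} (hf : HasFDerivAt f L y)
    (h : ∀ t : ℝ, 0 < t → f (y + t • v) - f y ≤ a * t) : L v ≤ a := by
  have h1 : HasDerivAt (fun t : ℝ => f (y + t • v)) (L v) 0 := hf.hasLineDerivAt v
  refine le_of_tendsto h1.tendsto_slope_zero_right ?_
  filter_upwards [self_mem_nhdsWithin] with t ht
  have ht' : 0 < t := ht
  have := h t ht'
  simp only [zero_add, zero_smul, add_zero, smul_eq_mul]
  rw [inv_mul_le_iff₀ ht']
  linarith

/-- Flatness of the limit sheets at the point `y` and the scale `σ`. -/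
def LimGood {m : ℕ} (h : ℕ) (Ψ : ℕ → (Fin m → ℝ) → ℝ) (ε R M σ : ℝ) (y : Fin m → ℝ) : Prop :=
  ∃ ν : ℕ → Fin m → ℝ,
    (∀ j < h, (∀ l, 0 ≤ ν j l) ∧ ∑ l, ν j l ≤ 1 ∧
      ∀ z, ‖z - y‖ ≤ R * σ → |Ψ j z - Ψ j y - ∑ l, ν j l * (z l - y l)| ≤ ε * σ) ∧
    ∀ j < h, ∀ j' < h, (Ψ j y = Ψ j' y ∧ ν j = ν j') ∨ M * σ ≤ |Ψ j y - Ψ j' y|

lemma limGood_of_diff {m h : ℕ} {Ψ : ℕ → (Fin m → ℝ) → ℝ}
    (hlip : ∀ j x y, |Ψ j x - Ψ j y| ≤ ‖x - y‖) (hmono : ∀ j x y, x ≤ y → Ψ j x ≤ Ψ j y)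
    (hanti : ∀ j j', j ≤ j' → ∀ x, Ψ j' x ≤ Ψ j x) {ε R M : ℝ} (hε : 0 < ε) (hR : 0 < R)
    {y : Fin m → ℝ} (hy : ∀ j, DifferentiableAt ℝ (Ψ j) y) :
    ∀ᶠ N : ℕ in atTop, LimGood h Ψ ε R M (1 / N) y := by
  classical
  let L : ℕ → (Fin m → ℝ) →L[ℝ] ℝ := fun j => fderiv ℝ (Ψ j) y
  have hL : ∀ j, HasFDerivAt (Ψ j) (L j) y := fun j => (hy j).hasFDerivAt
  let ν : ℕ → Fin m → ℝ := fun j l => L j (Pi.single l 1)
  have hLv : ∀ j v, L j v = ∑ l, ν j l * v l := by
    intro j v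
    conv_lhs => rw [pi_eq_sum_univ' v]
    simp only [map_sum, map_smul, smul_eq_mul, ν]
    exact sum_congr rfl fun l _ => mul_comm _ _
  have hσ : Tendsto (fun N : ℕ => (1 : ℝ) / N) atTop (𝓝 0) := tendsto_one_div_atTop_nhds_zero_nat
  have h1 : ∀ j, (∀ l, 0 ≤ ν j l) ∧ ∑ l, ν j l ≤ 1 := by
    intro j
    constructor
    · intro l
      have := fderiv_le_of_slope (v := -Pi.single l 1) (a := 0) (hL j) fun t ht => by
        have := hmono j (y + t • -Pi.single l 1) y fun i => by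
          by_cases hi : i = l
          · subst hi
            simp [ht.le]
          · simp [Pi.single_eq_of_ne hi]
        linarith
      rw [map_neg] at this
      simp only [ν]
      linarith
    · have := fderiv_le_of_slope (v := fun _ => 1) (a := 1) (hL j) fun t ht => by
        have h2 := (abs_le.1 (hlip j (y + t • fun _ => (1 : ℝ)) y)).2
        refine h2.trans ?_
        rw [add_sub_cancel_left, one_mul]
        refine (pi_norm_le_iff_of_nonneg ht.le).2 fun i => ?_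
        simp [abs_of_pos ht]
      simpa [hLv] using this
  have h2 : ∀ j, ∀ᶠ N : ℕ in atTop, ∀ z, ‖z - y‖ ≤ R * (1 / N) →
      |Ψ j z - Ψ j y - ∑ l, ν j l * (z l - y l)| ≤ ε * (1 / N) := by
    intro j
    have h3 := (hL j).isLittleO.def (div_pos hε hR)
    obtain ⟨δ, hδ, h4⟩ := Metric.eventually_nhds_iff.1 h3
    have h5 : ∀ᶠ N : ℕ in atTop, (1 : ℝ) / N < δ / R :=
      hσ.eventually (gt_mem_nhds (div_pos hδ hR))
    filter_upwards [h5] with N hN z hz
    have h6 : R * (1 / N) < δ := by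
      rw [lt_div_iff₀ hR] at hN
      linarith only [hN]
    have h7 := h4 (y := z) (by rw [dist_eq_norm]; linarith only [hz, h6])
    rw [hLv, Real.norm_eq_abs] at h7
    refine h7.trans ?_
    calc ε / R * ‖z - y‖ ≤ ε / R * (R * (1 / N)) := by gcongr
      _ = ε * (1 / N) := by field_simp
  have h3 : ∀ j j', ∀ᶠ N : ℕ in atTop,
      (Ψ j y = Ψ j' y ∧ ν j = ν j') ∨ M * (1 / N) ≤ |Ψ j y - Ψ j' y| := by
    have key : ∀ j j', j ≤ j' → Ψ j y = Ψ j' y → ν j = ν j' := by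
      intro j j' hj he
      have h4 : IsLocalMin (fun z => Ψ j z - Ψ j' z) y :=
        Eventually.of_forall fun z => by
          have := hanti j j' hj z
          simp only [he, sub_self]
          linarith only [this]
      have h5 := h4.hasFDerivAt_eq_zero ((hL j).sub (hL j'))
      funext l
      have := congrArg (fun T : (Fin m → ℝ) →L[ℝ] ℝ => T (Pi.single l 1)) h5
      simp only [sub_apply, zero_apply] at this
      simp only [ν]
      linarith only [this]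
    intro j j'
    by_cases he : Ψ j y = Ψ j' y
    · refine Eventually.of_forall fun N => Or.inl ⟨he, ?_⟩
      rcases le_total j j' with hj | hj
      · exact key j j' hj he
      · exact (key j' j hj he.symm).symm
    · have h4 : 0 < |Ψ j y - Ψ j' y| := abs_pos.2 (sub_ne_zero.2 he)
      have h5 : Tendsto (fun N : ℕ => M * ((1 : ℝ) / N)) atTop (𝓝 (M * 0)) := hσ.const_mul M
      rw [mul_zero] at h5
      filter_upwards [h5.eventually (gt_mem_nhds h4)] with N hN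
      exact Or.inr hN.le
  have h4 : ∀ᶠ N : ℕ in atTop, ∀ j ∈ range h, ∀ z, ‖z - y‖ ≤ R * (1 / N) →
      |Ψ j z - Ψ j y - ∑ l, ν j l * (z l - y l)| ≤ ε * (1 / N) :=
    (eventually_all_finset _).2 fun j _ => h2 j
  have h5 : ∀ᶠ N : ℕ in atTop, ∀ j ∈ range h, ∀ j' ∈ range h,
      (Ψ j y = Ψ j' y ∧ ν j = ν j') ∨ M * (1 / N) ≤ |Ψ j y - Ψ j' y| :=
    (eventually_all_finset _).2 fun j _ => (eventually_all_finset _).2 fun j' _ => h3 j j'
  filter_upwards [h4, h5] with N hN4 hN5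
  exact ⟨ν, fun j hj => ⟨(h1 j).1, (h1 j).2, hN4 j (mem_range.2 hj)⟩,
    fun j hj j' hj' => hN5 j (mem_range.2 hj) j' (mem_range.2 hj')⟩

/-- The index set of the cells. -/
noncomputable def cells (m N : ℕ) : Finset (Fin m → ℤ) := cellY (fun _ => -N) fun _ => N

lemma card_cells (m N : ℕ) : (cells m N).card = (2 * N) ^ m :=
  card_cellY fun l => by push_cast; ring

/-- Most small cubes contain a point of a property that holds at all small scales almost
everywhere. -/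
lemma most_cells {m : ℕ} (Q : ℕ → (Fin m → ℝ) → Prop)
    (hQ : ∀ᵐ y ∂(volume : Measure (Fin m → ℝ)), ∀ᶠ N : ℕ in atTop, Q N y) {η : ℝ} (hη : 0 < η)
    (N0 : ℕ) : ∃ N ≥ N0, 0 < N ∧ ∃ 𝒢 ⊆ cells m N, ((cells m N \ 𝒢).card : ℝ) ≤ η * N ^ m ∧
      ∀ α ∈ 𝒢, ∃ y : Fin m → ℝ, (∀ l, (α l : ℝ) / N ≤ y l ∧ y l < (α l + 1) / N) ∧ Q N y := by
  classical
  let B : Set (Fin m → ℝ) := Set.pi Set.univ fun _ => Set.Ico (-1) 1
  let E : ℕ → Set (Fin m → ℝ) := fun n => B ∩ {y | ∀ N ≥ n, Q N y}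
  have hE : Monotone E := fun a b hab y hy => ⟨hy.1, fun N hN => hy.2 N (hab.trans hN)⟩
  have hB : volume B = ENNReal.ofReal (2 ^ m) := by
    simp only [B]
    rw [Real.volume_pi_Ico]
    norm_num [ENNReal.ofReal_pow]
  have hU : volume (⋃ n, E n) = volume B := by
    apply measure_congr
    filter_upwards [hQ] with y hy
    apply propext
    constructor
    · intro h
      obtain ⟨n, hn⟩ := Set.mem_iUnion.1 h
      exact hn.1
    · intro h
      obtain ⟨n, hn⟩ := eventually_atTop.1 hy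
      exact Set.mem_iUnion.2 ⟨n, h, hn⟩
  have h1 := tendsto_measure_iUnion_atTop (μ := volume) hE
  rw [hU, hB] at h1
  have h2 : Tendsto (fun n => (volume (E n)).toReal) atTop (𝓝 (2 ^ m)) := by
    have := (ENNReal.tendsto_toReal ENNReal.ofReal_ne_top).comp h1
    rwa [ENNReal.toReal_ofReal (by positivity)] at this
  have h3 : ∀ᶠ n in atTop, 2 ^ m - η < (volume (E n)).toReal :=
    h2.eventually (lt_mem_nhds (by linarith))
  obtain ⟨N, hN, hN0, hNpos⟩ := (h3.and ((eventually_ge_atTop N0).and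
    (eventually_gt_atTop 0))).exists
  have hN' : (0 : ℝ) < N := by exact_mod_cast hNpos
  let cube : (Fin m → ℤ) → Set (Fin m → ℝ) := fun α =>
    Set.pi Set.univ fun l => Set.Ico ((α l : ℝ) / N) ((α l + 1) / N)
  let 𝒢 := (cells m N).filter fun α => ∃ y ∈ cube α, Q N y
  have hcube : ∀ α, volume (cube α) = ENNReal.ofReal ((1 / N) ^ m) := by
    intro α
    simp only [cube]
    rw [Real.volume_pi_Ico]
    have : ∀ l, ((α l : ℝ) + 1) / N - α l / N = 1 / N := fun l => by ring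
    simp only [this, prod_const, card_univ, Fintype.card_fin]
    rw [ENNReal.ofReal_pow (by positivity)]
  have hsub : E N ⊆ ⋃ α ∈ 𝒢, cube α := by
    intro y hy
    let α : Fin m → ℤ := fun l => ⌊N * y l⌋
    have hα : y ∈ cube α := by
      intro l _
      constructor
      · rw [div_le_iff₀ hN']
        linarith only [Int.floor_le (N * y l)]
      · rw [lt_div_iff₀ hN']
        linarith only [Int.lt_floor_add_one (N * y l)]
    refine Set.mem_biUnion (x := α) ?_ hα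
    refine mem_coe.2 (mem_filter.2 ⟨mem_cellY.2 fun l => ?_, y, hα, hy.2 N le_rfl⟩)
    have hl := hy.1 l (Set.mem_univ l)
    constructor
    · apply Int.le_floor.2
      push_cast
      linarith only [hl, hl.1, mul_nonneg_of_nonpos_of_nonpos (Mathlib.Tactic.Linarith.sub_nonpos_of_le (Mathlib.Tactic.Linarith.natCast_nonneg ℝ N)) (Mathlib.Tactic.Linarith.sub_nonpos_of_le hl.left)]
    · apply Int.floor_lt.2
      push_cast
      linarith only [hN', hl, hl.2, mul_pos_of_neg_of_neg (Mathlib.Tactic.Linarith.sub_neg_of_lt hN') (Mathlib.Tactic.Linarith.sub_neg_of_lt hl.right)]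
  have h4 : volume (E N) ≤ ENNReal.ofReal (𝒢.card * (1 / N) ^ m) := by
    refine (measure_mono hsub).trans ((measure_biUnion_finset_le _ _).trans ?_)
    simp only [hcube, sum_const, nsmul_eq_mul]
    rw [ENNReal.ofReal_mul (by positivity), ENNReal.ofReal_natCast]
  have h5 : (volume (E N)).toReal ≤ 𝒢.card * (1 / N) ^ m :=
    ENNReal.toReal_le_of_le_ofReal (by positivity) h4
  refine ⟨N, hN0, hNpos, 𝒢, filter_subset _ _, ?_, fun α hα => ?_⟩
  · rw [card_sdiff_of_subset (filter_subset _ _), Nat.cast_sub (card_filter_le _ _), card_cells]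
    have h6 : (2 ^ m - η) * (N : ℝ) ^ m ≤ 𝒢.card := by
      calc (2 ^ m - η) * (N : ℝ) ^ m ≤ 𝒢.card * (1 / N) ^ m * (N : ℝ) ^ m := by
            gcongr
            linarith only [hN, h5]
        _ = 𝒢.card := by
            rw [mul_assoc, ← mul_pow]
            field_simp
            simp
    push_cast
    rw [mul_pow]
    change _ - (𝒢.card : ℝ) ≤ _
    linarith only [h6]
  · obtain ⟨y, hy, hq⟩ := (mem_filter.1 hα).2
    exact ⟨y, fun l => hy l (Set.mem_univ l), hq⟩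

lemma unif_of_lip {m : ℕ} {𝓕 : Filter ℕ} (ψ : ℕ → (Fin m → ℝ) → ℝ) (Ψ : (Fin m → ℝ) → ℝ)
    (h1 : ∀ K x y, |ψ K x - ψ K y| ≤ ‖x - y‖) (h2 : ∀ x y, |Ψ x - Ψ y| ≤ ‖x - y‖)
    (h3 : ∀ y, Tendsto (fun K => ψ K y) 𝓕 (𝓝 (Ψ y))) (r : ℝ) {δ : ℝ} (hδ : 0 < δ) :
    ∀ᶠ K in 𝓕, ∀ z, ‖z‖ ≤ r → |ψ K z - Ψ z| ≤ δ := by
  obtain ⟨t, -, ht, hc⟩ := (isCompact_closedBall (0 : Fin m → ℝ) r).finite_cover_balls
    (e := δ / 3) (by linarith only [hδ])
  have h4 : ∀ᶠ K in 𝓕, ∀ y ∈ t, |ψ K y - Ψ y| < δ / 3 :=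
    (eventually_all_finite ht).2 fun y _ => by
      have := Metric.tendsto_nhds.1 (h3 y) (δ / 3) (by linarith)
      simpa only [Real.dist_eq] using this
  filter_upwards [h4] with K hK z hz
  obtain ⟨y, hy, hzy⟩ := Set.mem_iUnion₂.1 (hc (mem_closedBall_zero_iff.2 hz))
  rw [Metric.mem_ball, dist_eq_norm] at hzy
  have a1 := abs_le.1 (h1 K z y)
  have a2 := abs_le.1 (h2 z y)
  have a3 := abs_lt.1 (hK y hy)
  rw [abs_le]
  constructor <;> linarith only [hzy, a1, a2, a3, a1.1, a1.2, a2.1, a2.2, a3.1, a3.2]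

theorem exists_good {m h : ℕ} (𝒰 : Ultrafilter ℕ) (h𝒰 : (𝒰 : Filter ℕ) ≤ atTop)
    (φ : ℕ → ℕ → (Fin (m + 1) → ℝ) → ℝ) (htop : ∀ K j, Topical (φ K j))
    (hanti : ∀ K j j', j ≤ j' → ∀ x, φ K j' x ≤ φ K j x) (hb : ∀ K j, |φ K j 0| ≤ K + 1)
    {ε R M η : ℝ} (hε : 0 < ε) (hR : 0 < R) (hM : 0 < M) (hη : 0 < η) (N0 : ℕ) :
    ∃ N ≥ N0, 0 < N ∧ ∀ᶠ K in (𝒰 : Filter ℕ), ∃ 𝒢 ⊆ cells m N,
      ((cells m N \ 𝒢).card : ℝ) ≤ η * N ^ m ∧
      ∀ α ∈ 𝒢, ∃ ν c, Good h (φ K) ((K / N + 1 : ℕ) : ℝ) ε R M α ν c := by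
  classical
  let up : ℕ → (Fin m → ℝ) → Fin (m + 1) → ℝ := fun K y => Fin.cons 0 fun l => K * y l
  let ψ : ℕ → ℕ → (Fin m → ℝ) → ℝ := fun j K y => φ K j (up K y) / K
  have hψlip : ∀ j K x y, |ψ j K x - ψ j K y| ≤ ‖x - y‖ := by
    intro j K x y
    rcases Nat.eq_zero_or_pos K with rfl | hK
    · simp [ψ]
    have hK' : (0 : ℝ) < K := by exact_mod_cast hK
    have := (htop K j).lip (x := up K x) (y := up K y) (r := K * ‖x - y‖) fun i => by
      refine Fin.cases ?_ (fun l => ?_) i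
      · simp only [up, Fin.cons_zero, sub_self, abs_zero]
        exact mul_nonneg hK'.le (norm_nonneg _)
      simp only [up, Fin.cons_succ]
      rw [← mul_sub, abs_mul, abs_of_pos hK']
      exact mul_le_mul_of_nonneg_left (norm_le_pi_norm (x - y) l) hK'.le
    simp only [ψ]
    rw [← sub_div, abs_div, abs_of_pos hK', div_le_iff₀' hK']
    exact this
  have hψ0 : ∀ j K, |ψ j K 0| ≤ 2 := by
    intro j K
    rcases Nat.eq_zero_or_pos K with rfl | hK
    · simp [ψ]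
    have hK' : (1 : ℝ) ≤ K := by exact_mod_cast hK
    have h0 : up K 0 = 0 := by
      funext i
      refine Fin.cases rfl (fun l => by simp [up]) i
    simp only [ψ, h0]
    rw [abs_div, abs_of_pos (one_pos.trans_le hK'), div_le_iff₀ (one_pos.trans_le hK')]
    linarith only [hb K j, hK']
  have hex : ∀ j y, ∃ a, Tendsto (fun K => ψ j K y) 𝒰 (𝓝 a) := by
    intro j y
    obtain ⟨a, -, ha⟩ := (isCompact_Icc (a := -(2 + ‖y‖)) (b := 2 + ‖y‖)).ultrafilter_le_nhds'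
      (𝒰.map fun K => ψ j K y) (by
        rw [Ultrafilter.mem_map]
        refine Eventually.of_forall (f := (𝒰 : Filter ℕ)) fun K => ?_
        have a1 := abs_le.1 (hψlip j K y 0)
        have a2 := abs_le.1 (hψ0 j K)
        rw [sub_zero] at a1
        constructor <;> linarith only [a1.1, a1.2, a2.1, a2.2])
    exact ⟨a, ha⟩
  choose Ψ hΨ using hex
  have hΨlip : ∀ j x y, |Ψ j x - Ψ j y| ≤ ‖x - y‖ := fun j x y =>
    le_of_tendsto' ((hΨ j x).sub (hΨ j y)).abs fun K => hψlip j K x y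
  have hΨmono : ∀ j x y, x ≤ y → Ψ j x ≤ Ψ j y := fun j x y hxy =>
    le_of_tendsto_of_tendsto' (hΨ j x) (hΨ j y) fun K => by
      refine div_le_div_of_nonneg_right ((htop K j).mono _ _ fun i => ?_) (Nat.cast_nonneg K)
      refine Fin.cases le_rfl (fun l => ?_) i
      simp only [up, Fin.cons_succ]
      exact mul_le_mul_of_nonneg_left (hxy l) (Nat.cast_nonneg K)
  have hΨanti : ∀ j j', j ≤ j' → ∀ x, Ψ j' x ≤ Ψ j x := fun j j' hj x =>
    le_of_tendsto_of_tendsto' (hΨ j' x) (hΨ j x) fun K =>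
      div_le_div_of_nonneg_right (hanti K j j' hj _) (Nat.cast_nonneg K)
  have hdiff : ∀ᵐ y ∂(volume : Measure (Fin m → ℝ)), ∀ j, DifferentiableAt ℝ (Ψ j) y := by
    rw [ae_all_iff]
    intro j
    have : LipschitzWith 1 (Ψ j) := LipschitzWith.of_dist_le_mul fun x y => by
      simpa [Real.dist_eq, dist_eq_norm] using hΨlip j x y
    exact this.ae_differentiableAt
  obtain ⟨N, hN0, hNpos, 𝒢, h𝒢, hcard, hgood⟩ := most_cells
    (fun N y => LimGood h Ψ (ε / 2) (2 * R + 2) (2 * M + 2 * (2 * R + 2) + ε) (1 / N) y)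
    (hdiff.mono fun y hy => limGood_of_diff hΨlip hΨmono hΨanti (half_pos hε)
      (by linarith only [hR]) hy)
    hη N0
  have hN' : (1 : ℝ) ≤ N := by exact_mod_cast hNpos
  have hN'' : (0 : ℝ) < N := one_pos.trans_le hN'
  have hN3 : (0 : ℝ) < 1 / N := one_div_pos.2 hN''
  refine ⟨N, hN0, hNpos, ?_⟩
  have hunif : ∀ᶠ K in (𝒰 : Filter ℕ), ∀ j ∈ range h, ∀ z, ‖z‖ ≤ 2 * R + 3 →
      |ψ j K z - Ψ j z| ≤ ε / 2 * (1 / N) :=
    (eventually_all_finset _).2 fun j _ =>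
      unif_of_lip (ψ j) (Ψ j) (hψlip j) (hΨlip j) (hΨ j) _ (mul_pos (half_pos hε) hN3)
  filter_upwards [hunif, h𝒰 (eventually_ge_atTop (N * N))] with K hK hKN
  refine ⟨𝒢, h𝒢, hcard, fun α hα => ?_⟩
  obtain ⟨y, hy, ν, hν, hgap⟩ := hgood α hα
  have hKN' : (N : ℝ) * N ≤ K := by exact_mod_cast hKN
  have hK' : (0 : ℝ) < K := (mul_pos hN'' hN'').trans_le hKN'
  obtain ⟨s, hs⟩ : ∃ s : ℝ, s = ((K / N + 1 : ℕ) : ℝ) := ⟨_, rfl⟩
  rw [← hs]
  have hs1 : (K : ℝ) / N ≤ s := by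
    rw [div_le_iff₀ hN'', hs]
    have := Nat.lt_div_mul_add (a := K) hNpos
    have h2 : (K : ℝ) ≤ ((K / N * N + N : ℕ) : ℝ) := by exact_mod_cast this.le
    push_cast at h2 ⊢
    linarith only [h2]
  have hs2 : s ≤ K / N + 1 := by
    rw [hs]
    push_cast
    linarith only [Nat.cast_div_le (α := ℝ) (m := K) (n := N)]
  have hNK : (N : ℝ) ≤ K / N := by rw [le_div_iff₀ hN'']; exact hKN'
  have hα' : ∀ l, |(α l : ℝ)| ≤ N := fun l => by
    have := mem_cellY.1 (h𝒢 hα) l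
    rw [abs_le]
    exact ⟨by exact_mod_cast this.1, by exact_mod_cast this.2.le⟩
  have hy1 : ‖y‖ ≤ 1 := (pi_norm_le_iff_of_nonneg zero_le_one).2 fun l => by
    have h1 := mem_cellY.1 (h𝒢 hα) l
    have h2 : -(N : ℝ) ≤ α l := by exact_mod_cast h1.1
    have h3 : (α l : ℝ) + 1 ≤ N := by exact_mod_cast h1.2
    have h4 := (hy l).1
    have h5 := (hy l).2
    rw [div_le_iff₀ hN''] at h4
    rw [lt_div_iff₀ hN''] at h5
    rw [Real.norm_eq_abs, abs_le]
    exact ⟨le_of_mul_le_mul_right (by linarith only [h2, h4]) hN'',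
      le_of_mul_le_mul_right (by linarith only [h3, h5]) hN''⟩
  have hs3 : s ≤ 2 * (K / N) := by linarith only [hs2, hNK, hN']
  let z : (Fin (m + 1) → ℝ) → Fin m → ℝ := fun x l => (x l.succ - x 0) / K
  have hz : ∀ x, Prism s α R x → ‖z x - y‖ ≤ (2 * R + 2) * (1 / N) := by
    intro x hx
    refine (pi_norm_le_iff_of_nonneg (mul_nonneg (by linarith only [hR]) hN3.le)).2 fun l => ?_
    have h1 := abs_le.1 (hx l)
    have h2 : |(s - K / N) * α l| ≤ K / N := by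
      rw [abs_mul]
      calc |s - K / N| * |(α l : ℝ)| ≤ 1 * N := by
            refine mul_le_mul ?_ (hα' l) (abs_nonneg _) zero_le_one
            rw [abs_le]; constructor <;> linarith only [hs1, hs2]
        _ ≤ K / N := (one_mul _).trans_le hNK
    have h3 := abs_le.1 h2
    have h4 : (K : ℝ) / N * α l ≤ K * y l := by
      have := mul_le_mul_of_nonneg_left (hy l).1 hK'.le
      calc (K : ℝ) / N * α l = K * (α l / N) := by ring
        _ ≤ _ := this
    have h5 : K * y l ≤ (K : ℝ) / N * α l + K / N := by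
      have := mul_le_mul_of_nonneg_left (hy l).2.le hK'.le
      calc K * y l ≤ K * ((α l + 1) / N) := this
        _ = _ := by ring
    have h6 : R * s ≤ R * (2 * (K / N)) := mul_le_mul_of_nonneg_left hs3 hR.le
    have h7 : (z x - y) l = (x l.succ - x 0 - K * y l) / K := by
      simp only [z, Pi.sub_apply]
      field_simp
    rw [Real.norm_eq_abs, h7, abs_div, abs_of_pos hK', div_le_iff₀ hK', abs_le]
    have h8 : (2 * R + 2) * (1 / N) * K = 2 * R * (K / N) + 2 * (K / N) := by ring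
    rw [h8]
    have h9 : (0 : ℝ) ≤ K / N := hN''.le.trans hNK
    generalize (K : ℝ) / N = t at h3 h4 h5 h6 h9
    constructor <;> linarith only [h1.1, h1.2, h3.1, h3.2, h4, h5, h6, h9]
  have hz' : ∀ x, Prism s α R x → ‖z x‖ ≤ 2 * R + 3 := by
    intro x hx
    have h1 := hz x hx
    have h2 : (2 * R + 2) * (1 / (N : ℝ)) ≤ (2 * R + 2) * 1 := by
      exact mul_le_mul_of_nonneg_left ((div_le_one hN'').2 hN') (by linarith only [hR])
    have h3 := norm_add_le (z x - y) y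
    rw [sub_add_cancel] at h3
    linarith only [h1, h2, h3, hy1]
  have hφ : ∀ j x, φ K j x = x 0 + K * ψ j K (z x) := by
    intro j x
    have h1 : x = fun i => up K (z x) i + x 0 := by
      funext i
      refine Fin.cases (by simp [up]) (fun l => ?_) i
      simp only [up, z, Fin.cons_succ]
      field_simp
      ring
    conv_lhs => rw [h1, (htop K j).shift]
    simp only [ψ]
    field_simp
    ring
  have hKN1 : K * (1 / (N : ℝ)) = K / N := by ring
  refine ⟨fun j => Fin.cons (1 - ∑ l, ν j l) (ν j),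
    fun j => K * ∑ l, ν j l * y l - K * Ψ j y, ?_, ?_, ?_, ?_⟩
  · intro j hj i
    refine Fin.cases ?_ (fun l => ?_) i
    · simpa using (hν j hj).2.1
    · simpa using (hν j hj).1 l
  · intro j _
    simp [Fin.sum_univ_succ]
  · intro j hj x hx
    have h1 := abs_le.1 ((hν j hj).2.2 (z x) (hz x hx))
    have h2 := abs_le.1 (hK j (mem_range.2 hj) (z x) (hz' x hx))
    have h3 : K * ∑ l, ν j l * (z x l - y l) =
        ∑ l, ν j l * x l.succ - (∑ l, ν j l) * x 0 - K * ∑ l, ν j l * y l := by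
      rw [mul_sum, mul_sum, sum_mul, ← sum_sub_distrib, ← sum_sub_distrib]
      refine sum_congr rfl fun l _ => ?_
      simp only [z]
      field_simp
    have h4 : φ K j x - (∑ i, (Fin.cons (1 - ∑ l, ν j l) (ν j) : Fin (m + 1) → ℝ) i * x i -
        (K * ∑ l, ν j l * y l - K * Ψ j y)) =
        K * (ψ j K (z x) - Ψ j y - ∑ l, ν j l * (z x l - y l)) := by
      rw [hφ, Fin.sum_univ_succ, mul_sub, mul_sub, h3]
      simp only [Fin.cons_zero, Fin.cons_succ]
      ring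
    rw [h4, abs_mul, abs_of_pos hK']
    have h5 : |ψ j K (z x) - Ψ j y - ∑ l, ν j l * (z x l - y l)| ≤ ε * (1 / N) := by
      rw [abs_le]
      constructor <;> linarith only [h1.1, h1.2, h2.1, h2.2]
    calc K * |ψ j K (z x) - Ψ j y - ∑ l, ν j l * (z x l - y l)| ≤ K * (ε * (1 / N)) :=
          mul_le_mul_of_nonneg_left h5 hK'.le
      _ = ε * (K / N) := by ring
      _ ≤ ε * s := mul_le_mul_of_nonneg_left hs1 hε.le
  · intro j hj j' hj'
    rcases hgap j hj j' hj' with ⟨h1, h2⟩ | h1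
    · left
      simp only [h1, h2, and_self]
    · right
      intro x hx
      have a1 := abs_le.1 (hK j (mem_range.2 hj) (z x) (hz' x hx))
      have a2 := abs_le.1 (hK j' (mem_range.2 hj') (z x) (hz' x hx))
      have a3 := abs_le.1 ((hΨlip j (z x) y).trans (hz x hx))
      have a4 := abs_le.1 ((hΨlip j' (z x) y).trans (hz x hx))
      have h2 : 2 * M * (1 / N) ≤ |ψ j K (z x) - ψ j' K (z x)| := by
        rcases le_abs.1 h1 with h3 | h3
        · exact le_abs.2 (Or.inl (by linarith only [h3, a1.1, a2.2, a3.1, a4.2]))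
        · exact le_abs.2 (Or.inr (by linarith only [h3, a1.2, a2.1, a3.2, a4.1]))
      rw [hφ, hφ, add_sub_add_left_eq_sub, ← mul_sub, abs_mul, abs_of_pos hK']
      calc M * s ≤ M * (2 * (K / N)) := mul_le_mul_of_nonneg_left hs3 hM.le
        _ = K * (2 * M * (1 / N)) := by ring
        _ ≤ _ := mul_le_mul_of_nonneg_left h2 hK'.le

end Pool.Agent.Work.MP_84019e_co
end
end

-- merged part: Pool.Agent.Work.MP_84019e_co.GridGeom
section
set_option autoImplicit false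

namespace Pool.Agent.Work.MP_84019e_co

open Finset

/-- A family with its sheets and affine approximations over the good cells. -/
structure Setup (m h K s : ℕ) (ε R M : ℝ) where
  F : Finset (Fin (m + 1) → ℤ)
  lev : (Fin (m + 1) → ℤ) → ℕ
  φ : ℕ → (Fin (m + 1) → ℝ) → ℝ
  𝒢 : Finset (Fin m → ℤ)
  ν : (Fin m → ℤ) → ℕ → Fin (m + 1) → ℝ
  c : (Fin m → ℤ) → ℕ → ℝ
  sheets : Sheets h K F lev φ
  good : ∀ α ∈ 𝒢, Good h φ s ε R M α (ν α) (c α)

lemma abs_avg_sub_le {d : ℕ} {ν z : Fin d → ℝ} (h0 : ∀ i, 0 ≤ ν i) (h1 : ∑ i, ν i = 1) {a B : ℝ}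
    (h : ∀ l, |z l - a| ≤ B) : |∑ l, ν l * z l - a| ≤ B := by
  have h2 : ∑ l, ν l * z l - a = ∑ l, ν l * (z l - a) := by
    simp only [mul_sub, sum_sub_distrib, ← sum_mul, h1, one_mul]
  rw [h2]
  calc |∑ l, ν l * (z l - a)| ≤ ∑ l, |ν l * (z l - a)| := abs_sum_le_sum_abs _ _
    _ ≤ ∑ l, ν l * B := sum_le_sum fun l _ => by
        rw [abs_mul, abs_of_nonneg (h0 l)]
        exact mul_le_mul_of_nonneg_left (h l) (h0 l)
    _ = B := by rw [← sum_mul, h1, one_mul]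

/-- The point lies over the cell `α`, at distance at least `κ * s` from its boundary. -/
def Inner {m : ℕ} (s κ : ℝ) (α : Fin m → ℤ) (p : Fin (m + 1) → ℝ) : Prop :=
  ∀ l : Fin m, s * α l + κ * s ≤ p l.succ - p 0 ∧ p l.succ - p 0 ≤ s * α l + s - κ * s

lemma Inner.prism {m : ℕ} {s κ : ℝ} {α : Fin m → ℤ} {p : Fin (m + 1) → ℝ} (h : Inner s κ α p)
    (hs : 0 ≤ s) (hκ : 0 ≤ κ) : Prism s α 1 p := fun l => by
  have := h l
  have h2 := mul_nonneg hκ hs
  rw [abs_le]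
  constructor <;> linarith only [hs, this, h2, this.1, this.2]

lemma Inner.mono {m : ℕ} {s κ κ' : ℝ} {α : Fin m → ℤ} {p : Fin (m + 1) → ℝ} (h : Inner s κ α p)
    (hs : 0 ≤ s) (hκ : κ' ≤ κ) : Inner s κ' α p := fun l => by
  have := h l
  have h2 := mul_le_mul_of_nonneg_right hκ hs
  constructor <;> linarith only [this, h2, this.1, this.2]

lemma inner_of_cell {m s : ℕ} {α : Fin m → ℤ} {x : Fin (m + 1) → ℤ} (hx : yOf x ∈ cell s α) :
    Inner s 0 α (toR x) := fun l => by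
  have := mem_cellY.1 hx l
  simp only [yOf] at this
  simp only [toR, zero_mul, add_zero, sub_zero]
  exact ⟨by exact_mod_cast this.1, by exact_mod_cast this.2.le⟩

namespace Setup

variable {m h K s : ℕ} {ε R M : ℝ} (S : Setup m h K s ε R M)

/-- The affine approximation of the sheet `i.2` over the cell `i.1`. -/
noncomputable def ell (i : (Fin m → ℤ) × ℕ) (x : Fin (m + 1) → ℝ) : ℝ :=
  ∑ l, S.ν i.1 i.2 l * x l - S.c i.1 i.2

open Classical in
/-- Indices of the pieces: a good cell and the top sheet of a cluster with a nondegenerate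
normal. -/
noncomputable def idx (γ : ℝ) : Finset ((Fin m → ℤ) × ℕ) :=
  (S.𝒢 ×ˢ range h).filter fun i =>
    (∀ j < h, S.ν i.1 j = S.ν i.1 i.2 → S.c i.1 j = S.c i.1 i.2 → j ≤ i.2) ∧
      ∀ l, γ ≤ S.ν i.1 i.2 l

open Classical in
/-- The points of the family over a cell that lie on a given cluster of sheets. -/
noncomputable def piece (i : (Fin m → ℤ) × ℕ) : Finset (Fin (m + 1) → ℤ) :=
  S.F.filter fun x => yOf x ∈ cell s i.1 ∧ S.ν i.1 (S.lev x) = S.ν i.1 i.2 ∧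
    S.c i.1 (S.lev x) = S.c i.1 i.2

variable {S}

lemma mem_idx {γ : ℝ} {i : (Fin m → ℤ) × ℕ} : i ∈ S.idx γ ↔ i.1 ∈ S.𝒢 ∧ i.2 < h ∧
    (∀ j < h, S.ν i.1 j = S.ν i.1 i.2 → S.c i.1 j = S.c i.1 i.2 → j ≤ i.2) ∧
      ∀ l, γ ≤ S.ν i.1 i.2 l := by
  simp only [idx, mem_filter, mem_product, mem_range, and_assoc]

lemma mem_piece {i : (Fin m → ℤ) × ℕ} {x : Fin (m + 1) → ℤ} : x ∈ S.piece i ↔
    x ∈ S.F ∧ yOf x ∈ cell s i.1 ∧ S.ν i.1 (S.lev x) = S.ν i.1 i.2 ∧
      S.c i.1 (S.lev x) = S.c i.1 i.2 := by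
  simp only [piece, mem_filter]

lemma piece_sub (i : (Fin m → ℤ) × ℕ) : S.piece i ⊆ S.F := fun _ hx => (mem_piece.1 hx).1

lemma ell_piece {i : (Fin m → ℤ) × ℕ} (hi : i.1 ∈ S.𝒢) (hR : 1 ≤ R) {x : Fin (m + 1) → ℤ}
    (hx : x ∈ S.piece i) : |S.ell i (toR x)| ≤ ε * s := by
  obtain ⟨h1, h2, h3, h4⟩ := mem_piece.1 hx
  have := (S.good _ hi).approx _ (S.sheets.lev_lt x h1) (toR x)
    (((inner_of_cell h2).prism (Nat.cast_nonneg s) le_rfl).mono (Nat.cast_nonneg s) hR)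
  rw [S.sheets.zero x h1, zero_sub, abs_neg, h3, h4] at this
  exact this

lemma ell_add_const {i : (Fin m → ℤ) × ℕ} (hi : i.1 ∈ S.𝒢) (hj : i.2 < h)
    (x : Fin (m + 1) → ℝ) (a : ℝ) : S.ell i (fun l => x l + a) = S.ell i x + a := by
  simp only [ell, mul_add, sum_add_distrib, ← sum_mul, (S.good _ hi).sum _ hj]
  ring

lemma ell_add_single (i : (Fin m → ℤ) × ℕ) (x : Fin (m + 1) → ℝ) (l : Fin (m + 1)) (r : ℝ) :
    S.ell i (x + Pi.single l r) = S.ell i x + S.ν i.1 i.2 l * r := by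
  simp only [ell, sum_mul_add_single]
  ring

/-- Two points over the same cell near the same hyperplane are close. -/
lemma near {i : (Fin m → ℤ) × ℕ} (hi : i.1 ∈ S.𝒢) (hj : i.2 < h) {p q : Fin (m + 1) → ℝ}
    (hp : Inner s 0 i.1 p) (hq : Inner s 0 i.1 q) {b : ℝ} (hb : |S.ell i p - S.ell i q| ≤ b)
    (l : Fin (m + 1)) : |p l - q l| ≤ 2 * s + b := by
  have hs : (0 : ℝ) ≤ s := Nat.cast_nonneg s
  have h1 : ∀ l, |(p l - q l) - (p 0 - q 0)| ≤ s := by
    intro l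
    refine Fin.cases (by simp) (fun l => ?_) l
    have a1 := hp l
    have a2 := hq l
    rw [abs_le]
    constructor <;> linarith only [a1, a2, a1.1, a1.2, a2.1, a2.2]
  have h2 := abs_avg_sub_le (z := fun l => p l - q l) (a := p l - q l) (B := 2 * s)
    ((S.good _ hi).nonneg _ hj) ((S.good _ hi).sum _ hj) fun l' => by
      have a1 := abs_le.1 (h1 l)
      have a2 := abs_le.1 (h1 l')
      rw [abs_le]
      constructor <;> linarith only [a1, a2, a1.1, a1.2, a2.1, a2.2]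
  have h3 : ∑ l, S.ν i.1 i.2 l * (p l - q l) = S.ell i p - S.ell i q := by
    simp only [ell, mul_sub, sum_sub_distrib]
    ring
  rw [h3] at h2
  have a1 := abs_le.1 h2
  have a2 := abs_le.1 hb
  rw [abs_le]
  constructor <;> linarith only [a1, a2, a1.1, a1.2, a2.1, a2.2]

/-- After lowering the sheet `j` by `6 * j * s`, comparabilities between different pieces go
from a lower to a higher sheet. -/
lemma key {γ κ b : ℝ} (hs : 0 < s) (hε : 0 < ε) (hγ : 0 < γ) (hκ : 0 ≤ κ) (hb : 0 ≤ b)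
    (h1 : 2 * b + 3 * ε ≤ 2 * κ * γ) (h2 : γ + 2 * b + 3 * ε + 6 * h ≤ γ * R)
    (h3 : 2 * b + 2 * ε + 6 * h < M) {i i' : (Fin m → ℤ) × ℕ} (hi : i ∈ S.idx γ)
    (hi' : i' ∈ S.idx γ) {p p' : Fin (m + 1) → ℝ} (hp : Inner s κ i.1 p) (hp' : Inner s κ i'.1 p')
    (he : |S.ell i p| ≤ b * s) (he' : |S.ell i' p'| ≤ b * s)
    (hle : ∀ l, p l - 6 * i.2 * s ≤ p' l - 6 * i'.2 * s) : i = i' ∨ i.2 < i'.2 := by
  obtain ⟨α, j⟩ := i
  obtain ⟨α', j'⟩ := i'
  obtain ⟨hα, hj, htop, hnd⟩ := mem_idx.1 hi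
  obtain ⟨hα', hj', htop', -⟩ := mem_idx.1 hi'
  simp only at hα hj htop hnd hα' hj' htop' hp hp' hle ⊢
  rcases lt_or_ge j j' with hjj | hjj
  · exact Or.inr hjj
  left
  have hs' : (0 : ℝ) < s := by exact_mod_cast hs
  have hh : (0 : ℝ) ≤ h := Nat.cast_nonneg h
  have hR : 1 ≤ R := le_of_mul_le_mul_left (by linarith only [h2, hb, hε, hh]) hγ
  have hjj' : (j' : ℝ) ≤ j := by exact_mod_cast hjj
  have hjh : (j : ℝ) ≤ h := by exact_mod_cast hj.le
  have hj0 : (0 : ℝ) ≤ j' := Nat.cast_nonneg j'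
  obtain ⟨D, hD⟩ : ∃ D : ℝ, D = 6 * (j - j') := ⟨_, rfl⟩
  have hD0 : 0 ≤ D := by linarith only [hD, hjj']
  have hD1 : D ≤ 6 * h := by linarith only [hD, hjh, hj0]
  have hD2 := mul_le_mul_of_nonneg_right hD1 hs'.le
  have hDs : D * s = 6 * j * s - 6 * j' * s := by rw [hD]; ring
  have hpP : Prism s α R p := (hp.prism hs'.le hκ).mono hs'.le hR
  have hpP' : Prism s α' R p' := (hp'.prism hs'.le hκ).mono hs'.le hR
  have e1 := abs_le.1 he
  have e1' := abs_le.1 he'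
  have a1 := abs_le.1 ((S.good α hα).approx j hj p hpP)
  have a2 := abs_le.1 ((S.good α' hα').approx j' hj' p' hpP')
  simp only [ell] at e1 e1'
  have b1 : S.φ j' p' ≤ (b + ε) * s := by linarith only [a2.2, e1'.2]
  have b2 : S.φ j' p ≤ S.φ j' p' + D * s :=
    (S.sheets.top j').le_add fun l => by linarith only [hle l, hDs]
  have b3 : -((b + ε) * s) ≤ S.φ j p := by linarith only [a1.1, e1.1]
  have b4 : S.φ j p ≤ S.φ j' p := S.sheets.anti j' j hjj p
  have b5 : |S.φ j' p - S.φ j p| < M * s := by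
    rw [abs_of_nonneg (sub_nonneg.2 b4)]
    linarith only [b1, b2, b3, hD2, mul_lt_mul_of_pos_right h3 hs']
  have hsame : S.ν α j' = S.ν α j ∧ S.c α j' = S.c α j := by
    rcases (S.good α hα).gap j' hj' j hj with h4 | h4
    · exact h4
    · exact absurd (h4 p hpP) (not_le.2 b5)
  obtain ⟨r, hγr, hr0⟩ : ∃ r : ℝ, γ * r = (2 * b + 3 * ε + D) * s ∧ 0 ≤ r :=
    ⟨(2 * b + 3 * ε + D) * s / γ, mul_div_cancel₀ _ hγ.ne',
      div_nonneg (mul_nonneg (by linarith only [hb, hε, hD0]) hs'.le) hγ.le⟩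
  have hrR : r + s ≤ R * s := by
    have : γ * (r + s) ≤ γ * (R * s) := by
      linarith only [hγr, hD2, mul_le_mul_of_nonneg_right h2 hs'.le]
    exact le_of_mul_le_mul_left this hγ
  have hclose : ∀ l, p' l < p l - D * s + r := by
    intro l
    by_contra hn
    push Not at hn
    let q : Fin (m + 1) → ℝ := (fun l => p l + -(D * s)) + Pi.single l r
    have hq : q ≤ p' := fun l' => by
      simp only [q, Pi.add_apply, Pi.single_apply]
      have := hle l'
      split_ifs with h5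
      · subst h5; linarith only [hn]
      · linarith only [this, hDs]
    have hqP : Prism s α R q := fun l' => by
      have := abs_le.1 (hp.prism hs'.le hκ l')
      simp only [q, Pi.add_apply, Pi.single_apply]
      rw [abs_le]
      split_ifs <;> constructor <;> linarith only [this.1, this.2, hrR, hr0]
    have c1 := (S.sheets.top j').mono _ _ hq
    have c2 := abs_le.1 ((S.good α hα).approx j' hj' q hqP)
    have c3 : S.ell (α, j) q = S.ell (α, j) p + -(D * s) + S.ν α j l * r := by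
      simp only [q]
      rw [ell_add_single, ell_add_const (i := (α, j)) hα hj]
    rw [hsame.1, hsame.2] at c2
    simp only [ell] at c3
    have c4 : γ * r ≤ S.ν α j l * r := mul_le_mul_of_nonneg_right (hnd l) hr0
    linarith only [c1, c2.1, c3, c4, e1.1, b1, hγr, mul_pos hε hs']
  have hy : ∀ l : Fin m, |(p' l.succ - p' 0) - (p l.succ - p 0)| < r := fun l => by
    have d1 := hclose l.succ
    have d2 := hclose 0
    have d3 := hle l.succ
    have d4 := hle 0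
    rw [abs_lt]
    constructor <;> linarith only [d1, d2, d3, d4, hDs]
  rcases eq_or_lt_of_le hjj with rfl | hlt
  · have hD' : D = 0 := by rw [hD]; ring
    have hrκ : r ≤ 2 * κ * s := by
      have : γ * r ≤ γ * (2 * κ * s) := by
        rw [hγr, hD']; linarith only [mul_le_mul_of_nonneg_right h1 hs'.le]
      exact le_of_mul_le_mul_left this hγ
    have : α = α' := by
      funext l
      have d1 := abs_lt.1 (hy l)
      have d2 := hp l
      have d3 := hp' l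
      by_contra hne
      rcases lt_or_gt_of_ne hne with h5 | h5
      · have h6 : (α l : ℝ) + 1 ≤ α' l := by exact_mod_cast h5
        linarith only [d1.2, d2.2, d3.1, hrκ, mul_le_mul_of_nonneg_left h6 hs'.le]
      · have h6 : (α' l : ℝ) + 1 ≤ α l := by exact_mod_cast h5
        linarith only [d1.1, d2.1, d3.2, hrκ, mul_le_mul_of_nonneg_left h6 hs'.le]
    rw [this]
  · exfalso
    rcases (S.good α' hα').gap j hj j' hj' with h4 | h4
    · have := htop' j hj h4.1 h4.2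
      omega
    · have hpP2 : Prism s α' R p := fun l => by
        have d1 := abs_lt.1 (hy l)
        have d2 := abs_le.1 (hp'.prism hs'.le hκ l)
        rw [abs_le]
        constructor <;> linarith only [d1.1, d1.2, d2.1, d2.2, hrR]
      have := h4 p hpP2
      rw [abs_sub_comm] at this
      exact absurd this (not_le.2 b5)

lemma total {γ b : ℝ} (hR : 1 ≤ R) (hb : b + ε ≤ 1) {i i' : (Fin m → ℤ) × ℕ} (hi : i ∈ S.idx γ)
    (hi' : i' ∈ S.idx γ) {p p' : Fin (m + 1) → ℝ} (hp : Inner s 0 i.1 p) (hp' : Inner s 0 i'.1 p')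
    (he : |S.ell i p| ≤ b * s) (he' : |S.ell i' p'| ≤ b * s) (hlt : i.2 < i'.2)
    (hle : ∀ l, p l - 6 * i.2 * s ≤ p' l - 6 * i'.2 * s) :
    ∀ a ∈ S.piece i, ∀ a' ∈ S.piece i', a ≤ a' := by
  intro a ha a' ha' l
  have hs : (0 : ℝ) ≤ s := Nat.cast_nonneg s
  obtain ⟨hα, hj, -, -⟩ := mem_idx.1 hi
  obtain ⟨hα', hj', -, -⟩ := mem_idx.1 hi'
  have e1 := abs_le.1 (ell_piece hα hR ha)
  have e2 := abs_le.1 (ell_piece hα' hR ha')
  have e3 := abs_le.1 he
  have e4 := abs_le.1 he'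
  have hbs : b * s + ε * s ≤ s := by linarith only [mul_le_mul_of_nonneg_right hb hs]
  have n1 := abs_le.1 (near hα hj (inner_of_cell (mem_piece.1 ha).2.1) hp (b := s)
    (by rw [abs_le]; constructor <;> linarith only [e1.1, e1.2, e3.1, e3.2, hbs]) l)
  have n2 := abs_le.1 (near hα' hj' (inner_of_cell (mem_piece.1 ha').2.1) hp' (b := s)
    (by rw [abs_le]; constructor <;> linarith only [e2.1, e2.2, e4.1, e4.2, hbs]) l)
  have hlt' : (i.2 : ℝ) + 1 ≤ i'.2 := by exact_mod_cast hlt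
  have h5 := hle l
  have : toR a l ≤ toR a' l := by
    linarith only [n1.2, n2.1, h5, mul_le_mul_of_nonneg_right hlt' hs]
  simp only [toR] at this
  exact_mod_cast this

lemma mem_cells (N : ℕ) (hs : 0 < s) (hK : K ≤ N * s) {x : Fin (m + 1) → ℤ} (hx : x ∈ S.F) :
    ∃ α ∈ cells m N, yOf x ∈ cell s α := by
  have hs' : (0 : ℤ) < s := by exact_mod_cast hs
  have hK' : (K : ℤ) ≤ N * s := by exact_mod_cast hK
  refine ⟨fun l => yOf x l / s, mem_cellY.2 fun l => ?_, mem_cellY.2 fun l => ?_⟩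
  · have h1 := mem_box.1 (S.sheets.sub hx) l.succ
    have h2 := mem_box.1 (S.sheets.sub hx) 0
    constructor
    · rw [Int.le_ediv_iff_mul_le hs']
      simp only [yOf]
      linarith only [hK, h1, h2, h1.1, h2.2]
    · rw [Int.ediv_lt_iff_lt_mul hs']
      simp only [yOf]
      linarith only [hK, h1, h2, h1.2, h2.1]
  · have h1 := Int.mul_ediv_add_emod (yOf x l) s
    have h2 := Int.emod_nonneg (yOf x l) hs'.ne'
    have h3 := Int.emod_lt_of_pos (yOf x l) hs'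
    constructor <;> linarith only [h1, h2, h3]

/-- The pieces carry almost all of the family. -/
lemma card_le_pieces {γ η : ℝ} (N : ℕ) (hs : 0 < s) (hK : K ≤ N * s) (hR : 3 ≤ R) (hε : 0 ≤ ε)
    (hγ : 0 ≤ γ) (h𝒢 : S.𝒢 ⊆ cells m N) (hbad : ((cells m N \ S.𝒢).card : ℝ) ≤ η * N ^ m) :
    (S.F.card : ℝ) ≤ ∑ i ∈ S.idx γ, ((S.piece i).card : ℝ) + h * (η * N ^ m * s ^ m) +
      h * ((2 * N) ^ m * ((3 * s) ^ m * (γ + 2 * ε))) := by
  classical
  let A : (Fin m → ℤ) × ℕ → Finset (Fin (m + 1) → ℤ) := fun i =>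
    S.F.filter fun x => yOf x ∈ cell s i.1 ∧ S.lev x = i.2
  let I1 := (cells m N \ S.𝒢) ×ˢ range h
  let I2 := (S.𝒢 ×ˢ range h).filter fun i => ∃ l, S.ν i.1 i.2 l < γ
  have hsub : S.F ⊆ ((S.idx γ).biUnion S.piece ∪ I1.biUnion A) ∪ I2.biUnion A := by
    intro x hx
    obtain ⟨α, hα, hxα⟩ := S.mem_cells N hs hK hx
    have hl := S.sheets.lev_lt x hx
    have hA : x ∈ A (α, S.lev x) := mem_filter.2 ⟨hx, hxα, rfl⟩
    by_cases hg : α ∈ S.𝒢
    · by_cases hd : ∃ l, S.ν α (S.lev x) l < γ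
      · exact mem_union_right _ (mem_biUnion.2 ⟨(α, S.lev x),
          mem_filter.2 ⟨mem_product.2 ⟨hg, mem_range.2 hl⟩, hd⟩, hA⟩)
      · push Not at hd
        obtain ⟨j, hj, hmax⟩ := exists_max_image ((range h).filter fun j =>
          S.ν α j = S.ν α (S.lev x) ∧ S.c α j = S.c α (S.lev x)) id
          ⟨S.lev x, mem_filter.2 ⟨mem_range.2 hl, rfl, rfl⟩⟩
        obtain ⟨hj1, hj2, hj3⟩ := mem_filter.1 hj
        refine mem_union_left _ (mem_union_left _ (mem_biUnion.2 ⟨(α, j), mem_idx.2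
          ⟨hg, mem_range.1 hj1, fun j' hj' h1 h2 => ?_, fun l => ?_⟩,
          mem_piece.2 ⟨hx, hxα, hj2.symm, hj3.symm⟩⟩))
        · exact hmax j' (mem_filter.2 ⟨mem_range.2 hj', h1.trans hj2, h2.trans hj3⟩)
        · simp only [hj2]
          exact hd l
    · exact mem_union_left _ (mem_union_right _ (mem_biUnion.2 ⟨(α, S.lev x),
        mem_product.2 ⟨mem_sdiff.2 ⟨hα, hg⟩, mem_range.2 hl⟩, hA⟩))
  have h1 : S.F.card ≤ ∑ i ∈ S.idx γ, (S.piece i).card + ∑ i ∈ I1, (A i).card +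
      ∑ i ∈ I2, (A i).card :=
    (card_le_card hsub).trans ((card_union_le _ _).trans (add_le_add
      ((card_union_le _ _).trans (add_le_add card_biUnion_le card_biUnion_le)) card_biUnion_le))
  have h1' : (S.F.card : ℝ) ≤ ∑ i ∈ S.idx γ, ((S.piece i).card : ℝ) +
      ∑ i ∈ I1, ((A i).card : ℝ) + ∑ i ∈ I2, ((A i).card : ℝ) := by exact_mod_cast h1
  have h2 : ∑ i ∈ I1, ((A i).card : ℝ) ≤ h * (η * N ^ m * s ^ m) := by
    calc ∑ i ∈ I1, ((A i).card : ℝ) ≤ ∑ _i ∈ I1, (s : ℝ) ^ m := sum_le_sum fun i _ => by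
          have := S.sheets.card_level_le (cell s i.1) i.2
          rw [card_cell] at this
          exact_mod_cast this
      _ = (cells m N \ S.𝒢).card * h * (s : ℝ) ^ m := by
          rw [sum_const, nsmul_eq_mul, card_product, card_range, Nat.cast_mul]
      _ ≤ η * N ^ m * h * (s : ℝ) ^ m := by gcongr
      _ = _ := by ring
  have h3 : ∑ i ∈ I2, ((A i).card : ℝ) ≤ h * ((2 * N) ^ m * ((3 * s) ^ m * (γ + 2 * ε))) := by
    have hc : (I2.card : ℝ) ≤ (2 * N) ^ m * h := by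
      have : I2.card ≤ (2 * N) ^ m * h := by
        refine (card_filter_le _ _).trans ?_
        rw [card_product, card_range, ← card_cells]
        exact Nat.mul_le_mul_right _ (card_le_card h𝒢)
      exact_mod_cast this
    calc ∑ i ∈ I2, ((A i).card : ℝ) ≤ ∑ _i ∈ I2, (3 * s : ℝ) ^ m * (γ + 2 * ε) :=
          sum_le_sum fun i hi => by
            obtain ⟨hi1, l, hl⟩ := mem_filter.1 hi
            obtain ⟨hi2, hi3⟩ := mem_product.1 hi1
            refine (S.sheets.deg_count hs i.1 i.2 (S.ν i.1 i.2) (S.c i.1 i.2) ε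
              (fun x hx => (S.good _ hi2).approx _ (mem_range.1 hi3) x
                (hx.mono (Nat.cast_nonneg s) hR)) l).trans ?_
            gcongr
      _ = I2.card * ((3 * s : ℝ) ^ m * (γ + 2 * ε)) := by rw [sum_const, nsmul_eq_mul]
      _ ≤ (2 * N) ^ m * h * ((3 * s : ℝ) ^ m * (γ + 2 * ε)) := by gcongr
      _ = _ := by ring
  linarith only [h1', h2, h3]

end Setup

end Pool.Agent.Work.MP_84019e_co
end
end

-- merged part: Pool.Agent.Work.MP_84019e_co.GridMain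
section
-- merged part: Pool.Agent.Work.MP_84019e_co.GridBlow
section
set_option autoImplicit false

namespace Pool.Agent.Work.MP_84019e_co

open Finset

namespace Setup

variable {m h K s : ℕ} {ε R M : ℝ} (S : Setup m h K s ε R M)

/-- Projected translation vector of a copy. -/
noncomputable def trW (s : ℕ) (κ t : ℝ) (g : ℕ) (α β : Fin m → ℤ) (l : Fin m) : ℤ :=
  ⌈t * (s * α l + κ * s)⌉ - s * α l + β l * (s + g)

/-- The real number whose integer part is the diagonal translation of a copy. -/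
noncomputable def trE (κ t : ℝ) (g : ℕ) (i : (Fin m → ℤ) × ℕ) (β : Fin m → ℤ) : ℝ :=
  (t - 1) * S.c i.1 i.2 - t * (6 * i.2 * s) -
    ∑ l : Fin m, S.ν i.1 i.2 l.succ * (trW s κ t g i.1 β l : ℝ)

/-- Translation vector of a copy. -/
noncomputable def tr (κ t : ℝ) (g : ℕ) (B : ℤ) (i : (Fin m → ℤ) × ℕ) (β : Fin m → ℤ) :
    Fin (m + 1) → ℤ :=
  Fin.cons (⌊S.trE κ t g i β⌋ + B) fun l => ⌊S.trE κ t g i β⌋ + B + trW s κ t g i.1 β l

/-- The position of a translated point in the original scale. -/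
noncomputable def back (s : ℕ) (t : ℝ) (B : ℤ) (j : ℕ) (x : Fin (m + 1) → ℤ) :
    Fin (m + 1) → ℝ := fun l => ((x l : ℝ) - B) / t + 6 * j * s

variable {S}

lemma yOf_tr (κ t : ℝ) (g : ℕ) (B : ℤ) (i : (Fin m → ℤ) × ℕ) (β : Fin m → ℤ)
    (x : Fin (m + 1) → ℤ) (l : Fin m) :
    yOf (x + S.tr κ t g B i β) l = yOf x l + trW s κ t g i.1 β l := by
  simp only [yOf, tr, Pi.add_apply, Fin.cons_succ, Fin.cons_zero]
  ring

lemma inner_back {κ t : ℝ} {g nc : ℕ} (B : ℤ) {i : (Fin m → ℤ) × ℕ} {β : Fin m → ℤ}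
    (ht : 0 < t) (hnc : 1 + nc * (s + g : ℝ) ≤ t * s * (1 - 2 * κ))
    (hβ : β ∈ cellY (fun _ => 0) fun _ => (nc : ℤ)) {x : Fin (m + 1) → ℤ}
    (hx : yOf x ∈ cell s i.1) : Inner s κ i.1 (back s t B i.2 (x + S.tr κ t g B i β)) := by
  intro l
  have h1 : back s t B i.2 (x + S.tr κ t g B i β) l.succ -
      back s t B i.2 (x + S.tr κ t g B i β) 0 = (yOf (x + S.tr κ t g B i β) l : ℝ) / t := by
    simp only [back, yOf]
    push_cast
    field_simp
    ring
  rw [h1, yOf_tr, le_div_iff₀ ht, div_le_iff₀ ht]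
  have h2 := mem_cellY.1 hx l
  have h3 := mem_cellY.1 hβ l
  have h4 : (s : ℝ) * i.1 l ≤ yOf x l := by exact_mod_cast h2.1
  have h5 : (yOf x l : ℝ) ≤ s * i.1 l + s := by exact_mod_cast h2.2.le
  have h6 : (0 : ℝ) ≤ β l := by exact_mod_cast h3.1
  have h7 : (β l : ℝ) + 1 ≤ nc := by exact_mod_cast h3.2
  have h8 := Int.le_ceil (t * (s * i.1 l + κ * s))
  have h9 := Int.ceil_lt_add_one (t * (s * i.1 l + κ * s))
  have h10 : (0 : ℝ) ≤ s + g := by positivity
  have h11 := mul_nonneg h6 h10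
  have h12 := mul_le_mul_of_nonneg_right h7 h10
  have h13 : (0 : ℝ) ≤ g := Nat.cast_nonneg g
  simp only [trW]
  push_cast
  constructor <;> linarith only [h4, h8, h11, hnc, h5, h9, h12]

lemma ell_back {κ t : ℝ} {g : ℕ} (B : ℤ) {i : (Fin m → ℤ) × ℕ} (β : Fin m → ℤ) (ht : 0 < t)
    (hi : i.1 ∈ S.𝒢) (hj : i.2 < h) (x : Fin (m + 1) → ℤ) :
    t * S.ell i (back s t B i.2 (x + S.tr κ t g B i β)) =
      S.ell i (toR x) - Int.fract (S.trE κ t g i β) := by
  have h1 := (S.good _ hi).sum _ hj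
  have h2 : ∀ l, t * (S.ν i.1 i.2 l * back s t B i.2 (x + S.tr κ t g B i β) l) =
      S.ν i.1 i.2 l * toR x l + S.ν i.1 i.2 l * (S.tr κ t g B i β l : ℝ) +
        S.ν i.1 i.2 l * (t * (6 * i.2 * s) - B) := by
    intro l
    simp only [back, toR, Pi.add_apply]
    push_cast
    field_simp
    ring
  have h3 : ∑ l, S.ν i.1 i.2 l * (S.tr κ t g B i β l : ℝ) = ⌊S.trE κ t g i β⌋ + B +
      ∑ l : Fin m, S.ν i.1 i.2 l.succ * (trW s κ t g i.1 β l : ℝ) := by
    rw [Fin.sum_univ_succ] at h1 ⊢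
    simp only [tr, Fin.cons_zero, Fin.cons_succ]
    push_cast
    simp only [mul_add, sum_add_distrib, ← sum_mul]
    linear_combination ((⌊S.trE κ t g i β⌋ : ℝ) + B) * h1
  have h4 : t * ∑ l, S.ν i.1 i.2 l * back s t B i.2 (x + S.tr κ t g B i β) l =
      ∑ l, S.ν i.1 i.2 l * toR x l + ∑ l, S.ν i.1 i.2 l * (S.tr κ t g B i β l : ℝ) +
        (t * (6 * i.2 * s) - B) := by
    rw [mul_sum, sum_congr rfl fun l _ => h2 l, sum_add_distrib, sum_add_distrib, ← sum_mul, h1,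
      one_mul]
  have h5 : S.trE κ t g i β = (t - 1) * S.c i.1 i.2 - t * (6 * i.2 * s) -
    ∑ l : Fin m, S.ν i.1 i.2 l.succ * (trW s κ t g i.1 β l : ℝ) := rfl
  rw [ell, ell, mul_sub, h4, h3, Int.fract]
  linarith only [h5]

theorem blowup {P : Type} [PartialOrder P] [Fintype P] (hF : WeakFree P S.F) {γ κ t : ℝ}
    (hs : 0 < s) (hε : 0 < ε) (hγ : 0 < γ) (hκ : 0 ≤ κ) (hε3 : 3 * ε ≤ 1)
    (h1 : 7 * ε ≤ 2 * κ * γ) (h2 : γ + 7 * ε + 6 * h ≤ γ * R) (h3 : 6 * ε + 6 * h < M)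
    (hεs : 1 ≤ ε * s) (ht : 1 ≤ t) (g nc k : ℕ) (hg : 3 * (ε * s) ≤ γ * g)
    (hnc : 1 + nc * (s + g : ℝ) ≤ t * s * (1 - 2 * κ))
    (hk : t * (K + (6 + 6 * h) * s) + 1 ≤ k) :
    (nc : ℝ) ^ m * (∑ i ∈ S.idx γ, ((S.piece i).card : ℝ) -
      (S.idx γ).card * (2 ^ Fintype.card P * Fintype.card P)) ≤ G P (m + 1) k := by
  classical
  choose cl hcl1 hcl2 hcl3 using fun i => exists_clean (P := P) (S.piece i)
  have ht0 : 0 < t := by linarith only [hε, hε3, ht]
  have hs' : (0 : ℝ) < s := by exact_mod_cast hs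
  have hh : (0 : ℝ) ≤ h := Nat.cast_nonneg h
  have hR : 1 ≤ R := le_of_mul_le_mul_left (by linarith only [h2, hε, hh]) hγ
  have e0 : 3 * (ε * s) ≤ s := by linarith only [mul_le_mul_of_nonneg_right hε3 hs'.le]
  let B : ℤ := ⌈t * ((3 + 6 * h) * s)⌉
  let Bs : Finset (Fin m → ℤ) := cellY (fun _ => 0) fun _ => (nc : ℤ)
  let I := S.idx γ ×ˢ Bs
  let T : ((Fin m → ℤ) × ℕ) × (Fin m → ℤ) → (Fin (m + 1) → ℤ) → Fin (m + 1) → ℤ :=
    fun i x => x + S.tr κ t g B i.1 i.2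
  let p : ((Fin m → ℤ) × ℕ) × (Fin m → ℤ) → (Fin (m + 1) → ℤ) → Fin (m + 1) → ℝ :=
    fun i x => back s t B i.1.2 (T i x)
  have hin : ∀ i ∈ I, ∀ x ∈ cl i.1, Inner s κ i.1.1 (p i x) := fun i hi x hx =>
    inner_back B ht0 hnc (mem_product.1 hi).2 (mem_piece.1 (hcl1 _ hx)).2.1
  have hel : ∀ i ∈ I, ∀ x ∈ cl i.1, -(ε * s) - 1 ≤ t * S.ell i.1 (p i x) ∧
      t * S.ell i.1 (p i x) ≤ ε * s := by
    intro i hi x hx
    obtain ⟨hα, hj, -, -⟩ := mem_idx.1 (mem_product.1 hi).1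
    have e1 := abs_le.1 (ell_piece hα hR (hcl1 _ hx))
    have e2 := ell_back (κ := κ) (g := g) B i.2 ht0 hα hj x
    have e3 := Int.fract_nonneg (S.trE κ t g i.1 i.2)
    have e4 := Int.fract_lt_one (S.trE κ t g i.1 i.2)
    simp only [p, T]
    constructor <;> linarith only [e1.1, e1.2, e2, e3, e4]
  have hel' : ∀ i ∈ I, ∀ x ∈ cl i.1, |S.ell i.1 (p i x)| ≤ 2 * ε * s := by
    intro i hi x hx
    have e1 := hel i hi x hx
    have e2 : |t * S.ell i.1 (p i x)| ≤ 2 * ε * s := by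
      rw [abs_le]
      constructor <;> linarith only [e1.1, e1.2, hεs]
    rw [abs_mul, abs_of_pos ht0] at e2
    exact (le_mul_of_one_le_left (abs_nonneg _) ht).trans e2
  have hcomp : ∀ i ∈ I, ∀ i' ∈ I, i ≠ i' → ∀ x ∈ cl i.1, ∀ y ∈ cl i'.1, T i x ≤ T i' y →
      i.1.2 < i'.1.2 ∧ ∀ a ∈ S.piece i.1, ∀ b ∈ S.piece i'.1, a ≤ b := by
    intro i hi i' hi' hne x hx y hy hle
    have hle' : ∀ l, p i x l - 6 * i.1.2 * s ≤ p i' y l - 6 * i'.1.2 * s := fun l => by
      have : (T i x l : ℝ) ≤ T i' y l := by exact_mod_cast hle l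
      simp only [p, back, add_sub_cancel_right]
      gcongr
    rcases key (b := 2 * ε) hs hε hγ hκ (by linarith only [hε]) (by linarith only [h1])
      (by linarith only [h2]) (by linarith only [h3]) (mem_product.1 hi).1 (mem_product.1 hi').1 (hin i hi x hx) (hin i' hi' y hy)
      (hel' i hi x hx) (hel' i' hi' y hy) hle' with h4 | h4
    · exfalso
      obtain ⟨i1, β⟩ := i
      obtain ⟨i1', β'⟩ := i'
      simp only at h4
      subst h4
      obtain ⟨hα, hj, -, hnd⟩ := mem_idx.1 (mem_product.1 hi).1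
      have hβ : β ≠ β' := fun h => hne (by rw [h])
      obtain ⟨l, hl⟩ := Function.ne_iff.1 hβ
      have e1 := hel _ hi x hx
      have e2 := hel _ hi' y hy
      have hd0 : ∀ l, (0 : ℝ) ≤ T (i1, β') y l - T (i1, β) x l := fun l => by
        have : (T (i1, β) x l : ℝ) ≤ T (i1, β') y l := by exact_mod_cast hle l
        exact sub_nonneg.2 this
      have hsum : ∑ l, S.ν i1.1 i1.2 l * ((T (i1, β') y l : ℝ) - T (i1, β) x l) =
          t * S.ell i1 (p (i1, β') y) - t * S.ell i1 (p (i1, β) x) := by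
        simp only [ell, p, back]
        rw [← mul_sub, sub_sub_sub_cancel_right, ← sum_sub_distrib, mul_sum]
        refine sum_congr rfl fun l _ => ?_
        field_simp
        ring
      have hd1 : ∀ l, (T (i1, β') y l : ℝ) - T (i1, β) x l ≤ g := fun l => by
        have e3 : S.ν i1.1 i1.2 l * ((T (i1, β') y l : ℝ) - T (i1, β) x l) ≤
            ∑ l, S.ν i1.1 i1.2 l * ((T (i1, β') y l : ℝ) - T (i1, β) x l) :=
          single_le_sum (f := fun l => S.ν i1.1 i1.2 l * ((T (i1, β') y l : ℝ) - T (i1, β) x l))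
            (fun l _ => mul_nonneg ((S.good _ hα).nonneg _ hj l) (hd0 l)) (mem_univ l)
        have e4 := mul_le_mul_of_nonneg_right (hnd l) (hd0 l)
        have e5 : γ * ((T (i1, β') y l : ℝ) - T (i1, β) x l) ≤ γ * g := by
          simp only at e1 e2 e4
          linarith only [e1.1, e2.2, e3, e4, hsum, hg, hεs]
        exact le_of_mul_le_mul_left e5 hγ
      have hd0' : ∀ l, 0 ≤ T (i1, β') y l - T (i1, β) x l := fun l => by exact_mod_cast hd0 l
      have hd1' : ∀ l, T (i1, β') y l - T (i1, β) x l ≤ g := fun l => by exact_mod_cast hd1 l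
      have f1 := yOf_tr (S := S) κ t g B i1 β x l
      have f2 := yOf_tr (S := S) κ t g B i1 β' y l
      have f3 := mem_cellY.1 (mem_piece.1 (hcl1 _ hx)).2.1 l
      have f4 := mem_cellY.1 (mem_piece.1 (hcl1 _ hy)).2.1 l
      have f5 := hd0' l.succ
      have f6 := hd0' 0
      have f7 := hd1' l.succ
      have f8 := hd1' 0
      simp only [T] at f5 f6 f7 f8
      simp only [trW] at f1 f2
      rw [yOf] at f1 f2
      have hsg : (0 : ℤ) ≤ s + g := by positivity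
      rcases lt_or_gt_of_ne hl with h5 | h5
      · have := mul_le_mul_of_nonneg_right (show β l + 1 ≤ β' l from h5) hsg
        linarith only [this, f1, f2, f3.2, f4.1, f5, f6, f7, f8]
      · have := mul_le_mul_of_nonneg_right (show β' l + 1 ≤ β l from h5) hsg
        linarith only [this, f1, f2, f3.1, f4.2, f5, f6, f7, f8]
    · exact ⟨h4, total (b := 2 * ε) hR (by linarith only [hε3]) (mem_product.1 hi).1 (mem_product.1 hi').1
        ((hin i hi x hx).mono hs'.le hκ) ((hin i' hi' y hy).mono hs'.le hκ) (hel' i hi x hx)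
        (hel' i' hi' y hy) h4 hle'⟩
  have hfree : WeakFree P (I.biUnion fun i => (cl i.1).image (T i)) :=
    weakFree_copies hF I (fun i => S.piece i.1) (fun i => cl i.1) T (fun i _ => piece_sub _)
      (fun i _ => hcl3 _) (fun i _ x _ y _ hxy => le_of_add_le_add_right hxy)
      fun i hi i' hi' hne x hx y hy hle => (hcomp i hi i' hi' hne x hx y hy hle).2
  have hbox : (I.biUnion fun i => (cl i.1).image (T i)) ⊆ box (m + 1) k := by
    intro z hz
    obtain ⟨i, hi, hz⟩ := mem_biUnion.1 hz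
    obtain ⟨x, hx, rfl⟩ := mem_image.1 hz
    obtain ⟨hα, hj, -, -⟩ := mem_idx.1 (mem_product.1 hi).1
    rw [mem_box]
    intro l
    have e1 := abs_le.1 (ell_piece hα hR (hcl1 _ hx))
    have e2 := abs_le.1 (hel' i hi x hx)
    have n1 := abs_le.1 (near hα hj (inner_of_cell (mem_piece.1 (hcl1 _ hx)).2.1)
      ((hin i hi x hx).mono hs'.le hκ) (b := s)
      (by rw [abs_le]; constructor <;> linarith only [e1.1, e1.2, e2.1, e2.2, e0]) l)
    have b1 := mem_box.1 (S.sheets.sub (piece_sub _ (hcl1 _ hx))) l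
    have b2 : (0 : ℝ) ≤ toR x l := by simp only [toR]; exact_mod_cast b1.1
    have b3 : toR x l < K := by simp only [toR]; exact_mod_cast b1.2
    have b4 : (T i x l : ℝ) = t * (p i x l - 6 * i.1.2 * s) + B := by
      simp only [p, back]
      field_simp
      ring
    have b5 := Int.le_ceil (t * ((3 + 6 * h) * s))
    have b6 := Int.ceil_lt_add_one (t * ((3 + 6 * h) * s))
    have hj0 : (0 : ℝ) ≤ i.1.2 := Nat.cast_nonneg _
    have hj1 : (i.1.2 : ℝ) ≤ h := by exact_mod_cast hj.le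
    have c1 : -((3 + 6 * h) * s) ≤ p i x l - 6 * i.1.2 * s := by
      linarith only [n1.2, b2, mul_le_mul_of_nonneg_right hj1 hs'.le]
    have c2 : p i x l - 6 * i.1.2 * s ≤ K + 3 * s := by
      linarith only [n1.1, b3, mul_nonneg hj0 hs'.le]
    have c3 := mul_le_mul_of_nonneg_left c1 ht0.le
    have c4 := mul_le_mul_of_nonneg_left c2 ht0.le
    constructor
    · have : (0 : ℝ) ≤ T i x l := by rw [b4]; simp only [B]; linarith only [c3, b5]
      exact_mod_cast this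
    · have : (T i x l : ℝ) < k := by rw [b4]; simp only [B]; linarith only [c4, b6, hk]
      exact_mod_cast this
  have hcard : (I.biUnion fun i => (cl i.1).image (T i)).card =
      nc ^ m * ∑ i ∈ S.idx γ, (cl i).card := by
    rw [card_biUnion]
    · rw [sum_congr rfl fun i _ => card_image_of_injective (cl i.1)
        (add_left_injective (S.tr κ t g B i.1 i.2)), sum_product, mul_sum]
      refine sum_congr rfl fun i _ => ?_
      show ∑ _y ∈ Bs, (cl i).card = _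
      rw [sum_const, card_cellY (n := nc) fun l => by simp, smul_eq_mul]
    · intro i hi i' hi' hne
      rw [Function.onFun, disjoint_left]
      intro z hz hz'
      obtain ⟨x, hx, rfl⟩ := mem_image.1 hz
      obtain ⟨y, hy, hxy⟩ := mem_image.1 hz'
      have a1 := (hcomp i hi i' hi' hne x hx y hy hxy.ge).1
      have a2 := (hcomp i' hi' i hi hne.symm y hy x hx hxy.le).1
      omega
  have hG := le_G hbox hfree
  rw [hcard] at hG
  have hG' : (nc : ℝ) ^ m * ∑ i ∈ S.idx γ, ((cl i).card : ℝ) ≤ G P (m + 1) k := by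
    exact_mod_cast hG
  refine le_trans (mul_le_mul_of_nonneg_left ?_ (by positivity)) hG'
  rw [sub_le_iff_le_add, ← nsmul_eq_mul, ← sum_const, ← sum_add_distrib]
  exact sum_le_sum fun i _ => by exact_mod_cast hcl2 i

end Setup

end Pool.Agent.Work.MP_84019e_co
end

-- merged part: Pool.Agent.Work.MP_84019e_co.GridMain
section
set_option autoImplicit false

namespace Pool.Agent.Work.MP_84019e_co

open Finset Filter Topology

variable {P : Type} [PartialOrder P] [Fintype P]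

lemma exists_setup [Nonempty P] {m : ℕ} {a : ℝ}
    (ha : ∃ᶠ K : ℕ in atTop, a ≤ (G P (m + 1) K : ℝ) / K ^ m) {ε R M η : ℝ} (hε : 0 < ε)
    (hR : 0 < R) (hM : 0 < M) (hη : 0 < η) (N0 : ℕ) (K0 : ℕ → ℕ) :
    ∃ N ≥ N0, 0 < N ∧ ∃ K ≥ K0 N, 0 < K ∧
      ∃ S : Setup m (Fintype.card P) K (K / N + 1) ε R M, WeakFree P S.F ∧
        a * K ^ m ≤ S.F.card ∧ S.𝒢 ⊆ cells m N ∧ ((cells m N \ S.𝒢).card : ℝ) ≤ η * N ^ m := by
  classical
  have hne : NeBot (atTop ⊓ 𝓟 {K : ℕ | a ≤ (G P (m + 1) K : ℝ) / K ^ m}) :=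
    frequently_iff_neBot.1 ha
  let 𝒰 := Ultrafilter.of (atTop ⊓ 𝓟 {K : ℕ | a ≤ (G P (m + 1) K : ℝ) / K ^ m})
  have h𝒰 := Ultrafilter.of_le (atTop ⊓ 𝓟 {K : ℕ | a ≤ (G P (m + 1) K : ℝ) / K ^ m})
  choose F hF1 hF2 hF3 using G_spec (P := P) (m + 1)
  choose lev φ hS using fun K => exists_sheets (hF1 K) (hF2 K)
  obtain ⟨N, hN0, hN, hev⟩ := exists_good (h := Fintype.card P) 𝒰 (h𝒰.trans inf_le_left) φ
    (fun K => (hS K).top) (fun K => (hS K).anti) (fun K => (hS K).bound) hε hR hM hη N0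
  have h1 : ∀ᶠ K in (𝒰 : Filter ℕ), a ≤ (G P (m + 1) K : ℝ) / K ^ m :=
    le_principal_iff.1 (h𝒰.trans inf_le_right)
  have h2 : ∀ᶠ K in (𝒰 : Filter ℕ), K0 N ≤ K ∧ 0 < K :=
    (h𝒰.trans inf_le_left) ((eventually_ge_atTop _).and (eventually_gt_atTop _))
  obtain ⟨K, ⟨𝒢, h𝒢, hbad, hgood⟩, hK1, hK2, hK3⟩ := (hev.and (h1.and h2)).exists
  choose! ν c hνc using hgood
  refine ⟨N, hN0, hN, K, hK2, hK3, ⟨F K, lev K, φ K, 𝒢, ν, c, hS K, hνc⟩, hF2 K, ?_, h𝒢, hbad⟩
  have hK' : (0 : ℝ) < (K : ℝ) ^ m := by positivity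
  rw [le_div_iff₀ hK', ← hF3 K] at hK1
  exact hK1

lemma side_bounds {K N : ℕ} (hN : 0 < N) :
    K ≤ N * (K / N + 1) ∧ (K : ℝ) / N ≤ ((K / N + 1 : ℕ) : ℝ) ∧
      ((K / N + 1 : ℕ) : ℝ) ≤ K / N + 1 := by
  have h1 : K ≤ N * (K / N + 1) := (Nat.lt_mul_div_succ K hN).le
  refine ⟨h1, ?_, ?_⟩
  · have hN' : (0 : ℝ) < N := by exact_mod_cast hN
    rw [div_le_iff₀ hN', mul_comm]
    exact_mod_cast h1
  · push_cast
    linarith only [Nat.cast_div_le (α := ℝ) (m := K) (n := N)]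

/-- The pieces carry all but a small part of the family. -/
lemma Setup.loss {m h K N : ℕ} {δ R M : ℝ} (S : Setup m h K (K / N + 1) (δ ^ 2 / 4) R M)
    (hN : 0 < N) (hNK : N ≤ K) (hδ : 0 < δ) (hδ1 : δ ≤ 1) (hR : 3 ≤ R) (h𝒢 : S.𝒢 ⊆ cells m N)
    (hbad : ((cells m N \ S.𝒢).card : ℝ) ≤ δ * N ^ m) :
    (S.F.card : ℝ) - (h * 2 ^ m + 2 * h * 12 ^ m) * δ * K ^ m ≤
      ∑ i ∈ S.idx δ, ((S.piece i).card : ℝ) := by
  obtain ⟨h1, h2, h3⟩ := side_bounds (K := K) hN
  have h4 := S.card_le_pieces (γ := δ) N (Nat.succ_pos _) h1 hR (by positivity) hδ.le h𝒢 hbad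
  set s : ℝ := ((K / N + 1 : ℕ) : ℝ) with hs
  have hN' : (0 : ℝ) < N := by exact_mod_cast hN
  have hNK' : (N : ℝ) ≤ K := by exact_mod_cast hNK
  have hs0 : 0 ≤ s := Nat.cast_nonneg _
  have h5 : N * s ≤ 2 * K := by
    calc N * s ≤ N * (K / N + 1) := by gcongr
      _ = K + N := by field_simp
      _ ≤ 2 * K := by linarith only [hNK']
  have h6 : (N : ℝ) ^ m * s ^ m ≤ 2 ^ m * K ^ m := by
    rw [← mul_pow, ← mul_pow]
    exact pow_le_pow_left₀ (by positivity) h5 m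
  have h7 : (2 * (N : ℝ)) ^ m * (3 * s) ^ m ≤ 12 ^ m * K ^ m := by
    rw [← mul_pow, ← mul_pow]
    exact pow_le_pow_left₀ (by positivity) (by linarith only [h5]) m
  have h8 : δ + 2 * (δ ^ 2 / 4) ≤ 2 * δ := by linarith only [hδ, hδ1, mul_nonneg_of_nonpos_of_nonpos (le_of_lt (Mathlib.Tactic.Linarith.sub_neg_of_lt hδ)) (Mathlib.Tactic.Linarith.sub_nonpos_of_le hδ1)]
  have h9 : (h : ℝ) * (δ * N ^ m * s ^ m) ≤ h * (δ * (2 ^ m * K ^ m)) := by
    rw [mul_assoc δ]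
    gcongr
  have h10 : (h : ℝ) * ((2 * N) ^ m * ((3 * s) ^ m * (δ + 2 * (δ ^ 2 / 4)))) ≤
      h * ((12 ^ m * K ^ m) * (2 * δ)) := by
    rw [← mul_assoc ((2 * (N : ℝ)) ^ m)]
    gcongr
  linarith only [h4, h9, h10]

lemma blow_aux1 {δ k K : ℝ} (hδ : 0 < δ) (hK : 0 < K) :
    (1 - 2 * δ) / ((1 + 2 * δ) * (1 + δ)) * ((k - 1) / K) =
      (k - 1) / ((1 + δ) * K) * (1 - 2 * δ) / (1 + 2 * δ) := by
  field_simp

lemma blow_aux2 {u δ k K : ℝ} (hK : 0 < K) :
    u * ((k - 1) / K) - 2 - (1 - δ) * u * (k / K) = (k * (δ * u) - (2 * K + u)) / K := by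
  field_simp
  ring

lemma blow_aux3 {x y k K : ℝ} (m : ℕ) (hK : 0 < K) :
    x ^ m * y * k ^ m = (x * (k / K)) ^ m * (y * K ^ m) := by
  rw [mul_pow x, div_pow]
  field_simp

theorem blow {m : ℕ} [Nonempty P] (hm : 0 < m) {a e : ℝ} (he : 0 < e)
    (ha : ∃ᶠ K : ℕ in atTop, a ≤ (G P (m + 1) K : ℝ) / K ^ m) :
    ∀ᶠ k : ℕ in atTop, a - e ≤ (G P (m + 1) k : ℝ) / k ^ m := by
  rcases le_or_gt (a - e) 0 with hae | hae
  · exact Eventually.of_forall fun k => hae.trans (by positivity)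
  set h : ℕ := Fintype.card P with hh
  set C : ℝ := h * 2 ^ m + 2 * h * 12 ^ m + 1 with hC
  have hcont : ContinuousAt (fun δ : ℝ =>
      ((1 - δ) * ((1 - 2 * δ) / ((1 + 2 * δ) * (1 + δ)))) ^ m * (a - C * δ)) 0 := by
    refine ContinuousAt.mul (ContinuousAt.pow (ContinuousAt.mul (by fun_prop)
      (ContinuousAt.div (by fun_prop) (by fun_prop) (by norm_num))) _) (by fun_prop)
  have h0 : ∀ᶠ δ in 𝓝 (0 : ℝ), a - e <
      ((1 - δ) * ((1 - 2 * δ) / ((1 + 2 * δ) * (1 + δ)))) ^ m * (a - C * δ) :=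
    hcont.eventually (lt_mem_nhds (by simp; linarith only [he]))
  have h0' : ∀ᶠ δ in 𝓝 (0 : ℝ), δ < 1 / 4 := gt_mem_nhds (by norm_num)
  obtain ⟨δ, ⟨hf, hδ4⟩, hδ⟩ := (((h0.and h0').filter_mono
    (nhdsWithin_le_nhds (s := Set.Ioi 0))).and self_mem_nhdsWithin).exists
  have hδ : 0 < δ := hδ
  set u : ℝ := (1 - 2 * δ) / ((1 + 2 * δ) * (1 + δ)) with hu
  have d1 : 0 < 1 - 2 * δ := by linarith only [hδ4]
  have d2 : 0 < 1 + 2 * δ := by linarith only [hδ]
  have d3 : 0 < 1 + δ := by linarith only [hδ]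
  have d4 : 0 < 1 - δ := by linarith only [hδ4]
  have d5 : 3 * (δ ^ 2 / 4) ≤ 1 := by
    linarith only [mul_le_mul_of_nonneg_left hδ4.le hδ.le, hδ4]
  have d6 : 7 * (δ ^ 2 / 4) ≤ 2 * δ * δ := by linarith only [sq_nonneg δ]
  have d7 : 0 < δ ^ 2 / 4 := by positivity
  have d8 : 1 / 2 ≤ 1 - 2 * δ := by linarith only [hδ4]
  have hu0 : 0 < u := div_pos d1 (mul_pos d2 d3)
  have hθ : 0 < (1 - δ) * u := mul_pos d4 hu0
  have haC : 0 < a - C * δ := by
    by_contra hn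
    push Not at hn
    have := mul_nonpos_of_nonneg_of_nonpos (pow_pos hθ m).le hn
    linarith only [this, hf, hae]
  have hh0 : (0 : ℝ) ≤ h := Nat.cast_nonneg h
  have h66 : (0 : ℝ) ≤ 6 + 6 * h := by linarith only [hh0]
  have d9 : δ + 7 * (δ ^ 2 / 4) + 6 * h ≤ δ * (3 + (δ + 7 * (δ ^ 2 / 4) + 6 * h) / δ) := by
    rw [mul_add, mul_div_cancel₀ _ hδ.ne']
    linarith only [hδ]
  obtain ⟨N, hN0, hN, K, hK0, hK, S, hfree, hcard, h𝒢, hbad⟩ := exists_setup ha
    (ε := δ ^ 2 / 4) (R := 3 + (δ + 7 * (δ ^ 2 / 4) + 6 * h) / δ)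
    (M := 6 * (δ ^ 2 / 4) + 6 * h + 1) (η := δ) (by positivity) (by positivity) (by positivity) hδ
    ⌈(12 + 12 * h) / δ⌉₊ fun N => N + ⌈4 * N / δ ^ 2⌉₊ + ⌈(12 + 12 * h) / δ⌉₊ +
      ⌈((2 * N) ^ m * h * (2 ^ h * h) : ℝ) / δ⌉₊
  obtain ⟨hs1, hs2, hs3⟩ := side_bounds (K := K) hN
  have hN' : (0 : ℝ) < N := by exact_mod_cast hN
  have hK' : (1 : ℝ) ≤ K := by exact_mod_cast hK
  have hKa : N ≤ K := by omega
  have hKb : 4 * N / δ ^ 2 ≤ K := Nat.ceil_le.1 (by omega)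
  have hKc : (12 + 12 * h) / δ ≤ K := Nat.ceil_le.1 (by omega)
  have hKd : ((2 * N) ^ m * h * (2 ^ h * h) : ℝ) / δ ≤ K := Nat.ceil_le.1 (by omega)
  have hNa : (12 + 12 * h) / δ ≤ N := Nat.ceil_le.1 hN0
  have hR3 : 3 ≤ 3 + (δ + 7 * (δ ^ 2 / 4) + 6 * h) / δ := le_add_of_nonneg_right (by positivity)
  have hloss := S.loss hN hKa hδ (by linarith only [hδ4]) hR3 h𝒢 hbad
  have hidx : ((S.idx δ).card : ℝ) * (2 ^ h * h) ≤ δ * K ^ m := by
    have h1 : (S.idx δ).card ≤ (2 * N) ^ m * h := by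
      classical
      refine (card_filter_le _ _).trans ?_
      rw [card_product, card_range, ← card_cells]
      exact Nat.mul_le_mul_right _ (card_le_card h𝒢)
    have h2 : ((S.idx δ).card : ℝ) ≤ (2 * N) ^ m * h := by exact_mod_cast h1
    rw [div_le_iff₀ hδ] at hKd
    have h3 : (K : ℝ) ≤ K ^ m := le_self_pow₀ hK' hm.ne'
    calc ((S.idx δ).card : ℝ) * (2 ^ h * h) ≤ (2 * N) ^ m * h * (2 ^ h * h) := by gcongr
      _ ≤ K * δ := hKd
      _ ≤ K ^ m * δ := by gcongr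
      _ = _ := mul_comm _ _
  have hmass : (a - C * δ) * K ^ m ≤ ∑ i ∈ S.idx δ, ((S.piece i).card : ℝ) -
      (S.idx δ).card * (2 ^ h * h) := by
    rw [hC]
    linarith only [hloss, hidx, hcard]
  have hεs : 4 ≤ δ ^ 2 * ((K / N + 1 : ℕ) : ℝ) := by
    rw [div_le_iff₀ (pow_pos hδ 2)] at hKb
    calc (4 : ℝ) ≤ δ ^ 2 * (K / N) := by
          rw [mul_div_assoc', le_div_iff₀ hN']
          linarith only [hKb]
      _ ≤ _ := mul_le_mul_of_nonneg_left hs2 (sq_nonneg δ)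
  have hεs' : 1 ≤ δ ^ 2 / 4 * ((K / N + 1 : ℕ) : ℝ) := by linarith only [hεs]
  have hblow := fun (t : ℝ) ht g nc k hg hnc hk => S.blowup hfree (γ := δ) (κ := δ) (t := t)
    (Nat.succ_pos _) d7 hδ hδ.le d5 d6 d9 (lt_add_one _) hεs' ht g nc k hg hnc hk
  set s : ℝ := ((K / N + 1 : ℕ) : ℝ) with hs
  have hs0 : 0 < s := Nat.cast_pos.2 (Nat.succ_pos _)
  have hδs : 1 ≤ δ * s := by
    linarith only [mul_le_mul_of_nonneg_right hδ4.le (mul_pos hδ hs0).le, hεs]
  have hs1' : 1 ≤ s := Nat.one_le_cast.2 (Nat.succ_pos _)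
  have hK0' : (0 : ℝ) < K := by linarith only [hK']
  let g : ℕ := ⌈δ * s⌉₊
  have hg1 : δ * s ≤ g := Nat.le_ceil _
  have hg2 : (g : ℝ) ≤ 2 * (δ * s) := by
    have := Nat.ceil_lt_add_one (mul_pos hδ hs0).le
    linarith only [this, hδs]
  set W : ℝ := K + (6 + 6 * h) * s with hW
  have hW0 : 0 < W := add_pos_of_pos_of_nonneg hK0' (mul_nonneg h66 hs0.le)
  have hW1 : W ≤ (1 + δ) * K := by
    rw [div_le_iff₀ hδ] at hKc hNa
    have h1 : (6 + 6 * h) * (K / N) ≤ δ / 2 * (K : ℝ) := by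
      rw [mul_div_assoc', div_le_iff₀ hN']
      linarith only [mul_le_mul_of_nonneg_right hNa hK0'.le]
    have h2 : (6 + 6 * h) * s ≤ (6 + 6 * h) * (K / N + 1) := mul_le_mul_of_nonneg_left hs3 h66
    rw [hW]
    linarith only [h1, h2, hKc]
  filter_upwards [tendsto_natCast_atTop_atTop.eventually (eventually_ge_atTop (W + 1)),
    tendsto_natCast_atTop_atTop.eventually (eventually_ge_atTop (2 * W + 1)),
    tendsto_natCast_atTop_atTop.eventually (eventually_ge_atTop ((2 * K + u) / (δ * u)))]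
    with k hk1 hk2 hk3
  set t : ℝ := (k - 1) / W with ht
  have ht2 : 2 ≤ t := by
    rw [ht, le_div_iff₀ hW0]
    linarith only [hk2]
  have ht1 : 1 ≤ t := one_le_two.trans ht2
  have ht0 : 0 ≤ t := zero_le_one.trans ht1
  have hsg : 0 < s + g := add_pos_of_pos_of_nonneg hs0 (Nat.cast_nonneg _)
  have hnum : 0 ≤ t * s * (1 - 2 * δ) - 1 := by
    have : 2 * 1 * (1 / 2) ≤ t * s * (1 - 2 * δ) :=
      mul_le_mul (mul_le_mul ht2 hs1' zero_le_one ht0) d8 one_half_pos.le (mul_nonneg ht0 hs0.le)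
    linarith only [this]
  let nc : ℕ := ⌊(t * s * (1 - 2 * δ) - 1) / (s + g)⌋₊
  have hnc1 : (nc : ℝ) ≤ (t * s * (1 - 2 * δ) - 1) / (s + g) := Nat.floor_le (div_nonneg hnum hsg.le)
  have hnc2 : (t * s * (1 - 2 * δ) - 1) / (s + g) < nc + 1 := Nat.lt_floor_add_one _
  have e1 : 3 * (δ ^ 2 / 4 * s) ≤ δ * g := by
    linarith only [mul_le_mul_of_nonneg_left hg1 hδ.le, hεs]
  have e2 : 1 + nc * (s + g : ℝ) ≤ t * s * (1 - 2 * δ) := by
    linarith only [(le_div_iff₀ hsg).1 hnc1]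
  have e3 : t * W + 1 ≤ k := by
    have : t * W = k - 1 := div_mul_cancel₀ _ hW0.ne'
    linarith only [this]
  have hb := hblow t ht1 g nc k e1 e2 e3
  have hk0 : (0 : ℝ) < k := by linarith only [hk1, hW0]
  have hk1' : (0 : ℝ) ≤ k - 1 := by linarith only [hk1, hW0]
  have hnc3 : (1 - δ) * u * (k / K) ≤ nc := by
    have h1 : t * (1 - 2 * δ) / (1 + 2 * δ) - 1 ≤ (t * s * (1 - 2 * δ) - 1) / (s + g) := by
      rw [le_div_iff₀ hsg]
      have h2 : t * (1 - 2 * δ) / (1 + 2 * δ) * (s + g) ≤ t * s * (1 - 2 * δ) := by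
        rw [div_mul_eq_mul_div, div_le_iff₀ d2]
        have : t * (1 - 2 * δ) * (s + g) ≤ t * (1 - 2 * δ) * (s * (1 + 2 * δ)) := by
          refine mul_le_mul_of_nonneg_left ?_ (mul_nonneg ht0 d1.le)
          linarith only [hg2]
        linarith only [this]
      have h3 : (0 : ℝ) ≤ g := Nat.cast_nonneg g
      linarith only [h2, h3, hs1']
    have h2 : u * ((k - 1) / K) ≤ t * (1 - 2 * δ) / (1 + 2 * δ) := by
      have h3 : (k - 1) / ((1 + δ) * K) ≤ t := div_le_div_of_nonneg_left hk1' hW0 hW1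
      exact (blow_aux1 hδ hK0').trans_le
        (div_le_div_of_nonneg_right (mul_le_mul_of_nonneg_right h3 d1.le) d2.le)
    have h3 : (1 - δ) * u * (k / K) ≤ u * ((k - 1) / K) - 2 := by
      rw [div_le_iff₀ (mul_pos hδ hu0)] at hk3
      have h4 : u * ((k - 1) / K) - 2 - (1 - δ) * u * (k / K) =
          (k * (δ * u) - (2 * K + u)) / K := blow_aux2 hK0'
      have h5 : 0 ≤ (k * (δ * u) - (2 * K + u)) / K := div_nonneg (sub_nonneg.2 hk3) hK0'.le
      linarith only [h4, h5]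
    linarith only [h1, h2, h3, hnc2]
  rw [le_div_iff₀ (pow_pos hk0 m)]
  calc (a - e) * (k : ℝ) ^ m ≤ ((1 - δ) * u) ^ m * (a - C * δ) * (k : ℝ) ^ m :=
        mul_le_mul_of_nonneg_right hf.le (pow_pos hk0 m).le
    _ = ((1 - δ) * u * (k / K)) ^ m * ((a - C * δ) * K ^ m) := blow_aux3 m hK0'
    _ ≤ (nc : ℝ) ^ m * (∑ i ∈ S.idx δ, ((S.piece i).card : ℝ) -
        (S.idx δ).card * (2 ^ h * h)) :=
        mul_le_mul (pow_le_pow_left₀ (mul_pos hθ (div_pos hk0 hK0')).le hnc3 m) hmass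
          (mul_pos haC (pow_pos hK0' m)).le (pow_nonneg (Nat.cast_nonneg _) m)
    _ ≤ _ := hb

lemma G_le [Nonempty P] (m k : ℕ) : (G P (m + 1) k : ℝ) ≤ Fintype.card P * k ^ m := by
  classical
  obtain ⟨F, hF1, hF2, hF3⟩ := G_spec (P := P) (m + 1) k
  obtain ⟨lev, h1, h2⟩ := exists_lev hF2
  have : F.card ≤ (range (Fintype.card P) ×ˢ box m k).card := by
    refine card_le_card_of_injOn (fun x => (lev x, Fin.tail x)) (fun x hx => ?_) ?_
    · exact mem_coe.2 (mem_product.2 ⟨mem_range.2 (h1 x hx),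
        mem_box.2 fun i => mem_box.1 (hF1 hx) i.succ⟩)
    · intro x hx y hy hxy
      simp only [Prod.mk.injEq] at hxy
      have h3 : ∀ x ∈ F, ∀ y ∈ F, lev x = lev y → Fin.tail x = Fin.tail y → x 0 ≤ y 0 →
          x = y := by
        intro x hx y hy hl ht h0
        by_contra hne
        have hle : x ≤ y := fun i => Fin.cases h0 (fun l => (congrFun ht l).le) i
        have := h2 x hx y hy (lt_of_le_of_ne hle hne)
        omega
      rcases le_total (x 0) (y 0) with h | h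
      · exact h3 x hx y hy hxy.1 hxy.2 h
      · exact (h3 y hy x hx hxy.1.symm hxy.2.symm h).symm
  rw [hF3, card_product, card_range] at this
  have h4 : (box m k).card = k ^ m := by simp [box, Fintype.card_piFinset]
  rw [h4] at this
  exact_mod_cast this

omit [Fintype P] in
lemma G_mono (d : ℕ) : Monotone (G P d) := by
  intro a b hab
  refine csSup_le_csSup' (G_bdd d b) ?_
  rintro n ⟨F, h1, h2, h3⟩
  refine ⟨F, fun x hx => mem_box.2 fun i => ?_, h2, h3⟩
  have := mem_box.1 (h1 hx) i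
  omega

theorem exists_lim [Nonempty P] (m : ℕ) :
    ∃ L : ℝ, Tendsto (fun k : ℕ => (G P (m + 1) k : ℝ) / k ^ m) atTop (𝓝 L) := by
  have hb : ∀ k : ℕ, (G P (m + 1) k : ℝ) / k ^ m ≤ Fintype.card P := fun k =>
    div_le_of_le_mul₀ (by positivity) (by positivity) (G_le m k)
  rcases Nat.eq_zero_or_pos m with rfl | hm
  · refine ⟨_, tendsto_atTop_ciSup (fun a b hab => ?_) ⟨_, by rintro _ ⟨k, rfl⟩; exact hb k⟩⟩
    simp only [pow_zero, div_one]
    exact_mod_cast G_mono _ hab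
  · let u : ℕ → ℝ := fun k => (G P (m + 1) k : ℝ) / k ^ m
    have h1 : IsBoundedUnder (· ≤ ·) atTop u := isBoundedUnder_of ⟨_, hb⟩
    have h2 : IsBoundedUnder (· ≥ ·) atTop u :=
      isBoundedUnder_of ⟨0, fun k => by simp only [u]; positivity⟩
    refine ⟨limsup u atTop, tendsto_order.2 ⟨fun b hb' => ?_, fun b hb' => ?_⟩⟩
    · have h3 : ∃ᶠ k in atTop, (b + limsup u atTop) / 2 < u k :=
        frequently_lt_of_lt_limsup h2.isCoboundedUnder_le (by linarith only [hb'])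
      filter_upwards [blow hm (e := (limsup u atTop - b) / 4) (by linarith only [hb'])
        (h3.mono fun k hk => hk.le)] with k hk
      linarith only [hb', hk]
    · exact eventually_lt_of_limsup_lt hb' h1

lemma two_le_G (m k : ℕ) : (k : ℝ) ^ (m + 1) ≤ (m + 1) * k * G (Fin 2) (m + 1) k := by
  classical
  have h1 : (box (m + 1) k).card ≤ G (Fin 2) (m + 1) k * (range ((m + 1) * k)).card := by
    refine card_le_mul_card_image_of_maps_to (f := fun x : Fin (m + 1) → ℤ => (∑ i, x i).toNat)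
      (fun x hx => ?_) _ fun b _ => le_G (filter_subset _ _) ?_
    · have h2 : ∑ i, x i < ∑ _i : Fin (m + 1), (k : ℤ) :=
        sum_lt_sum_of_nonempty univ_nonempty fun i _ => (mem_box.1 hx i).2
      have h3 : 0 ≤ ∑ i, x i := sum_nonneg fun i _ => (mem_box.1 hx i).1
      simp only [sum_const, card_univ, Fintype.card_fin, nsmul_eq_mul] at h2
      rw [mem_range]
      zify
      rw [Int.toNat_of_nonneg h3]
      exact_mod_cast h2
    · rw [weakFree_two_iff]
      intro x hx y hy hne hle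
      have hx' := mem_filter.1 (mem_coe.1 hx)
      have hy' := mem_filter.1 (mem_coe.1 hy)
      have h2 : 0 ≤ ∑ i, x i := sum_nonneg fun i _ => (mem_box.1 hx'.1 i).1
      obtain ⟨i, hi⟩ := Function.ne_iff.1 hne
      have h3 : ∑ i, x i < ∑ i, y i :=
        sum_lt_sum (fun i _ => hle i) ⟨i, mem_univ _, lt_of_le_of_ne (hle i) hi⟩
      have h4 := hx'.2.trans hy'.2.symm
      omega
  have h4 : (box (m + 1) k).card = k ^ (m + 1) := by simp [box, Fintype.card_piFinset]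
  rw [h4, card_range, mul_comm] at h1
  exact_mod_cast h1

lemma lim_two_pos {m : ℕ} {L : ℝ}
    (h : Tendsto (fun k : ℕ => (G (Fin 2) (m + 1) k : ℝ) / k ^ m) atTop (𝓝 L)) : 0 < L := by
  refine lt_of_lt_of_le (show (0 : ℝ) < 1 / (m + 1) by positivity) (ge_of_tendsto h ?_)
  filter_upwards [eventually_gt_atTop 0] with k hk
  have hk' : (0 : ℝ) < k := by exact_mod_cast hk
  rw [div_le_div_iff₀ (by positivity) (by positivity)]
  have := two_le_G m k
  rw [pow_succ] at this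
  apply le_of_mul_le_mul_right _ hk'
  linarith only [this]

omit [Fintype P] in
theorem ratio_tendsto {m : ℕ} {L L2 : ℝ}
    (h : Tendsto (fun k : ℕ => (G P (m + 1) k : ℝ) / k ^ m) atTop (𝓝 L))
    (h2 : Tendsto (fun k : ℕ => (G (Fin 2) (m + 1) k : ℝ) / k ^ m) atTop (𝓝 L2)) :
    Tendsto (fun k : ℕ => (La (Fin (m + 1) → Fin k) P : ℝ) / width (Fin (m + 1) → Fin k)) atTop
      (𝓝 (L / L2)) := by
  refine (h.div h2 (lim_two_pos h2).ne').congr' ?_
  filter_upwards [eventually_gt_atTop 0] with k hk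
  have hk' : (0 : ℝ) < (k : ℝ) ^ m := by positivity
  rw [width_eq_La, La_eq_G, La_eq_G, Pi.div_apply, div_div_div_cancel_right₀ hk'.ne']

end Pool.Agent.Work.MP_84019e_co
end
end

-- merged part: Pool.Agent.Work.MP_84019e_co.GridPiece
section
-- merged part: Pool.Agent.Work.MP_84019e_co.GridFlux
section
set_option autoImplicit false

namespace Pool.Agent.Work.MP_84019e_co

open Finset

lemma card_box (m k : ℕ) : (box m k).card = k ^ m := by simp [box, Fintype.card_piFinset]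

lemma second_moment {m k : ℕ} (g : ℤ → ℝ) {B : ℝ} (h0 : ∑ u ∈ Ico (0 : ℤ) k, g u = 0)
    (hB : ∀ u ∈ Ico (0 : ℤ) k, g u ^ 2 ≤ B) :
    ∑ x ∈ box m k, (∑ i, g (x i)) ^ 2 ≤ m * (k ^ m * B) := by
  classical
  have h1 : ∀ i j : Fin m, i ≠ j → ∑ x ∈ box m k, g (x i) * g (x j) = 0 := by
    intro i j hij
    have h2 := prod_univ_sum (fun _ : Fin m => Ico (0 : ℤ) k)
      (fun l u => if l = i then g u else if l = j then g u else (1 : ℝ))
    have h3 : ∏ l : Fin m, ∑ u ∈ Ico (0 : ℤ) k,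
        (if l = i then g u else if l = j then g u else (1 : ℝ)) = 0 :=
      prod_eq_zero (mem_univ i) (by simpa using h0)
    rw [h3] at h2
    rw [h2, box]
    refine sum_congr rfl fun x _ => ?_
    rw [← mul_prod_erase _ _ (mem_univ i), ← mul_prod_erase _ _ (mem_erase.2 ⟨hij.symm, mem_univ j⟩),
      prod_eq_one]
    · simp [hij.symm]
    · intro l hl
      have a1 := (mem_erase.1 hl).1
      have a2 := (mem_erase.1 (mem_erase.1 hl).2).1
      simp [a1, a2]
  calc ∑ x ∈ box m k, (∑ i, g (x i)) ^ 2 = ∑ i, ∑ j, ∑ x ∈ box m k, g (x i) * g (x j) := by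
        simp only [sq, sum_mul_sum]
        rw [sum_comm]
        exact sum_congr rfl fun i _ => sum_comm
    _ = ∑ i : Fin m, ∑ x ∈ box m k, g (x i) ^ 2 := sum_congr rfl fun i _ => by
        rw [sum_eq_single i (fun j _ hj => h1 i j hj.symm) (by simp)]
        simp only [sq]
    _ ≤ ∑ _i : Fin m, ∑ _x ∈ box m k, B := sum_le_sum fun i _ => sum_le_sum fun x hx =>
        hB _ (mem_Ico.2 (mem_box.1 hx i))
    _ = _ := by simp [card_box]

lemma cheb {m k : ℕ} (g : ℤ → ℝ) {B τ : ℝ} (h0 : ∑ u ∈ Ico (0 : ℤ) k, g u = 0)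
    (hB : ∀ u ∈ Ico (0 : ℤ) k, g u ^ 2 ≤ B) (hτ : 0 ≤ τ) :
    (((box m k).filter fun x => τ ≤ |∑ i, g (x i)|).card : ℝ) * τ ^ 2 ≤ m * (k ^ m * B) := by
  refine le_trans ?_ (second_moment g h0 hB)
  rw [← nsmul_eq_mul, ← sum_const]
  refine (sum_le_sum fun x hx => ?_).trans
    (sum_le_sum_of_subset_of_nonneg (filter_subset _ _) fun x _ _ => sq_nonneg _)
  rw [← sq_abs (∑ i, g (x i))]
  exact pow_le_pow_left₀ hτ (mem_filter.1 hx).2 2

/-- The weight of a crossing of a line of the grid. -/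
def lam (k : ℕ) (u : ℤ) : ℝ := u * (k - u)

/-- The total weight of the lines through a point. -/
def Lam {d : ℕ} (k : ℕ) (x : Fin d → ℤ) : ℝ := ∑ i, lam k (x i + 1)

lemma lam_le (k : ℕ) (u : ℤ) : lam k u ≤ k ^ 2 / 4 := by
  simp only [lam]
  linarith only [sq_nonneg ((k : ℝ) / 2 - u), sq_nonneg ((1 : ℝ) * ↑k - (2 : ℝ) * ↑u)]

lemma lam_nonneg {k : ℕ} {u : ℤ} (h0 : 0 ≤ u) (h1 : u < k) : 0 ≤ lam k (u + 1) := by
  have a1 : (0 : ℝ) ≤ u := by exact_mod_cast h0
  have a2 : (u : ℝ) + 1 ≤ k := by exact_mod_cast h1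
  simp only [lam]
  push_cast
  linarith only [a2, a1, mul_nonneg_of_nonpos_of_nonpos (Mathlib.Tactic.Linarith.sub_nonpos_of_le a1) (Mathlib.Tactic.Linarith.sub_nonpos_of_le a2)]

lemma sum_Ico_id (k : ℕ) : ∑ u ∈ Ico (0 : ℤ) k, (u : ℝ) = k * (k - 1) / 2 := by
  induction k with
  | zero => simp
  | succ k ih =>
    rw [Nat.cast_succ, ← insert_Ico_right_eq_Ico_add_one (Int.natCast_nonneg k),
      sum_insert (by simp), ih]
    push_cast
    ring

lemma sum_Ico_sq (k : ℕ) : ∑ u ∈ Ico (0 : ℤ) k, (u : ℝ) ^ 2 = k * (k - 1) * (2 * k - 1) / 6 := by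
  induction k with
  | zero => simp
  | succ k ih =>
    rw [Nat.cast_succ, ← insert_Ico_right_eq_Ico_add_one (Int.natCast_nonneg k),
      sum_insert (by simp), ih]
    push_cast
    ring

lemma sum_lam (k : ℕ) : ∑ u ∈ Ico (0 : ℤ) k, (lam k (u + 1) - ((k : ℝ) ^ 2 - 1) / 6) = 0 := by
  have : ∀ u : ℤ, lam k (u + 1) - ((k : ℝ) ^ 2 - 1) / 6 =
      -(u : ℝ) ^ 2 + (k - 2) * u + (k - 1 - ((k : ℝ) ^ 2 - 1) / 6) := fun u => by
    simp only [lam]
    push_cast
    ring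
  simp only [this, sum_add_distrib, sum_neg_distrib, ← mul_sum, sum_Ico_id, sum_Ico_sq, sum_const,
    Int.card_Ico, sub_zero, Int.toNat_natCast, nsmul_eq_mul]
  ring

/-- Points whose total line weight is far from the mean. -/
def Atyp {d : ℕ} (k : ℕ) (δ : ℝ) (x : Fin d → ℤ) : Prop :=
  δ * (d * k ^ 2) ≤ |Lam k x - d * k ^ 2 / 6|

open Classical in
lemma atyp_count {m k : ℕ} {δ : ℝ} (hδ : 0 < δ) (hd : 2 ≤ δ * (m + 1)) (hk : 2 ≤ δ * k ^ 2)
    {A : Finset (Fin (m + 1) → ℤ)} (hA : A ⊆ box (m + 1) k) (hP : WeakFree (Fin 2) A) :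
    ((A.filter (Atyp k δ)).card : ℝ) * (δ ^ 2 * (m + 1)) ≤ k ^ m := by
  have hk0 : (0 : ℝ) < k ^ 2 := by
    by_contra hn
    push Not at hn
    linarith only [hk, hδ, hn, mul_nonneg_of_nonpos_of_nonpos (le_of_lt (Mathlib.Tactic.Linarith.sub_neg_of_lt hδ)) (Mathlib.Tactic.Linarith.sub_nonpos_of_le hn)]
  have hm : (0 : ℝ) ≤ m := Nat.cast_nonneg m
  have h1 := cheb (m := m) (k := k) (fun u => lam k (u + 1) - ((k : ℝ) ^ 2 - 1) / 6)
    (B := (k ^ 2 / 4) ^ 2) (τ := δ * ((m + 1) * k ^ 2) / 2) (sum_lam k) (fun u hu => by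
      have a1 := lam_le k (u + 1)
      have a2 := lam_nonneg (mem_Ico.1 hu).1 (mem_Ico.1 hu).2
      have a3 : (1 : ℝ) ≤ k := by
        have := mem_Ico.1 hu
        have : (1 : ℤ) ≤ k := by omega
        exact_mod_cast this
      apply sq_le_sq'
      · linarith only [hk0, a2]
      · linarith only [a1, a3, mul_nonneg_of_nonpos_of_nonpos (Mathlib.Tactic.Linarith.sub_nonpos_of_le (Mathlib.Tactic.Linarith.natCast_nonneg ℝ k)) (Mathlib.Tactic.Linarith.sub_nonpos_of_le a3)]) (by positivity)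
  have h2 : (A.filter (Atyp k δ)).card ≤ ((box m k).filter fun x => δ * ((m + 1) * k ^ 2) / 2 ≤
      |∑ i, (lam k (x i + 1) - ((k : ℝ) ^ 2 - 1) / 6)|).card := by
    refine card_le_card_of_injOn Fin.tail (fun x hx => ?_) fun x hx y hy hxy => ?_
    · obtain ⟨hx1, hx2⟩ := mem_filter.1 (mem_coe.1 hx)
      have hb := mem_box.1 (hA hx1)
      refine mem_coe.2 (mem_filter.2 ⟨mem_box.2 fun i => hb i.succ, ?_⟩)
      simp only [Atyp, Lam, Fin.sum_univ_succ] at hx2
      have a1 := lam_le k (x 0 + 1)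
      have a2 := lam_nonneg (hb 0).1 (hb 0).2
      simp only [sum_sub_distrib, sum_const, card_univ, Fintype.card_fin, nsmul_eq_mul, Fin.tail]
      push_cast at hx2
      have a3 : (k : ℝ) ^ 2 * 2 ≤ k ^ 2 * (δ * (m + 1)) := by gcongr
      have a4 : ((m : ℝ) + 1) * 2 ≤ (m + 1) * (δ * k ^ 2) := by gcongr
      rcases le_abs.1 hx2 with h | h
      · exact le_abs.2 (Or.inl (by linarith only [hk0, a1, a3, h]))
      · exact le_abs.2 (Or.inr (by linarith only [hk0, a2, a3, a4, h]))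
    · have hx1 := (mem_filter.1 (mem_coe.1 hx)).1
      have hy1 := (mem_filter.1 (mem_coe.1 hy)).1
      have hanti := (weakFree_two_iff A).1 hP
      by_contra hne
      rcases le_total (x 0) (y 0) with h | h
      · exact hanti hx1 hy1 hne fun i => Fin.cases h (fun l => (congrFun hxy l).le) i
      · exact hanti hy1 hx1 (Ne.symm hne) fun i => Fin.cases h (fun l => (congrFun hxy l).ge) i
  have h3 : ((A.filter (Atyp k δ)).card : ℝ) * (δ * ((m + 1) * k ^ 2) / 2) ^ 2 ≤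
      m * (k ^ m * (k ^ 2 / 4) ^ 2) :=
    le_trans (mul_le_mul_of_nonneg_right (by exact_mod_cast h2) (sq_nonneg _)) h1
  have h4 : (0 : ℝ) < (m + 1) * (k ^ 2) ^ 2 / 4 := by positivity
  apply le_of_mul_le_mul_right _ h4
  have h5 : (0 : ℝ) ≤ k ^ m * (k ^ 2) ^ 2 := by positivity
  linarith only [h1, h3, h5, mul_nonneg_of_nonpos_of_nonpos (Mathlib.Tactic.Linarith.sub_nonpos_of_le (sq_nonneg ((1 : ℝ) * δ * (((1 : ℝ) * ↑m + (1 : ℝ) * (1 : ℝ)) * ((1 : ℝ) * ((1 : ℝ) * ↑k) ^ (2 : ℕ)))))) (Mathlib.Tactic.Linarith.sub_nonpos_of_le (Mathlib.Tactic.Linarith.natCast_nonneg ℝ #({x ∈ box m ↑k | δ * ((↑m + (1 : ℝ)) * ↑k ^ (2 : ℕ)) / (2 : ℝ) ≤ |∑ i, (lam k (x i + (1 : ℤ)) - (↑k ^ (2 : ℕ) - (1 : ℝ)) / (6 : ℝ))|})))]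

lemma level_free {d : ℕ} {A : Finset (Fin d → ℤ)} {b : ℤ} (hA : ∀ x ∈ A, ∑ i, x i = b) :
    WeakFree (Fin 2) A := by
  rw [weakFree_two_iff]
  intro x hx y hy hne hle
  obtain ⟨i, hi⟩ := Function.ne_iff.1 hne
  have h3 : ∑ i, x i < ∑ i, y i :=
    sum_lt_sum (fun i _ => hle i) ⟨i, mem_univ _, lt_of_le_of_ne (hle i) hi⟩
  rw [hA x hx, hA y hy] at h3
  exact lt_irrefl _ h3

/-- The width of the grid is at least of order `k ^ m / sqrt (m + 1)`. -/
lemma width_lower (m k : ℕ) (hk : 0 < k) :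
    (k : ℝ) ^ m ≤ 6 * √(m + 1) * G (Fin 2) (m + 1) k := by
  classical
  have hk' : (1 : ℝ) ≤ k := by exact_mod_cast hk
  set r : ℝ := √(m + 1) with hr
  have hr2 : r ^ 2 = m + 1 := Real.sq_sqrt (by positivity)
  have hr1 : 1 ≤ r := by
    rw [hr]
    exact Real.one_le_sqrt.2 (by linarith only [Nat.cast_nonneg (α := ℝ) m])
  have h1 := cheb (m := m + 1) (k := k) (fun u => (u : ℝ) - (k - 1) / 2) (B := k ^ 2 / 4)
    (τ := k * r) (by
      simp only [sum_sub_distrib, sum_Ico_id, sum_const, Int.card_Ico, sub_zero,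
        Int.toNat_natCast, nsmul_eq_mul]
      ring) (fun u hu => by
      have a1 : (0 : ℝ) ≤ u := by exact_mod_cast (mem_Ico.1 hu).1
      have a2 : (u : ℝ) + 1 ≤ k := by exact_mod_cast (mem_Ico.1 hu).2
      linarith only [hk', a1, a2, mul_nonneg_of_nonpos_of_nonpos (Mathlib.Tactic.Linarith.sub_nonpos_of_le a1) (Mathlib.Tactic.Linarith.sub_nonpos_of_le a2)]) (by positivity)
  set Bad := (box (m + 1) k).filter fun x => k * r ≤ |∑ i, ((x i : ℝ) - (k - 1) / 2)| with hBad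
  have h2 : (Bad.card : ℝ) ≤ k ^ (m + 1) / 4 := by
    have h3 : (0 : ℝ) < (k * r) ^ 2 := by positivity
    apply le_of_mul_le_mul_right _ h3
    refine h1.trans (le_of_eq ?_)
    rw [mul_pow, hr2]
    push_cast
    ring
  set c : ℝ := (m + 1) * ((k - 1) / 2) with hc
  have h3 : (box (m + 1) k \ Bad).card ≤
      G (Fin 2) (m + 1) k * (Icc ⌈c - k * r⌉ ⌊c + k * r⌋).card := by
    refine card_le_mul_card_image_of_maps_to (f := fun x : Fin (m + 1) → ℤ => ∑ i, x i)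
      (fun x hx => ?_) _ fun b _ => le_G ((filter_subset _ _).trans sdiff_subset)
        (level_free fun x hx => (mem_filter.1 hx).2)
    obtain ⟨hx1, hx2⟩ := mem_sdiff.1 hx
    have h4 : |∑ i, ((x i : ℝ) - (k - 1) / 2)| < k * r := by
      by_contra hn
      exact hx2 (mem_filter.2 ⟨hx1, not_lt.1 hn⟩)
    simp only [sum_sub_distrib, sum_const, card_univ, Fintype.card_fin, nsmul_eq_mul] at h4
    push_cast at h4
    rw [abs_lt] at h4
    rw [mem_Icc, Int.ceil_le, Int.le_floor]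
    push_cast
    constructor <;> linarith only [hc, h4, h4.1, h4.2]
  have h4 : ((Icc ⌈c - k * r⌉ ⌊c + k * r⌋).card : ℝ) ≤ 3 * (k * r) := by
    rw [Int.card_Icc]
    have a1 := Int.le_ceil (c - k * r)
    have a2 := Int.floor_le (c + k * r)
    have a3 : 1 ≤ k * r := by linarith only [hk', hr1, mul_nonneg_of_nonpos_of_nonpos (Mathlib.Tactic.Linarith.sub_nonpos_of_le (Mathlib.Tactic.Linarith.natCast_nonneg ℝ k)) (Mathlib.Tactic.Linarith.sub_nonpos_of_le hr1)]
    rcases le_total (⌊c + k * r⌋ + 1 - ⌈c - k * r⌉) 0 with h | h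
    · rw [Int.toNat_eq_zero.2 h]
      push_cast
      linarith only [a3]
    · have : (((⌊c + k * r⌋ + 1 - ⌈c - k * r⌉).toNat : ℤ) : ℝ) =
          ((⌊c + k * r⌋ + 1 - ⌈c - k * r⌉ : ℤ) : ℝ) := by rw [Int.toNat_of_nonneg h]
      push_cast at this
      linarith only [a1, a2, a3, this]
  have h5 : ((box (m + 1) k \ Bad).card : ℝ) = k ^ (m + 1) - Bad.card := by
    rw [card_sdiff_of_subset (filter_subset _ _), Nat.cast_sub (card_filter_le _ _), card_box]
    push_cast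
    rfl
  have h6 : ((box (m + 1) k \ Bad).card : ℝ) ≤ G (Fin 2) (m + 1) k * (3 * (k * r)) := by
    calc ((box (m + 1) k \ Bad).card : ℝ)
        ≤ G (Fin 2) (m + 1) k * ((Icc ⌈c - k * r⌉ ⌊c + k * r⌋).card : ℝ) := by exact_mod_cast h3
      _ ≤ _ := by gcongr
  have h7 : (0 : ℝ) < k := by linarith only [hk']
  apply le_of_mul_le_mul_right _ h7
  have h8 : (0 : ℝ) ≤ k ^ (m + 1) := by positivity
  have h9 : (0 : ℝ) ≤ G (Fin 2) (m + 1) k * (k * r) := by positivity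
  rw [← pow_succ]
  linarith only [h2, h5, h6]

open Classical in
/-- Points of the box at which the line in direction `i` leaves the down-set. -/
noncomputable def cross {d : ℕ} (k : ℕ) (D : (Fin d → ℤ) → Prop) (i : Fin d) :
    Finset (Fin d → ℤ) := (box d k).filter fun x => D x ∧ ¬ D (x + Pi.single i 1)

lemma mem_cross {d k : ℕ} {D : (Fin d → ℤ) → Prop} {i : Fin d} {x : Fin d → ℤ} :
    x ∈ cross k D i ↔ x ∈ box d k ∧ D x ∧ ¬ D (x + Pi.single i 1) := by
  simp only [cross, mem_filter]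

open Classical in
lemma flux_eq {d k : ℕ} (D : (Fin d → ℤ) → Prop) (hD : ∀ x y, x ≤ y → D y → D x) :
    ∑ i, ∑ x ∈ cross k D i, lam k (x i + 1) =
      ∑ x ∈ (box d k).filter D, ((d * (k - 1) - 2 * ∑ i, x i : ℤ) : ℝ) := by
  have hle : ∀ (x : Fin d → ℤ) (i : Fin d), x ≤ x + Pi.single i 1 := fun x i l => by
    simp only [Pi.add_apply, Pi.single_apply]
    split_ifs <;> omega
  have h1 : ∀ i, ∑ x ∈ cross k D i, lam k (x i + 1) =
      ∑ x ∈ (box d k).filter D, (lam k (x i + 1) - lam k (x i)) := by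
    intro i
    have h2 : ∑ x ∈ (box d k).filter D, lam k (x i) =
        ∑ x ∈ ((box d k).filter D).filter (fun x => D (x + Pi.single i 1)), lam k (x i + 1) := by
      rw [← sum_filter_ne_zero, ← sum_filter_ne_zero (f := fun x : Fin d → ℤ => lam k (x i + 1))]
      symm
      refine sum_nbij' (fun x => x + Pi.single i 1) (fun x => x - Pi.single i 1) ?_ ?_ ?_ ?_ ?_
      · intro x hx
        simp only [mem_filter] at hx ⊢
        obtain ⟨⟨⟨hb, -⟩, h3⟩, h4⟩ := hx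
        refine ⟨⟨mem_box.2 fun l => ?_, h3⟩, by simpa using h4⟩
        have a1 := mem_box.1 hb l
        simp only [Pi.add_apply, Pi.single_apply]
        split_ifs with h5
        · subst h5
          have : x l + 1 ≠ k := fun h => h4 (by simp [lam, h])
          omega
        · omega
      · intro x hx
        simp only [mem_filter] at hx ⊢
        obtain ⟨⟨hb, h3⟩, h4⟩ := hx
        have a0 : x - Pi.single i 1 + Pi.single i 1 = x := sub_add_cancel _ _
        refine ⟨⟨⟨mem_box.2 fun l => ?_, hD _ _ ((hle (x - Pi.single i 1) i).trans a0.le) h3⟩,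
          by rw [a0]; exact h3⟩, by simpa using h4⟩
        have a1 := mem_box.1 hb l
        simp only [Pi.sub_apply, Pi.single_apply]
        split_ifs with h5
        · subst h5
          have : x l ≠ 0 := fun h => h4 (by simp [lam, h])
          omega
        · omega
      · intro x _
        simp
      · intro x _
        simp
      · intro x _
        simp
    rw [sum_sub_distrib, h2, ← sum_filter_add_sum_filter_not ((box d k).filter D)
      (fun x => D (x + Pi.single i 1))]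
    have h3 : cross k D i = ((box d k).filter D).filter fun x => ¬ D (x + Pi.single i 1) := by
      ext x
      rw [mem_cross, mem_filter, mem_filter, and_assoc]
    rw [h3]
    ring
  simp only [h1]
  rw [sum_comm]
  refine sum_congr rfl fun x _ => ?_
  have : ∀ i, lam k (x i + 1) - lam k (x i) = (k - 1) - 2 * (x i : ℝ) := fun i => by
    simp only [lam]
    push_cast
    ring
  simp only [this, sum_sub_distrib, sum_const, card_univ, Fintype.card_fin, nsmul_eq_mul,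
    ← mul_sum]
  push_cast
  ring

/-- The middle level of the grid. -/
noncomputable def midLev (d k : ℕ) : Finset (Fin d → ℤ) :=
  (box d k).filter fun x => ∑ i, x i = ((d : ℤ) * (k - 1) - 1) / 2

lemma midLev_free (d k : ℕ) : WeakFree (Fin 2) (midLev d k) :=
  level_free fun _ hx => (mem_filter.1 hx).2

lemma flux_le_mid {d k : ℕ} (D : (Fin d → ℤ) → Prop) (hD : ∀ x y, x ≤ y → D y → D x) :
    ∑ i, ∑ x ∈ cross k D i, lam k (x i + 1) ≤ ∑ x ∈ midLev d k, Lam k x := by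
  classical
  let D0 : (Fin d → ℤ) → Prop := fun x => 0 < (d : ℤ) * (k - 1) - 2 * ∑ i, x i
  have hD0 : ∀ x y, x ≤ y → D0 y → D0 x := fun x y hxy hy => by
    have : ∑ i, x i ≤ ∑ i, y i := sum_le_sum fun i _ => hxy i
    simp only [D0] at hy ⊢
    omega
  have h1 : ∀ i, cross k D0 i = midLev d k := fun i => by
    ext x
    simp only [cross, midLev, mem_filter, D0, Pi.add_apply, sum_add_distrib, Pi.single_apply,
      sum_ite_eq', mem_univ, if_true]
    refine and_congr_right fun _ => ?_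
    omega
  have h2 := flux_eq (k := k) D0 hD0
  simp only [h1] at h2
  rw [sum_comm] at h2
  rw [flux_eq D hD]
  refine le_trans ?_ (le_of_eq h2.symm)
  rw [sum_filter, sum_filter]
  refine sum_le_sum fun x _ => ?_
  by_cases h3 : D0 x
  · have : (0 : ℝ) ≤ ((d * (k - 1) - 2 * ∑ i, x i : ℤ) : ℝ) := by exact_mod_cast le_of_lt h3
    split_ifs
    · exact le_rfl
    · exact this
  · have : ((d * (k - 1) - 2 * ∑ i, x i : ℤ) : ℝ) ≤ 0 := by exact_mod_cast not_lt.1 h3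
    split_ifs
    · exact this
    · exact le_rfl

lemma Lam_le {d : ℕ} (k : ℕ) (x : Fin d → ℤ) : Lam k x ≤ d * k ^ 2 / 4 := by
  calc Lam k x ≤ ∑ _i : Fin d, (k : ℝ) ^ 2 / 4 := sum_le_sum fun i _ => lam_le k _
    _ = _ := by simp; ring

/-- Small exceptional sets are negligible against the width. -/
lemma atyp_small {m k : ℕ} {δ : ℝ} (hδ : 0 < δ) (hδ1 : δ ≤ 1) (hd : 36 ≤ δ ^ 6 * (m + 1))
    (hk : 2 ≤ δ * k ^ 2) {A : Finset (Fin (m + 1) → ℤ)} (hA : A ⊆ box (m + 1) k)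
    (hP : WeakFree (Fin 2) A) [DecidablePred (Atyp (d := m + 1) k δ)] :
    ((A.filter (Atyp k δ)).card : ℝ) ≤ δ * G (Fin 2) (m + 1) k := by
  have hm : (0 : ℝ) < m + 1 := by positivity
  have h0 : δ ^ 6 ≤ δ := by
    calc δ ^ 6 ≤ δ ^ 1 := pow_le_pow_of_le_one hδ.le hδ1 (by norm_num)
      _ = δ := pow_one δ
  have h1 := atyp_count hδ (by linarith only [hd, h0, mul_nonneg_of_nonpos_of_nonpos (Mathlib.Tactic.Linarith.sub_nonpos_of_le (Mathlib.Tactic.Linarith.natCast_nonneg ℝ m)) (Mathlib.Tactic.Linarith.sub_nonpos_of_le h0)]) hk hA hP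
  have hk0 : 0 < k := by
    rcases Nat.eq_zero_or_pos k with rfl | h
    · norm_num at hk
    · exact h
  have h2 := width_lower m k hk0
  set r : ℝ := √(m + 1) with hr
  have hr2 : r ^ 2 = m + 1 := Real.sq_sqrt hm.le
  have hr0 : 0 < r := Real.sqrt_pos.2 hm
  have h3 : 6 ≤ δ ^ 3 * r := by
    by_contra hn
    push Not at hn
    have : (δ ^ 3 * r) ^ 2 < 6 ^ 2 := by gcongr
    rw [mul_pow, hr2, ← pow_mul] at this
    norm_num at this
    linarith only [hd, this]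
  have h4 : (0 : ℝ) < δ ^ 2 * (m + 1) := by positivity
  apply le_of_mul_le_mul_right _ h4
  have hG : (0 : ℝ) ≤ G (Fin 2) (m + 1) k := Nat.cast_nonneg _
  calc _ ≤ (k : ℝ) ^ m := by convert h1
    _ ≤ 6 * r * G (Fin 2) (m + 1) k := h2
    _ ≤ δ ^ 3 * r * r * G (Fin 2) (m + 1) k := by gcongr
    _ = _ := by rw [← hr2]; ring

lemma flux_le {m k : ℕ} {δ : ℝ} (hδ : 0 < δ) (hδ1 : δ ≤ 1) (hd : 36 ≤ δ ^ 6 * (m + 1))
    (hk : 2 ≤ δ * k ^ 2) (D : (Fin (m + 1) → ℤ) → Prop) (hD : ∀ x y, x ≤ y → D y → D x) :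
    ∑ i, ∑ x ∈ cross k D i, lam k (x i + 1) ≤ (m + 1) * k ^ 2 *
      ((1 / 6 + δ) * (midLev (m + 1) k).card + δ / 4 * G (Fin 2) (m + 1) k) := by
  classical
  refine (flux_le_mid D hD).trans ?_
  have h1 := atyp_small hδ hδ1 hd hk (filter_subset _ _) (midLev_free (m + 1) k)
  rw [← sum_filter_add_sum_filter_not _ (Atyp k δ)]
  have h2 : ∑ x ∈ (midLev (m + 1) k).filter (Atyp k δ), Lam k x ≤
      δ * G (Fin 2) (m + 1) k * ((m + 1) * k ^ 2 / 4) := by
    calc _ ≤ ∑ _x ∈ (midLev (m + 1) k).filter (Atyp k δ), ((m + 1) * k ^ 2 / 4 : ℝ) :=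
          sum_le_sum fun x _ => by simpa using Lam_le k x
      _ = ((midLev (m + 1) k).filter (Atyp k δ)).card * ((m + 1) * k ^ 2 / 4 : ℝ) := by
          rw [sum_const, nsmul_eq_mul]
      _ ≤ _ := by gcongr; exact h1
  have h3 : ∑ x ∈ (midLev (m + 1) k).filter (fun x => ¬ Atyp k δ x), Lam k x ≤
      (midLev (m + 1) k).card * ((1 / 6 + δ) * ((m + 1) * k ^ 2)) := by
    calc _ ≤ ∑ _x ∈ (midLev (m + 1) k).filter (fun x => ¬ Atyp k δ x),
          ((1 / 6 + δ) * ((m + 1) * k ^ 2) : ℝ) := sum_le_sum fun x hx => by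
          have := (mem_filter.1 hx).2
          simp only [Atyp, not_le, abs_lt] at this
          push_cast at this
          linarith only [this, this.2]
      _ = ((midLev (m + 1) k).filter (fun x => ¬ Atyp k δ x)).card *
          ((1 / 6 + δ) * ((m + 1) * k ^ 2) : ℝ) := by rw [sum_const, nsmul_eq_mul]
      _ ≤ _ := by gcongr; exact filter_subset _ _
  linarith only [h2, h3]

/-- In high dimension the middle level is almost a largest antichain. -/
lemma mid_lower {m k : ℕ} {δ : ℝ} (hδ : 0 < δ) (hδ1 : δ ≤ 1 / 20) (hd : 36 ≤ δ ^ 6 * (m + 1))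
    (hk : 2 ≤ δ * k ^ 2) :
    (1 - 15 * δ) * G (Fin 2) (m + 1) k ≤ (midLev (m + 1) k).card := by
  classical
  obtain ⟨A, hA1, hA2, hA3⟩ := G_spec (P := Fin 2) (m + 1) k
  have hanti := (weakFree_two_iff A).1 hA2
  have h1 := flux_le hδ (by linarith only [hδ, hδ1]) hd hk (fun x => ∃ a ∈ A, x ≤ a)
    fun x y hxy ⟨a, ha, hy⟩ => ⟨a, ha, hxy.trans hy⟩
  have h2 := atyp_small hδ (by linarith only [hδ, hδ1]) hd hk hA1 hA2
  have h3 : ∑ x ∈ A.filter (fun x => ¬ Atyp k δ x), Lam k x ≤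
      ∑ i, ∑ x ∈ cross k (fun x => ∃ a ∈ A, x ≤ a) i, lam k (x i + 1) := by
    simp only [Lam]
    rw [sum_comm]
    refine sum_le_sum fun i _ => sum_le_sum_of_subset_of_nonneg (fun x hx => ?_) fun x hx _ => ?_
    · have hx' := (mem_filter.1 hx).1
      refine mem_cross.2 ⟨hA1 hx', ⟨x, hx', le_rfl⟩, ?_⟩
      rintro ⟨a, ha, hle⟩
      have a1 := hle i
      simp only [Pi.add_apply, Pi.single_eq_same] at a1
      refine hanti hx' ha (fun h => by rw [h] at a1; omega) fun l => ?_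
      have a2 := hle l
      simp only [Pi.add_apply, Pi.single_apply] at a2
      show x l ≤ a l
      split_ifs at a2 <;> omega
    · have := mem_box.1 (mem_cross.1 hx).1 i
      exact lam_nonneg this.1 this.2
  have h4 : ((A.filter fun x => ¬ Atyp k δ x).card : ℝ) * ((1 / 6 - δ) * ((m + 1) * k ^ 2)) ≤
      ∑ x ∈ A.filter (fun x => ¬ Atyp k δ x), Lam k x := by
    rw [← nsmul_eq_mul, ← sum_const]
    refine sum_le_sum fun x hx => ?_
    have := (mem_filter.1 hx).2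
    simp only [Atyp, not_le, abs_lt] at this
    push_cast at this
    linarith only [this, this.1]
  have h5 : ((A.filter (Atyp k δ)).card : ℝ) + (A.filter fun x => ¬ Atyp k δ x).card =
      G (Fin 2) (m + 1) k := by
    rw [← hA3]
    exact_mod_cast card_filter_add_card_filter_not _
  have hk0 : (0 : ℝ) < k ^ 2 := by
    by_contra hn
    push Not at hn
    linarith only [hδ, hδ1, hk, hn, mul_nonneg_of_nonpos_of_nonpos (Mathlib.Tactic.Linarith.sub_nonpos_of_le (sq_nonneg ↑k)) (Mathlib.Tactic.Linarith.sub_nonpos_of_le hδ1)]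
  have h6 : (0 : ℝ) < (m + 1) * k ^ 2 := by positivity
  have h7 : ((A.filter fun x => ¬ Atyp k δ x).card : ℝ) * (1 / 6 - δ) ≤
      (1 / 6 + δ) * (midLev (m + 1) k).card + δ / 4 * G (Fin 2) (m + 1) k := by
    apply le_of_mul_le_mul_left _ h6
    linarith only [h1, h3, h4]
  have hG : (0 : ℝ) ≤ G (Fin 2) (m + 1) k := Nat.cast_nonneg _
  have h8 : (1 - δ) * G (Fin 2) (m + 1) k * (1 / 6 - δ) ≤
      ((A.filter fun x => ¬ Atyp k δ x).card : ℝ) * (1 / 6 - δ) := by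
    gcongr
    · linarith only [hδ, hδ1]
    · linarith only [h2, h5]
  have h9 : (0 : ℝ) < 1 / 6 + δ := by linarith only [hδ, hδ1]
  apply le_of_mul_le_mul_left _ h9
  have h10 : 0 ≤ δ ^ 2 * G (Fin 2) (m + 1) k := by positivity
  have h11 : 0 ≤ δ * G (Fin 2) (m + 1) k := by positivity
  linarith only [h2, h7, h8, h10]

end Pool.Agent.Work.MP_84019e_co
end

-- merged part: Pool.Agent.Work.MP_84019e_co.GridAnti
section
set_option autoImplicit false

namespace Pool.Agent.Work.MP_84019e_co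

open Finset

lemma exists_min_below {ι : Type} (r : ι → ι → Prop) (T : Finset ι)
    (htr : ∀ a ∈ T, ∀ b ∈ T, ∀ c ∈ T, r a b → r b c → r a c) (hirr : ∀ a ∈ T, ¬ r a a)
    {i : ι} (hi : i ∈ T) : ∃ a ∈ T, (∀ j ∈ T, ¬ r j a) ∧ (a = i ∨ r a i) := by
  classical
  obtain ⟨a, ha, hmin⟩ := exists_min_image (T.filter fun a => a = i ∨ r a i)
    (fun a => (T.filter fun j => r j a).card) ⟨i, mem_filter.2 ⟨hi, Or.inl rfl⟩⟩
  obtain ⟨ha1, ha2⟩ := mem_filter.1 ha
  refine ⟨a, ha1, fun j hj hja => ?_, ha2⟩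
  have h1 : j ∈ T.filter fun a => a = i ∨ r a i := by
    refine mem_filter.2 ⟨hj, Or.inr ?_⟩
    rcases ha2 with rfl | h
    · exact hja
    · exact htr j hj a ha1 i hi hja h
  have h2 : (T.filter fun l => r l j) ⊂ T.filter fun l => r l a := by
    refine ⟨fun l hl => mem_filter.2 ⟨(mem_filter.1 hl).1,
      htr l (mem_filter.1 hl).1 j hj a ha1 (mem_filter.1 hl).2 hja⟩, fun h => ?_⟩
    exact hirr j hj (mem_filter.1 (h (mem_filter.2 ⟨hj, hja⟩))).2
  exact absurd (hmin j h1) (not_le.2 (card_lt_card h2))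

/-- Weighted chains and weighted antichains of a finite order. -/
lemma antiblock {ι : Type} (r : ι → ι → Prop) (I : Finset ι)
    (htr : ∀ a ∈ I, ∀ b ∈ I, ∀ c ∈ I, r a b → r b c → r a c) (hirr : ∀ a ∈ I, ¬ r a a)
    (y : ι → ℝ) (Y : ℝ) (hY : ∀ A ⊆ I, (∀ a ∈ A, ∀ b ∈ A, ¬ r a b) → ∑ i ∈ A, y i ≤ Y)
    (n : ℕ) : ∀ (x : ι → ℝ) (X : ℝ), (I.filter fun i => 0 < x i).card ≤ n → (∀ i ∈ I, 0 ≤ x i) →
      (∀ C ⊆ I, (∀ a ∈ C, ∀ b ∈ C, a ≠ b → r a b ∨ r b a) → ∑ i ∈ C, x i ≤ X) →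
      ∑ i ∈ I, x i * y i ≤ X * Y := by
  classical
  have hY0 : 0 ≤ Y := by simpa using hY ∅ (empty_subset _) (by simp)
  have base : ∀ (x : ι → ℝ) (X : ℝ), (I.filter fun i => 0 < x i) = ∅ → (∀ i ∈ I, 0 ≤ x i) →
      (∀ C ⊆ I, (∀ a ∈ C, ∀ b ∈ C, a ≠ b → r a b ∨ r b a) → ∑ i ∈ C, x i ≤ X) →
      ∑ i ∈ I, x i * y i ≤ X * Y := by
    intro x X h0 hx hX
    have hX0 : 0 ≤ X := by simpa using hX ∅ (empty_subset _) (by simp)
    rw [sum_eq_zero fun i hi => ?_]
    · positivity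
    · rw [le_antisymm (not_lt.1 (filter_eq_empty_iff.1 h0 hi)) (hx i hi), zero_mul]
  induction n with
  | zero => exact fun x X hn => base x X (card_eq_zero.1 (Nat.le_zero.1 hn))
  | succ n ih =>
    intro x X hn hx hX
    set T := I.filter fun i => 0 < x i with hT
    rcases T.eq_empty_or_nonempty with h0 | ⟨i0, hi0⟩
    · exact base x X h0 hx hX
    have hTI : T ⊆ I := filter_subset _ _
    have hmin := fun (T' : Finset ι) (hT' : T' ⊆ I) i (hi : i ∈ T') => exists_min_below r T'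
      (fun a ha b hb c hc => htr a (hT' ha) b (hT' hb) c (hT' hc)) (fun a ha => hirr a (hT' ha)) hi
    set A := T.filter fun i => ∀ j ∈ T, ¬ r j i with hA
    have hAT : A ⊆ T := filter_subset _ _
    obtain ⟨a1, ha1, ha2, -⟩ := hmin T hTI i0 hi0
    obtain ⟨a0, ha0, hμ⟩ := exists_min_image A x ⟨a1, mem_filter.2 ⟨ha1, ha2⟩⟩
    have hμ0 : 0 < x a0 := (mem_filter.1 (hAT ha0)).2
    let x' : ι → ℝ := fun i => if i ∈ A then x i - x a0 else x i
    have h1 : ∀ i, x' i ≤ x i := fun i => by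
      simp only [x']
      split_ifs <;> linarith only [hμ0]
    have h2 := ih x' (X - x a0) (by
      have : (I.filter fun i => 0 < x' i) ⊆ T.erase a0 := fun i hi => by
        obtain ⟨hi1, hi2⟩ := mem_filter.1 hi
        refine mem_erase.2 ⟨?_, mem_filter.2 ⟨hi1, hi2.trans_le (h1 i)⟩⟩
        rintro rfl
        simp [x', ha0] at hi2
      have h3 := card_le_card this
      rw [card_erase_of_mem (hAT ha0)] at h3
      omega) (fun i hi => by
      simp only [x']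
      split_ifs with h
      · linarith only [hμ, h, hμ i h]
      · exact hx i hi) (fun C hC hch => by
      by_cases h3 : ∃ a ∈ C, a ∈ A
      · obtain ⟨a, haC, haA⟩ := h3
        have h4 := hX C hC hch
        rw [← add_sum_erase _ _ haC] at h4 ⊢
        have h5 : ∑ i ∈ C.erase a, x' i ≤ ∑ i ∈ C.erase a, x i := sum_le_sum fun i _ => h1 i
        have h6 : x' a = x a - x a0 := if_pos haA
        linarith only [h4, h5, h6]
      · push Not at h3
        have h4 : ∑ i ∈ C, x' i = ∑ i ∈ C.filter (· ∈ T), x i := by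
          rw [sum_filter]
          refine sum_congr rfl fun i hi => ?_
          simp only [x', if_neg (h3 i hi)]
          split_ifs with h
          · rfl
          · exact le_antisymm (not_lt.1 fun h' => h (mem_filter.2 ⟨hC hi, h'⟩)) (hx i (hC hi))
        rw [h4]
        rcases (C.filter (· ∈ T)).eq_empty_or_nonempty with h5 | ⟨c0, hc0⟩
        · have := hX {a0} (singleton_subset_iff.2 (hTI (hAT ha0))) (by simp)
          rw [h5]
          simp only [sum_singleton, sum_empty] at this ⊢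
          linarith only [this]
        · have hC' : C.filter (· ∈ T) ⊆ I := (filter_subset _ _).trans hC
          obtain ⟨c, hc, hcm, -⟩ := hmin _ hC' c0 hc0
          obtain ⟨a, ha, ham, hac⟩ := hmin T hTI c (mem_filter.1 hc).2
          have haA : a ∈ A := mem_filter.2 ⟨ha, ham⟩
          have haC : a ∉ C.filter (· ∈ T) := fun h => h3 a (mem_filter.1 h).1 haA
          have hac' : r a c := hac.resolve_left fun h => haC (h ▸ hc)
          have hall : ∀ b ∈ C.filter (· ∈ T), r a b := fun b hb => by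
            by_cases hbc : c = b
            · exact hbc ▸ hac'
            · exact htr a (hTI ha) c (hC' hc) b (hC' hb) hac'
                ((hch c (mem_filter.1 hc).1 b (mem_filter.1 hb).1 hbc).resolve_right (hcm b hb))
          have h6 := hX (insert a (C.filter (· ∈ T))) (insert_subset (hTI ha) hC') (by
            intro u hu v hv huv
            rcases mem_insert.1 hu with hu' | hu' <;> rcases mem_insert.1 hv with hv' | hv'
            · exact absurd (hu'.trans hv'.symm) huv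
            · exact Or.inl (hu' ▸ hall v hv')
            · exact Or.inr (hv' ▸ hall u hu')
            · exact hch u (mem_filter.1 hu').1 v (mem_filter.1 hv').1 huv)
          rw [sum_insert haC] at h6
          linarith only [h6, hμ, haA, hμ a haA])
    have h3 := hY A (hAT.trans hTI) fun a ha b hb => (mem_filter.1 hb).2 a (hAT ha)
    have h4 : ∑ i ∈ I, x i * y i = ∑ i ∈ I, x' i * y i + x a0 * ∑ i ∈ A, y i := by
      have h5 : ∑ i ∈ A, y i = ∑ i ∈ I, if i ∈ A then y i else 0 := by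
        rw [← sum_filter, filter_mem_eq_inter, inter_eq_right.2 (hAT.trans hTI)]
      rw [h5, mul_sum, ← sum_add_distrib]
      refine sum_congr rfl fun i _ => ?_
      simp only [x']
      split_ifs <;> ring
    rw [h4]
    linarith only [h2, hμ0, h3, mul_nonneg_of_nonpos_of_nonpos (le_of_lt (Mathlib.Tactic.Linarith.sub_neg_of_lt hμ0)) (Mathlib.Tactic.Linarith.sub_nonpos_of_le h3)]

lemma cell_unique {m s : ℕ} {α β y : Fin m → ℤ} (h1 : y ∈ cell s α) (h2 : y ∈ cell s β) :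
    α = β := by
  funext l
  have a1 := mem_cellY.1 h1 l
  have a2 := mem_cellY.1 h2 l
  have hs : (0 : ℤ) ≤ s := Int.natCast_nonneg s
  by_contra hne
  rcases lt_or_gt_of_ne hne with h | h
  · have := mul_le_mul_of_nonneg_left (show α l + 1 ≤ β l from h) hs
    linarith only [a1, a2, this, a1.2, a2.1]
  · have := mul_le_mul_of_nonneg_left (show β l + 1 ≤ α l from h) hs
    linarith only [a1, a2, this, a1.1, a2.2]

lemma lam_sub_le {k : ℕ} {u v : ℤ} (hu : 0 ≤ u ∧ u < k) (hv : 0 ≤ v ∧ v < k) {c : ℝ}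
    (h : |(u : ℝ) - v| ≤ c) : lam k (v + 1) - k * c ≤ lam k (u + 1) := by
  have a1 : (0 : ℝ) ≤ u := by exact_mod_cast hu.1
  have a2 : (u : ℝ) + 1 ≤ k := by exact_mod_cast hu.2
  have a3 : (0 : ℝ) ≤ v := by exact_mod_cast hv.1
  have a4 : (v : ℝ) + 1 ≤ k := by exact_mod_cast hv.2
  have h1 : lam k (v + 1) - lam k (u + 1) = (u - v) * (u + v + 2 - k) := by
    simp only [lam]
    push_cast
    ring
  have h2 : |(u : ℝ) + v + 2 - k| ≤ k := by
    rw [abs_le]
    constructor <;> linarith only [a1, a3, a2, a4]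
  have h3 := le_abs_self ((u - v) * (u + v + 2 - k) : ℝ)
  rw [abs_mul] at h3
  have h4 : |(u : ℝ) - v| * |(u : ℝ) + v + 2 - k| ≤ c * k :=
    mul_le_mul h h2 (abs_nonneg _) ((abs_nonneg _).trans h)
  linarith only [h1, h3, h4]

namespace Setup

variable {m h K s : ℕ} {ε R M : ℝ} {S : Setup m h K s ε R M}

lemma piece_disj {γ : ℝ} {i i' : (Fin m → ℤ) × ℕ} (hi : i ∈ S.idx γ) (hi' : i' ∈ S.idx γ)
    {x : Fin (m + 1) → ℤ} (hx : x ∈ S.piece i) (hx' : x ∈ S.piece i') : i = i' := by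
  obtain ⟨α, j⟩ := i
  obtain ⟨α', j'⟩ := i'
  obtain ⟨-, a1, a2, a3⟩ := mem_piece.1 hx
  obtain ⟨-, b1, b2, b3⟩ := mem_piece.1 hx'
  obtain rfl : α = α' := cell_unique a1 b1
  obtain ⟨-, c1, c2, -⟩ := mem_idx.1 hi
  obtain ⟨-, d1, d2, -⟩ := mem_idx.1 hi'
  have e1 := c2 j' d1 (b2.symm.trans a2) (b3.symm.trans a3)
  have e2 := d2 j c1 (a2.symm.trans b2) (a3.symm.trans b3)
  simp only at e1 e2
  rw [le_antisymm e1 e2]

variable (S) in
/-- One piece lies completely below another one. -/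
def prec (i i' : (Fin m → ℤ) × ℕ) : Prop := i ≠ i' ∧ ∀ a ∈ S.piece i, ∀ b ∈ S.piece i', a ≤ b

lemma prec_trans {γ : ℝ} {i i' i'' : (Fin m → ℤ) × ℕ} (hi : i ∈ S.idx γ) (hi' : i' ∈ S.idx γ)
    (h0 : (S.piece i).Nonempty) (h0' : (S.piece i').Nonempty) (h1 : S.prec i i')
    (h2 : S.prec i' i'') : S.prec i i'' := by
  obtain ⟨a, ha⟩ := h0
  obtain ⟨b, hb⟩ := h0'
  refine ⟨?_, fun a ha c hc => (h1.2 a ha b hb).trans (h2.2 b hb c hc)⟩
  rintro rfl
  have := le_antisymm (h1.2 a ha b hb) (h2.2 b hb a ha)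
  exact h1.1 (piece_disj hi hi' ha (this ▸ hb))

lemma ell_mono {i : (Fin m → ℤ) × ℕ} (hi : i.1 ∈ S.𝒢) (hj : i.2 < h) {x y : Fin (m + 1) → ℝ}
    (hxy : ∀ l, x l ≤ y l) : S.ell i x ≤ S.ell i y := by
  have := sum_le_sum fun l (_ : l ∈ univ) =>
    mul_le_mul_of_nonneg_left (hxy l) ((S.good _ hi).nonneg _ hj l)
  simp only [ell]
  linarith only [this]

lemma back_add_const (B : ℤ) (j : ℕ) (x : Fin (m + 1) → ℤ) (n : ℤ) :
    back s 1 B j (fun l => x l + n) = fun l => back s 1 B j x l + n := by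
  funext l
  simp only [back]
  push_cast
  ring

lemma back_add_single (B : ℤ) (j : ℕ) (x : Fin (m + 1) → ℤ) (l : Fin (m + 1)) :
    back s 1 B j (x + Pi.single l 1) = back s 1 B j x + Pi.single l 1 := by
  funext l'
  simp only [back, Pi.add_apply, Pi.single_apply]
  split_ifs <;> push_cast <;> ring

lemma inner_add_const {κ : ℝ} {α : Fin m → ℤ} {p : Fin (m + 1) → ℝ} (hp : Inner s κ α p)
    (c : ℝ) : Inner s κ α fun l => p l + c := fun l => by
  have := hp l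
  constructor <;> linarith only [this, this.1, this.2]

lemma inner_back_of {κ : ℝ} {α : Fin m → ℤ} (B : ℤ) (j : ℕ) {x : Fin (m + 1) → ℤ} {q : ℤ}
    (hq : κ * s ≤ q) (hx : ∀ l, s * α l + q ≤ yOf x l ∧ yOf x l ≤ s * α l + s - q) :
    Inner s κ α (back s 1 B j x) := fun l => by
  have a1 : (s : ℝ) * α l + q ≤ x l.succ - x 0 := by exact_mod_cast (hx l).1
  have a2 : (x l.succ : ℝ) - x 0 ≤ s * α l + s - q := by exact_mod_cast (hx l).2
  simp only [back, div_one]
  constructor <;> linarith only [hq, a1, a2]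

variable (S) in
/-- The down-set spanned by the lowered hyperplane patches of a set of pieces. -/
def down (κ : ℝ) (B : ℤ) (𝒜 : Finset ((Fin m → ℤ) × ℕ)) (z : Fin (m + 1) → ℤ) : Prop :=
  ∃ i ∈ 𝒜, ∃ x, z ≤ x ∧ Inner s κ i.1 (back s 1 B i.2 x) ∧ S.ell i (back s 1 B i.2 x) ≤ 0

lemma down_iff {γ κ : ℝ} (hs : 0 < s) (hε : 0 < ε) (hγ : 0 < γ) (hκ : 0 ≤ κ) (hε2 : 2 * ε ≤ 1)
    (h1 : 5 * ε ≤ 2 * κ * γ) (h2 : γ + 5 * ε + 6 * h ≤ γ * R) (h3 : 4 * ε + 6 * h < M)
    (hεs : 1 ≤ ε * s) (hR : 1 ≤ R) {B : ℤ} {𝒜 : Finset ((Fin m → ℤ) × ℕ)} (h𝒜 : 𝒜 ⊆ S.idx γ)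
    (hanti : ∀ i ∈ 𝒜, ∀ i' ∈ 𝒜, ¬ S.prec i i') {i : (Fin m → ℤ) × ℕ} (hi : i ∈ 𝒜)
    {z : Fin (m + 1) → ℤ} (hz : Inner s κ i.1 (back s 1 B i.2 z)) :
    S.down κ B 𝒜 z ↔ S.ell i (back s 1 B i.2 z) ≤ 0 := by
  refine ⟨?_, fun h => ⟨i, hi, z, le_rfl, hz, h⟩⟩
  rintro ⟨i', hi', x, hzx, hx, hx0⟩
  by_contra hn
  push Not at hn
  obtain ⟨hα, hj, -, -⟩ := mem_idx.1 (h𝒜 hi)
  obtain ⟨hα', hj', -, -⟩ := mem_idx.1 (h𝒜 hi')
  have hs' : (0 : ℝ) ≤ s := Nat.cast_nonneg s
  set e := S.ell i (back s 1 B i.2 z) with he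
  set e' := S.ell i' (back s 1 B i'.2 x) with he'
  have e1 : S.ell i (fun l => back s 1 B i.2 z l + -(e - min e 1)) = min e 1 := by
    rw [ell_add_const hα hj]
    ring
  have e2 : S.ell i' (fun l => back s 1 B i'.2 x l + -e') = 0 := by
    rw [ell_add_const hα' hj']
    ring
  have m1 : 0 < min e 1 := lt_min hn one_pos
  have m2 := min_le_left e 1
  have m3 := min_le_right e 1
  have hle : ∀ l, back s 1 B i.2 z l + -(e - min e 1) - 6 * i.2 * s ≤
      back s 1 B i'.2 x l + -e' - 6 * i'.2 * s := fun l => by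
    have : (z l : ℝ) ≤ x l := by exact_mod_cast hzx l
    simp only [back, div_one]
    linarith only [hx0, m2, this]
  have f1 : |S.ell i (fun l => back s 1 B i.2 z l + -(e - min e 1))| ≤ ε * s := by
    rw [e1, abs_of_pos m1]
    linarith only [hεs, m3]
  have f2 : |S.ell i' (fun l => back s 1 B i'.2 x l + -e')| ≤ ε * s := by
    rw [e2, abs_zero]
    linarith only [hε, hε2, hεs]
  rcases key (b := ε) hs hε hγ hκ hε.le (by linarith only [h1]) (by linarith only [h2]) (by linarith only [h3]) (h𝒜 hi)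
    (h𝒜 hi') (inner_add_const hz _) (inner_add_const hx _) f1 f2 hle with h4 | h4
  · subst h4
    have := ell_mono hα hj (x := fun l => back s 1 B i.2 z l + -(e - min e 1))
      (y := fun l => back s 1 B i.2 x l + -e') fun l => by linarith only [hle, hle l]
    linarith only [e1, m1, e2, this]
  · exact hanti i hi i' hi' ⟨fun h => by rw [h] at h4; exact lt_irrefl _ h4,
      total (b := ε) hR (by linarith only [hε2]) (h𝒜 hi) (h𝒜 hi') ((inner_add_const hz _).mono hs' hκ)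
        ((inner_add_const hx _).mono hs' hκ) f1 f2 h4 hle⟩

/-- Many lines in direction `l` cross the hyperplane patch. -/
lemma cross_count {i : (Fin m → ℤ) × ℕ} (hα : i.1 ∈ S.𝒢) (hj : i.2 < h) (B : ℤ) {q r n : ℕ}
    (hn : n + 2 * q + 2 * r = s) (hr : 0 < r) (l : Fin (m + 1)) :
    ∃ Z : Finset (Fin (m + 1) → ℤ), (n : ℝ) ^ m * (S.ν i.1 i.2 l - 1 / r) ≤ Z.card ∧
      ∀ z ∈ Z, (∀ l', s * i.1 l' + q ≤ yOf z l' ∧ yOf z l' < s * i.1 l' + s - q) ∧
        -1 < S.ell i (back s 1 B i.2 z) ∧ S.ell i (back s 1 B i.2 z) ≤ 0 ∧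
        0 < S.ell i (back s 1 B i.2 z) + S.ν i.1 i.2 l := by
  classical
  set ν := S.ν i.1 i.2 l with hν
  have hν0 : 0 ≤ ν := (S.good _ hα).nonneg _ hj l
  have hν1 : ν ≤ 1 := by
    rw [← (S.good _ hα).sum _ hj]
    exact single_le_sum (fun l _ => (S.good _ hα).nonneg _ hj l) (mem_univ l)
  let up : (Fin m → ℤ) → Fin (m + 1) → ℤ := fun y => Fin.cons 0 y
  let e : (Fin m → ℤ) → ℝ := fun y => S.ell i (back s 1 B i.2 (up y))
  let dl : (Fin m → ℤ) → ℤ := fun y => ⌈e y + ν⌉ - ⌈e y⌉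
  let z : (Fin m → ℤ) → Fin (m + 1) → ℤ := fun y l => up y l + -⌈e y⌉
  have hz : ∀ y, S.ell i (back s 1 B i.2 (z y)) = e y - ⌈e y⌉ := fun y => by
    simp only [z]
    rw [back_add_const, ell_add_const hα hj]
    push_cast
    rfl
  have hyz : ∀ y, yOf (z y) = y := fun y => by
    funext l
    simp [yOf, z, up]
  have hdl0 : ∀ y, 0 ≤ dl y := fun y => sub_nonneg.2 (Int.ceil_mono (by linarith only [hν0]))
  have hdl1 : ∀ y, dl y ≤ 1 := fun y => by
    have : ⌈e y + ν⌉ ≤ ⌈e y + 1⌉ := Int.ceil_mono (by linarith only [hν1])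
    rw [Int.ceil_add_one] at this
    simp only [dl]
    omega
  have he : ∀ y (τ : ℕ), e (y + (τ : ℤ) • ebar l) =
      e y + τ * ν - ((τ * (Pi.single l 1 : Fin (m + 1) → ℤ) 0 : ℤ) : ℝ) := by
    intro y τ
    have h1 : back s 1 B i.2 (up (y + (τ : ℤ) • ebar l)) = fun l' =>
        (back s 1 B i.2 (up y) + Pi.single l (τ : ℝ) : Fin (m + 1) → ℝ) l' +
          -((τ * (Pi.single l 1 : Fin (m + 1) → ℤ) 0 : ℤ) : ℝ) := by
      funext l'
      refine Fin.cases ?_ (fun l' => ?_) l'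
      · simp only [back, up, Fin.cons_zero, Pi.add_apply, Pi.single_apply]
        split_ifs <;> push_cast <;> ring
      · simp only [back, up, Fin.cons_succ, Pi.add_apply, Pi.single_apply, Pi.smul_apply,
          smul_eq_mul, ebar, yOf]
        split_ifs <;> push_cast <;> ring
    simp only [e]
    rw [h1, ell_add_const hα hj, ell_add_single]
    ring
  have htel : ∀ y (r : ℕ), ∑ τ ∈ range r, dl (y + (τ : ℤ) • ebar l) = ⌈e y + r * ν⌉ - ⌈e y⌉ := by
    intro y r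
    induction r with
    | zero => simp
    | succ r ih =>
      rw [sum_range_succ, ih]
      simp only [dl]
      rw [he, sub_add_eq_add_sub (e y + r * ν), Int.ceil_sub_intCast, Int.ceil_sub_intCast]
      have : e y + r * ν + ν = e y + ((r + 1 : ℕ) : ℝ) * ν := by push_cast; ring
      rw [this]
      ring
  let A : Finset (Fin m → ℤ) := cellY (fun l => s * i.1 l + q) fun l => s * i.1 l + s - q
  let A' : Finset (Fin m → ℤ) := cellY (fun l => s * i.1 l + q + r) fun l => s * i.1 l + s - q - r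
  have hA' : A'.card = n ^ m := card_cellY fun l => by
    have : (n : ℤ) + 2 * q + 2 * r = s := by exact_mod_cast hn
    linarith only [hn]
  have h1 : ∀ τ ∈ range r, ∑ y ∈ A', dl (y + (τ : ℤ) • ebar l) ≤ ∑ y ∈ A, dl y := by
    intro τ hτ
    have hτ' : (τ : ℤ) < r := by exact_mod_cast mem_range.1 hτ
    rw [← sum_image (f := dl) (g := fun y => y + (τ : ℤ) • ebar l)
      fun x _ y _ hxy => add_left_injective _ hxy]
    refine sum_le_sum_of_subset_of_nonneg (fun y hy => ?_) fun y _ _ => hdl0 y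
    obtain ⟨w, hw, rfl⟩ := mem_image.1 hy
    rw [mem_cellY]
    intro l'
    have h4 := mem_cellY.1 hw l'
    have h5 := abs_le.1 (abs_ebar_le l l')
    simp only [Pi.add_apply, Pi.smul_apply, smul_eq_mul] at h4 ⊢
    constructor <;> linarith only [hτ', h4, h5, Int.natCast_nonneg τ, mul_nonneg_of_nonpos_of_nonpos (Mathlib.Tactic.Linarith.sub_nonpos_of_le (Mathlib.Tactic.Linarith.natCast_nonneg ℤ τ)) (Mathlib.Tactic.Linarith.sub_nonpos_of_le h5.left), mul_nonneg_of_nonpos_of_nonpos (Mathlib.Tactic.Linarith.sub_nonpos_of_le (Mathlib.Tactic.Linarith.natCast_nonneg ℤ τ)) (Mathlib.Tactic.Linarith.sub_nonpos_of_le h5.right)]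
  have h2 : ∑ y ∈ A', (⌈e y + r * ν⌉ - ⌈e y⌉) ≤ r * ∑ y ∈ A, dl y := by
    calc ∑ y ∈ A', (⌈e y + r * ν⌉ - ⌈e y⌉)
        = ∑ τ ∈ range r, ∑ y ∈ A', dl (y + (τ : ℤ) • ebar l) := by
          rw [sum_comm]
          exact sum_congr rfl fun y _ => (htel y r).symm
      _ ≤ ∑ _τ ∈ range r, ∑ y ∈ A, dl y := sum_le_sum h1
      _ = _ := by simp
  have h3 : ∑ y ∈ A, dl y = ((A.filter fun y => dl y = 1).card : ℤ) := by
    rw [card_filter]
    push_cast
    refine sum_congr rfl fun y _ => ?_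
    have := hdl0 y
    have := hdl1 y
    split_ifs <;> omega
  have hr' : (0 : ℝ) < r := by exact_mod_cast hr
  refine ⟨(A.filter fun y => dl y = 1).image z, ?_, fun w hw => ?_⟩
  · rw [card_image_of_injective _ fun x y hxy => by rw [← hyz x, hxy, hyz]]
    rw [h3] at h2
    have h4 : ∑ y ∈ A', ((⌈e y + r * ν⌉ : ℝ) - ⌈e y⌉) ≤
        r * ((A.filter fun y => dl y = 1).card : ℝ) := by exact_mod_cast h2
    have h5 : ∑ _y ∈ A', (r * ν - 1) ≤ ∑ y ∈ A', ((⌈e y + r * ν⌉ : ℝ) - ⌈e y⌉) :=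
      sum_le_sum fun y _ => by linarith only [Int.le_ceil (e y + r * ν), Int.ceil_lt_add_one (e y)]
    rw [sum_const, hA', nsmul_eq_mul] at h5
    apply le_of_mul_le_mul_left _ hr'
    calc r * ((n : ℝ) ^ m * (ν - 1 / r)) = ((n ^ m : ℕ) : ℝ) * (r * ν - 1) := by
          push_cast
          field_simp
      _ ≤ _ := h5.trans h4
  · obtain ⟨y, hy, rfl⟩ := mem_image.1 hw
    obtain ⟨hy1, hy2⟩ := mem_filter.1 hy
    rw [hyz, hz]
    refine ⟨mem_cellY.1 hy1, by linarith only [Int.ceil_lt_add_one (e y)],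
      by linarith only [Int.le_ceil (e y)], ?_⟩
    have : ⌈e y⌉ < ⌈e y + ν⌉ := by
      simp only [dl] at hy2
      omega
    have := Int.lt_ceil.1 this
    linarith only [this]

theorem anti_flux {γ κ δ : ℝ} (hs : 0 < s) (hε : 0 < ε) (hγ : 0 < γ) (hκ : 0 ≤ κ)
    (hε2 : 2 * ε ≤ 1) (h1 : 5 * ε ≤ 2 * κ * γ) (h2 : γ + 5 * ε + 6 * h ≤ γ * R)
    (h3 : 4 * ε + 6 * h < M) (hεs : 1 ≤ ε * s) (hδ : 0 < δ) (hδ1 : δ ≤ 1 / 12)
    (hd : 36 ≤ δ ^ 6 * (m + 1)) {k q r n : ℕ} (hk : k = K + (6 + 6 * h) * s)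
    (hk2 : 2 ≤ δ * k ^ 2) (hk3 : (6 + 6 * h) * s ≤ 3 / 4 * δ * k) (hq : κ * s + 1 ≤ q)
    (hn : n + 2 * q + 2 * r = s) (hr : 1 ≤ δ * γ * r) {𝒜 : Finset ((Fin m → ℤ) × ℕ)}
    (h𝒜 : 𝒜 ⊆ S.idx γ) (hanti : ∀ i ∈ 𝒜, ∀ i' ∈ 𝒜, ¬ S.prec i i')
    (htyp : ∀ i ∈ 𝒜, ∃ x ∈ S.piece i, ¬ Atyp k δ x) (a : (Fin m → ℤ) × ℕ → ℝ)
    (ha : ∀ i ∈ 𝒜, γ ≤ a i)
    (ha' : ∀ i ∈ 𝒜, ((univ.filter fun l => S.ν i.1 i.2 l < a i).card : ℝ) ≤ δ * (m + 1)) :
    (∑ i ∈ 𝒜, a i) * (n ^ m * ((1 - δ) * (1 / 6 - 2 * δ))) ≤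
      (1 / 6 + 2 * δ) * G (Fin 2) (m + 1) k := by
  classical
  have hs' : (0 : ℝ) < s := by exact_mod_cast hs
  have hh : (0 : ℝ) ≤ h := Nat.cast_nonneg h
  have hR : 1 ≤ R := le_of_mul_le_mul_left (by linarith only [h2, hε, hh]) hγ
  have e0 : 2 * (ε * s) ≤ s := by linarith only [mul_le_mul_of_nonneg_right hε2 hs'.le]
  have hr0 : 0 < r := by
    rcases Nat.eq_zero_or_pos r with rfl | h
    · norm_num at hr
    · exact h
  have hr0' : (0 : ℝ) < r := by exact_mod_cast hr0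
  have hkR : (k : ℝ) = K + (6 + 6 * h) * s := by rw [hk]; push_cast; ring
  obtain ⟨B, hBR⟩ : ∃ B : ℤ, (B : ℝ) = (3 + 6 * h) * s := ⟨(3 + 6 * h) * s, by push_cast; ring⟩
  choose! rep hrep hrept using htyp
  have hex := fun (i : (Fin m → ℤ) × ℕ) (hi : i ∈ 𝒜) (l : Fin (m + 1)) =>
    cross_count (S := S) (mem_idx.1 (h𝒜 hi)).1 (mem_idx.1 (h𝒜 hi)).2.1 B hn hr0 l
  choose! Z hZ1 hZ2 using hex
  have hin : ∀ i ∈ 𝒜, ∀ l, ∀ z ∈ Z i l, Inner s κ i.1 (back s 1 B i.2 z) :=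
    fun i hi l z hz => inner_back_of (q := q) B _ (by push_cast; linarith only [hq]) fun l' =>
      ⟨((hZ2 i hi l z hz).1 l').1, ((hZ2 i hi l z hz).1 l').2.le⟩
  have habs : ∀ i ∈ 𝒜, ∀ l, ∀ z ∈ Z i l, |S.ell i (back s 1 B i.2 z)| ≤ ε * s :=
    fun i hi l z hz => by
      have := (hZ2 i hi l z hz).2
      rw [abs_le]
      constructor <;> linarith only [this.1, this.2.1, hεs]
  have hnear : ∀ i ∈ 𝒜, ∀ l, ∀ z ∈ Z i l, ∀ l', (rep i l' : ℝ) ≤ z l' ∧
      (z l' : ℝ) ≤ rep i l' + (6 + 6 * h) * s := by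
    intro i hi l z hz l'
    obtain ⟨hα, hj, -, -⟩ := mem_idx.1 (h𝒜 hi)
    have e1 := abs_le.1 (ell_piece hα hR (hrep i hi))
    have e2 := abs_le.1 (habs i hi l z hz)
    have n1 := abs_le.1 (near hα hj (inner_of_cell (mem_piece.1 (hrep i hi)).2.1)
      ((hin i hi l z hz).mono hs'.le hκ) (b := s)
      (by rw [abs_le]; constructor <;> linarith only [e1.1, e1.2, e2.1, e2.2, e0]) l')
    simp only [toR, back, div_one, hBR] at n1
    have hj0 : (0 : ℝ) ≤ i.2 := Nat.cast_nonneg _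
    have hj1 : (i.2 : ℝ) ≤ h := by exact_mod_cast hj.le
    constructor <;> linarith only [n1.1, n1.2, mul_nonneg hj0 hs'.le,
      mul_le_mul_of_nonneg_right hj1 hs'.le]
  have hrepb : ∀ i ∈ 𝒜, ∀ l', 0 ≤ rep i l' ∧ rep i l' < K := fun i hi =>
    mem_box.1 (S.sheets.sub (piece_sub _ (hrep i hi)))
  have hbox : ∀ i ∈ 𝒜, ∀ l, ∀ z ∈ Z i l, ∀ l', 0 ≤ z l' ∧ z l' < k := by
    intro i hi l z hz l'
    have a1 := hnear i hi l z hz l'
    have a2 : (0 : ℝ) ≤ rep i l' := by exact_mod_cast (hrepb i hi l').1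
    have a3 : (rep i l' : ℝ) < K := by exact_mod_cast (hrepb i hi l').2
    have a4 : (0 : ℝ) ≤ z l' := a2.trans a1.1
    have a5 : (z l' : ℝ) < k := by linarith only [a1.2, a3, hkR]
    exact ⟨by exact_mod_cast a4, by exact_mod_cast a5⟩
  have hsub : ∀ l, 𝒜.biUnion (fun i => Z i l) ⊆ cross k (S.down κ B 𝒜) l := by
    intro l z hz
    obtain ⟨i, hi, hz⟩ := mem_biUnion.1 hz
    obtain ⟨b1, -, b3, b4⟩ := hZ2 i hi l z hz
    refine mem_cross.2 ⟨mem_box.2 (hbox i hi l z hz), ⟨i, hi, z, le_rfl, hin i hi l z hz, b3⟩, ?_⟩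
    rw [down_iff hs hε hγ hκ hε2 h1 h2 h3 hεs hR h𝒜 hanti hi
      (inner_back_of (q := q - 1) B _ (by push_cast; linarith only [hq]) fun l' => ?_),
      back_add_single, ell_add_single]
    · linarith only [b4]
    · have c1 := b1 l'
      have c2 := abs_le.1 (abs_ebar_le l l')
      have c3 : yOf (z + Pi.single l 1) l' = yOf z l' + ebar l l' := by
        simp only [yOf, ebar, Pi.add_apply]
        ring
      rw [c3]
      constructor <;> linarith only [c1.1, c1.2, c2.1, c2.2]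
  have g1 : 2 * ε + 3 * ε ≤ 2 * κ * γ := by linarith only [h1]
  have g2 : γ + 2 * ε + 3 * ε + 6 * h ≤ γ * R := by linarith only [h2]
  have g3 : 2 * ε + 2 * ε + 6 * h < M := by linarith only [h3]
  have hδ2 : δ ≤ 1 := by linarith only [hδ1]
  have hdisj : ∀ l, Set.PairwiseDisjoint (𝒜 : Set ((Fin m → ℤ) × ℕ)) fun i => Z i l := by
    intro l i hi i' hi' hne
    rw [Function.onFun, disjoint_left]
    intro z hz hz'
    have k1 := key (b := ε) hs hε hγ hκ hε.le g1 g2 g3 (h𝒜 hi)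
      (h𝒜 hi') (hin i hi l z hz) (hin i' hi' l z hz') (habs i hi l z hz) (habs i' hi' l z hz')
      fun l' => by simp [back]
    have k2 := key (b := ε) hs hε hγ hκ hε.le g1 g2 g3 (h𝒜 hi')
      (h𝒜 hi) (hin i' hi' l z hz') (hin i hi l z hz) (habs i' hi' l z hz') (habs i hi l z hz)
      fun l' => by simp [back]
    have k3 := k1.resolve_left hne
    have k4 := k2.resolve_left hne.symm
    omega
  have hflux := flux_le hδ hδ2 hd hk2 (S.down κ B 𝒜)
    fun x y hxy ⟨i, hi, w, hw, hw'⟩ => ⟨i, hi, w, hxy.trans hw, hw'⟩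
  have hsum : ∑ i ∈ 𝒜, ∑ l, ∑ z ∈ Z i l, lam k (z l + 1) ≤
      ∑ l, ∑ x ∈ cross k (S.down κ B 𝒜) l, lam k (x l + 1) := by
    rw [sum_comm]
    refine sum_le_sum fun l _ => ?_
    rw [← sum_biUnion (hdisj l)]
    refine sum_le_sum_of_subset_of_nonneg (hsub l) fun x hx _ => ?_
    have := mem_box.1 (mem_cross.1 hx).1 l
    exact lam_nonneg this.1 this.2
  have hk0 : (0 : ℝ) < k := by
    by_contra hn
    push Not at hn
    have : (k : ℝ) = 0 := le_antisymm hn (Nat.cast_nonneg k)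
    rw [this] at hk2
    norm_num at hk2
  have hpiece : ∀ i ∈ 𝒜, a i * (n ^ m * ((1 - δ) * (1 / 6 - 2 * δ))) * ((m + 1) * k ^ 2) ≤
      ∑ l, ∑ z ∈ Z i l, lam k (z l + 1) := by
    intro i hi
    have hai := ha i hi
    have ha0 : 0 < a i := hγ.trans_le hai
    obtain ⟨w, hw⟩ : ∃ w : ℝ, w = n ^ m * ((1 - δ) * a i) := ⟨_, rfl⟩
    have hnm : (0 : ℝ) ≤ n ^ m := pow_nonneg (Nat.cast_nonneg n) m
    have hw0 : 0 ≤ w := hw ▸ mul_nonneg hnm (mul_nonneg (sub_nonneg.2 hδ2) ha0.le)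
    have hrb : ∀ l', 0 ≤ rep i l' ∧ rep i l' < k := fun l' => by
      have := hrepb i hi l'
      have h5 : K ≤ k := hk ▸ Nat.le_add_right _ _
      omega
    have b1 : ∀ l, w * (lam k (rep i l + 1) - k * ((6 + 6 * h) * s) -
        if S.ν i.1 i.2 l < a i then (k : ℝ) ^ 2 / 4 else 0) ≤ ∑ z ∈ Z i l, lam k (z l + 1) := by
      intro l
      have c0 : 0 ≤ ∑ z ∈ Z i l, lam k (z l + 1) := sum_nonneg fun z hz =>
        lam_nonneg (hbox i hi l z hz l).1 (hbox i hi l z hz l).2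
      have c4 : 0 ≤ k * ((6 + 6 * (h : ℝ)) * s) := by positivity
      split_ifs with hl
      · refine le_trans (mul_nonpos_of_nonneg_of_nonpos hw0 ?_) c0
        linarith only [lam_le k (rep i l + 1), c4]
      · rw [sub_zero]
        rcases le_total (lam k (rep i l + 1) - k * ((6 + 6 * h) * s)) 0 with c1 | c1
        · exact le_trans (mul_nonpos_of_nonneg_of_nonpos hw0 c1) c0
        · have c2 : w ≤ (Z i l).card := by
            refine le_trans ?_ (hZ1 i hi l)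
            rw [hw]
            refine mul_le_mul_of_nonneg_left ?_ hnm
            have c3 : 1 / (r : ℝ) ≤ δ * γ := by
              rw [div_le_iff₀ hr0']
              exact hr
            linarith only [not_lt.1 hl, c3, mul_le_mul_of_nonneg_left hai hδ.le]
          calc w * (lam k (rep i l + 1) - k * ((6 + 6 * h) * s))
              ≤ (Z i l).card * (lam k (rep i l + 1) - k * ((6 + 6 * h) * s)) :=
                mul_le_mul_of_nonneg_right c2 c1
            _ = ∑ _z ∈ Z i l, (lam k (rep i l + 1) - k * ((6 + 6 * h) * s)) := by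
                rw [sum_const, nsmul_eq_mul]
            _ ≤ _ := sum_le_sum fun z hz => lam_sub_le (hbox i hi l z hz l) (hrb l) (by
                have := hnear i hi l z hz l
                rw [abs_le]
                constructor <;> linarith only [this.1, this.2])
    refine le_trans ?_ (sum_le_sum fun l _ => b1 l)
    rw [← mul_sum, sum_sub_distrib, sum_sub_distrib, ← sum_filter, sum_const, sum_const,
      card_univ, Fintype.card_fin, nsmul_eq_mul, nsmul_eq_mul]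
    have b2 := hrept i hi
    simp only [Atyp, not_le, abs_lt, Lam] at b2
    have b3 : ((univ.filter fun l => S.ν i.1 i.2 l < a i).card : ℝ) * (k ^ 2 / 4) ≤
        δ * (m + 1) * (k ^ 2 / 4) :=
      mul_le_mul_of_nonneg_right (ha' i hi) (div_nonneg (sq_nonneg _) zero_le_four)
    have b4 : ((m + 1 : ℕ) : ℝ) * (k * ((6 + 6 * h) * s)) ≤
        ((m + 1 : ℕ) : ℝ) * (k * (3 / 4 * δ * k)) :=
      mul_le_mul_of_nonneg_left (mul_le_mul_of_nonneg_left hk3 hk0.le) (Nat.cast_nonneg _)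
    push_cast at b2 b4 ⊢
    calc a i * (n ^ m * ((1 - δ) * (1 / 6 - 2 * δ))) * ((m + 1) * k ^ 2)
        = w * ((1 / 6 - 2 * δ) * ((m + 1) * k ^ 2)) := by rw [hw]; ring
      _ ≤ _ := mul_le_mul_of_nonneg_left (by linarith only [b2.1, b3, b4]) hw0
  have hmid : ((midLev (m + 1) k).card : ℝ) ≤ G (Fin 2) (m + 1) k := by
    exact_mod_cast le_G (filter_subset _ _) (midLev_free (m + 1) k)
  have hpos : (0 : ℝ) < (m + 1) * k ^ 2 := by positivity
  have hG : (0 : ℝ) ≤ G (Fin 2) (m + 1) k := Nat.cast_nonneg _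
  apply le_of_mul_le_mul_right _ hpos
  rw [sum_mul, sum_mul]
  refine (sum_le_sum hpiece).trans (hsum.trans (hflux.trans ?_))
  rw [mul_comm]
  refine mul_le_mul_of_nonneg_right ?_ hpos.le
  linarith only [mul_le_mul_of_nonneg_left hmid (show 0 ≤ 1 / 6 + δ by linarith only [hδ]),
    mul_nonneg hδ.le hG]

end Setup

end Pool.Agent.Work.MP_84019e_co
end

-- merged part: Pool.Agent.Work.MP_84019e_co.GridSlice
section
set_option autoImplicit false

namespace Pool.Agent.Work.MP_84019e_co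

open Finset

lemma Sheets.deg_count' {m h K : ℕ} {F : Finset (Fin (m + 1) → ℤ)}
    {lev : (Fin (m + 1) → ℤ) → ℕ} {φ : ℕ → (Fin (m + 1) → ℝ) → ℝ} (hS : Sheets h K F lev φ)
    {s r : ℕ} (hr : 0 < r) (hrs : r ≤ s) (α : Fin m → ℤ) (j : ℕ) (ν : Fin (m + 1) → ℝ) (c ε : ℝ)
    (happ : ∀ x, Prism s α 3 x → |φ j x - (∑ i, ν i * x i - c)| ≤ ε * s) (i : Fin (m + 1)) :
    r * ((F.filter fun x => yOf x ∈ cell s α ∧ lev x = j).card : ℝ) ≤
      (s + 2 * r) ^ m * (ν i * r + 2 * (ε * s)) := by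
  classical
  have hT := hS.top j
  have hr' : (0 : ℝ) < r := by exact_mod_cast hr
  have hrs' : (r : ℝ) ≤ s := by exact_mod_cast hrs
  let A' : Finset (Fin m → ℤ) := cellY (fun l => s * α l - r) fun l => s * α l + s + r
  have hA' : A'.card = (s + 2 * r) ^ m := card_cellY fun l => by push_cast; ring
  have h1 : ((F.filter fun x => yOf x ∈ cell s α ∧ lev x = j).card : ℝ) ≤
      ∑ y ∈ cell s α, incr (φ j) i y := by
    rw [← card_image_of_injOn (f := yOf) (fun x hx y hy hxy =>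
      hS.inj (mem_filter.1 hx).1 (mem_filter.1 hy).1
        ((mem_filter.1 hx).2.2.trans (mem_filter.1 hy).2.2.symm) hxy)]
    rw [card_eq_sum_ones, Nat.cast_sum]
    refine le_trans (sum_le_sum fun y hy => ?_) (sum_le_sum_of_subset_of_nonneg (fun y hy => ?_)
      fun y _ _ => hT.incr_nonneg i y)
    · obtain ⟨x, hx, rfl⟩ := mem_image.1 hy
      have hx' := mem_filter.1 hx
      have h2 := hS.zero x hx'.1
      have h3 := hS.step x hx'.1 i
      rw [hx'.2.2, toR_eq_lift, hT.shift] at h2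
      have h4 : toR x + Pi.single i 1 =
          fun l => (lift (yOf x) + Pi.single i 1 : Fin (m + 1) → ℝ) l + (x 0 : ℝ) := by
        rw [toR_eq_lift]
        funext l
        simp only [Pi.add_apply]
        ring
      rw [hx'.2.2, h4, hT.shift] at h3
      simp only [incr, Nat.cast_one]
      linarith only [h2, h3]
    · obtain ⟨x, hx, rfl⟩ := mem_image.1 hy
      exact (mem_filter.1 hx).2.1
  have h2 : ∀ τ ∈ range r, ∑ y ∈ cell s α, incr (φ j) i y ≤
      ∑ y ∈ A', incr (φ j) i (y + (τ : ℤ) • ebar i) := by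
    intro τ hτ
    have hτ' : (τ : ℤ) < r := by exact_mod_cast mem_range.1 hτ
    have h3 : ∑ y ∈ cell s α, incr (φ j) i y =
        ∑ y ∈ (cell s α).image (fun y => y - (τ : ℤ) • ebar i),
          incr (φ j) i (y + (τ : ℤ) • ebar i) := by
      rw [sum_image (fun x _ y _ hxy => sub_left_injective hxy)]
      simp
    rw [h3]
    refine sum_le_sum_of_subset_of_nonneg (fun y hy => ?_) fun y _ _ => hT.incr_nonneg i _
    obtain ⟨z, hz, rfl⟩ := mem_image.1 hy
    rw [mem_cellY]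
    intro l
    have h4 := mem_cellY.1 hz l
    have h5 := abs_le.1 (abs_ebar_le i l)
    simp only [Pi.sub_apply, Pi.smul_apply, smul_eq_mul] at h4 ⊢
    constructor <;> linarith only [hτ', h4, h5, Int.natCast_nonneg τ, mul_nonneg_of_nonpos_of_nonpos (Mathlib.Tactic.Linarith.sub_nonpos_of_le (Mathlib.Tactic.Linarith.natCast_nonneg ℤ τ)) (Mathlib.Tactic.Linarith.sub_nonpos_of_le h5.right), mul_nonneg_of_nonpos_of_nonpos (Mathlib.Tactic.Linarith.sub_nonpos_of_le (Mathlib.Tactic.Linarith.natCast_nonneg ℤ τ)) (Mathlib.Tactic.Linarith.sub_nonpos_of_le h5.left)]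
  have h3 : ∀ y ∈ A', φ j (lift y + Pi.single i (r : ℝ)) - φ j (lift y) ≤
      ν i * r + 2 * (ε * s) := by
    intro y hy
    have hy' : ∀ l, (s : ℝ) * α l - r ≤ y l ∧ (y l : ℝ) ≤ s * α l + s + r := fun l => by
      have := mem_cellY.1 hy l
      exact ⟨by exact_mod_cast this.1, by exact_mod_cast this.2.le⟩
    have p1 : Prism s α 3 (lift y) := fun l => by
      rw [abs_le]
      simp only [lift_succ, lift_zero]
      constructor <;> linarith only [hr', hrs', hy', (hy' l).1, (hy' l).2]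
    have p2 : Prism s α 3 (lift y + Pi.single i (r : ℝ)) := fun l => by
      rw [abs_le]
      simp only [Pi.add_apply, lift_succ, lift_zero, Pi.single_apply]
      split_ifs <;> constructor <;> linarith only [hr', hrs', hy', (hy' l).1, (hy' l).2]
    have q1 := abs_le.1 (happ _ p1)
    have q2 := abs_le.1 (happ _ p2)
    rw [sum_mul_add_single] at q2
    linarith only [q1, q2, q1.1, q2.2]
  have h4 : (r : ℝ) * ∑ y ∈ cell s α, incr (φ j) i y ≤
      (s + 2 * r) ^ m * (ν i * r + 2 * (ε * s)) := by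
    calc (r : ℝ) * ∑ y ∈ cell s α, incr (φ j) i y
        = ∑ _τ ∈ range r, ∑ y ∈ cell s α, incr (φ j) i y := by simp
      _ ≤ ∑ τ ∈ range r, ∑ y ∈ A', incr (φ j) i (y + (τ : ℤ) • ebar i) := sum_le_sum h2
      _ = ∑ y ∈ A', (φ j (lift y + Pi.single i (r : ℝ)) - φ j (lift y)) := by
          rw [sum_comm]
          exact sum_congr rfl fun y _ => hT.telescope i y r
      _ ≤ ∑ _y ∈ A', (ν i * r + 2 * (ε * s)) := sum_le_sum h3
      _ = _ := by rw [sum_const, hA', nsmul_eq_mul]; push_cast; ring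
  exact (mul_le_mul_of_nonneg_left h1 hr'.le).trans h4

lemma class_select {D : ℕ} (ν : Fin D → ℝ) {ν0 : ℝ} (θ : ℝ) (h0 : ∀ l, ν0 ≤ ν l) (d B : ℕ) :
    ∃ b ≤ B, (univ.filter fun l => ν l < ν0 * θ ^ b).card ≤ b * d ∧
      (b = B ∨ d ≤ (univ.filter fun l => ν0 * θ ^ b ≤ ν l ∧ ν l < ν0 * θ ^ (b + 1)).card) := by
  induction B with
  | zero =>
    refine ⟨0, le_rfl, ?_, Or.inl rfl⟩
    rw [filter_eq_empty_iff.2 fun l _ => by simpa using h0 l]
    simp
  | succ B ih =>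
    obtain ⟨b, hb, h1, h2⟩ := ih
    by_cases h3 : d ≤ (univ.filter fun l => ν0 * θ ^ b ≤ ν l ∧ ν l < ν0 * θ ^ (b + 1)).card
    · exact ⟨b, by omega, h1, Or.inr h3⟩
    · obtain rfl := h2.resolve_right h3
      refine ⟨b + 1, le_rfl, ?_, Or.inl rfl⟩
      have h4 : (univ.filter fun l => ν l < ν0 * θ ^ (b + 1)) ⊆
          (univ.filter fun l => ν l < ν0 * θ ^ b) ∪
            univ.filter fun l => ν0 * θ ^ b ≤ ν l ∧ ν l < ν0 * θ ^ (b + 1) := fun l hl => by
        have := (mem_filter.1 hl).2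
        simp only [mem_union, mem_filter, mem_univ, true_and]
        rcases lt_or_ge (ν l) (ν0 * θ ^ b) with h | h
        · exact Or.inl h
        · exact Or.inr ⟨h, this⟩
      have h5 := (card_le_card h4).trans (card_union_le _ _)
      rw [add_mul]
      omega

/-- A low-dimensional grid placed along chosen coordinate directions. -/
def emb {d D : ℕ} (τ : Fin d ↪ Fin D) (b : Fin d → ℤ) : Fin D → ℤ :=
  ∑ t, Pi.single (τ t) (b t)

lemma emb_apply {d D : ℕ} (τ : Fin d ↪ Fin D) (b : Fin d → ℤ) (t : Fin d) :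
    emb τ b (τ t) = b t := by
  simp only [emb, Finset.sum_apply]
  rw [sum_eq_single t (fun t' _ h => Pi.single_eq_of_ne (τ.injective.ne h.symm) _) (by simp)]
  simp

lemma emb_cases {d D : ℕ} (τ : Fin d ↪ Fin D) (l : Fin D) :
    (∃ t, l = τ t) ∨ ∀ b, emb τ b l = 0 := by
  by_cases h : ∃ t, l = τ t
  · exact Or.inl h
  · push Not at h
    refine Or.inr fun b => ?_
    simp only [emb, Finset.sum_apply]
    exact sum_eq_zero fun t _ => Pi.single_eq_of_ne (h t) _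

lemma emb_mono {d D : ℕ} (τ : Fin d ↪ Fin D) {b b' : Fin d → ℤ} (h : b ≤ b') :
    emb τ b ≤ emb τ b' := fun l => by
  rcases emb_cases τ l with ⟨t, rfl⟩ | h0
  · rw [emb_apply, emb_apply]
    exact h t
  · rw [h0, h0]

lemma emb_inj {d D : ℕ} (τ : Fin d ↪ Fin D) : Function.Injective (emb τ) := fun b b' h => by
  funext t
  rw [← emb_apply τ b, h, emb_apply]

lemma emb_bound {d D L : ℕ} (τ : Fin d ↪ Fin D) {b : Fin d → ℤ} (hb : b ∈ box d L) (l : Fin D) :
    0 ≤ emb τ b l ∧ emb τ b l ≤ L := by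
  rcases emb_cases τ l with ⟨t, rfl⟩ | h0
  · rw [emb_apply]
    exact ⟨(mem_box.1 hb t).1, (mem_box.1 hb t).2.le⟩
  · rw [h0]
    exact ⟨le_rfl, Int.natCast_nonneg L⟩

lemma sum_emb {d D : ℕ} (τ : Fin d ↪ Fin D) (ν : Fin D → ℝ) (b : Fin d → ℤ) :
    ∑ l, ν l * (emb τ b l : ℝ) = ∑ t, ν (τ t) * b t := by
  simp only [emb, Finset.sum_apply, Int.cast_sum, mul_sum, Pi.single_apply]
  rw [sum_comm]
  refine sum_congr rfl fun t _ => ?_
  rw [sum_eq_single (τ t) (fun l _ h => by simp [h]) (by simp)]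
  simp

/-- The `J` levels of the grid that start at the middle level. -/
noncomputable def win (d L J : ℕ) : Finset (Fin d → ℤ) :=
  (box d L).filter fun b => ((d : ℤ) * (L - 1) - 1) / 2 ≤ ∑ t, b t ∧
    ∑ t, b t < ((d : ℤ) * (L - 1) - 1) / 2 + J

lemma win_card (n L J : ℕ) :
    (J : ℝ) * ((midLev (n + 2) L).card - J * L ^ n) ≤ (win (n + 2) L J).card := by
  classical
  have h1 : ((midLev (n + 2) L).filter fun x => ¬ x 0 < (L : ℤ) - J).card ≤ J * L ^ n := by
    have : ((midLev (n + 2) L).filter fun x => ¬ x 0 < (L : ℤ) - J).card ≤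
        (Ico ((L : ℤ) - J) L ×ˢ box n L).card := by
      refine card_le_card_of_injOn (fun x => (x 0, fun i : Fin n => x i.succ.succ))
        (fun x hx => ?_) fun x hx y hy hxy => ?_
      · obtain ⟨hx1, hx2⟩ := mem_filter.1 (mem_coe.1 hx)
        have hb := mem_box.1 (mem_filter.1 hx1).1
        exact mem_coe.2 (mem_product.2 ⟨mem_Ico.2 ⟨not_lt.1 hx2, (hb 0).2⟩,
          mem_box.2 fun i => hb _⟩)
      · have hx1 := (mem_filter.1 (mem_filter.1 (mem_coe.1 hx)).1).2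
        have hy1 := (mem_filter.1 (mem_filter.1 (mem_coe.1 hy)).1).2
        simp only [Prod.mk.injEq] at hxy
        have h3 : ∀ i : Fin n, x i.succ.succ = y i.succ.succ := congrFun hxy.2
        have h4 := hx1.trans hy1.symm
        simp only [Fin.sum_univ_succ, h3, hxy.1] at h4
        funext i
        refine Fin.cases hxy.1 (fun i => Fin.cases ?_ h3 i) i
        omega
    rw [card_product, card_box, Int.card_Ico] at this
    simpa using this
  have h2 : (((midLev (n + 2) L).filter fun x => x 0 < (L : ℤ) - J) ×ˢ range J).card ≤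
      (win (n + 2) L J).card := by
    have hs : ∀ (x : Fin (n + 2) → ℤ) (j : ℕ),
        ∑ t, (x + Pi.single 0 (j : ℤ) : Fin (n + 2) → ℤ) t = ∑ t, x t + j := fun x j => by
      simp [sum_add_distrib]
    refine card_le_card_of_injOn (fun p => p.1 + Pi.single 0 (p.2 : ℤ)) (fun p hp => ?_)
      fun p hp p' hp' hpp => ?_
    · obtain ⟨hp1, hp2⟩ := mem_product.1 (mem_coe.1 hp)
      obtain ⟨hp3, hp4⟩ := mem_filter.1 hp1
      obtain ⟨hp5, hp6⟩ := mem_filter.1 hp3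
      have hj := mem_range.1 hp2
      refine mem_coe.2 (mem_filter.2 ⟨mem_box.2 fun t => ?_, ?_⟩)
      · have := mem_box.1 hp5 t
        simp only [Pi.add_apply, Pi.single_apply]
        split_ifs with h
        · subst h
          omega
        · omega
      · simp only [hs, hp6]
        omega
    · have a1 := (mem_filter.1 (mem_filter.1 (mem_product.1 (mem_coe.1 hp)).1).1).2
      have a2 := (mem_filter.1 (mem_filter.1 (mem_product.1 (mem_coe.1 hp')).1).1).2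
      have a3 := hs p.1 p.2
      have a4 := hs p'.1 p'.2
      simp only at hpp
      rw [hpp] at a3
      have a5 : p.2 = p'.2 := by omega
      rw [a5] at hpp
      exact Prod.ext (add_right_cancel hpp) a5
  rw [card_product, card_range] at h2
  have h3 := card_filter_add_card_filter_not (s := midLev (n + 2) L) fun x => x 0 < (L : ℤ) - J
  have h1' : (((midLev (n + 2) L).filter fun x => ¬ x 0 < (L : ℤ) - J).card : ℝ) ≤ J * L ^ n := by
    exact_mod_cast h1
  have h2' : (((midLev (n + 2) L).filter fun x => x 0 < (L : ℤ) - J).card : ℝ) * J ≤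
      (win (n + 2) L J).card := by exact_mod_cast h2
  have h3' : (((midLev (n + 2) L).filter fun x => x 0 < (L : ℤ) - J).card : ℝ) +
      ((midLev (n + 2) L).filter fun x => ¬ x 0 < (L : ℤ) - J).card =
        (midLev (n + 2) L).card := by exact_mod_cast h3
  have hJ : (0 : ℝ) ≤ J := Nat.cast_nonneg J
  linarith only [h2', h1', h3', mul_nonneg_of_nonpos_of_nonpos (Mathlib.Tactic.Linarith.sub_nonpos_of_le (Mathlib.Tactic.Linarith.natCast_nonneg ℝ J)) (Mathlib.Tactic.Linarith.sub_nonpos_of_le h1'), Mathlib.Tactic.Linarith.mul_zero_eq (Mathlib.Tactic.Linarith.sub_nonpos_of_le (Mathlib.Tactic.Linarith.natCast_nonneg ℝ J)) (sub_eq_zero_of_eq h3')]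

lemma card_Icc_ceil_floor {a b : ℝ} (h : a ≤ b + 1) : ((Icc ⌈a⌉ ⌊b⌋).card : ℝ) ≤ b - a + 1 := by
  rw [Int.card_Icc]
  have a1 := Int.le_ceil a
  have a2 := Int.floor_le b
  rcases le_total (⌊b⌋ + 1 - ⌈a⌉) 0 with h1 | h1
  · rw [Int.toNat_eq_zero.2 h1]
    push_cast
    linarith
  · have : (((⌊b⌋ + 1 - ⌈a⌉).toNat : ℤ) : ℝ) = ((⌊b⌋ + 1 - ⌈a⌉ : ℤ) : ℝ) := by
      rw [Int.toNat_of_nonneg h1]
    push_cast at this
    linarith only [a1, a2, this]

lemma weakFree_union {P X Y ι : Type} [PartialOrder P] [PartialOrder X] [PartialOrder Y]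
    [DecidableEq Y] {F : Finset X} (hF : WeakFree P F) (I : Finset ι) (A : ι → Finset Y)
    (g : ι → Y → X) (hm : ∀ i ∈ I, ∀ y ∈ A i, g i y ∈ F)
    (hinj : ∀ i ∈ I, ∀ i' ∈ I, ∀ y ∈ A i, ∀ y' ∈ A i', g i y = g i' y' → y = y')
    (hord : ∀ i ∈ I, ∀ i' ∈ I, ∀ y ∈ A i, ∀ y' ∈ A i', y ≤ y' → g i y ≤ g i' y') :
    WeakFree P (I.biUnion A) := by
  rintro ⟨f, hf, hfm, ho⟩
  choose idx hidx hA using fun p => mem_biUnion.1 (hfm p)
  exact hF ⟨fun p => g (idx p) (f p),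
    fun p q h => hf (hinj _ (hidx p) _ (hidx q) _ (hA p) _ (hA q) h),
    fun p => hm _ (hidx p) _ (hA p),
    fun p q h => hord _ (hidx p) _ (hidx q) _ (hA p) _ (hA q) (ho p q h)⟩

namespace Setup

variable {m h K s : ℕ} {ε R M : ℝ} {S : Setup m h K s ε R M}

lemma piece_small {i : (Fin m → ℤ) × ℕ} (hα : i.1 ∈ S.𝒢) (hR : 3 ≤ R) {r : ℕ} (hr : 0 < r)
    (hrs : r ≤ s) (hε : 0 ≤ ε) (l : Fin (m + 1)) (hl : 0 ≤ S.ν i.1 i.2 l) :
    r * ((S.piece i).card : ℝ) ≤ h * ((s + 2 * r) ^ m * (S.ν i.1 i.2 l * r + 2 * (ε * s))) := by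
  classical
  let T := (range h).filter fun j => S.ν i.1 j = S.ν i.1 i.2
  have h1 : S.piece i ⊆ T.biUnion fun j => S.F.filter fun x => yOf x ∈ cell s i.1 ∧ S.lev x = j :=
    fun x hx => by
      obtain ⟨a1, a2, a3, -⟩ := mem_piece.1 hx
      exact mem_biUnion.2 ⟨_, mem_filter.2 ⟨mem_range.2 (S.sheets.lev_lt x a1), a3⟩,
        mem_filter.2 ⟨a1, a2, rfl⟩⟩
  have h2 : ((S.piece i).card : ℝ) ≤
      ∑ j ∈ T, ((S.F.filter fun x => yOf x ∈ cell s i.1 ∧ S.lev x = j).card : ℝ) := by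
    exact_mod_cast (card_le_card h1).trans card_biUnion_le
  have h3 : (T.card : ℝ) ≤ h := by exact_mod_cast (card_filter_le _ _).trans (card_range h).le
  calc r * ((S.piece i).card : ℝ)
      ≤ r * ∑ j ∈ T, ((S.F.filter fun x => yOf x ∈ cell s i.1 ∧ S.lev x = j).card : ℝ) := by
        gcongr
    _ ≤ ∑ _j ∈ T, (s + 2 * r : ℝ) ^ m * (S.ν i.1 i.2 l * r + 2 * (ε * s)) := by
        rw [mul_sum]
        refine sum_le_sum fun j hj => ?_
        obtain ⟨hj1, hj2⟩ := mem_filter.1 hj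
        rw [← hj2]
        exact S.sheets.deg_count' hr hrs i.1 j (S.ν i.1 j) (S.c i.1 j) ε
          (fun x hx => (S.good _ hα).approx _ (mem_range.1 hj1) x
            (hx.mono (Nat.cast_nonneg s) hR)) l
    _ ≤ _ := by
        rw [sum_const, nsmul_eq_mul]
        gcongr

open Classical in
/-- Some low-dimensional slice of a piece is dense. -/
lemma slice {i : (Fin m → ℤ) × ℕ} (hα : i.1 ∈ S.𝒢) (hj : i.2 < h) (hR : 1 ≤ R) (hε : 0 ≤ ε)
    {d : ℕ} (τ : Fin d ↪ Fin (m + 1)) {a δ : ℝ} (ha : 0 ≤ a) (hδ : 0 ≤ δ)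
    (hτ : ∀ t, a ≤ S.ν i.1 i.2 (τ t) ∧ S.ν i.1 i.2 (τ t) ≤ a * (1 + δ)) (L J : ℕ) :
    ∃ u : Fin (m + 1) → ℤ, ((S.piece i).card : ℝ) * (win d L J).card ≤
      ((win d L J).filter fun b => u + emb τ b ∈ S.piece i).card *
        ((s + 2 * L) ^ m * (a * J + δ * a * (d * L) + 2 * (ε * s) + 1)) := by
  set W := win d L J with hW
  set l0 : ℤ := ((d : ℤ) * (L - 1) - 1) / 2 with hl0
  let f : (Fin (m + 1) → ℤ) × (Fin d → ℤ) → Fin (m + 1) → ℤ := fun p => p.1 - emb τ p.2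
  let U := (S.piece i ×ˢ W).image f
  let A : (Fin (m + 1) → ℤ) → Finset (Fin d → ℤ) := fun u => W.filter fun b => u + emb τ b ∈ S.piece i
  have hlen : 0 ≤ a * J + δ * a * (d * L) + 2 * (ε * s) := by positivity
  rcases U.eq_empty_or_nonempty with h0 | h0
  · refine ⟨0, ?_⟩
    have := card_eq_zero.2 (image_eq_empty.1 h0)
    rw [card_product] at this
    have h2 : ((S.piece i).card : ℝ) * W.card = 0 := by exact_mod_cast this
    rw [h2]
    clear * - d m h K s ε R M S i τ W L a J δ ha hδ hε; positivity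
  obtain ⟨u, -, hu⟩ := exists_max_image U (fun u => (A u).card) h0
  refine ⟨u, ?_⟩
  have h1 : (S.piece i ×ˢ W).card ≤ (A u).card * U.card := by
    refine card_le_mul_card_image _ _ fun v hv => le_trans ?_ (hu v hv)
    refine card_le_card_of_injOn Prod.snd (fun p hp => ?_) fun p hp p' hp' hpp => ?_
    · obtain ⟨hp1, hp2⟩ := mem_filter.1 (mem_coe.1 hp)
      refine mem_coe.2 (mem_filter.2 ⟨(mem_product.1 hp1).2, ?_⟩)
      rw [← hp2]
      simpa [f] using (mem_product.1 hp1).1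
    · have a1 := (mem_filter.1 (mem_coe.1 hp)).2
      have a2 := (mem_filter.1 (mem_coe.1 hp')).2
      have a3 := a1.trans a2.symm
      simp only [f, hpp] at a3
      exact Prod.ext (sub_left_injective a3) hpp
  let Y : Finset (Fin m → ℤ) := cellY (fun l => s * i.1 l - L) fun l => s * i.1 l + s + L
  have hY : Y.card = (s + 2 * L) ^ m := card_cellY fun l => by push_cast; ring
  have hUY : ∀ v ∈ U, yOf v ∈ Y := by
    intro v hv
    obtain ⟨p, hp, rfl⟩ := mem_image.1 hv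
    obtain ⟨hp1, hp2⟩ := mem_product.1 hp
    refine mem_cellY.2 fun l => ?_
    have a1 := mem_cellY.1 (mem_piece.1 hp1).2.1 l
    have a2 := emb_bound τ (mem_filter.1 hp2).1 l.succ
    have a3 := emb_bound τ (mem_filter.1 hp2).1 0
    simp only [yOf, f, Pi.sub_apply] at a1 ⊢
    constructor <;> linarith only [a1, a2, a3, a1.1, a1.2, a2.1, a2.2, a3.1, a3.2]
  have hUe : ∀ v ∈ U, -(a * (l0 + J) + δ * a * (d * L) + ε * s) ≤ S.ell i (toR v) ∧
      S.ell i (toR v) ≤ -(a * l0) + ε * s := by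
    intro v hv
    obtain ⟨p, hp, rfl⟩ := mem_image.1 hv
    obtain ⟨hp1, hp2⟩ := mem_product.1 hp
    obtain ⟨hb, hw1, hw2⟩ := mem_filter.1 hp2
    have a1 := abs_le.1 (ell_piece hα hR hp1)
    have a2 : S.ell i (toR (f p)) = S.ell i (toR p.1) - ∑ t, S.ν i.1 i.2 (τ t) * p.2 t := by
      rw [← sum_emb]
      simp only [ell, toR, f, Pi.sub_apply, Int.cast_sub, mul_sub, sum_sub_distrib]
      ring
    have b0 : ∀ t, (0 : ℝ) ≤ p.2 t := fun t => by exact_mod_cast (mem_box.1 hb t).1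
    have b1 : ∀ t, (p.2 t : ℝ) ≤ L := fun t => by exact_mod_cast (mem_box.1 hb t).2.le
    have a3 : a * ∑ t, (p.2 t : ℝ) ≤ ∑ t, S.ν i.1 i.2 (τ t) * p.2 t := by
      rw [mul_sum]
      exact sum_le_sum fun t _ => mul_le_mul_of_nonneg_right (hτ t).1 (b0 t)
    have a4 : ∑ t, S.ν i.1 i.2 (τ t) * p.2 t ≤ a * (1 + δ) * ∑ t, (p.2 t : ℝ) := by
      rw [mul_sum]
      exact sum_le_sum fun t _ => mul_le_mul_of_nonneg_right (hτ t).2 (b0 t)
    have a5 : ∑ t, (p.2 t : ℝ) ≤ d * L := by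
      calc ∑ t, (p.2 t : ℝ) ≤ ∑ _t : Fin d, (L : ℝ) := sum_le_sum fun t _ => b1 t
        _ = _ := by simp
    have a6 : (l0 : ℝ) ≤ ∑ t, (p.2 t : ℝ) := by exact_mod_cast hw1
    have a7 : ∑ t, (p.2 t : ℝ) ≤ l0 + J := by exact_mod_cast hw2.le
    have a8 := mul_le_mul_of_nonneg_left a6 ha
    have a9 := mul_le_mul_of_nonneg_left a7 ha
    have a10 := mul_le_mul_of_nonneg_left a5 (mul_nonneg hδ ha)
    rw [a2]
    constructor <;> linarith only [a1, a4, a9, a10, a3, a8, a1.1, a1.2]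
  have h2 : (U.card : ℝ) ≤ (s + 2 * L) ^ m * (a * J + δ * a * (d * L) + 2 * (ε * s) + 1) := by
    rw [card_eq_sum_card_fiberwise (f := yOf) (t := Y) fun v hv => hUY v hv, Nat.cast_sum]
    calc _ ≤ ∑ _y ∈ Y, (a * J + δ * a * (d * L) + 2 * (ε * s) + 1) := sum_le_sum fun y _ => by
          clear * - m y U a l0 J δ d L ε s h K R M S i hUe hα hj τ u hlen
          have c1 : (U.filter fun v => yOf v = y).card ≤
              (Icc ⌈-(a * (l0 + J) + δ * a * (d * L) + ε * s) - S.ell i (lift y)⌉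
                ⌊-(a * l0) + ε * s - S.ell i (lift y)⌋).card := by
            refine card_le_card_of_injOn (fun v => v 0) (fun v hv => ?_) fun v hv v' hv' hvv => ?_
            · obtain ⟨hv1, hv2⟩ := mem_filter.1 (mem_coe.1 hv)
              have c2 := hUe v hv1
              rw [toR_eq_lift, ell_add_const hα hj, hv2] at c2
              rw [mem_coe, mem_Icc, Int.ceil_le, Int.le_floor]
              constructor <;> linarith only [c2, c2.1, c2.2]
            · have c2 := ((mem_filter.1 (mem_coe.1 hv)).2).trans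
                ((mem_filter.1 (mem_coe.1 hv')).2).symm
              simp only at hvv
              funext l
              refine Fin.cases hvv (fun l => ?_) l
              have := congrFun c2 l
              simp only [yOf] at this
              omega
          have c2 := card_Icc_ceil_floor
            (a := -(a * (l0 + J) + δ * a * (d * L) + ε * s) - S.ell i (lift y))
            (b := -(a * l0) + ε * s - S.ell i (lift y)) (by linarith only [hlen])
          have c3 : ((U.filter fun v => yOf v = y).card : ℝ) ≤ _ := Nat.cast_le.2 c1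
          linarith only [c2, c3]
      _ = _ := by rw [sum_const, hY, nsmul_eq_mul]; push_cast; ring
  rw [card_product] at h1
  calc ((S.piece i).card : ℝ) * W.card ≤ (A u).card * U.card := by exact_mod_cast h1
    _ ≤ _ := by clear * - d A u m U s L a J δ ε h2; gcongr

/-- Slices of a chain of pieces stack to one family in a low-dimensional grid. -/
lemma chain_sum {P : Type} [PartialOrder P] (hF : WeakFree P S.F) {γ : ℝ}
    {C : Finset ((Fin m → ℤ) × ℕ)} (hC : C ⊆ S.idx γ) (hne : ∀ i ∈ C, (S.piece i).Nonempty)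
    (hch : ∀ a ∈ C, ∀ b ∈ C, a ≠ b → S.prec a b ∨ S.prec b a) {n L J : ℕ}
    (τ : (Fin m → ℤ) × ℕ → Fin (n + 1) ↪ Fin (m + 1)) (u : (Fin m → ℤ) × ℕ → Fin (m + 1) → ℤ)
    (A : (Fin m → ℤ) × ℕ → Finset (Fin (n + 1) → ℤ)) (hA : ∀ i ∈ C, A i ⊆ win (n + 1) L J)
    (hA' : ∀ i ∈ C, ∀ b ∈ A i, u i + emb (τ i) b ∈ S.piece i) :
    C.card ≤ h ∧ ∑ i ∈ C, (A i).card ≤ G P (n + 1) (L + h * J) := by
  classical
  choose! rep hrep using hne
  let pos : (Fin m → ℤ) × ℕ → ℕ := fun i => S.lev (rep i)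
  have hpos : ∀ i ∈ C, pos i < h := fun i hi => S.sheets.lev_lt _ (piece_sub _ (hrep i hi))
  have hlt : ∀ i ∈ C, ∀ i' ∈ C, S.prec i i' → pos i < pos i' := fun i hi i' hi' hp =>
    S.sheets.lev_mono _ (piece_sub _ (hrep i hi)) _ (piece_sub _ (hrep i' hi'))
      (lt_of_le_of_ne (hp.2 _ (hrep i hi) _ (hrep i' hi')) fun h =>
        hp.1 (piece_disj (hC hi) (hC hi') (hrep i hi) (h ▸ hrep i' hi')))
  constructor
  · rw [← card_range h]
    refine card_le_card_of_injOn pos (fun i hi => mem_coe.2 (mem_range.2 (hpos i hi)))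
      fun i hi i' hi' hii => ?_
    by_contra hn
    rcases hch i hi i' hi' hn with h1 | h1
    · exact absurd hii (hlt i hi i' hi' h1).ne
    · exact absurd hii (hlt i' hi' i hi h1).ne'
  let v : (Fin m → ℤ) × ℕ → Fin (n + 1) → ℤ := fun i => Pi.single 0 ((pos i : ℤ) * J)
  let A' : (Fin m → ℤ) × ℕ → Finset (Fin (n + 1) → ℤ) := fun i => (A i).image (· + v i)
  have hA1 : ∀ i, ∀ y ∈ A' i, y - v i ∈ A i := fun i y hy => by
    obtain ⟨b, hb, rfl⟩ := mem_image.1 hy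
    simpa using hb
  have hJ : (0 : ℤ) ≤ J := Int.natCast_nonneg J
  have hcmp : ∀ i ∈ C, ∀ i' ∈ C, ∀ y ∈ A' i, ∀ y' ∈ A' i', y ≤ y' → pos i ≤ pos i' := by
    intro i hi i' hi' y hy y' hy' hle
    have a1 := (mem_filter.1 (hA i hi (hA1 i y hy))).2.1
    have a2 := (mem_filter.1 (hA i' hi' (hA1 i' y' hy'))).2.2
    have a3 : ∑ t, y t ≤ ∑ t, y' t := sum_le_sum fun t _ => hle t
    simp only [v, Pi.sub_apply, sum_sub_distrib, Pi.single_apply, sum_ite_eq', mem_univ,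
      if_true] at a1 a2
    by_contra hn
    have a4 : (pos i' : ℤ) + 1 ≤ pos i := by exact_mod_cast not_le.1 hn
    have a5 := mul_le_mul_of_nonneg_right a4 hJ
    linarith only [a3, a1, a2, a5]
  have hfree : WeakFree P (C.biUnion A') := by
    refine weakFree_union hF C A' (fun i y => u i + emb (τ i) (y - v i))
      (fun i hi y hy => piece_sub _ (hA' i hi _ (hA1 i y hy))) ?_ ?_
    · intro i hi i' hi' y hy y' hy' he
      obtain rfl : i = i' := piece_disj (hC hi) (hC hi') (hA' i hi _ (hA1 i y hy))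
        (he ▸ hA' i' hi' _ (hA1 i' y' hy'))
      exact sub_left_injective (emb_inj _ (add_left_cancel he))
    · intro i hi i' hi' y hy y' hy' hle
      by_cases hii : i = i'
      · subst hii
        exact add_le_add le_rfl (emb_mono _ (sub_le_sub_right hle _))
      · rcases hch i hi i' hi' hii with h1 | h1
        · exact h1.2 _ (hA' i hi _ (hA1 i y hy)) _ (hA' i' hi' _ (hA1 i' y' hy'))
        · exact absurd (hcmp i hi i' hi' y hy y' hy' hle) (not_le.2 (hlt i' hi' i hi h1))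
  have hbox : C.biUnion A' ⊆ box (n + 1) ((L + h * J : ℕ) : ℤ) := by
    intro y hy
    obtain ⟨i, hi, hy⟩ := mem_biUnion.1 hy
    obtain ⟨b, hb, rfl⟩ := mem_image.1 hy
    refine mem_box.2 fun t => ?_
    have a1 := mem_box.1 (mem_filter.1 (hA i hi hb)).1 t
    have a2 : (pos i : ℤ) ≤ h := by exact_mod_cast (hpos i hi).le
    have a3 := mul_le_mul_of_nonneg_right a2 hJ
    have a4 := mul_nonneg (Int.natCast_nonneg (pos i)) hJ
    simp only [v, Pi.add_apply, Pi.single_apply]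
    push_cast
    split_ifs <;> constructor <;> linarith only [a1, a4, a3, a1.1, a1.2]
  have hG := le_G hbox hfree
  rw [card_biUnion] at hG
  · rwa [sum_congr rfl fun i _ => card_image_of_injective (A i) (add_left_injective (v i))] at hG
  · intro i hi i' hi' hne
    rw [Function.onFun, disjoint_left]
    intro y hy hy'
    have a1 := hcmp i hi i' hi' y hy y hy' le_rfl
    have a2 := hcmp i' hi' i hi y hy' y hy le_rfl
    rcases hch i hi i' hi' hne with h1 | h1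
    · exact absurd a2 (not_le.2 (hlt i hi i' hi' h1))
    · exact absurd a1 (not_le.2 (hlt i' hi' i hi h1))

end Setup

end Pool.Agent.Work.MP_84019e_co
end

-- merged part: Pool.Agent.Work.MP_84019e_co.GridPiece
section
set_option autoImplicit false

namespace Pool.Agent.Work.MP_84019e_co

open Finset Filter Topology

lemma small_param {p : ℝ → Prop} (h : ∀ᶠ x in 𝓝 (0 : ℝ), p x) : ∃ x, 0 < x ∧ p x := by
  obtain ⟨x, h1, h2⟩ := ((h.filter_mono (nhdsWithin_le_nhds (s := Set.Ioi 0))).and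
    self_mem_nhdsWithin).exists
  exact ⟨x, h2, h1⟩

lemma ev_pow_lt (A : ℝ) (m : ℕ) {δ : ℝ} (hδ : 0 < δ) :
    ∀ᶠ x in 𝓝 (0 : ℝ), (1 + A * x) ^ m < 1 + δ := by
  have : ContinuousAt (fun x : ℝ => (1 + A * x) ^ m) 0 := by fun_prop
  exact this.eventually (gt_mem_nhds (by simpa using hδ))

lemma ev_pow_gt (A : ℝ) (m : ℕ) {δ : ℝ} (hδ : 0 < δ) :
    ∀ᶠ x in 𝓝 (0 : ℝ), 1 - δ < (1 - A * x) ^ m := by
  have : ContinuousAt (fun x : ℝ => (1 - A * x) ^ m) 0 := by fun_prop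
  exact this.eventually (lt_mem_nhds (by simpa using hδ))

lemma ev_mul_lt (A : ℝ) {δ : ℝ} (hδ : 0 < δ) : ∀ᶠ x in 𝓝 (0 : ℝ), A * x < δ := by
  have : ContinuousAt (fun x : ℝ => A * x) 0 := by fun_prop
  exact this.eventually (gt_mem_nhds (by simpa using hδ))

lemma ev_ge_mul {a : ℝ} (ha : 0 < a) (b : ℝ) : ∀ᶠ s : ℕ in atTop, b ≤ a * s :=
  (tendsto_natCast_atTop_atTop.const_mul_atTop ha).eventually (eventually_ge_atTop b)

variable {P : Type} [PartialOrder P]

lemma ev_G_le {m : ℕ} {f e : ℝ} (he : 0 < e)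
    (hf : Tendsto (fun k : ℕ => (G P (m + 1) k : ℝ) / k ^ m) atTop (𝓝 f)) :
    ∀ᶠ k : ℕ in atTop, (G P (m + 1) k : ℝ) ≤ (f + e) * k ^ m := by
  filter_upwards [hf.eventually (gt_mem_nhds (lt_add_of_pos_right f he)), eventually_gt_atTop 0]
    with k h1 h2
  exact ((div_lt_iff₀ (by positivity)).1 h1).le

lemma ev_le_G {m : ℕ} {f e : ℝ} (he : 0 < e)
    (hf : Tendsto (fun k : ℕ => (G P (m + 1) k : ℝ) / k ^ m) atTop (𝓝 f)) :
    ∀ᶠ k : ℕ in atTop, (f - e) * k ^ m ≤ (G P (m + 1) k : ℝ) := by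
  filter_upwards [hf.eventually (lt_mem_nhds (sub_lt_self f he)), eventually_gt_atTop 0]
    with k h1 h2
  exact ((lt_div_iff₀ (by positivity)).1 h1).le

lemma lim_nonneg {m : ℕ} {f : ℝ}
    (hf : Tendsto (fun k : ℕ => (G P (m + 1) k : ℝ) / k ^ m) atTop (𝓝 f)) : 0 ≤ f :=
  ge_of_tendsto' hf fun k => by positivity

lemma dside (h : ℕ) {n : ℕ} {f c δ : ℝ} (hδ : 0 < δ) (hδ1 : δ ≤ 1 / 20)
    (hd : 36 ≤ δ ^ 6 * ((n + 1 : ℕ) + 1))
    (hf : Tendsto (fun k : ℕ => (G P (n + 1 + 1) k : ℝ) / k ^ (n + 1)) atTop (𝓝 f))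
    (hc : Tendsto (fun k : ℕ => (G (Fin 2) (n + 1 + 1) k : ℝ) / k ^ (n + 1)) atTop (𝓝 c)) :
    ∃ ω : ℝ, 0 < ω ∧ ω ≤ 1 ∧ ∀ᶠ L : ℕ in atTop, 0 < L ∧ ∃ J : ℕ, 0 < J ∧ ω * L ≤ J ∧
      J * (L ^ (n + 1) * (c * (1 - 17 * δ))) ≤ (win (n + 2) L J).card ∧
      (G P (n + 1 + 1) (L + h * J) : ℝ) ≤ (f + δ * c) * (1 + δ) * L ^ (n + 1) := by
  have hc0 := lim_two_pos hc
  have hf0 := lim_nonneg hf
  obtain ⟨ω, hω, ⟨h1, h2⟩, h3⟩ := small_param (((ev_pow_lt (2 * h) (n + 1) hδ).and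
    (ev_mul_lt 2 (mul_pos hδ hc0))).and (ev_mul_lt 1 one_pos))
  obtain ⟨k0, hk0⟩ := eventually_atTop.1 (ev_G_le (mul_pos hδ hc0) hf)
  refine ⟨ω, hω, by linarith only [h3], ?_⟩
  filter_upwards [ev_le_G (mul_pos hδ hc0) hc, ev_ge_mul hω 1, ev_ge_mul hδ 2,
    eventually_ge_atTop k0, eventually_gt_atTop 0] with L a1 a2 a3 a4 a5
  have hL : (1 : ℝ) ≤ L := by exact_mod_cast a5
  have hJ1 : ω * L ≤ (⌈ω * L⌉₊ : ℝ) := Nat.le_ceil _
  have hJ2 : (⌈ω * L⌉₊ : ℝ) ≤ 2 * ω * L := by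
    linarith only [a2, hδ, hδ1, Nat.ceil_lt_add_one (show 0 ≤ ω * L by linarith)]
  refine ⟨a5, ⌈ω * L⌉₊, Nat.ceil_pos.2 (by linarith only [hδ, hδ1, a2]), hJ1, ?_, ?_⟩
  · refine le_trans ?_ (win_card n L _)
    gcongr
    have hδL : 2 ≤ δ * (L : ℝ) ^ 2 := by linarith only [hδ, hδ1, a3, mul_nonneg_of_nonpos_of_nonpos (Mathlib.Tactic.Linarith.sub_nonpos_of_le (Mathlib.Tactic.Linarith.natCast_nonneg ℝ L)) (Mathlib.Tactic.Linarith.sub_nonpos_of_le hδ1), mul_nonneg_of_nonpos_of_nonpos (Mathlib.Tactic.Linarith.sub_nonpos_of_le (Mathlib.Tactic.Linarith.natCast_nonneg ℝ L)) (Mathlib.Tactic.Linarith.sub_nonpos_of_le a3)]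
    have b1 := mid_lower (m := n + 1) (k := L) hδ hδ1 hd hδL
    have b2 : (1 - 15 * δ) * ((c - δ * c) * L ^ (n + 1)) ≤
        (1 - 15 * δ) * G (Fin 2) (n + 1 + 1) L := by
      gcongr
      linarith only [hδ, hδ1]
    have b3 : (⌈ω * L⌉₊ : ℝ) * L ^ n ≤ δ * c * L * L ^ n := by
      gcongr
      linarith only [hJ2, h2, mul_nonneg_of_nonpos_of_nonpos (Mathlib.Tactic.Linarith.sub_nonpos_of_le (Mathlib.Tactic.Linarith.natCast_nonneg ℝ L)) (le_of_lt (Mathlib.Tactic.Linarith.sub_neg_of_lt h2))]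
    have b4 : (0 : ℝ) ≤ δ ^ 2 * c * L ^ (n + 1) := by positivity
    have hp : δ * c * L * (L : ℝ) ^ n = δ * c * L ^ (n + 1) := by ring
    rw [hp] at b3
    have b5 : (1 - 15 * δ) * ((c - δ * c) * (L : ℝ) ^ (n + 1)) =
        L ^ (n + 1) * (c * (1 - 17 * δ)) + δ * c * L ^ (n + 1) +
          15 * (δ ^ 2 * c * L ^ (n + 1)) := by ring
    have b6 := b2.trans b1
    linarith only [b1, b2, b3, b4]
  · refine (hk0 _ (by omega)).trans ?_
    rw [mul_assoc]
    gcongr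
    calc (((L + h * ⌈ω * L⌉₊ : ℕ) : ℝ)) ^ (n + 1) ≤ ((1 + 2 * h * ω) * L) ^ (n + 1) := by
          gcongr
          push_cast
          have : (h : ℝ) * ⌈ω * L⌉₊ ≤ h * (2 * ω * L) := by gcongr
          linarith only [this]
      _ ≤ _ := by
          rw [mul_pow]
          gcongr

lemma Setup.loss' {m h K N : ℕ} {ε γ R M : ℝ} (S : Setup m h K (K / N + 1) ε R M)
    (hN : 0 < N) (hNK : N ≤ K) (hγ : 0 < γ) (hε : 0 ≤ ε) (hεγ : 2 * ε ≤ γ) (hR : 3 ≤ R)
    (h𝒢 : S.𝒢 ⊆ cells m N) (hbad : ((cells m N \ S.𝒢).card : ℝ) ≤ γ * N ^ m) :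
    (S.F.card : ℝ) - (h * 2 ^ m + 2 * h * 12 ^ m) * γ * K ^ m ≤
      ∑ i ∈ S.idx γ, ((S.piece i).card : ℝ) := by
  obtain ⟨h1, h2, h3⟩ := side_bounds (K := K) hN
  have h4 := S.card_le_pieces (γ := γ) N (Nat.succ_pos _) h1 hR hε hγ.le h𝒢 hbad
  set s : ℝ := ((K / N + 1 : ℕ) : ℝ) with hs
  have hN' : (0 : ℝ) < N := by exact_mod_cast hN
  have hNK' : (N : ℝ) ≤ K := by exact_mod_cast hNK
  have hs0 : 0 ≤ s := Nat.cast_nonneg _
  have h5 : N * s ≤ 2 * K := by
    calc N * s ≤ N * (K / N + 1) := by gcongr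
      _ = K + N := by field_simp
      _ ≤ 2 * K := by linarith only [hNK']
  have h6 : (N : ℝ) ^ m * s ^ m ≤ 2 ^ m * K ^ m := by
    rw [← mul_pow, ← mul_pow]
    exact pow_le_pow_left₀ (by positivity) h5 m
  have h7 : (2 * (N : ℝ)) ^ m * (3 * s) ^ m ≤ 12 ^ m * K ^ m := by
    rw [← mul_pow, ← mul_pow]
    exact pow_le_pow_left₀ (by positivity) (by linarith only [h5]) m
  have h8 : γ + 2 * ε ≤ 2 * γ := by linarith only [hεγ]
  have h9 : (h : ℝ) * (γ * N ^ m * s ^ m) ≤ h * (γ * (2 ^ m * K ^ m)) := by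
    rw [mul_assoc γ]
    gcongr
  have h10 : (h : ℝ) * ((2 * N) ^ m * ((3 * s) ^ m * (γ + 2 * ε))) ≤
      h * ((12 ^ m * K ^ m) * (2 * γ)) := by
    rw [← mul_assoc ((2 * (N : ℝ)) ^ m)]
    gcongr
  linarith only [h4, h9, h10]

lemma Sheets.level_free {d h K : ℕ} {F : Finset (Fin d → ℤ)} {lev : (Fin d → ℤ) → ℕ}
    {φ : ℕ → (Fin d → ℝ) → ℝ} (hS : Sheets h K F lev φ) (j : ℕ) :
    WeakFree (Fin 2) (F.filter fun x => lev x = j) := by
  rw [weakFree_two_iff]
  intro x hx y hy hne hle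
  have hx' := mem_filter.1 (mem_coe.1 hx)
  have hy' := mem_filter.1 (mem_coe.1 hy)
  exact hne (hS.eq_of_le hx'.1 hy'.1 (hx'.2.trans hy'.2.symm) hle)

lemma box_mono {d : ℕ} {a b : ℤ} (h : a ≤ b) : box d a ⊆ box d b := fun _ hx =>
  mem_box.2 fun i => ⟨(mem_box.1 hx i).1, (mem_box.1 hx i).2.trans_le h⟩

open Classical in
lemma Setup.atyp_loss {m h K s k : ℕ} {ε γ δ R M : ℝ} (S : Setup m h K s ε R M) (hKk : K ≤ k)
    (hδ : 0 < δ) (hδ1 : δ ≤ 1) (hd : 36 ≤ δ ^ 6 * (m + 1)) (hk : 2 ≤ δ * k ^ 2) :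
    ∑ i ∈ (S.idx γ).filter (fun i => ¬ ∃ x ∈ S.piece i, ¬ Atyp k δ x), ((S.piece i).card : ℝ) ≤
      h * (δ * G (Fin 2) (m + 1) k) := by
  have h1 : ∑ i ∈ (S.idx γ).filter (fun i => ¬ ∃ x ∈ S.piece i, ¬ Atyp k δ x),
      (S.piece i).card ≤ ∑ j ∈ range h, ((S.F.filter fun x => S.lev x = j).filter
        (Atyp k δ)).card := by
    rw [← card_biUnion]
    · refine le_trans (card_le_card fun x hx => ?_) card_biUnion_le
      obtain ⟨i, hi, hx⟩ := mem_biUnion.1 hx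
      have h2 := (mem_filter.1 hi).2
      push Not at h2
      exact mem_biUnion.2 ⟨_, mem_range.2 (S.sheets.lev_lt x (Setup.piece_sub _ hx)),
        mem_filter.2 ⟨mem_filter.2 ⟨Setup.piece_sub _ hx, rfl⟩, h2 x hx⟩⟩
    · intro i hi i' hi' hne
      rw [Function.onFun, disjoint_left]
      exact fun x hx hx' => hne (Setup.piece_disj (mem_filter.1 hi).1 (mem_filter.1 hi').1 hx hx')
  calc _ ≤ ∑ j ∈ range h, (((S.F.filter fun x => S.lev x = j).filter (Atyp k δ)).card : ℝ) := by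
        exact_mod_cast h1
    _ ≤ ∑ _j ∈ range h, δ * (G (Fin 2) (m + 1) k : ℝ) := sum_le_sum fun j _ =>
        atyp_small hδ hδ1 hd hk (((filter_subset _ _).trans S.sheets.sub).trans
          (box_mono (by exact_mod_cast hKk))) (S.sheets.level_free j)
    _ = _ := by simp

/-- The weight of a piece: either a dense low-dimensional slice or a negligible density. -/
lemma Setup.piece_data {m h K s : ℕ} {ε γ δ ω c R M : ℝ} (S : Setup m h K s ε R M)
    {i : (Fin m → ℤ) × ℕ} (hi : i ∈ S.idx γ) {n L J B : ℕ} (hR : 3 ≤ R) (hε : 0 ≤ ε)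
    (hγ : 0 < γ) (hδ : 0 < δ) (hδ1 : δ ≤ 1 / 20) (hω : 0 < ω) (hω1 : ω ≤ 1) (hL : 0 < L)
    (hLs : L ≤ s) (hJ : 0 < J) (hωJ : ω * L ≤ J) (hεs : 1 ≤ ε * s)
    (hεL : 3 * (ε * s) ≤ δ * γ * ω * L) (hsL : (s + 2 * L : ℝ) ^ m ≤ (1 + δ) * s ^ m)
    (hB : 4 * h / δ ≤ (1 + δ * ω / (n + 2)) ^ B) (hBd : (B : ℝ) * (n + 2) ≤ δ * (m + 1))
    (hnm : n + 2 ≤ m + 1)
    (hW : J * (L ^ (n + 1) * (c * (1 - 17 * δ))) ≤ (win (n + 2) L J).card) :
    ∃ (a : ℝ) (τ : Fin (n + 2) ↪ Fin (m + 1)) (u : Fin (m + 1) → ℤ)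
      (A : Finset (Fin (n + 2) → ℤ)), γ ≤ a ∧
      ((univ.filter fun l => S.ν i.1 i.2 l < a).card : ℝ) ≤ δ * (m + 1) ∧
      A ⊆ win (n + 2) L J ∧ (∀ b ∈ A, u + emb τ b ∈ S.piece i) ∧
      (((S.piece i).card : ℝ) * (L ^ (n + 1) * (c * (1 - 17 * δ))) ≤
        A.card * ((1 + δ) * (1 + 2 * δ)) * (a * s ^ m) ∨
       ((S.piece i).card : ℝ) ≤ δ * (a * s ^ m)) := by
  classical
  obtain ⟨hα, hj, -, hnd⟩ := Setup.mem_idx.1 hi
  obtain ⟨l0, -, hl0⟩ := exists_min_image univ (S.ν i.1 i.2) univ_nonempty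
  set θ : ℝ := 1 + δ * ω / (n + 2) with hθ
  have hθ0 : 0 ≤ δ * ω / (n + 2) := by positivity
  have hθ1 : 1 ≤ θ := le_add_of_nonneg_right hθ0
  obtain ⟨b, hb, h1, h2⟩ := class_select (S.ν i.1 i.2) θ (fun l => hl0 l (mem_univ l)) (n + 2) B
  set ν0 := S.ν i.1 i.2 l0 with hν0
  have hν : γ ≤ ν0 := hnd l0
  have hν1 : 0 ≤ ν0 := hγ.le.trans hν
  have ha : γ ≤ ν0 * θ ^ b := hν.trans (le_mul_of_one_le_right hν1 (one_le_pow₀ hθ1))
  have hcard : ((univ.filter fun l => S.ν i.1 i.2 l < ν0 * θ ^ b).card : ℝ) ≤ δ * (m + 1) := by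
    have a1 : ((univ.filter fun l => S.ν i.1 i.2 l < ν0 * θ ^ b).card : ℝ) ≤ b * (n + 2) := by
      exact_mod_cast h1
    have a2 : (b : ℝ) * (n + 2) ≤ B * (n + 2) := by gcongr
    exact a1.trans (a2.trans hBd)
  have hL' : (0 : ℝ) < L := by exact_mod_cast hL
  have hJ' : (0 : ℝ) < J := by exact_mod_cast hJ
  have hsm : (0 : ℝ) ≤ s ^ m := by positivity
  rcases h2 with rfl | h2
  · refine ⟨ν0 * θ ^ b, Fin.castLEEmb hnm, 0, ∅, ha, hcard, empty_subset _, by simp, Or.inr ?_⟩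
    have a1 := Setup.piece_small hα hR hL hLs hε l0 (by linarith only [hγ, hν])
    have hδ2 : δ ≤ 1 := by linarith only [hδ1]
    have a2 : 2 * (ε * s) ≤ ν0 * L := by
      clear * - δ γ ω L ν0 hδ2 hν hγ hω1 hω hν1 hL ε s hεL hεs
      have : δ * γ * ω * L ≤ 1 * ν0 * 1 * L := by gcongr
      linarith only [this, hεL, hεs]
    have a3 : (h : ℝ) * ((s + 2 * L) ^ m * (ν0 * L + 2 * (ε * s))) ≤
        h * ((2 * s ^ m) * (2 * (ν0 * L))) := by
      have b1 : (s + 2 * L : ℝ) ^ m ≤ 2 * s ^ m := 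
        hsL.trans (mul_le_mul_of_nonneg_right (by linarith only [hδ2]) hsm)
      have b2 : ν0 * L + 2 * (ε * s) ≤ 2 * (ν0 * L) := by linarith only [a2]
      have b3 : 0 ≤ ν0 * L + 2 * (ε * s) := by linarith only [a2, hεs]
      exact mul_le_mul_of_nonneg_left (mul_le_mul b1 b2 b3 (by linarith only [hsm]))
        (Nat.cast_nonneg h)
    rw [div_le_iff₀ hδ] at hB
    apply le_of_mul_le_mul_left _ hL'
    calc L * ((S.piece i).card : ℝ) ≤ 4 * h * (s ^ m * (ν0 * L)) := by linarith only [a1, a3]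
      _ ≤ θ ^ b * δ * (s ^ m * (ν0 * L)) :=
          mul_le_mul_of_nonneg_right hB (mul_nonneg hsm (mul_nonneg hν1 hL'.le))
      _ = _ := by ring
  · obtain ⟨τ, hτ⟩ := Function.Embedding.exists_of_card_le_finset (α := Fin (n + 2))
      (by simpa using h2)
    set a := ν0 * θ ^ b with ha'
    have ha0 : 0 < a := hγ.trans_le ha
    obtain ⟨u, hu⟩ := Setup.slice hα hj (by linarith only [hR]) hε τ ha0.le hθ0 (fun t => by
      have := (mem_filter.1 (mem_coe.1 (hτ (Set.mem_range_self t)))).2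
      rw [pow_succ, ← mul_assoc] at this
      exact ⟨this.1, this.2.le⟩) L J
    refine ⟨a, τ, u, _, ha, hcard, filter_subset _ _, fun b hb => (mem_filter.1 hb).2, Or.inl ?_⟩
    have a1 : a * J + δ * ω / (n + 2) * a * (((n + 2 : ℕ) : ℝ) * L) + 2 * (ε * s) + 1 ≤
        (1 + 2 * δ) * (a * J) := by
      clear * - δ ω n a L hL ha0 hω hδ J hωJ γ ha ε s ν0 b θ hεL hεs
      have b1 : δ * ω / (n + 2) * a * (((n + 2 : ℕ) : ℝ) * L) = δ * a * (ω * L) := by
        push_cast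
        field_simp
      have b2 : δ * a * (ω * L) ≤ δ * a * J := by gcongr
      have b3 : δ * γ * (ω * L) ≤ δ * a * J := by gcongr
      rw [b1]
      linarith only [b2, b3, hεL, hεs]
    apply le_of_mul_le_mul_left _ hJ'
    calc J * (((S.piece i).card : ℝ) * (L ^ (n + 1) * (c * (1 - 17 * δ))))
        = (S.piece i).card * (J * (L ^ (n + 1) * (c * (1 - 17 * δ)))) := by ring
      _ ≤ (S.piece i).card * (win (n + 2) L J).card := by clear * - m h K s ε R M S i J L n c δ hW; gcongr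
      _ ≤ _ := hu
      _ ≤ ((win (n + 2) L J).filter fun b => u + emb τ b ∈ S.piece i).card *
          (((1 + δ) * s ^ m) * ((1 + 2 * δ) * (a * J))) := by clear * - n m h K s ε R M S i u τ L J a δ ω hsL a1 ha0 hJ hδ hω hL hεs; gcongr
      _ = _ := by ring

end Pool.Agent.Work.MP_84019e_co
end
end

-- merged part: Pool.Agent.Work.MP_84019e_co.Cube.GsDefs
section
set_option autoImplicit false

namespace Pool.Agent.Work.MP_84019e_co.Cube

open Finset

abbrev Pc (D n : ℕ) : Type := (Fin D → ℤ) × (Fin n → Fin D)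

/-- A point of the unit cube of a piece. -/
def pt {D n : ℕ} (p : Pc D n) (A : B n) : Fin D → ℤ :=
  fun l => p.1 l + if ∃ i ∈ A, p.2 i = l then 1 else 0

open Classical in
noncomputable def pcs (D n k : ℕ) (δ : ℝ) : Finset (Pc D n) :=
  (box D k ×ˢ univ).filter fun p =>
    Function.Injective p.2 ∧ ¬ Atyp k (2 * δ) p.1 ∧ ∀ i, p.1 (p.2 i) + 1 < k

noncomputable def pH {D n : ℕ} (F : Finset (Fin D → ℤ)) (w : ℕ) (p : Pc D n) : Finset (B n) :=
  univ.filter fun A => w ≤ A.card ∧ A.card + w ≤ n ∧ pt p A ∈ F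

def pb {D n : ℕ} (k : ℕ) (p : Pc D n) : ℝ := ∏ i, lam k (p.1 (p.2 i) + 1)

def below {D n : ℕ} (p p' : Pc D n) : Prop := pt p univ ≤ p'.1

lemma mem_pcs {D n k : ℕ} {δ : ℝ} {p : Pc D n} : p ∈ pcs D n k δ ↔ p.1 ∈ box D k ∧
    Function.Injective p.2 ∧ ¬ Atyp k (2 * δ) p.1 ∧ ∀ i, p.1 (p.2 i) + 1 < k := by
  simp [pcs]

lemma mem_pH {D n w : ℕ} {F : Finset (Fin D → ℤ)} {p : Pc D n} {A : B n} :
    A ∈ pH F w p ↔ w ≤ A.card ∧ A.card + w ≤ n ∧ pt p A ∈ F := by simp [pH]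

lemma pt_mono {D n : ℕ} (p : Pc D n) {A A' : B n} (h : A ⊆ A') : pt p A ≤ pt p A' := by
  intro l
  simp only [pt]
  split_ifs with h1 h2
  · exact le_rfl
  · obtain ⟨i, hi, hl⟩ := h1
    exact absurd ⟨i, h hi, hl⟩ h2
  · omega
  · exact le_rfl

lemma pt_empty {D n : ℕ} (p : Pc D n) : pt p ∅ = p.1 := by
  funext l
  simp [pt]

end Pool.Agent.Work.MP_84019e_co.Cube
end

-- merged part: Pool.Agent.Work.MP_84019e_co.Cube.GsAnti
section
set_option autoImplicit false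

namespace Pool.Agent.Work.MP_84019e_co.Cube

open Finset

lemma gsa_lam0 {k : ℕ} {u : ℤ} (h0 : 0 ≤ u) (h1 : u < k) : 0 ≤ lam k u := by
  have a1 : (0 : ℝ) ≤ u := by exact_mod_cast h0
  have a2 : (u : ℝ) ≤ k := by exact_mod_cast h1.le
  exact mul_nonneg a1 (sub_nonneg.2 a2)

lemma gsa_lam {k : ℕ} {u v : ℤ} (h0 : 0 ≤ u) (h1 : u < k) (h : v = u ∨ v = u + 1) :
    lam k (v + 1) ≤ lam k (u + 1) + k ∧ lam k v ≤ lam k (u + 1) + k := by
  have a1 : (0 : ℝ) ≤ u := by exact_mod_cast h0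
  have a2 : (u : ℝ) + 1 ≤ k := by exact_mod_cast h1
  rcases h with rfl | rfl <;> simp only [lam] <;> push_cast <;> constructor <;> nlinarith

lemma gsa_pt {D n : ℕ} {p : Pc D n} (h : Function.Injective p.2) (A : B n) (i : Fin n) :
    pt p A (p.2 i) = p.1 (p.2 i) + if i ∈ A then 1 else 0 := by
  simp only [pt, h.eq_iff, exists_eq_right]

lemma gsa_step {D n : ℕ} {p : Pc D n} (h : Function.Injective p.2) (t : Fin n) :
    pt p (init n (t + 1)) = pt p (init n t) + Pi.single (p.2 t) 1 := by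
  funext l
  by_cases hl : ∃ i, p.2 i = l
  · obtain ⟨i, rfl⟩ := hl
    rw [Pi.add_apply, gsa_pt h, gsa_pt h]
    simp only [mem_init, Pi.single_apply, h.eq_iff, Fin.ext_iff]
    split_ifs <;> omega
  · have a : ∀ A : B n, ¬ ∃ i ∈ A, p.2 i = l := fun A ⟨i, _, e⟩ => hl ⟨i, e⟩
    have b : l ≠ p.2 t := fun e => hl ⟨t, e.symm⟩
    simp [pt, if_neg (a _), b]

lemma gsa_cross {n : ℕ} (Q : ℕ → Prop) (h0 : Q 0) (h1 : ¬ Q n) : ∃ t < n, Q t ∧ ¬ Q (t + 1) := by
  induction n with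
  | zero => exact absurd h0 h1
  | succ n ih =>
    by_cases h : Q n
    · exact ⟨n, n.lt_succ_self, h, h1⟩
    · obtain ⟨t, a, b⟩ := ih h
      exact ⟨t, by omega, b⟩

open Classical in
/-- The weight of direction `l` for coordinate `i`, when step `t` crosses. -/
noncomputable def gsaW {D : ℕ} (k : ℕ) (Dn : (Fin D → ℤ) → Prop) (t : ℕ) (z : Fin D → ℤ)
    (i : ℕ) (l : Fin D) : ℝ :=
  if i = t then (if z ∈ cross k Dn l then lam k (z l + 1) else 0)
  else if i < t then lam k (z l) else lam k (z l + 1)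

lemma gsaW_nonneg {D k : ℕ} (Dn : (Fin D → ℤ) → Prop) (t : ℕ) {z : Fin D → ℤ}
    (hz : z ∈ box D k) (i : ℕ) (l : Fin D) : 0 ≤ gsaW k Dn t z i l := by
  have a := mem_box.1 hz l
  have b := lam_nonneg a.1 a.2
  have c := gsa_lam0 a.1 a.2
  unfold gsaW
  split_ifs <;> first | assumption | exact le_rfl

lemma gsa_sum {D n k : ℕ} (Dn : (Fin D → ℤ) → Prop) {t : ℕ} (ht : t < n) {z : Fin D → ℤ}
    (hz : z ∈ box D k) {β : ℝ} (h1 : Lam k z ≤ β) (h2 : ∑ l, lam k (z l) ≤ β) :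
    ∑ y : Fin n → Fin D, ∏ i, gsaW k Dn t z i.val (y i) ≤
      (∑ l, gsaW k Dn t z t l) * β ^ (n - 1) := by
  rw [← Fintype.prod_sum (fun (i : Fin n) l => gsaW k Dn t z i.val l),
    ← mul_prod_erase _ _ (mem_univ (⟨t, ht⟩ : Fin n))]
  refine mul_le_mul_of_nonneg_left ?_ (sum_nonneg fun l _ => gsaW_nonneg Dn t hz _ l)
  refine (prod_le_prod (g := fun _ => β) (fun i _ => sum_nonneg fun l _ => gsaW_nonneg Dn t hz _ l)
    fun i hi => ?_).trans_eq (by simp)
  have a : i.val ≠ t := fun e => (mem_erase.1 hi).1 (Fin.ext e)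
  simp only [gsaW, if_neg a]
  by_cases b : i.val < t
  · simpa only [if_pos b] using h2
  · simpa only [if_neg b, Lam] using h1

/-- Paper, GS, antichains. -/
theorem gs_anti {m n k : ℕ} {δ : ℝ} (hδ : 0 < δ) (hδ1 : δ ≤ 1 / 20) (hd : 36 ≤ δ ^ 6 * (m + 1))
    (hn : (n : ℝ) ≤ 2 * δ * (m + 1)) (hk : 2 ≤ δ * k) (𝒜 : Finset (Pc (m + 1) n))
    (h𝒜 : 𝒜 ⊆ pcs (m + 1) n k δ) (ha : ∀ p ∈ 𝒜, ∀ p' ∈ 𝒜, ¬ below p p') :
    ∑ p ∈ 𝒜, pb k p ≤
      n * ((m + 1) * (k : ℝ) ^ 2 * (1 / 6 + 4 * δ)) ^ n * G (Fin 2) (m + 1) k := by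
  classical
  have k1 : (1 : ℝ) ≤ k := by
    by_contra h
    nlinarith [not_le.1 h]
  have hk2 : 2 ≤ δ * (k : ℝ) ^ 2 := by nlinarith
  obtain ⟨β, hβ⟩ : ∃ β, β = (m + 1) * (k : ℝ) ^ 2 * (1 / 6 + 4 * δ) := ⟨_, rfl⟩
  rw [← hβ]
  have β0 : 0 ≤ β := by rw [hβ]; positivity
  let Dn : (Fin (m + 1) → ℤ) → Prop := fun z => ¬ ∃ p ∈ 𝒜, pt p univ ≤ z
  let Z := (box (m + 1) k).filter fun z => Lam k z ≤ β ∧ ∑ l, lam k (z l) ≤ β
  have hZ : ∀ p ∈ 𝒜, ∀ A, pt p A ∈ Z := fun p hp A => by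
    obtain ⟨a1, -, a3, a4⟩ := mem_pcs.1 (h𝒜 hp)
    have b := mem_box.1 a1
    have c : ∀ l, pt p A l = p.1 l ∨ pt p A l = p.1 l + 1 := fun l => by
      simp only [pt]
      split_ifs <;> simp
    have e : ∑ l, (lam k (p.1 l + 1) + k) ≤ β := by
      rw [sum_add_distrib, sum_const, card_univ, Fintype.card_fin, nsmul_eq_mul, hβ]
      have := (abs_lt.1 (not_le.1 a3)).2
      rw [Lam] at this
      push_cast at this ⊢
      have u : ((m : ℝ) + 1) * k * 2 ≤ (m + 1) * k * (δ * k) :=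
        mul_le_mul_of_nonneg_left hk (by positivity)
      have v : 0 ≤ ((m : ℝ) + 1) * k := by positivity
      nlinarith
    refine mem_filter.2 ⟨mem_box.2 fun l => ?_,
      (sum_le_sum fun l _ => (gsa_lam (b l).1 (b l).2 (c l)).1).trans e,
      (sum_le_sum fun l _ => (gsa_lam (b l).1 (b l).2 (c l)).2).trans e⟩
    have := b l
    simp only [pt]
    split_ifs with h
    · obtain ⟨i, -, rfl⟩ := h
      have := a4 i
      omega
    · omega
  have h1 : ∀ p ∈ 𝒜, ∃ t < n,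
      pb k p = ∏ i : Fin n, gsaW k Dn t (pt p (init n t)) i.val (p.2 i) := fun p hp => by
    have a2 := (mem_pcs.1 (h𝒜 hp)).2.1
    obtain ⟨t, ht, b1, b2⟩ := gsa_cross (n := n) (fun t => Dn (pt p (init n t)))
      (by
        rw [init_zero, pt_empty]
        exact fun ⟨q, hq, e⟩ => ha q hq p hp e)
      fun h => h ⟨p, hp, pt_mono p fun i _ => mem_init.2 i.2⟩
    refine ⟨t, ht, prod_congr rfl fun i _ => ?_⟩
    have c := gsa_pt a2 (init n t) i
    simp only [mem_init] at c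
    unfold gsaW
    split_ifs with e1 e2 e3
    · rw [c, if_neg (by omega), add_zero]
    · subst e1
      rw [gsa_step a2 i] at b2
      exact absurd (mem_cross.2 ⟨(mem_filter.1 (hZ p hp _)).1, b1, b2⟩) e2
    · rw [c, if_pos e3]
    · rw [c, if_neg e3, add_zero]
  choose! τ h2 h3 using h1
  let g : Pc (m + 1) n → ℕ × Pc (m + 1) n := fun p => (τ p, pt p (init n (τ p)), p.2)
  let W : ℕ × Pc (m + 1) n → ℝ := fun q => ∏ i : Fin n, gsaW k Dn q.1 q.2.1 i.val (q.2.2 i)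
  have hg : Set.InjOn g 𝒜 := fun p _ q _ e => by
    obtain ⟨e1, e2⟩ := Prod.ext_iff.1 e
    obtain ⟨e2, e3⟩ := Prod.ext_iff.1 e2
    simp only [g] at e1 e2 e3
    refine Prod.ext (funext fun l => ?_) e3
    have := congrFun e2 l
    simp only [pt, e1, e3] at this
    exact add_right_cancel this
  have h4 : ∑ p ∈ 𝒜, pb k p ≤ ∑ q ∈ range n ×ˢ Z ×ˢ univ, W q := by
    rw [sum_congr rfl h3]
    refine (sum_image (f := W) hg).symm.trans_le (sum_le_sum_of_subset_of_nonneg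
      (fun q hq => ?_) fun q hq _ => prod_nonneg fun i _ => gsaW_nonneg _ _ ?_ _ _)
    · obtain ⟨p, hp, rfl⟩ := mem_image.1 hq
      exact mem_product.2 ⟨mem_range.2 (h2 p hp), mem_product.2 ⟨hZ p hp _, mem_univ _⟩⟩
    · exact (mem_filter.1 (mem_product.1 (mem_product.1 hq).2).1).1
  have h5 : ∑ l, ∑ x ∈ cross k Dn l, lam k (x l + 1) ≤ β * G (Fin 2) (m + 1) k := by
    refine (flux_le hδ (by linarith) hd hk2 Dn
      fun x y hxy hy ⟨p, hp, e⟩ => hy ⟨p, hp, e.trans hxy⟩).trans ?_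
    have a : ((midLev (m + 1) k).card : ℝ) ≤ G (Fin 2) (m + 1) k := by
      exact_mod_cast le_G (filter_subset _ _) (midLev_free (m + 1) k)
    have b : (0 : ℝ) ≤ G (Fin 2) (m + 1) k := Nat.cast_nonneg _
    rw [hβ, mul_assoc _ (1 / 6 + 4 * δ)]
    refine mul_le_mul_of_nonneg_left ?_ (by positivity)
    nlinarith [mul_le_mul_of_nonneg_left a (by positivity : 0 ≤ 1 / 6 + δ), mul_nonneg hδ.le b]
  refine h4.trans ?_
  rw [sum_product, mul_assoc]
  refine (sum_le_card_nsmul _ _ _ fun t ht => ?_).trans_eq (by rw [card_range, nsmul_eq_mul])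
  have ht := mem_range.1 ht
  rw [sum_product]
  refine (sum_le_sum fun z hz => gsa_sum Dn ht (mem_filter.1 hz).1 (mem_filter.1 hz).2.1
    (mem_filter.1 hz).2.2).trans ?_
  rw [← sum_mul, ← mul_pow_sub_one (by omega : n ≠ 0) β, mul_right_comm]
  refine mul_le_mul_of_nonneg_right (le_trans ?_ h5) (pow_nonneg β0 _)
  rw [sum_comm]
  refine sum_le_sum fun l _ => ?_
  simp only [gsaW, if_true]
  rw [← sum_filter]
  refine sum_le_sum_of_subset_of_nonneg (fun x hx => (mem_filter.1 hx).2) fun x hx _ => ?_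
  have := mem_box.1 (mem_cross.1 hx).1 l
  exact lam_nonneg this.1 this.2

end Pool.Agent.Work.MP_84019e_co.Cube
end

-- merged part: Pool.Agent.Work.MP_84019e_co.Cube.Tail
section
set_option autoImplicit false

namespace Pool.Agent.Work.MP_84019e_co.Cube

open Finset
open Filter Topology

/-- Paper, tail lemma. -/
theorem tail_small (𝒰 : Ultrafilter ℕ) (z : ℕ → ℕ → ℝ) {C : ℝ} (h0 : ∀ W s, 0 ≤ z W s)
    (hC : ∀ W K, ∑ s ∈ range K, z W s ≤ C) {τ : ℝ} (hτ : 0 < τ) :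
    ∃ T, 0 < T ∧ ∀ K, ∀ᶠ W in (𝒰 : Filter ℕ), ∑ s ∈ Ico T K, z W s ≤ τ := by
  have hle : ∀ W s, z W s ≤ C := by
    intro W s
    have h1 : z W s ≤ ∑ t ∈ range (s + 1), z W t :=
      single_le_sum (f := fun t => z W t) (fun t _ => h0 W t) (mem_range.2 (Nat.lt_succ_self s))
    exact h1.trans (hC W _)
  have hex : ∀ s, ∃ a : ℝ, Tendsto (fun W => z W s) (𝒰 : Filter ℕ) (𝓝 a) := by
    intro s
    have hmem : (↑(𝒰.map fun W => z W s) : Filter ℝ) ≤ 𝓟 (Set.Icc (0 : ℝ) C) := by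
      rw [Ultrafilter.coe_map, le_principal_iff, Filter.mem_map]
      exact Filter.univ_mem' fun W => ⟨h0 W s, hle W s⟩
    obtain ⟨a, _, ha⟩ := isCompact_Icc.ultrafilter_le_nhds (𝒰.map fun W => z W s) hmem
    exact ⟨a, ha⟩
  choose a ha using hex
  have ha0 : ∀ s, 0 ≤ a s := fun s => ge_of_tendsto' (ha s) fun W => h0 W s
  have haC : ∀ K, ∑ s ∈ range K, a s ≤ C := fun K =>
    le_of_tendsto' (tendsto_finsetSum (range K) fun s _ => ha s) fun W => hC W K
  have hsum : Summable a := summable_of_sum_range_le ha0 haC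
  have hlim := hsum.hasSum.tendsto_sum_nat
  have hev : ∀ᶠ T in atTop, (∑' s, a s) - τ / 2 < ∑ s ∈ range T, a s :=
    hlim.eventually (lt_mem_nhds (by linarith))
  obtain ⟨T, hT1, hT2⟩ := (hev.and (eventually_gt_atTop 0)).exists
  refine ⟨T, hT2, fun K => ?_⟩
  have hlt : ∑ s ∈ Ico T K, a s < τ := by
    rcases le_total T K with h | h
    · have h1 := sum_range_add_sum_Ico (f := a) h
      have h2 : ∑ s ∈ range K, a s ≤ ∑' s, a s := hsum.sum_le_tsum _ fun s _ => ha0 s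
      linarith
    · rw [Ico_eq_empty_of_le h, sum_empty]
      exact hτ
  have h3 := (tendsto_finsetSum (Ico T K) fun s _ => ha s).eventually (gt_mem_nhds hlt)
  exact h3.mono fun W hW => hW.le

lemma tail_choose_step (n k : ℕ) :
    (n.choose k : ℝ) * ((n : ℝ) - k) ≤ (n.choose (k + 1) : ℝ) * ((k : ℝ) + 1) := by
  have h1 : ((n.choose (k + 1) * (k + 1) : ℕ) : ℝ) = ((n.choose k * (n - k) : ℕ) : ℝ) := by
    rw [Nat.choose_succ_right_eq]
  have h2 : (n : ℝ) - k ≤ ((n - k : ℕ) : ℝ) := by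
    have : n ≤ (n - k) + k := by omega
    have h3 : (n : ℝ) ≤ ((n - k : ℕ) : ℝ) + k := by exact_mod_cast this
    linarith
  rw [Nat.cast_mul, Nat.cast_mul, Nat.cast_add, Nat.cast_one] at h1
  rw [h1]
  exact mul_le_mul_of_nonneg_left h2 (Nat.cast_nonneg _)

lemma tail_far_up {γ : ℝ} (hγ : 0 < γ) {n : ℕ} (hn : 0 < n) (j : ℕ) :
    ∀ s : ℕ, (n : ℝ) / 2 * (1 + γ) + j ≤ s →
      (n.choose s : ℝ) * (1 + γ) ^ j ≤ n.choose (n / 2) := by
  have hn' : (0 : ℝ) < n := by exact_mod_cast hn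
  induction j with
  | zero =>
    intro s _
    rw [pow_zero, mul_one]
    exact_mod_cast Nat.choose_le_middle s n
  | succ j ih =>
    intro s hs
    have hj : (0 : ℝ) ≤ j := Nat.cast_nonneg j
    have hb : 0 < (n : ℝ) / 2 * γ := by positivity
    push_cast at hs
    have hs0 : 0 < s := by
      have : (0 : ℝ) < s := by nlinarith
      exact_mod_cast this
    obtain ⟨k, rfl⟩ : ∃ k, s = k + 1 := ⟨s - 1, by omega⟩
    push_cast at hs
    have h1 := ih k (by linarith)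
    have h2 : ((n.choose (k + 1) * (k + 1) : ℕ) : ℝ) = ((n.choose k * (n - k) : ℕ) : ℝ) := by
      rw [Nat.choose_succ_right_eq]
    rw [Nat.cast_mul, Nat.cast_mul, Nat.cast_add, Nat.cast_one] at h2
    have h3 : ((n - k : ℕ) : ℝ) ≤ (n : ℝ) / 2 := by
      have h4 : (n : ℝ) ≤ 2 * k := by nlinarith
      have h5 : n ≤ 2 * k := by exact_mod_cast h4
      have h6 : 2 * (n - k) ≤ n := by omega
      have h7 : (2 : ℝ) * ((n - k : ℕ) : ℝ) ≤ n := by exact_mod_cast h6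
      linarith
    have hc0 : (0 : ℝ) ≤ (n.choose k : ℝ) := Nat.cast_nonneg _
    have hc1 : (0 : ℝ) ≤ (n.choose (k + 1) : ℝ) := Nat.cast_nonneg _
    have h8 : (n.choose (k + 1) : ℝ) * (1 + γ) ≤ n.choose k := by
      have h9 : (n.choose (k + 1) : ℝ) * ((n : ℝ) / 2 * (1 + γ))
          ≤ (n.choose (k + 1) : ℝ) * ((k : ℝ) + 1) :=
        mul_le_mul_of_nonneg_left (by linarith) hc1
      have h10 := mul_le_mul_of_nonneg_left h3 hc0
      have h11 : ((n.choose (k + 1) : ℝ) * (1 + γ)) * ((n : ℝ) / 2)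
          ≤ (n.choose k : ℝ) * ((n : ℝ) / 2) := by nlinarith
      exact le_of_mul_le_mul_right h11 (by positivity)
    have hp : (0 : ℝ) ≤ (1 + γ) ^ j := by positivity
    have h12 := mul_le_mul_of_nonneg_right h8 hp
    rw [pow_succ]
    nlinarith

/-- Binomial coefficients near the middle. -/
lemma choose_near {m : ℕ} (hm : 0 < m) (i : ℕ) :
    (1 - 2 * (i : ℝ) ^ 2 / m) * m.choose (m / 2) ≤ m.choose (m / 2 + i) := by
  have hm' : (0 : ℝ) < m := by exact_mod_cast hm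
  induction i with
  | zero => simp
  | succ i ih =>
    have hmid : (m.choose (m / 2 + i) : ℝ) ≤ m.choose (m / 2) := by
      exact_mod_cast Nat.choose_le_middle (m / 2 + i) m
    have hstep := tail_choose_step m (m / 2 + i)
    have h2 : (2 : ℝ) * ((m / 2 : ℕ) : ℝ) ≤ m := by
      have : 2 * (m / 2) ≤ m := by omega
      exact_mod_cast this
    have h3 : (m : ℝ) ≤ 2 * ((m / 2 : ℕ) : ℝ) + 1 := by
      have : m ≤ 2 * (m / 2) + 1 := by omega
      exact_mod_cast this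
    have hi : (0 : ℝ) ≤ i := Nat.cast_nonneg i
    have hh : (0 : ℝ) ≤ ((m / 2 : ℕ) : ℝ) := Nat.cast_nonneg _
    have hc0 : (0 : ℝ) ≤ (m.choose (m / 2 + i) : ℝ) := Nat.cast_nonneg _
    push_cast at hstep
    have hu : (0 : ℝ) ≤ 2 * (2 * (i : ℝ) + 1) / m := by positivity
    have hum : 2 * (2 * (i : ℝ) + 1) / m * m = 2 * (2 * (i : ℝ) + 1) := by field_simp
    have hkey : (1 - 2 * (2 * (i : ℝ) + 1) / m) * (((m / 2 : ℕ) : ℝ) + i + 1)
        ≤ (m : ℝ) - (((m / 2 : ℕ) : ℝ) + i) := by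
      have h5 : 2 * (2 * (i : ℝ) + 1) / m * m ≤
          2 * (2 * (i : ℝ) + 1) / m * (2 * (((m / 2 : ℕ) : ℝ) + i + 1)) :=
        mul_le_mul_of_nonneg_left (by linarith) hu
      nlinarith
    have hpos : (0 : ℝ) < ((m / 2 : ℕ) : ℝ) + i + 1 := by linarith
    have h6 : (1 - 2 * (2 * (i : ℝ) + 1) / m) * (m.choose (m / 2 + i) : ℝ)
        ≤ (m.choose (m / 2 + i + 1) : ℝ) := by
      have h7 := mul_le_mul_of_nonneg_left hkey hc0
      have h8 : ((1 - 2 * (2 * (i : ℝ) + 1) / m) * (m.choose (m / 2 + i) : ℝ))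
          * (((m / 2 : ℕ) : ℝ) + i + 1)
          ≤ (m.choose (m / 2 + i + 1) : ℝ) * (((m / 2 : ℕ) : ℝ) + i + 1) := by
        nlinarith
      exact le_of_mul_le_mul_right h8 hpos
    have h9 := mul_le_mul_of_nonneg_left hmid hu
    have h10 : (1 - 2 * (((i + 1 : ℕ) : ℝ)) ^ 2 / m)
        = (1 - 2 * (i : ℝ) ^ 2 / m) - 2 * (2 * (i : ℝ) + 1) / m := by
      push_cast
      ring
    rw [h10, ← Nat.add_assoc]
    nlinarith

/-- Binomial coefficients far from the middle. -/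
lemma choose_far {γ δ : ℝ} (hγ : 0 < γ) (hδ : 0 < δ) :
    ∀ᶠ n : ℕ in atTop, ∀ s : ℕ, γ * n ≤ |(s : ℝ) - n / 2| →
      (n.choose s : ℝ) ≤ δ * n.choose (n / 2) := by
  obtain ⟨j, hj⟩ := exists_nat_ge (1 / (δ * γ))
  have hpow : 1 ≤ δ * (1 + γ) ^ j := by
    have h1 : 1 + (j : ℝ) * γ ≤ (1 + γ) ^ j := one_add_mul_le_pow (by linarith) j
    have h2 : 1 ≤ (j : ℝ) * (δ * γ) := by
      rw [div_le_iff₀ (by positivity)] at hj
      exact hj
    nlinarith
  have hev : ∀ᶠ n : ℕ in atTop, 2 * (j : ℝ) / γ ≤ (n : ℝ) :=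
    tendsto_natCast_atTop_atTop.eventually_ge_atTop _
  filter_upwards [hev, eventually_gt_atTop 0] with n hn hn0 s hs
  have hn' : (0 : ℝ) < n := by exact_mod_cast hn0
  have hjn : 2 * (j : ℝ) ≤ n * γ := by
    rw [div_le_iff₀ hγ] at hn
    exact hn
  have hup : ∀ t : ℕ, γ * n ≤ (t : ℝ) - n / 2 → (n.choose t : ℝ) ≤ δ * n.choose (n / 2) := by
    intro t ht
    have h1 := tail_far_up hγ hn0 j t (by nlinarith)
    have h2 : (0 : ℝ) ≤ (n.choose t : ℝ) := Nat.cast_nonneg _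
    have h3 := mul_le_mul_of_nonneg_left h1 hδ.le
    nlinarith
  rcases le_abs.1 hs with h | h
  · exact hup s h
  · have hγn : 0 < γ * n := by positivity
    have hsn : s ≤ n := by
      have : (s : ℝ) ≤ n := by linarith
      exact_mod_cast this
    rw [← Nat.choose_symm hsn]
    apply hup
    rw [Nat.cast_sub hsn]
    linarith

end Pool.Agent.Work.MP_84019e_co.Cube
end

-- merged part: Pool.Agent.Work.MP_84019e_co.Cube.GsLower
section
set_option autoImplicit false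

namespace Pool.Agent.Work.MP_84019e_co.Cube

open Finset

lemma gl_avoid {D n : ℕ} (c : Fin D → ℝ) {u β : ℝ} (hu : 0 ≤ u) (N : ℕ) (hN : n ≤ N)
    (h1 : ∀ l, c l ≤ u) (h2 : β + N * u ≤ ∑ l, c l) (y : Fin n → Fin D) :
    β ≤ ∑ l ∈ univ.filter fun l => l ∉ univ.image y, c l := by
  have a1 := sum_filter_add_sum_filter_not univ (fun l => l ∈ univ.image y) c
  have a2 : ∑ l ∈ univ.filter fun l => l ∈ univ.image y, c l ≤
      (univ.filter fun l => l ∈ univ.image y).card • u :=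
    sum_le_card_nsmul _ _ _ fun l _ => h1 l
  have a3 : (univ.filter fun l => l ∈ univ.image y).card ≤ N := by
    rw [filter_mem_eq_inter, univ_inter]
    exact card_image_le.trans (by simpa using hN)
  have a4 : ((univ.filter fun l => l ∈ univ.image y).card : ℝ) * u ≤ N * u :=
    mul_le_mul_of_nonneg_right (by exact_mod_cast a3) hu
  rw [nsmul_eq_mul] at a2
  linarith only [a1, a2, a4, h2]

open Classical in
/-- Sums over injective choices. -/
lemma inj_sum {D : ℕ} (n : ℕ) (c : Fin n → Fin D → ℝ) {u β : ℝ} (hβ : 0 ≤ β) (hu : 0 ≤ u)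
    (N : ℕ) (hN : n ≤ N) (h0 : ∀ i l, 0 ≤ c i l) (h1 : ∀ i l, c i l ≤ u) (h2 : ∀ i, β + N * u ≤ ∑ l, c i l) :
    β ^ n ≤ ∑ y ∈ univ.filter fun y : Fin n → Fin D => Function.Injective y, ∏ i, c i (y i) := by
  induction n with
  | zero =>
    rw [filter_true_of_mem fun y _ => Function.injective_of_subsingleton y]
    simp
  | succ n ih =>
    have ih' := ih (fun i => c i.succ) (by omega) (fun i => h0 _) (fun i => h1 _) fun i => h2 _
    rw [sum_filter] at ih' ⊢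
    rw [← (Fin.consEquiv fun _ : Fin (n + 1) => Fin D).sum_comp, Fintype.sum_prod_type_right]
    calc β ^ (n + 1) = β * β ^ n := by ring
      _ ≤ β * ∑ y : Fin n → Fin D, if Function.Injective y then ∏ i, c i.succ (y i) else 0 :=
        mul_le_mul_of_nonneg_left ih' hβ
      _ ≤ _ := by
        rw [mul_sum]
        refine sum_le_sum fun y _ => ?_
        by_cases hy : Function.Injective y
        · rw [if_pos hy]
          have b1 := gl_avoid (c 0) hu N (n := n) (by omega) (h1 0) (h2 0) y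
          have b2 : 0 ≤ ∏ i : Fin n, c i.succ (y i) := prod_nonneg fun i _ => h0 _ _
          refine (mul_le_mul_of_nonneg_right b1 b2).trans (le_of_eq ?_)
          rw [sum_filter, sum_mul]
          refine sum_congr rfl fun l _ => ?_
          have b3 : Function.Injective ((Fin.consEquiv fun _ : Fin (n + 1) => Fin D) (l, y)) ↔
              l ∉ univ.image y := by
            have : ((Fin.consEquiv fun _ : Fin (n + 1) => Fin D) (l, y)) =
                (Fin.cons l y : Fin (n + 1) → Fin D) := rfl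
            rw [this, Fin.cons_injective_iff]
            simp [hy]
          by_cases hl : l ∉ univ.image y
          · rw [if_pos hl, if_pos (b3.2 hl), Fin.prod_univ_succ]
            simp [Fin.consEquiv]
          · rw [if_neg hl, if_neg fun h => hl (b3.1 h), zero_mul]
        · rw [if_neg hy, mul_zero]
          refine sum_nonneg fun l _ => ?_
          split_ifs
          · exact prod_nonneg fun i _ => h0 _ _
          · exact le_rfl

lemma gl_lam_step {k : ℕ} {u : ℤ} (h0 : 0 ≤ u) (h1 : u < k) :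
    |lam k (u + 1) - lam k u| ≤ k := by
  have a1 : (0 : ℝ) ≤ u := by exact_mod_cast h0
  have a2 : (u : ℝ) + 1 ≤ k := by exact_mod_cast h1
  have a3 : lam k (u + 1) - lam k u = k - 1 - 2 * u := by
    simp only [lam]
    push_cast
    ring
  rw [a3, abs_le]
  constructor <;> linarith only [a1, a2]

lemma gl_lam_nonneg {k : ℕ} {u : ℤ} (h0 : 0 ≤ u) (h1 : u < k) : 0 ≤ lam k u := by
  have a1 : (0 : ℝ) ≤ u := by exact_mod_cast h0
  have a2 : (u : ℝ) ≤ k := by exact_mod_cast h1.le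
  exact mul_nonneg a1 (sub_nonneg.2 a2)

/-- Lowering some coordinates by one moves the total weight by at most `D * k`. -/
lemma gl_Lam_near {D k : ℕ} {z : Fin D → ℤ} (hz : z ∈ box D k) (x : Fin D → ℤ)
    (hx : ∀ l, x l = z l ∨ x l + 1 = z l) : |Lam k x - Lam k z| ≤ D * k := by
  rw [Lam, Lam, ← sum_sub_distrib]
  refine (abs_sum_le_sum_abs _ _).trans ?_
  have : ∀ l ∈ (univ : Finset (Fin D)), |lam k (x l + 1) - lam k (z l + 1)| ≤ k := by
    intro l _
    rcases hx l with h | h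
    · rw [h, sub_self, abs_zero]
      exact Nat.cast_nonneg k
    · rw [h, abs_sub_comm]
      exact gl_lam_step (mem_box.1 hz l).1 (mem_box.1 hz l).2
  simpa using sum_le_card_nsmul _ _ _ this

lemma gl_choose_sum {n w : ℕ} (hw : 2 * w ≤ n) :
    ∑ A ∈ (univ.filter fun A : B n => w ≤ A.card ∧ A.card + w ≤ n), 1 / (n.choose A.card : ℝ) =
      (n : ℝ) - 2 * w + 1 := by
  rw [← sum_fiberwise_of_maps_to (g := fun A : B n => A.card) (t := Icc w (n - w))
    (fun A hA => by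
      have := (mem_filter.1 hA).2
      rw [mem_Icc]
      omega)]
  have a1 : ∀ t ∈ Icc w (n - w),
      ∑ A ∈ (univ.filter fun A : B n => w ≤ A.card ∧ A.card + w ≤ n).filter
        (fun A => A.card = t), 1 / (n.choose A.card : ℝ) = 1 := by
    intro t ht
    rw [mem_Icc] at ht
    have b1 : (univ.filter fun A : B n => w ≤ A.card ∧ A.card + w ≤ n).filter
        (fun A => A.card = t) = powersetCard t univ := by
      ext A
      simp only [mem_filter, mem_univ, true_and, mem_powersetCard, subset_univ]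
      omega
    have b2 : (n.choose t : ℝ) ≠ 0 := by
      exact_mod_cast (Nat.choose_pos (by omega)).ne'
    rw [b1, sum_congr rfl fun A hA => by rw [(mem_powersetCard.1 hA).2], sum_const,
      card_powersetCard, card_univ, Fintype.card_fin, nsmul_eq_mul]
    field_simp
  rw [sum_congr rfl a1, sum_const, Nat.card_Icc, nsmul_eq_mul, mul_one]
  have : n - w + 1 - w + 2 * w = n + 1 := by omega
  have h2 : ((n - w + 1 - w : ℕ) : ℝ) + 2 * w = n + 1 := by exact_mod_cast this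
  linarith only [h2]

/-- The piece in which `z` has position `A`. -/
def glP {D n : ℕ} (A : B n) (q : Pc D n) : Pc D n :=
  (fun l => q.1 l - if ∃ i ∈ A, q.2 i = l then 1 else 0, q.2)

lemma glP_pt {D n : ℕ} (A : B n) (q : Pc D n) : pt (glP A q) A = q.1 := by
  funext l
  exact sub_add_cancel _ _

lemma glP_inj {D n : ℕ} (A : B n) : Function.Injective (glP A : Pc D n → Pc D n) := by
  intro q q' h
  refine Prod.ext ?_ (congrArg Prod.snd h :)
  rw [← glP_pt A q, h, glP_pt]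

lemma glP_at {D n : ℕ} (A : B n) (q : Pc D n) (hq : Function.Injective q.2) (i : Fin n) :
    (glP A q).1 ((glP A q).2 i) = q.1 (q.2 i) - if i ∈ A then 1 else 0 := by
  have : (∃ j ∈ A, q.2 j = q.2 i) ↔ i ∈ A :=
    ⟨fun ⟨j, hj, h⟩ => hq h ▸ hj, fun h => ⟨i, h, rfl⟩⟩
  simp only [glP, this]

lemma glP_mem {D n k : ℕ} {δ : ℝ} (hδ : 0 < δ) (hk : 2 ≤ δ * k) (A : B n) (q : Pc D n)
    (hq : Function.Injective q.2) (hB : q.1 ∈ box D k) (ht : ¬ Atyp k δ q.1)
    (hne : pb k (glP A q) ≠ 0) : glP A q ∈ pcs D n k δ := by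
  have a1 : ∀ i, (glP A q).1 (q.2 i) + 1 ≠ 0 ∧ (glP A q).1 (q.2 i) + 1 ≠ k := by
    intro i
    have b1 : lam k ((glP A q).1 (q.2 i) + 1) ≠ 0 := prod_ne_zero_iff.1 hne i (mem_univ i)
    constructor
    · intro h
      rw [h] at b1
      simp [lam] at b1
    · intro h
      rw [h] at b1
      simp [lam] at b1
  have a2 : ∀ l, (glP A q).1 l = q.1 l ∨
      ((glP A q).1 l + 1 = q.1 l ∧ ∃ i, q.2 i = l) := by
    intro l
    simp only [glP]
    split_ifs with h
    · obtain ⟨i, -, hi⟩ := h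
      exact Or.inr ⟨by ring, i, hi⟩
    · exact Or.inl (by ring)
  refine mem_pcs.2 ⟨mem_box.2 fun l => ?_, hq, ?_, fun i => ?_⟩
  · have b1 := mem_box.1 hB l
    rcases a2 l with h | ⟨h, i, hi⟩
    · rw [h]
      exact b1
    · have b2 := (a1 i).1
      rw [hi] at b2
      omega
  · have b1 := gl_Lam_near hB (glP A q).1 fun l => (a2 l).imp_right And.left
    simp only [Atyp, not_le] at ht ⊢
    have b2 := abs_sub_le (Lam k (glP A q).1) (Lam k q.1) (D * k ^ 2 / 6)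
    have b3 : (0 : ℝ) ≤ D * k := by positivity
    have b4 := mul_le_mul_of_nonneg_left hk b3
    have b5 : D * k * (δ * k) = δ * (D * k ^ 2) := by ring
    linarith only [b1, b2, b3, b4, b5, ht]
  · have b1 := mem_box.1 hB (q.2 i)
    have b2 := (a1 i).2
    have b3 : (glP A q).2 i = q.2 i := rfl
    rw [b3]
    rcases a2 (q.2 i) with h | ⟨h, -⟩ <;> omega

open Classical in
lemma gl_point {D n k : ℕ} {δ : ℝ} (hδ : 0 < δ) (hδ1 : δ ≤ 1 / 20)
    (hn : (n : ℝ) ≤ 2 * δ * D) (hk : 2 ≤ δ * k) (A : B n) (z : Fin D → ℤ)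
    (hB : z ∈ box D k) (ht : ¬ Atyp k δ z) :
    (D * (k : ℝ) ^ 2 * (1 / 6 - 2 * δ)) ^ n ≤
      ∑ y ∈ univ.filter fun y : Fin n → Fin D => Function.Injective y, pb k (glP A (z, y)) := by
  have a0 : (0 : ℝ) ≤ D * (k : ℝ) ^ 2 * (1 / 6 - 2 * δ) :=
    mul_nonneg (by positivity) (by linarith only [hδ1])
  have a1 := inj_sum n (fun i l => lam k (z l - (if i ∈ A then 1 else 0) + 1))
    (u := (k : ℝ) ^ 2 / 4) a0 (by positivity) n le_rfl
    (fun i l => by
      have b1 := mem_box.1 hB l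
      split_ifs
      · rw [sub_add_cancel]
        exact gl_lam_nonneg b1.1 b1.2
      · rw [sub_zero]
        exact lam_nonneg b1.1 b1.2)
    (fun i l => lam_le _ _)
    (fun i => by
      have b1 := gl_Lam_near hB (fun l => z l - if i ∈ A then 1 else 0) fun l => by
        split_ifs
        · exact Or.inr (by ring)
        · exact Or.inl (by ring)
      simp only [Atyp, not_le] at ht
      have b2 := (abs_lt.1 ht).1
      have b6 := (abs_le.1 b1).1
      have b3 : (0 : ℝ) ≤ D * k := by positivity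
      have b4 := mul_le_mul_of_nonneg_left hk b3
      have b7 := mul_le_mul_of_nonneg_right hn (sq_nonneg (k : ℝ))
      have b8 : Lam k (fun l => z l - if i ∈ A then 1 else 0) =
          ∑ l, lam k (z l - (if i ∈ A then 1 else 0) + 1) := rfl
      rw [← b8]
      linarith only [b2, b3, b4, b6, b7])
  refine a1.trans (le_of_eq (sum_congr rfl fun y hy => ?_))
  refine prod_congr rfl fun i _ => ?_
  rw [glP_at A (z, y) (mem_filter.1 hy).2 i]

open Classical in
lemma gl_set {D n k : ℕ} {δ : ℝ} (hδ : 0 < δ) (hδ1 : δ ≤ 1 / 20)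
    (hn : (n : ℝ) ≤ 2 * δ * D) (hk : 2 ≤ δ * k) (F F' : Finset (Fin D → ℤ))
    (hFF : F' ⊆ F) (hB : F' ⊆ box D k) (ht : ∀ z ∈ F', ¬ Atyp k δ z) (A : B n) :
    F'.card * (D * (k : ℝ) ^ 2 * (1 / 6 - 2 * δ)) ^ n ≤
      ∑ p ∈ (pcs D n k δ).filter fun p => pt p A ∈ F, pb k p := by
  calc (F'.card : ℝ) * (D * (k : ℝ) ^ 2 * (1 / 6 - 2 * δ)) ^ n
      = ∑ _z ∈ F', (D * (k : ℝ) ^ 2 * (1 / 6 - 2 * δ)) ^ n := by rw [sum_const, nsmul_eq_mul]
    _ ≤ ∑ z ∈ F', ∑ y ∈ univ.filter fun y : Fin n → Fin D => Function.Injective y,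
          pb k (glP A (z, y)) :=
        sum_le_sum fun z hz => gl_point hδ hδ1 hn hk A z (hB hz) (ht z hz)
    _ = ∑ q ∈ F' ×ˢ univ.filter fun y : Fin n → Fin D => Function.Injective y,
          pb k (glP A q) := (sum_product _ _ fun q => pb k (glP A q)).symm
    _ = ∑ q ∈ (F' ×ˢ univ.filter fun y : Fin n → Fin D => Function.Injective y).filter
          fun q => pb k (glP A q) ≠ 0, pb k (glP A q) := (sum_filter_ne_zero _).symm
    _ = ∑ p ∈ ((F' ×ˢ univ.filter fun y : Fin n → Fin D => Function.Injective y).filter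
          fun q => pb k (glP A q) ≠ 0).image (glP A), pb k p :=
        (sum_image fun q _ q' _ h => glP_inj A h).symm
    _ ≤ _ := by
        refine sum_le_sum_of_subset_of_nonneg (fun p hp => ?_) fun p hp _ => ?_
        · obtain ⟨q, hq, rfl⟩ := mem_image.1 hp
          obtain ⟨h1, h2⟩ := mem_filter.1 hq
          obtain ⟨h3, h4⟩ := mem_product.1 h1
          refine mem_filter.2 ⟨glP_mem hδ hk A q (mem_filter.1 h4).2 (hB h3) (ht _ h3) h2, ?_⟩
          rw [glP_pt]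
          exact hFF h3
        · have h1 := mem_box.1 (mem_pcs.1 (mem_filter.1 hp).1).1
          exact prod_nonneg fun i _ => lam_nonneg (h1 _).1 (h1 _).2

/-- Paper, GS, lower bound. -/
theorem gs_lower {D n k w : ℕ} {δ : ℝ} (hδ : 0 < δ) (hδ1 : δ ≤ 1 / 20)
    (hn : (n : ℝ) ≤ 2 * δ * D) (hk : 2 ≤ δ * k) (hw : 2 * w ≤ n) (F F' : Finset (Fin D → ℤ))
    (hFF : F' ⊆ F) (hB : F' ⊆ box D k) (ht : ∀ z ∈ F', ¬ Atyp k δ z) :
    ((n : ℝ) - 2 * w + 1) * F'.card * (D * (k : ℝ) ^ 2 * (1 / 6 - 2 * δ)) ^ n ≤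
      ∑ p ∈ pcs D n k δ, Lub (pH F w p) * pb k p := by
  classical
  have a1 : ∀ p : Pc D n, Lub (pH F w p) * pb k p =
      ∑ A ∈ (univ.filter fun A : B n => w ≤ A.card ∧ A.card + w ≤ n),
        if pt p A ∈ F then 1 / (n.choose A.card : ℝ) * pb k p else 0 := by
    intro p
    rw [Lub_eq, sum_mul, ← sum_filter, filter_filter, pH]
    exact sum_congr (filter_congr fun A _ => and_assoc.symm) fun _ _ => rfl
  rw [sum_congr rfl fun p _ => a1 p, sum_comm, ← gl_choose_sum hw, mul_assoc, sum_mul]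
  refine sum_le_sum fun A _ => ?_
  rw [← sum_filter, ← mul_sum]
  exact mul_le_mul_of_nonneg_left (gl_set hδ hδ1 hn hk F F' hFF hB ht A) (by positivity)

end Pool.Agent.Work.MP_84019e_co.Cube
end

-- merged part: Pool.Agent.Work.MP_84019e_co.Cube.UpAvg
section
set_option autoImplicit false

namespace Pool.Agent.Work.MP_84019e_co.Cube

open Finset

/-- A level of the grid. -/
noncomputable def levZ (d k : ℕ) (s : ℤ) : Finset (Fin d → ℤ) :=
  (box d k).filter fun x => ∑ i, x i = s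

/-- The first `x i` positions of block `i`, for blocks of length `q`. -/
def upAvgSet {n d q : ℕ} (hq : d * q ≤ n) (x : Fin d → ℤ) : B n :=
  (univ.filter fun p : Fin d × Fin q => (p.2.val : ℤ) < x p.1).map
    (finProdFinEquiv.toEmbedding.trans (Fin.castLEEmb hq))

lemma upAvgSet_mono {n d q : ℕ} (hq : d * q ≤ n) {x y : Fin d → ℤ} (h : x ≤ y) :
    upAvgSet hq x ⊆ upAvgSet hq y := by
  refine map_subset_map.2 fun p hp => ?_
  simp only [mem_filter, mem_univ, true_and] at hp ⊢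
  exact lt_of_lt_of_le hp (h p.1)

lemma upAvgSet_le {n d k : ℕ} (hq : d * (k - 1) ≤ n) {x y : Fin d → ℤ} (hx : x ∈ box d k)
    (hy : y ∈ box d k) (h : upAvgSet hq x ⊆ upAvgSet hq y) : x ≤ y := by
  intro i
  by_contra hlt
  have h1 := mem_box.1 hx i
  have h2 := mem_box.1 hy i
  have hlt' : y i < x i := not_le.1 hlt
  have h3 : ((i, ⟨(y i).toNat, by omega⟩) : Fin d × Fin (k - 1)) ∈
      univ.filter fun p : Fin d × Fin (k - 1) => (p.2.val : ℤ) < x p.1 := by
    simp only [mem_filter, mem_univ, true_and]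
    omega
  have h4 := map_subset_map.1 h h3
  simp only [mem_filter, mem_univ, true_and] at h4
  omega

lemma card_upAvgSet {n d k : ℕ} (hq : d * (k - 1) ≤ n) {x : Fin d → ℤ} (hx : x ∈ box d k) :
    ((upAvgSet hq x).card : ℤ) = ∑ i, x i := by
  rw [upAvgSet, card_map, card_filter, Fintype.sum_prod_type, Nat.cast_sum]
  refine sum_congr rfl fun i _ => ?_
  have h1 := mem_box.1 hx i
  have h2 : (univ.filter fun j : Fin (k - 1) => (j.val : ℤ) < x i) =
      univ.filter fun j : Fin (k - 1) => j.val < (x i).toNat :=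
    filter_congr fun j _ => by omega
  rw [← card_filter, h2, Fin.card_filter_val_lt]
  omega

/-- Paper, U: random grids inside the cube. -/
theorem grid_avg {P : Type} [PartialOrder P] {n d k : ℕ} (hk : d * (k - 1) ≤ n)
    {F : Finset (B n)} (hF : WeakFree P F) :
    ∑ s ∈ range (n + 1), ((levZ d k s).card : ℝ) * pd (· ∈ F) s ≤ G P d k := by
  classical
  have h1 : ∀ π : Pm n, ∑ x ∈ box d k, ind (img π (upAvgSet hk x) ∈ F) ≤ (G P d k : ℝ) := by
    intro π
    rw [sum_ind]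
    refine Nat.cast_le.2 (le_G (filter_subset _ _) ?_)
    refine hF.of_map (fun x => img π (upAvgSet hk x)) (fun x hx => (mem_filter.1 hx).2) ?_ ?_
    · intro x hx y hy hxy
      have hx' := (mem_filter.1 (mem_coe.1 hx)).1
      have hy' := (mem_filter.1 (mem_coe.1 hy)).1
      have h2 := img_inj π hxy
      exact le_antisymm (upAvgSet_le hk hx' hy' h2.le) (upAvgSet_le hk hy' hx' h2.ge)
    · intro x _ y _ hxy
      exact img_subset.2 (upAvgSet_mono hk hxy)
  have h2 := av_le h1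
  rw [av_sum] at h2
  refine le_trans (le_of_eq ?_) h2
  have h3 : ∀ x ∈ box d k, (upAvgSet hk x).card ∈ range (n + 1) := fun x _ =>
    mem_range.2 (Nat.lt_succ_of_le (by simpa using card_le_univ (upAvgSet hk x)))
  rw [← sum_fiberwise_of_maps_to h3]
  refine sum_congr rfl fun s _ => ?_
  have h4 : levZ d k s = (box d k).filter fun x => (upAvgSet hk x).card = s := by
    refine filter_congr fun x hx => ?_
    rw [← card_upAvgSet hk hx]
    exact Nat.cast_inj
  rw [h4, ← nsmul_eq_mul, ← sum_const]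
  refine sum_congr rfl fun x hx => ?_
  rw [av_img (· ∈ F), (mem_filter.1 hx).2]

lemma mem_levZ {d k : ℕ} {s : ℤ} {x : Fin d → ℤ} :
    x ∈ levZ d k s ↔ (∀ i, 0 ≤ x i ∧ x i < k) ∧ ∑ i, x i = s := by
  rw [levZ, mem_filter, mem_box]

lemma levZ_face (m k : ℕ) (s c : ℤ) :
    ((levZ (m + 2) k s).filter fun x => x 0 = c).card ≤ k ^ m := by
  rw [← card_box]
  refine card_le_card_of_injOn (fun x i => x i.succ.succ) ?_ ?_
  · intro x hx
    have h1 := (mem_levZ.1 (mem_filter.1 (mem_coe.1 hx)).1).1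
    exact mem_coe.2 (mem_box.2 fun i => h1 _)
  · intro x hx y hy hxy
    obtain ⟨h1, h2⟩ := mem_filter.1 (mem_coe.1 hx)
    obtain ⟨h3, h4⟩ := mem_filter.1 (mem_coe.1 hy)
    have h5 := (mem_levZ.1 h1).2
    have h6 := (mem_levZ.1 h3).2
    have h7 : ∀ i : Fin m, x i.succ.succ = y i.succ.succ := fun i => congrFun hxy i
    rw [Fin.sum_univ_succ, Fin.sum_univ_succ] at h5 h6
    have h8 : ∑ i : Fin m, x i.succ.succ = ∑ i : Fin m, y i.succ.succ :=
      sum_congr rfl fun i _ => h7 i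
    funext i
    refine Fin.cases (h2.trans h4.symm) (fun j => Fin.cases ?_ h7 j) i
    omega

lemma levZ_step (m k : ℕ) (s e c : ℤ)
    (h : ∀ u : ℤ, 0 ≤ u → u < k → u ≠ c → 0 ≤ u + e ∧ u + e < k) :
    (levZ (m + 2) k s).card ≤ (levZ (m + 2) k (s + e)).card + k ^ m := by
  classical
  rw [← card_filter_add_card_filter_not (s := levZ (m + 2) k s) (fun x => x 0 = c), add_comm]
  refine add_le_add ?_ (levZ_face m k s c)
  refine card_le_card_of_injOn (fun x => x + Pi.single 0 e) ?_ (add_left_injective _).injOn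
  intro x hx
  obtain ⟨h1, h2⟩ := mem_filter.1 (mem_coe.1 hx)
  obtain ⟨h3, h4⟩ := mem_levZ.1 h1
  refine mem_coe.2 (mem_levZ.2 ⟨fun i => ?_, ?_⟩)
  · by_cases hi : i = 0
    · subst hi
      simpa using h _ (h3 0).1 (h3 0).2 h2
    · simpa [Pi.single_eq_of_ne hi] using h3 i
  · simp only [Pi.add_apply, sum_add_distrib, h4, sum_pi_single', mem_univ, if_true]

lemma levZ_steps (m k : ℕ) (s e c : ℤ)
    (h : ∀ u : ℤ, 0 ≤ u → u < k → u ≠ c → 0 ≤ u + e ∧ u + e < k) (t : ℕ) :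
    (levZ (m + 2) k s).card ≤ (levZ (m + 2) k (s + t * e)).card + t * k ^ m := by
  induction t with
  | zero => simp
  | succ t ih =>
    have h1 := levZ_step m k (s + t * e) e c h
    have h2 : s + ((t + 1 : ℕ) : ℤ) * e = s + t * e + e := by push_cast; ring
    rw [h2, add_mul, one_mul]
    omega

/-- Paper, U: sizes of levels change slowly. -/
theorem levZ_lip (m k : ℕ) (s s' : ℤ) :
    ((levZ (m + 2) k s).card : ℝ) ≤ (levZ (m + 2) k s').card + |(s : ℝ) - s'| * (k : ℝ) ^ m := by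
  rcases le_total s s' with h | h
  · obtain ⟨t, rfl⟩ := Int.le.dest h
    have h1 := levZ_steps m k s 1 (k - 1) (fun u _ _ _ => by omega) t
    have h2 : |(s : ℝ) - ((s + t : ℤ) : ℝ)| = t := by
      push_cast
      rw [sub_add_cancel_left, abs_neg, abs_of_nonneg (Nat.cast_nonneg t)]
    rw [mul_one] at h1
    rw [h2]
    exact_mod_cast h1
  · obtain ⟨t, rfl⟩ := Int.le.dest h
    have h1 := levZ_steps m k (s' + t) (-1) 0 (fun u _ _ _ => by omega) t
    have h2 : |((s' + t : ℤ) : ℝ) - s'| = t := by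
      push_cast
      rw [add_sub_cancel_left, abs_of_nonneg (Nat.cast_nonneg t)]
    have h3 : s' + t + t * (-1) = s' := by ring
    rw [h3] at h1
    rw [h2]
    exact_mod_cast h1

end Pool.Agent.Work.MP_84019e_co.Cube
end

-- merged part: Pool.Agent.Work.MP_84019e_co.Cube.Main
section
set_option autoImplicit false

namespace Pool.Agent.Work.MP_84019e_co.Cube

open Finset
open Filter Topology

variable {P : Type} [PartialOrder P] [Fintype P] [Nonempty P]

omit [Fintype P] [Nonempty P] in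
lemma La_bdd (m : ℕ) : BddAbove {n | ∃ F : Finset (B m), WeakFree P F ∧ F.card = n} := by
  refine ⟨Fintype.card (B m), ?_⟩
  rintro n ⟨F, -, rfl⟩
  exact card_le_univ F

lemma le_La {m : ℕ} {G : Finset (B m)} (hG : WeakFree P G) : G.card ≤ La (B m) P :=
  le_csSup (La_bdd m) ⟨G, hG, rfl⟩

lemma La_spec (m : ℕ) : ∃ G : Finset (B m), WeakFree P G ∧ G.card = La (B m) P :=
  Nat.sSup_mem (s := {n | ∃ F : Finset (B m), WeakFree P F ∧ F.card = n})
    ⟨0, ∅, weakFree_empty, rfl⟩ (La_bdd m)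

omit [Nonempty P] in
lemma Stack.lev {n w : ℕ} {I : Finset ℤ} {H : ℤ → Finset (B n)} (hS : Stack P n w I H) (a : ℤ) :
    ∃ lev : B n → ℕ, a ∈ I → Lev (Fintype.card P) (H a) lev := by
  classical
  by_cases ha : a ∈ I
  · have hf : WeakFree P (H a) := by
      refine hS.free.of_map (fun A => toLex (a, A)) (fun A hA => ?_) (fun A _ A' _ e => ?_)
        fun A _ A' _ e => ?_
      · simp only [stk, mem_biUnion, mem_image]
        exact ⟨a, ha, A, hA, rfl⟩
      · exact congrArg Prod.snd (toLex.injective e)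
      · exact Prod.Lex.toLex_le_toLex.2 (Or.inr ⟨rfl, e⟩)
    obtain ⟨lev, h1, h2⟩ := exists_lev hf
    exact ⟨lev, fun _ => ⟨h1, h2⟩⟩
  · exact ⟨fun _ => 0, fun h => absurd h ha⟩

/-- The transfer of a stack for fixed parameters. -/
lemma stack_transfer {n w l m S T N g R M T' h : ℕ} {x e τ τ0 b lam : ℝ} {I : Finset ℤ}
    {H : ℤ → Finset (B n)} (hh : h = Fintype.card P) (hSt : Stack P n w I H)
    (lev : ℤ → B n → ℕ) (hlev : ∀ a ∈ I, Lev h (H a) (lev a))
    (hlam : lam ≤ ∑ a ∈ I, Lub (H a))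
    (hw : 2 * w ≤ n) (hl : l ≤ w) (h6 : 6 * m ≤ l) (hN : 0 < N) (hg : 0 < g) (h1 : N * g ≤ m)
    (h2 : m / 2 + h * (h * S) ≤ m) (h3 : 2 * R + T + S + 1 ≤ N * g) (hS : 0 < S) (hR : 0 < R)
    (hM : 0 < M) (hx : 0 < x) (he : 0 < e) (hτ : 0 ≤ τ)
    (hκ : 0 ≤ 1 - (T : ℝ) / g - N / x ^ 2) (hb0 : 0 ≤ b)
    (hb : ∀ t, m / 2 ≤ t → t < m / 2 + h * (h * S) → b ≤ m.choose t)
    (hgap : ∑ a ∈ I, ∑ s ∈ Ico T l, zg h (H a) (lev a) w s ≤ τ0)
    (hY : ∀ a ∈ I, ∀ j < h, Y (upS (H a) (lev a) w j) T' - Y (upS (H a) (lev a) w j) M ≤ τ) :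
    b * (alpha S T N g x * ((1 - 6 * (m : ℝ) / l) * lam - τ0 -
      h * (2 * (h : ℝ) ^ 2 * beta l M T' R τ / e + (h : ℝ) ^ 2 * e)) -
      h * (h * theta l m S N)) ≤ La (B m) P := by
  classical
  have hI : I.card ≤ h := hh ▸ hSt.card
  have rk : ∀ a ∈ I, (I.filter (· < a)).card * (h * S) + h * S ≤ h * (h * S) := by
    intro a ha
    have : (I.filter (· < a)).card + 1 ≤ I.card :=
      card_lt_card ⟨filter_subset _ _, fun hs => lt_irrefl a (mem_filter.1 (hs ha)).2⟩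
    calc _ = ((I.filter (· < a)).card + 1) * (h * S) := by ring
      _ ≤ _ := Nat.mul_le_mul_right _ (this.trans hI)
  have key := fun a (ha : a ∈ I) =>
    one_cube (s := m / 2 + (I.filter (· < a)).card * (h * S)) (hlev a ha) (hSt.bulk a ha) hw hl h6
      hN hg h1 (by have := rk a ha; omega) h3 hS hR hM hx he hτ hκ hb0
      (fun t t1 t2 => hb t (by omega) (by have := rk a ha; omega)) (hY a ha)
  choose! G hG1 hG2 hG3 using key
  obtain ⟨-, hE, hcard⟩ := emb_union (s := m / 2) (S := h * S) I (stk I H)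
    (fun a => (H a).image fun A => toLex (a, A)) G
    (fun a ha => by
      intro y hy
      simp only [stk, mem_biUnion]
      refine ⟨a, ha, ?_⟩
      simpa only [mem_image] using hy)
    (fun a _ c _ hac y hy y' hy' => by
      obtain ⟨A, -, rfl⟩ := mem_image.1 hy
      obtain ⟨A', -, rfl⟩ := mem_image.1 hy'
      exact Prod.Lex.toLex_lt_toLex.2 (Or.inl hac))
    (fun a ha => ⟨hG1 a ha, (hG2 a ha).map _
      (fun A A' e => congrArg Prod.snd (toLex.injective e))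
      fun A A' e => Prod.Lex.toLex_le_toLex.2 (Or.inr ⟨rfl, e⟩)⟩)
  have hLa : (∑ a ∈ I, ((G a).card : ℝ)) ≤ La (B m) P := by
    have := le_La (hE.free hSt.free)
    rw [hcard] at this
    exact_mod_cast this
  refine le_trans ?_ ((sum_le_sum hG3).trans hLa)
  rw [← mul_sum]
  refine mul_le_mul_of_nonneg_left ?_ hb0
  have hm : (0 : ℝ) ≤ m := Nat.cast_nonneg m
  have hl0 : (0 : ℝ) < l := by
    have : 0 < N * g := Nat.mul_pos hN hg
    exact_mod_cast (by omega : 0 < l)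
  have h6' : 6 * (m : ℝ) ≤ l := by exact_mod_cast h6
  have hα : 0 ≤ alpha S T N g x := div_nonneg hκ (by positivity)
  have hθ : 0 ≤ theta l m S N := by
    have : 0 ≤ 1 - (m : ℝ) / l := by
      rw [sub_nonneg, div_le_one hl0]
      linarith
    unfold theta
    positivity
  have hβ : 0 ≤ beta l M T' R τ := by
    unfold beta
    positivity
  have hc : 0 ≤ 1 - 6 * (m : ℝ) / l := by
    rw [sub_nonneg, div_le_one hl0]
    exact h6'
  have hI' : (I.card : ℝ) ≤ h := by exact_mod_cast hI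
  simp only [sum_sub_distrib, ← mul_sum, sum_const, nsmul_eq_mul]
  have e1 : (h : ℝ) * (I.card * theta l m S N) ≤ h * (h * theta l m S N) :=
    mul_le_mul_of_nonneg_left (mul_le_mul_of_nonneg_right hI' hθ) (Nat.cast_nonneg h)
  have e2 : (I.card : ℝ) * (2 * (h : ℝ) ^ 2 * beta l M T' R τ / e) ≤
      h * (2 * (h : ℝ) ^ 2 * beta l M T' R τ / e) :=
    mul_le_mul_of_nonneg_right hI' (by positivity)
  have e3 : (I.card : ℝ) * ((h : ℝ) ^ 2 * e) ≤ h * ((h : ℝ) ^ 2 * e) :=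
    mul_le_mul_of_nonneg_right hI' (by positivity)
  have e4 := mul_le_mul_of_nonneg_left hlam hc
  refine sub_le_sub (mul_le_mul_of_nonneg_left ?_ hα) e1
  linarith

/-- The integer parameters for a large `m`. -/
lemma nat_params {K1 K2 J m : ℕ} (h1 : 0 < K1) (h2 : 0 < K2) (hJ : 12 * K2 ≤ J)
    (hm : K1 * (J * J) ≤ m) :
    ∃ S N R : ℕ, J ≤ S ∧ K1 * (S * S) ≤ m ∧ m ≤ 4 * K1 * (S * S) ∧ J * S ≤ m ∧ N * K2 ≤ m ∧
      12 * S ≤ N ∧ 3 * R ≤ N ∧ m ≤ 8 * K2 * R := by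
  have a1 : J * J ≤ m / K1 := (Nat.le_div_iff_mul_le h1).2 (by rwa [mul_comm])
  have a2 : J ≤ Nat.sqrt (m / K1) := Nat.le_sqrt.2 a1
  have a3 := Nat.sqrt_le (m / K1)
  have a4 := Nat.lt_succ_sqrt (m / K1)
  have a5 := Nat.mul_div_le m K1
  have a6 := Nat.lt_mul_div_succ m h1
  have a7 := Nat.mul_div_le m K2
  have a8 := Nat.lt_mul_div_succ m h2
  generalize Nat.sqrt (m / K1) = S at *
  generalize m / K1 = q at *
  generalize m / K2 = N at *
  have b1 : K1 * (S * S) ≤ m := (Nat.mul_le_mul_left _ a3).trans a5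
  have b0 : 1 ≤ S := by omega
  have b2 : m ≤ 4 * K1 * (S * S) := by
    have : q + 1 ≤ 4 * (S * S) := by nlinarith
    nlinarith [Nat.mul_le_mul_left K1 this]
  have b3 : J * S ≤ m := by nlinarith [Nat.mul_le_mul_right S a2]
  have b4 : 12 * S ≤ N := by
    have : K2 * (12 * S) < K2 * (N + 1) := by nlinarith [Nat.mul_le_mul_right S hJ]
    have := Nat.lt_of_mul_lt_mul_left this
    omega
  refine ⟨S, N, N / 3, a2, b1, b2, b3, by rwa [mul_comm], b4, by omega, ?_⟩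
  have : N + 1 ≤ 8 * (N / 3) := by omega
  nlinarith [Nat.mul_le_mul_left K2 this]

lemma num_k2 {N K1 K2 S g e m : ℝ} (hN : 0 ≤ N) (he : 0 < e) (hS : 0 < S) (hg : 0 < g)
    (hK1 : 1 ≤ K1) (h1 : 4 * K1 * g ^ 2 ≤ K2 * e ^ 3) (q5 : N * K2 ≤ m)
    (q3 : m ≤ 4 * K1 * (S * S)) : N / (e * S / g) ^ 2 ≤ e := by
  rw [div_le_iff₀ (by positivity), div_pow, ← mul_div_assoc, le_div_iff₀ (by positivity)]
  have a1 := mul_le_mul_of_nonneg_left h1 hN
  have a2 : N * K2 * e ^ 3 ≤ 4 * K1 * (S * S) * e ^ 3 :=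
    mul_le_mul_of_nonneg_right (q5.trans q3) (by positivity)
  refine le_of_mul_le_mul_left (a := 4 * K1) ?_ (by linarith)
  nlinarith

lemma num_b {i h S K1 e m : ℝ} (hi : 0 ≤ i) (a1 : i ≤ h * (h * S)) (hm : 0 < m) (he : 0 < e)
    (h1 : 2 * h ^ 4 ≤ K1 * e) (q2 : K1 * (S * S) ≤ m) : 1 - e ≤ 1 - 2 * i ^ 2 / m := by
  have a2 : i ^ 2 ≤ (h * (h * S)) ^ 2 := by gcongr
  have a3 : 2 * i ^ 2 / m ≤ e := by
    rw [div_le_iff₀ hm]
    have a4 := mul_le_mul_of_nonneg_right h1 (mul_self_nonneg S)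
    have a5 := mul_le_mul_of_nonneg_left q2 he.le
    nlinarith
  linarith

lemma num_theta {C m S N : ℕ} (hC : 6 ≤ C) (hm : 0 < m) (hS : S ≤ m) (hN : N ≤ m) :
    theta (C * m) m S N ≤ (m : ℝ) ^ 3 * (1 - 1 / (C : ℝ)) ^ m := by
  have hC' : (6 : ℝ) ≤ C := by exact_mod_cast hC
  have hm0 : (0 : ℝ) < m := by exact_mod_cast hm
  have a1 : (S : ℝ) ≤ m := by exact_mod_cast hS
  have a2 : (N : ℝ) ≤ m := by exact_mod_cast hN
  have a3 : (m : ℝ) / ((C * m : ℕ) : ℝ) = 1 / C := by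
    push_cast
    field_simp
  have a4 : 0 ≤ 1 - 1 / (C : ℝ) := by
    rw [sub_nonneg, div_le_one (by linarith)]
    linarith
  rw [theta, a3]
  refine mul_le_mul_of_nonneg_right ?_ (pow_nonneg a4 m)
  calc (S : ℝ) * N ^ 2 ≤ m * m ^ 2 := by gcongr
    _ = _ := by ring

lemma num_beta {C m K3 T' R : ℕ} {K2 e τ : ℝ} (he : 0 < e) (hC0 : (0 : ℝ) < C)
    (hm0 : (0 : ℝ) < m) (hR0 : (0 : ℝ) < R) (hK20 : 0 < K2) (hK3 : 2 / e ^ 2 ≤ K3)
    (hτ : τ = e ^ 2 / (256 * C ^ 2 * K3 * K2 ^ 2)) (q8 : (m : ℝ) ≤ 8 * K2 * R)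
    (hm1 : 256 * C * T' * K2 ^ 2 / e ^ 2 ≤ m) :
    beta (C * m) (K3 * (C * m)) T' R τ ≤ 3 * e ^ 2 := by
  have hK30 : (0 : ℝ) < K3 := lt_of_lt_of_le (by positivity) hK3
  have a1 : 2 * ((C * m : ℕ) : ℝ) / ((K3 * (C * m) : ℕ) : ℝ) ≤ e ^ 2 := by
    have : 2 * ((C * m : ℕ) : ℝ) / ((K3 * (C * m) : ℕ) : ℝ) = 2 / K3 := by
      push_cast
      field_simp
    rw [this, div_le_iff₀ hK30]
    rw [div_le_iff₀ (by positivity)] at hK3
    linarith
  have a0 : (m : ℝ) ^ 2 ≤ 64 * K2 ^ 2 * R ^ 2 := by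
    calc (m : ℝ) ^ 2 ≤ (8 * K2 * R) ^ 2 := by gcongr
      _ = _ := by ring
  have a2 : 4 * ((C * m : ℕ) : ℝ) * (T' + ((K3 * (C * m) : ℕ) : ℝ) * τ) / (R : ℝ) ^ 2 ≤
      2 * e ^ 2 := by
    rw [div_le_iff₀ (by positivity)]
    push_cast
    have b1 : 4 * ((C : ℝ) * m) * (K3 * (C * m) * τ) = e ^ 2 * m ^ 2 / (64 * K2 ^ 2) := by
      rw [hτ]
      field_simp
      ring
    have b2 : e ^ 2 * (m : ℝ) ^ 2 / (64 * K2 ^ 2) ≤ e ^ 2 * R ^ 2 := by
      rw [div_le_iff₀ (by positivity)]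
      nlinarith [mul_le_mul_of_nonneg_left a0 (sq_nonneg e)]
    rw [div_le_iff₀ (by positivity)] at hm1
    have b4 : 4 * ((C : ℝ) * m) * T' ≤ e ^ 2 * m ^ 2 / (64 * K2 ^ 2) := by
      rw [le_div_iff₀ (by positivity)]
      nlinarith [mul_le_mul_of_nonneg_left hm1 hm0.le]
    linarith
  rw [beta]
  linarith

lemma num_alpha {S T N g : ℕ} {e : ℝ} (he : 0 < e) (he2 : e < 1 / 2) (hS0 : (0 : ℝ) < S)
    (hg0 : (0 : ℝ) < g) (k1 : (T : ℝ) / g ≤ e) (k2 : (N : ℝ) / (e * S / g) ^ 2 ≤ e)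
    (qS : (g : ℝ) ≤ S * e) : (1 - 2 * e) / (1 + 3 * e) ≤ alpha S T N g (e * S / g) := by
  have a1 : (2 * (e * S / g) + 1) * g / S = 2 * e + g / S := by field_simp
  have a2 : (g : ℝ) / S ≤ e := by
    rw [div_le_iff₀ hS0]
    linarith
  have a3 : (0 : ℝ) ≤ g / S := by positivity
  rw [alpha, a1]
  exact div_le_div₀ (by linarith) (by linarith) (by linarith) (by linarith)

lemma num_in {C m : ℕ} {h e lam β : ℝ} (he : 0 < e) (hh : 0 ≤ h) (hl : 0 < lam)
    (hm0 : (0 : ℝ) < m) (hC0 : (0 : ℝ) < C) (hC : 6 ≤ C * e) (hβ : β ≤ 3 * e ^ 2) :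
    (1 - e) * lam - e - h * (6 * h ^ 2 * e + h ^ 2 * e) ≤
      (1 - 6 * (m : ℝ) / ((C * m : ℕ) : ℝ)) * lam - e - h * (2 * h ^ 2 * β / e + h ^ 2 * e) := by
  have a1 : 6 * (m : ℝ) / ((C * m : ℕ) : ℝ) ≤ e := by
    push_cast
    rw [div_le_iff₀ (by positivity)]
    nlinarith
  have a2 : 2 * h ^ 2 * β / e ≤ 6 * h ^ 2 * e := by
    rw [div_le_iff₀ he]
    nlinarith [mul_le_mul_of_nonneg_left hβ (sq_nonneg h)]
  have a3 := mul_le_mul_of_nonneg_left a2 hh
  nlinarith [mul_le_mul_of_nonneg_right a1 hl.le]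

lemma num_pos {a e b : ℝ} (he : 0 < e) (he2 : e < 1 / 2) (hb : 0 < b) (h : b ≤ a * e) :
    b ≤ a := by
  have : 0 < a := by
    by_contra hn
    nlinarith [not_lt.1 hn]
  nlinarith

/-- Paper, theorem M. -/
theorem transfer {lam ε : ℝ} (hε : 0 < ε)
    (hs : ∀ W : ℕ, ∃ n w, W ≤ w ∧ 2 * w ≤ n ∧ Src P n w lam) :
    ∀ᶠ m : ℕ in atTop, (lam - ε) * m.choose (m / 2) ≤ La (B m) P := by
  classical
  rcases le_or_gt lam 0 with hl0 | hl0
  · refine Eventually.of_forall fun m => le_trans ?_ (Nat.cast_nonneg _)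
    exact mul_nonpos_of_nonpos_of_nonneg (by linarith) (Nat.cast_nonneg _)
  obtain ⟨h, hh⟩ : ∃ h, h = Fintype.card P := ⟨_, rfl⟩
  choose n w hW hn I H hSt hlam using hs
  choose lev hlev using fun W a => (hSt W).lev a
  rw [← hh] at hlev
  let z : ℕ → ℕ → ℝ := fun W s => ∑ a ∈ I W, (zg h (H W a) (lev W a) (w W) s +
    ∑ j ∈ range h, (Y (upS (H W a) (lev W a) (w W) j) s -
      Y (upS (H W a) (lev W a) (w W) j) (s + 1)))
  have hd : ∀ W a j s, 0 ≤ Y (upS (H W a) (lev W a) (w W) j) s -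
      Y (upS (H W a) (lev W a) (w W) j) (s + 1) :=
    fun W a j s => sub_nonneg.2 (Y_succ_le (upS_up _ _ _ _) s)
  have hz0 : ∀ W s, 0 ≤ z W s := fun W s => sum_nonneg fun a _ =>
    add_nonneg (zg_nonneg _ _ _ _ _) (sum_nonneg fun j _ => hd W a j s)
  have hzC : ∀ W K, ∑ s ∈ range K, z W s ≤ h * ((h : ℝ) ^ 2 + h) := by
    intro W K
    simp only [z]
    rw [sum_comm]
    have hI : ((I W).card : ℝ) ≤ h := by exact_mod_cast hh ▸ (hSt W).card
    refine (sum_le_card_nsmul _ _ ((h : ℝ) ^ 2 + h) fun a ha => ?_).trans ?_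
    · rw [sum_add_distrib]
      refine add_le_add (zg_sum (hlev W a ha) _ _) ?_
      rw [sum_comm]
      refine (sum_le_card_nsmul _ _ (1 : ℝ) fun j _ => ?_).trans (by simp)
      rw [sum_range_sub']
      have := Y_zero_le (upS_up (H W a) (lev W a) (w W) j)
      have := Y_nonneg (upS (H W a) (lev W a) (w W) j) K
      linarith
    · rw [nsmul_eq_mul]
      exact mul_le_mul_of_nonneg_right hI (by positivity)
  let X : ℝ → ℝ := fun e => (1 - e) * lam - e - h * (6 * (h : ℝ) ^ 2 * e + (h : ℝ) ^ 2 * e)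
  let Z : ℝ → ℝ := fun e => (1 - e) * ((1 - 2 * e) / (1 + 3 * e) * X e - h * (h * e))
  have hX : ContinuousAt X 0 := by
    simp only [X]
    fun_prop
  have hZ : ContinuousAt Z 0 := by
    simp only [Z, X]
    fun_prop (disch := norm_num)
  have ev : ∀ᶠ e in 𝓝 (0 : ℝ), 0 < X e ∧ lam - ε < Z e ∧ e < 1 / 2 :=
    (hX.eventually (lt_mem_nhds (by simpa [X] using hl0))).and
      ((hZ.eventually (lt_mem_nhds (by simpa [Z, X] using hε))).and (gt_mem_nhds (by norm_num)))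
  obtain ⟨e, ⟨hXe, hZe, he2⟩, he⟩ :=
    ((ev.filter_mono nhdsWithin_le_nhds).and (self_mem_nhdsWithin (s := Set.Ioi (0 : ℝ)))).exists
  replace he : 0 < e := he
  obtain ⟨C, hC⟩ := exists_nat_ge (6 / e)
  rw [div_le_iff₀ he] at hC
  have hC12 : (6 : ℝ) ≤ C := num_pos he he2 (by norm_num) hC
  have hC6 : 6 ≤ C := by exact_mod_cast hC12
  obtain ⟨K1, hK1⟩ := exists_nat_ge (2 * (h : ℝ) ^ 4 / e + 1)
  have hK1a : (1 : ℝ) ≤ K1 := le_trans (le_add_of_nonneg_left (by positivity)) hK1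
  have hK1b : 2 * (h : ℝ) ^ 4 ≤ K1 * e := by
    rw [← div_le_iff₀ he]
    linarith
  obtain ⟨T, hT0, hT⟩ := tail_small (hyperfilter ℕ) z hz0 hzC he
  obtain ⟨g, hg⟩ := exists_nat_ge (T / e)
  rw [div_le_iff₀ he] at hg
  have hT1 : (1 : ℝ) ≤ T := by exact_mod_cast hT0
  have hg0 : (0 : ℝ) < g :=
    lt_of_lt_of_le (by linarith only [hT1]) (num_pos he he2 (by linarith only [hT1]) hg)
  obtain ⟨K2, hK2⟩ := exists_nat_ge (4 * K1 * (g : ℝ) ^ 2 / e ^ 3 + g)
  have hK2a : (g : ℝ) ≤ K2 := le_trans (le_add_of_nonneg_left (by positivity)) hK2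
  have hK2b : 4 * K1 * (g : ℝ) ^ 2 ≤ K2 * e ^ 3 := by
    rw [← div_le_iff₀ (by positivity)]
    linarith
  have hK20 : (0 : ℝ) < K2 := hg0.trans_le hK2a
  obtain ⟨K3, hK3⟩ := exists_nat_ge (2 / e ^ 2)
  have hK30 : (0 : ℝ) < K3 := lt_of_lt_of_le (by positivity) hK3
  have hC0 : (0 : ℝ) < C := by linarith
  obtain ⟨τ, hτ⟩ : ∃ τ : ℝ, τ = e ^ 2 / (256 * C ^ 2 * K3 * K2 ^ 2) := ⟨_, rfl⟩
  have hτ0 : 0 < τ := by
    rw [hτ]
    positivity
  obtain ⟨T', -, hT'⟩ := tail_small (hyperfilter ℕ) z hz0 hzC hτ0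
  obtain ⟨J0, hJ0⟩ := exists_nat_ge (g / e)
  rw [div_le_iff₀ he] at hJ0
  obtain ⟨J, hJ⟩ : ∃ J, J = J0 + 12 * K2 + (T + 1) + 2 * (h * h) := ⟨_, rfl⟩
  obtain ⟨m1, hm1⟩ := exists_nat_ge (256 * C * T' * (K2 : ℝ) ^ 2 / e ^ 2)
  have hρ : |1 - 1 / (C : ℝ)| < 1 := by
    have : 1 / (C : ℝ) ≤ 1 := by
      rw [div_le_one hC0]
      linarith
    have : 0 < 1 / (C : ℝ) := by positivity
    rw [abs_lt]
    constructor <;> linarith
  filter_upwards [eventually_ge_atTop (K1 * (J * J)), eventually_ge_atTop m1,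
    (tendsto_pow_const_mul_const_pow_of_abs_lt_one 3 hρ).eventually (gt_mem_nhds he)]
    with m hmJ hmm1 hmθ
  have hK1n : 0 < K1 := by exact_mod_cast (by linarith : (0 : ℝ) < K1)
  have hK2n : 0 < K2 := by exact_mod_cast hK20
  have hK3n : 0 < K3 := by exact_mod_cast hK30
  have hgn : 0 < g := by exact_mod_cast hg0
  have hgK : g ≤ K2 := by exact_mod_cast hK2a
  obtain ⟨S, N, R, p1, p2, p3, p4, p5, p6, p7, p8⟩ := nat_params hK1n hK2n (by omega) hmJ
  have hSn : 0 < S := by omega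
  have hNn : 0 < N := by omega
  have hNg : N * g ≤ m := (Nat.mul_le_mul_left N hgK).trans p5
  have hNg2 : N ≤ N * g := Nat.le_mul_of_pos_right N hgn
  have hmn : 0 < m := by omega
  have hRn : 0 < R := by
    rcases Nat.eq_zero_or_pos R with r0 | r0
    · rw [r0] at p8
      omega
    · exact r0
  have hhS : 2 * (h * (h * S)) ≤ m := by
    have : 2 * (h * h) * S ≤ J * S := Nat.mul_le_mul_right S (by omega)
    calc _ = 2 * (h * h) * S := by ring
      _ ≤ m := this.trans p4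
  have hm0 : (0 : ℝ) < m := by exact_mod_cast hmn
  have hS0 : (0 : ℝ) < S := by exact_mod_cast hSn
  have hR0 : (0 : ℝ) < R := by exact_mod_cast hRn
  have q2 : (K1 : ℝ) * (S * S) ≤ m := by exact_mod_cast p2
  have q3 : (m : ℝ) ≤ 4 * K1 * (S * S) := by exact_mod_cast p3
  have q5 : (N : ℝ) * K2 ≤ m := by exact_mod_cast p5
  have q8 : (m : ℝ) ≤ 8 * K2 * R := by exact_mod_cast p8
  have qS : (g : ℝ) ≤ S * e := by
    have : (J0 : ℝ) ≤ S := by exact_mod_cast (by omega : J0 ≤ S)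
    exact hJ0.trans (mul_le_mul_of_nonneg_right this he.le)
  obtain ⟨W, ⟨w1, w2⟩, w3⟩ := (((hT (C * m)).and (hT' (K3 * (C * m)))).and
    (Nat.hyperfilter_le_atTop (eventually_ge_atTop (C * m)))).exists
  have k1 : (T : ℝ) / g ≤ e := by
    rw [div_le_iff₀ hg0]
    linarith only [hg]
  have k2 : (N : ℝ) / (e * S / g) ^ 2 ≤ e :=
    num_k2 (Nat.cast_nonneg N) he hS0 hg0 hK1a hK2b q5 q3
  have hb : ∀ t, m / 2 ≤ t → t < m / 2 + h * (h * S) →
      (1 - e) * (m.choose (m / 2) : ℝ) ≤ m.choose t := by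
    intro t t1 t2
    obtain ⟨i, rfl⟩ := Nat.exists_eq_add_of_le t1
    refine le_trans (mul_le_mul_of_nonneg_right ?_ (Nat.cast_nonneg _)) (choose_near hmn i)
    have a1 : (i : ℝ) ≤ h * (h * S) := by exact_mod_cast (by omega : i ≤ h * (h * S))
    exact num_b (Nat.cast_nonneg i) a1 hm0 he hK1b q2
  have main := stack_transfer (l := C * m) (m := m) (S := S) (T := T) (N := N) (g := g) (R := R)
    (M := K3 * (C * m)) (T' := T') (x := e * S / g) (e := e) (τ := τ) (τ0 := e)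
    (b := (1 - e) * (m.choose (m / 2) : ℝ)) hh (hSt W) (lev W) (hlev W) (hlam W) (hn W)
    (w3.trans (hW W)) (Nat.mul_le_mul_right m hC6) hNn hgn hNg (by omega) (by omega) hSn hRn
    (Nat.mul_pos hK3n (Nat.mul_pos (by omega) hmn)) (by positivity) he hτ0.le
    (by linarith only [k1, k2, he2]) (mul_nonneg (by linarith only [he2]) (Nat.cast_nonneg _)) hb
    (by
      refine le_trans ?_ w1
      rw [sum_comm]
      exact sum_le_sum fun s _ => sum_le_sum fun a _ =>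
        le_add_of_nonneg_right (sum_nonneg fun j _ => hd W a j s))
    (by
      intro a ha j hj
      rcases le_total T' (K3 * (C * m)) with c | c
      · refine le_trans ?_ w2
        have e1 := sum_Ico_sub (fun s => -Y (upS (H W a) (lev W a) (w W) j) s) c
        have e2 : ∑ s ∈ Ico T' (K3 * (C * m)), (-Y (upS (H W a) (lev W a) (w W) j) (s + 1) -
            -Y (upS (H W a) (lev W a) (w W) j) s) ≤ ∑ s ∈ Ico T' (K3 * (C * m)), z W s := by
          refine sum_le_sum fun s _ => ?_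
          have b1 := single_le_sum (f := fun j => Y (upS (H W a) (lev W a) (w W) j) s -
            Y (upS (H W a) (lev W a) (w W) j) (s + 1)) (fun j _ => hd W a j s) (mem_range.2 hj)
          have b2 := single_le_sum (f := fun a => zg h (H W a) (lev W a) (w W) s +
            ∑ j ∈ range h, (Y (upS (H W a) (lev W a) (w W) j) s -
              Y (upS (H W a) (lev W a) (w W) j) (s + 1))) (fun a _ =>
            add_nonneg (zg_nonneg _ _ _ _ _) (sum_nonneg fun j _ => hd W a j s)) ha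
          have b3 := zg_nonneg h (H W a) (lev W a) (w W) s
          simp only [z]
          linarith only [b1, b2, b3]
        linarith only [e1, e2]
      · have := Y_anti (upS_up (H W a) (lev W a) (w W) j) c
        linarith only [this, hτ0])
  refine le_trans ?_ main
  rw [mul_right_comm]
  refine mul_le_mul_of_nonneg_right (hZe.le.trans ?_) (Nat.cast_nonneg _)
  refine mul_le_mul_of_nonneg_left ?_ (by linarith only [he2])
  have hθ : theta (C * m) m S N ≤ e :=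
    (num_theta hC6 hmn (by omega) (by omega)).trans hmθ.le
  have hβ := num_beta he hC0 hm0 hR0 hK20 hK3 hτ q8 (hm1.trans (by exact_mod_cast hmm1))
  have hα := num_alpha he he2 hS0 hg0 k1 k2 qS
  have hin := num_in he (Nat.cast_nonneg h : (0 : ℝ) ≤ h) hl0 hm0 hC0 hC hβ
  refine sub_le_sub (mul_le_mul hα hin hXe.le ?_) (by gcongr)
  exact le_trans (div_nonneg (by linarith only [he2]) (by linarith only [he])) hα

end Pool.Agent.Work.MP_84019e_co.Cube
end

-- merged part: Pool.Agent.Work.MP_84019e_co.GridLimit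
section
-- merged part: Pool.Agent.Work.MP_84019e_co.GridDim
section
set_option autoImplicit false

namespace Pool.Agent.Work.MP_84019e_co

open Finset Filter Topology

variable {P : Type} [PartialOrder P]

theorem compare [Fintype P] [Nonempty P] {n : ℕ} {f c δ : ℝ} (hδ : 0 < δ) (hδ1 : δ ≤ 1 / 20)
    (hd : 36 ≤ δ ^ 6 * ((n + 1 : ℕ) + 1))
    (hf : Tendsto (fun k : ℕ => (G P (n + 1 + 1) k : ℝ) / k ^ (n + 1)) atTop (𝓝 f))
    (hc : Tendsto (fun k : ℕ => (G (Fin 2) (n + 1 + 1) k : ℝ) / k ^ (n + 1)) atTop (𝓝 c)) :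
    ∀ᶠ m : ℕ in atTop, ∀ f' c' : ℝ,
      Tendsto (fun k : ℕ => (G P (m + 1) k : ℝ) / k ^ m) atTop (𝓝 f') →
      Tendsto (fun k : ℕ => (G (Fin 2) (m + 1) k : ℝ) / k ^ m) atTop (𝓝 c') →
      f' / c' ≤ ((f / c + δ) * ((1 + δ) ^ 2 * (1 + 2 * δ) / (1 - 17 * δ)) +
        Fintype.card P * δ) * ((1 / 6 + 2 * δ) * (1 + δ) ^ 2 / ((1 - δ) ^ 2 * (1 / 6 - 2 * δ))) +
        (2 + 4 * Fintype.card P) * δ := by
  classical
  set h : ℕ := Fintype.card P with hh
  have hh0 : (0 : ℝ) ≤ h := Nat.cast_nonneg h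
  have hc0 := lim_two_pos hc
  have hf0 := lim_nonneg hf
  obtain ⟨ω, hω, hω1, hLev⟩ := dside h hδ hδ1 hd hf hc
  obtain ⟨B, hB⟩ := ((tendsto_pow_atTop_atTop_of_one_lt (r := 1 + δ * ω / (n + 2))
    (lt_add_of_pos_right _ (by positivity))).eventually (eventually_ge_atTop (4 * h / δ))).exists
  filter_upwards [ev_ge_mul hδ (B * (n + 2)), eventually_ge_atTop (n + 1)] with m hm1 hm2 f' c'
    hf' hc'
  have hc'0 := lim_two_pos hc'
  have hBd : (B : ℝ) * (n + 2) ≤ δ * (m + 1) := by linarith only [hm1, hδ]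
  have hδ2 : δ ≤ 1 := by linarith only [hδ1]
  have h17 : 0 < 1 - 17 * δ := by linarith only [hδ1]
  have h12 : 0 < 1 / 6 - 2 * δ := by linarith only [hδ1]
  have h11 : 0 < 1 - δ := by linarith only [hδ1]
  have p1 : 0 ≤ 1 + δ := by linarith only [hδ]
  have p2 : 0 ≤ 1 + 2 * δ := by linarith only [hδ]
  have p6 : 0 ≤ 6 + 6 * (h : ℝ) := by linarith only [hh0]
  have hD : 36 ≤ δ ^ 6 * (m + 1) := by
    refine hd.trans ?_
    gcongr
  obtain ⟨lam', hl0, ⟨hl1, hl2⟩⟩ := small_param ((ev_pow_lt 2 m hδ).and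
    (ev_mul_lt 1 (show 0 < 3 / 4 * δ by linarith only [hδ])))
  obtain ⟨κ, hκ0, ⟨hκ1, hκ2⟩⟩ := small_param ((ev_pow_gt 4 m hδ).and (ev_mul_lt 8 one_pos))
  obtain ⟨γ, hγ0, ⟨hγ1, hγ2⟩⟩ := small_param ((ev_mul_lt (h * 2 ^ m + 2 * h * 12 ^ m)
    (mul_pos hδ hc'0)).and (ev_mul_lt 1 one_pos))
  rw [one_mul] at hl2 hγ2
  have hκ3 : κ ≤ 1 := by linarith only [hκ2, hκ0]
  have hl3 : lam' ≤ 1 := by linarith only [hl2, hδ1]
  obtain ⟨ε, hε⟩ : ∃ ε : ℝ, ε = δ * γ * ω * lam' * κ / 6 := ⟨_, rfl⟩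
  have hε0 : 0 < ε := by rw [hε]; positivity
  have hε1 : ε ≤ γ * κ / 6 := by
    have : δ * γ * ω * lam' * κ ≤ 1 * γ * 1 * 1 * κ := by gcongr
    linarith only [this, hε]
  have hε2 : γ * κ ≤ γ * 1 := mul_le_mul_of_nonneg_left hκ3 hγ0.le
  obtain ⟨r, hr⟩ : ∃ r : ℕ, 1 ≤ δ * γ * r := by
    have := Nat.le_ceil (1 / (δ * γ))
    rw [div_le_iff₀' (mul_pos hδ hγ0)] at this
    exact ⟨_, this⟩
  have hfl : Tendsto (fun s : ℕ => ⌊lam' * s⌋₊) atTop atTop :=
    tendsto_nat_floor_atTop.comp (tendsto_natCast_atTop_atTop.const_mul_atTop hl0)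
  obtain ⟨s0, hs0⟩ := eventually_atTop.1 ((hfl.eventually hLev).and ((ev_ge_mul hε0 1).and
    ((ev_ge_mul hl0 2).and (ev_ge_mul hκ0 (2 + r)))))
  obtain ⟨k0, hk0⟩ := eventually_atTop.1 ((ev_G_le (mul_pos hδ hc'0) hc').and
    ((ev_ge_mul hδ 2).and (ev_ge_mul hl0 (12 + 12 * h))))
  obtain ⟨N, hN0, hN, K, hK0, hK, S, hfree, hcard, h𝒢, hbad⟩ := exists_setup (P := P)
    (a := f' - δ * c') ((hf'.eventually (lt_mem_nhds (sub_lt_self f' (mul_pos hδ hc'0)))).mono
      fun k hk => hk.le).frequently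
    (ε := ε) (R := 3 + (γ + 5 * ε + 6 * h) / γ) (M := 4 * ε + 6 * h + 1) (η := γ) hε0
    (by positivity) (by linarith only [hε0, hh0]) hγ0 ⌈(12 + 12 * h) / lam'⌉₊ fun N => N * s0 + N + k0
  obtain ⟨hs1, hs2, hs3⟩ := side_bounds (K := K) hN
  have hR3 : 3 ≤ 3 + (γ + 5 * ε + 6 * h) / γ := le_add_of_nonneg_right (by positivity)
  have hloss := S.loss' hN (by omega) hγ0 hε0.le (by linarith only [hε1, hε2, hγ0]) hR3 h𝒢 hbad
  have hss : s0 ≤ K / N + 1 := by
    have : s0 ≤ K / N := (Nat.le_div_iff_mul_le hN).2 (by rw [mul_comm]; omega)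
    omega
  generalize K / N + 1 = s at S hfree hcard h𝒢 hbad hs1 hs2 hs3 hloss hss
  obtain ⟨⟨hL, J, hJ, hωJ, hW, hGL⟩, hεs, hls, hκs⟩ := hs0 s hss
  set L : ℕ := ⌊lam' * s⌋₊ with hLdef
  have hN' : (0 : ℝ) < N := by exact_mod_cast hN
  have hK' : (0 : ℝ) < K := by exact_mod_cast hK
  have hs' : (0 : ℝ) < s := lt_of_lt_of_le (div_pos hK' hN') hs2
  have hs : 0 < s := by exact_mod_cast hs'
  have hL1 : (L : ℝ) ≤ lam' * s := Nat.floor_le (mul_pos hl0 hs').le
  have hL2 : lam' * s ≤ 2 * L := by linarith only [Nat.lt_floor_add_one (lam' * s), hls]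
  clear_value L
  have hL' : (0 : ℝ) < L := by exact_mod_cast hL
  have hLs : L ≤ s := by
    have : (L : ℝ) ≤ s := hL1.trans (mul_le_of_le_one_left hs'.le hl3)
    exact_mod_cast this
  have hεL : 3 * (ε * s) ≤ δ * γ * ω * L := by
    calc 3 * (ε * s) = δ * γ * ω * κ * (lam' * s) / 2 := by rw [hε]; ring
      _ ≤ δ * γ * ω * 1 * (2 * L) / 2 := by gcongr
      _ = _ := by ring
  have hsL : (s + 2 * L : ℝ) ^ m ≤ (1 + δ) * s ^ m := by
    calc (s + 2 * L : ℝ) ^ m ≤ ((1 + 2 * lam') * s) ^ m :=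
          pow_le_pow_left₀ (by linarith only [hs', hL']) (by linarith only [hL1]) m
      _ ≤ _ := by rw [mul_pow]; exact mul_le_mul_of_nonneg_right hl1.le (pow_pos hs' m).le
  obtain ⟨-, hKδ, hKl⟩ := hk0 K (by omega)
  have hCs : (6 + 6 * h) * s ≤ lam' * K := by
    have a1 : (12 + 12 * h) / lam' ≤ N := Nat.ceil_le.1 hN0
    rw [div_le_iff₀ hl0] at a1
    have a2 : (6 + 6 * h) * (K / N) ≤ lam' / 2 * (K : ℝ) := by
      rw [mul_div_assoc', div_le_iff₀ hN']
      linarith only [mul_le_mul_of_nonneg_right a1 hK'.le]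
    have a3 : (6 + 6 * h) * (s : ℝ) ≤ (6 + 6 * h) * (K / N + 1) := mul_le_mul_of_nonneg_left hs3 p6
    linarith only [a2, a3, hKl]
  obtain ⟨k, hk⟩ : ∃ k : ℕ, k = K + (6 + 6 * h) * s := ⟨_, rfl⟩
  have hKk : K ≤ k := hk ▸ Nat.le_add_right _ _
  have hKk' : (K : ℝ) ≤ k := by exact_mod_cast hKk
  have hkR : (k : ℝ) = K + (6 + 6 * h) * s := by rw [hk]; push_cast; ring
  obtain ⟨hGk, hkδ, -⟩ := hk0 k (by omega)
  have hk1 : (1 : ℝ) ≤ k := by exact_mod_cast hK.trans_le hKk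
  have hk2 : 2 ≤ δ * k ^ 2 := by
    linarith only [hkδ, mul_le_mul_of_nonneg_left hk1 (zero_le_two.trans hkδ)]
  have hk3 : (6 + 6 * h) * s ≤ 3 / 4 * δ * k :=
    hCs.trans (mul_le_mul hl2.le hKk' hK'.le (by linarith only [hδ]))
  have hKm : (0 : ℝ) < K ^ m := pow_pos hK' m
  have hGk' : (G (Fin 2) (m + 1) k : ℝ) ≤ (1 + δ) ^ 2 * (c' * K ^ m) := by
    refine hGk.trans ?_
    have a1 : (k : ℝ) ^ m ≤ (1 + δ) * K ^ m := by
      calc (k : ℝ) ^ m ≤ ((1 + 2 * lam') * K) ^ m :=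
            pow_le_pow_left₀ (Nat.cast_nonneg k)
              (by linarith only [hkR, hCs, mul_pos hl0 hK']) m
        _ ≤ _ := by rw [mul_pow]; exact mul_le_mul_of_nonneg_right hl1.le hKm.le
    calc (c' + δ * c') * (k : ℝ) ^ m ≤ (c' + δ * c') * ((1 + δ) * K ^ m) :=
          mul_le_mul_of_nonneg_left a1 (add_pos hc'0 (mul_pos hδ hc'0)).le
      _ = _ := by ring
  obtain ⟨q, hq1, hq2⟩ : ∃ q : ℕ, κ * s + 1 ≤ q ∧ (q : ℝ) ≤ κ * s + 2 := by
    refine ⟨⌈κ * s⌉₊ + 1, ?_, ?_⟩ <;> push_cast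
    · linarith only [Nat.le_ceil (κ * s)]
    · linarith only [Nat.ceil_lt_add_one (mul_pos hκ0 hs').le]
  have hsm : (0 : ℝ) < s ^ m := pow_pos hs' m
  have hqs : 2 * q + 2 * r ≤ s := by
    have : 2 * (q : ℝ) + 2 * r ≤ s := by
      linarith only [hq2, hκs, hs', mul_le_mul_of_nonneg_right hκ2.le hs'.le]
    exact_mod_cast this
  obtain ⟨n0, hn0⟩ : ∃ n0, n0 + 2 * q + 2 * r = s := ⟨s - (2 * q + 2 * r), by omega⟩
  have hn0' : (1 - δ) * (s : ℝ) ^ m ≤ n0 ^ m := by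
    have a1 : (n0 : ℝ) + 2 * q + 2 * r = s := by exact_mod_cast hn0
    calc (1 - δ) * (s : ℝ) ^ m ≤ (1 - 4 * κ) ^ m * s ^ m :=
          mul_le_mul_of_nonneg_right hκ1.le hsm.le
      _ = ((1 - 4 * κ) * s) ^ m := (mul_pow _ _ _).symm
      _ ≤ _ := pow_le_pow_left₀ (mul_nonneg (by linarith only [hκ2]) hs'.le)
          (by linarith only [a1, hq2, hκs]) m
  have hdata := fun i (hi : i ∈ S.idx γ) => S.piece_data hi hR3 hε0.le hγ0 hδ hδ1 hω hω1 hL hLs hJ
    hωJ hεs hεL hsL hB hBd (by omega) hW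
  have : Nonempty (Fin (n + 2) ↪ Fin (m + 1)) := ⟨Fin.castLEEmb (by omega)⟩
  choose! a τ u A ha1 ha2 hA1 hA2 hA3 using hdata
  set I := (S.idx γ).filter fun i => ∃ x ∈ S.piece i, ¬ Atyp k δ x with hI
  have hIs : I ⊆ S.idx γ := filter_subset _ _
  have hIne : ∀ i ∈ I, (S.piece i).Nonempty := fun i hi =>
    let ⟨x, hx, _⟩ := (mem_filter.1 hi).2
    ⟨x, hx⟩
  obtain ⟨X0, hX0⟩ : ∃ X0 : ℝ, X0 = (1 + δ) ^ 2 * (1 + 2 * δ) / (1 - 17 * δ) := ⟨_, rfl⟩
  obtain ⟨Y0, hY0⟩ : ∃ Y0 : ℝ,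
    Y0 = (1 / 6 + 2 * δ) * (1 + δ) ^ 2 / ((1 - δ) ^ 2 * (1 / 6 - 2 * δ)) := ⟨_, rfl⟩
  rw [← hX0, ← hY0]
  have hmain := antiblock S.prec I
    (fun a ha b hb c _ h1 h2 => Setup.prec_trans (hIs ha) (hIs hb) (hIne a ha) (hIne b hb) h1 h2)
    (fun a _ h => h.1 rfl) (fun i => a i * s ^ m) (Y0 * (c' * K ^ m)) (fun 𝒜 h𝒜 hanti => by
      have b1 := Setup.anti_flux (S := S) (γ := γ) (κ := κ) hs hε0 hγ0 hκ0.le
        (by linarith only [hε1, hε2, hγ2, hγ0]) (by linarith only [hε1, hε0])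
        (by rw [mul_add, mul_div_cancel₀ _ hγ0.ne']; linarith only [hγ0]) (lt_add_one _) hεs hδ
        (by linarith only [hδ1]) hD hk hk2 hk3 hq1 hn0 hr (h𝒜.trans hIs) hanti
        (fun i hi => (mem_filter.1 (h𝒜 hi)).2) a (fun i hi => ha1 i (hIs (h𝒜 hi)))
        fun i hi => ha2 i (hIs (h𝒜 hi))
      have b2 : 0 ≤ ∑ i ∈ 𝒜, a i := sum_nonneg fun i hi => hγ0.le.trans (ha1 i (hIs (h𝒜 hi)))
      rw [← sum_mul, hY0, div_mul_eq_mul_div, le_div_iff₀ (mul_pos (pow_pos h11 2) h12)]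
      calc (∑ i ∈ 𝒜, a i) * s ^ m * ((1 - δ) ^ 2 * (1 / 6 - 2 * δ))
          = (∑ i ∈ 𝒜, a i) * (((1 - δ) * s ^ m) * ((1 - δ) * (1 / 6 - 2 * δ))) := by ring
        _ ≤ (∑ i ∈ 𝒜, a i) * (n0 ^ m * ((1 - δ) * (1 / 6 - 2 * δ))) :=
          mul_le_mul_of_nonneg_left (mul_le_mul_of_nonneg_right hn0' (mul_pos h11 h12).le) b2
        _ ≤ _ := b1
        _ ≤ (1 / 6 + 2 * δ) * ((1 + δ) ^ 2 * (c' * K ^ m)) :=
          mul_le_mul_of_nonneg_left hGk' (by linarith only [hδ])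
        _ = _ := by ring) _ (fun i => (S.piece i).card / (a i * s ^ m))
    ((f / c + δ) * X0 + h * δ) le_rfl
    (fun i hi => div_nonneg (Nat.cast_nonneg _)
      (mul_nonneg (hγ0.le.trans (ha1 i (hIs hi))) hsm.le)) (fun C hC hch => by
      obtain ⟨b1, b2⟩ := Setup.chain_sum hfree (hC.trans hIs) (fun i hi => hIne i (hC hi)) hch τ u A
        (fun i hi => hA1 i (hIs (hC hi))) fun i hi => hA2 i (hIs (hC hi))
      have b3 : (0 : ℝ) < L ^ (n + 1) * (c * (1 - 17 * δ)) := mul_pos (pow_pos hL' _) (mul_pos hc0 h17)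
      have b0 := div_nonneg (mul_nonneg p1 p2) b3.le
      have b4 : ∀ i ∈ C, ((S.piece i).card : ℝ) / (a i * s ^ m) ≤
          (A i).card * ((1 + δ) * (1 + 2 * δ) / (L ^ (n + 1) * (c * (1 - 17 * δ)))) + δ := by
        intro i hi
        have c1 : 0 < a i * s ^ m := mul_pos (hγ0.trans_le (ha1 i (hIs (hC hi)))) hsm
        rcases hA3 i (hIs (hC hi)) with c2 | c2
        · refine le_add_of_le_of_nonneg ?_ hδ.le
          exact ((div_le_div_iff₀ c1 b3).2 c2).trans_eq (mul_div_assoc _ _ _)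
        · refine le_add_of_nonneg_of_le (mul_nonneg (Nat.cast_nonneg _) b0) ?_
          rw [div_le_iff₀ c1]
          exact c2
      refine (sum_le_sum b4).trans ?_
      rw [sum_add_distrib, ← sum_mul, sum_const, nsmul_eq_mul]
      have b5 : ∑ i ∈ C, ((A i).card : ℝ) ≤ (f + δ * c) * (1 + δ) * L ^ (n + 1) :=
        le_trans (by exact_mod_cast b2) hGL
      have b6 : (C.card : ℝ) * δ ≤ h * δ := mul_le_mul_of_nonneg_right (Nat.cast_le.2 b1) hδ.le
      have b7 : (f + δ * c) * (1 + δ) * L ^ (n + 1) *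
          ((1 + δ) * (1 + 2 * δ) / (L ^ (n + 1) * (c * (1 - 17 * δ)))) = (f / c + δ) * X0 := by
        rw [hX0]
        have b9 := (pow_pos hL' (n + 1)).ne'
        have b10 := h17.ne'
        have b11 := hc0.ne'
        generalize (L : ℝ) ^ (n + 1) = y at b9
        generalize 1 - 17 * δ = z at b10
        field_simp
      have b8 : (∑ i ∈ C, ((A i).card : ℝ)) *
          ((1 + δ) * (1 + 2 * δ) / (L ^ (n + 1) * (c * (1 - 17 * δ)))) ≤
          (f + δ * c) * (1 + δ) * L ^ (n + 1) *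
          ((1 + δ) * (1 + 2 * δ) / (L ^ (n + 1) * (c * (1 - 17 * δ)))) := mul_le_mul_of_nonneg_right b5 b0
      exact add_le_add (b8.trans_eq b7) b6)
  rw [sum_congr rfl fun i hi => div_mul_cancel₀ _
    (mul_pos (hγ0.trans_le (ha1 i (hIs hi))) hsm).ne'] at hmain
  have hat := S.atyp_loss (γ := γ) hKk hδ hδ2 hD hk2
  have hsplit := sum_filter_add_sum_filter_not (S.idx γ) (fun i => ∃ x ∈ S.piece i, ¬ Atyp k δ x)
    fun i => ((S.piece i).card : ℝ)
  have e1 : (h : ℝ) * (δ * G (Fin 2) (m + 1) k) ≤ h * (δ * (4 * (c' * K ^ m))) :=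
    mul_le_mul_of_nonneg_left (mul_le_mul_of_nonneg_left (hGk'.trans (mul_le_mul_of_nonneg_right
      (by linarith only [hδ2, mul_le_mul_of_nonneg_left hδ2 hδ.le]) (mul_pos hc'0 hKm).le)) hδ.le) hh0
  have e2 : (h * 2 ^ m + 2 * h * 12 ^ m) * γ * (K : ℝ) ^ m ≤ δ * c' * K ^ m :=
    mul_le_mul_of_nonneg_right hγ1.le hKm.le
  rw [div_le_iff₀ hc'0]
  apply le_of_mul_le_mul_right _ hKm
  have e3 : ∑ i ∈ (S.idx γ).filter (fun i => ¬ ∃ x ∈ S.piece i, ¬ Atyp k δ x),
      ((S.piece i).card : ℝ) ≤ h * (δ * G (Fin 2) (m + 1) k) := by convert hat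
  linarith only [e1, e2, e3, hmain, hsplit, hloss, hcard]

end Pool.Agent.Work.MP_84019e_co
end

-- merged part: Pool.Agent.Work.MP_84019e_co.GridLimit
section
set_option autoImplicit false

namespace Pool.Agent.Work.MP_84019e_co

open Finset Filter Topology

variable {P : Type} [PartialOrder P] [Fintype P] [Nonempty P]

lemma G_le_two (d k : ℕ) : G P d k ≤ G (Fin 2) d k * Fintype.card P := by
  classical
  obtain ⟨F, hF1, hF2, hF3⟩ := G_spec (P := P) d k
  obtain ⟨lev, h1, h2⟩ := exists_lev hF2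
  rw [← hF3, ← card_range (Fintype.card P)]
  refine card_le_mul_card_image_of_maps_to (f := lev) (fun x hx => mem_range.2 (h1 x hx)) _
    fun b _ => le_G ((filter_subset _ _).trans hF1) ?_
  rw [weakFree_two_iff]
  intro x hx y hy hne hle
  have hx' := mem_filter.1 (mem_coe.1 hx)
  have hy' := mem_filter.1 (mem_coe.1 hy)
  have := h2 x hx'.1 y hy'.1 (lt_of_le_of_ne hle hne)
  omega

lemma ratio_le {m : ℕ} {f c : ℝ}
    (hf : Tendsto (fun k : ℕ => (G P (m + 1) k : ℝ) / k ^ m) atTop (𝓝 f))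
    (hc : Tendsto (fun k : ℕ => (G (Fin 2) (m + 1) k : ℝ) / k ^ m) atTop (𝓝 c)) :
    f / c ≤ Fintype.card P := by
  rw [div_le_iff₀ (lim_two_pos hc)]
  refine le_of_tendsto_of_tendsto' hf (hc.const_mul _) fun k => ?_
  rw [← mul_div_assoc, mul_comm]
  gcongr
  exact_mod_cast G_le_two (m + 1) k

lemma near_dims (F C : ℕ → ℝ)
    (hF : ∀ m, Tendsto (fun k : ℕ => (G P (m + 1) k : ℝ) / k ^ m) atTop (𝓝 (F m)))
    (hC : ∀ m, Tendsto (fun k : ℕ => (G (Fin 2) (m + 1) k : ℝ) / k ^ m) atTop (𝓝 (C m)))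
    {e : ℝ} (he : 0 < e) :
    ∀ᶠ n in atTop, ∀ᶠ m in atTop, F m / C m ≤ F (n + 1) / C (n + 1) + e := by
  set h : ℝ := ((Fintype.card P : ℕ) : ℝ) with hh
  let A : ℝ → ℝ := fun δ => (1 + δ) ^ 2 * (1 + 2 * δ) / (1 - 17 * δ)
  let Y : ℝ → ℝ := fun δ => (1 / 6 + 2 * δ) * (1 + δ) ^ 2 / ((1 - δ) ^ 2 * (1 / 6 - 2 * δ))
  have hA : ContinuousAt A 0 := by
    simp only [A]
    fun_prop (disch := norm_num)
  have hY : ContinuousAt Y 0 := by
    simp only [Y]
    fun_prop (disch := norm_num)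
  have hg : ContinuousAt (fun δ => h * |A δ * Y δ - 1| + (δ * A δ + h * δ) * Y δ +
      (2 + 4 * h) * δ) 0 := by fun_prop
  have h0 : h * |A 0 * Y 0 - 1| + (0 * A 0 + h * 0) * Y 0 + (2 + 4 * h) * 0 < e := by
    simpa [A, Y] using he
  obtain ⟨δ, hδ, h1, h2⟩ := small_param ((hg.eventually (gt_mem_nhds h0)).and
    (ev_mul_lt 20 one_pos))
  filter_upwards [ev_ge_mul (pow_pos hδ 6) 36] with n hn
  have hd : 36 ≤ δ ^ 6 * ((n + 1 : ℕ) + 1) := by
    refine hn.trans ?_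
    gcongr
    push_cast
    linarith
  filter_upwards [compare hδ (by linarith) hd (hF (n + 1)) (hC (n + 1))] with m hm
  have h3 : F m / C m ≤ ((F (n + 1) / C (n + 1) + δ) * A δ + h * δ) * Y δ + (2 + 4 * h) * δ :=
    hm _ _ (hF m) (hC m)
  have h4 : F (n + 1) / C (n + 1) ≤ h := ratio_le (hF _) (hC _)
  have h5 : 0 ≤ F (n + 1) / C (n + 1) := div_nonneg (lim_nonneg (hF _)) (lim_two_pos (hC _)).le
  generalize F (n + 1) / C (n + 1) = x at h3 h4 h5 ⊢
  have h6 : x * (A δ * Y δ - 1) ≤ h * |A δ * Y δ - 1| :=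
    (mul_le_mul_of_nonneg_left (le_abs_self _) h5).trans
      (mul_le_mul_of_nonneg_right h4 (abs_nonneg _))
  linarith

theorem dim_limit (F C : ℕ → ℝ)
    (hF : ∀ m, Tendsto (fun k : ℕ => (G P (m + 1) k : ℝ) / k ^ m) atTop (𝓝 (F m)))
    (hC : ∀ m, Tendsto (fun k : ℕ => (G (Fin 2) (m + 1) k : ℝ) / k ^ m) atTop (𝓝 (C m))) :
    ∃ L : ℝ, Tendsto (fun m => F m / C m) atTop (𝓝 L) := by
  let u : ℕ → ℝ := fun m => F m / C m
  have h1 : IsBoundedUnder (· ≤ ·) atTop u :=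
    isBoundedUnder_of ⟨_, fun m => ratio_le (hF m) (hC m)⟩
  have h2 : IsBoundedUnder (· ≥ ·) atTop u :=
    isBoundedUnder_of ⟨0, fun m => div_nonneg (lim_nonneg (hF m)) (lim_two_pos (hC m)).le⟩
  refine ⟨limsup u atTop, tendsto_order.2 ⟨fun b hb => ?_, fun b hb => ?_⟩⟩
  · obtain ⟨n0, hn0⟩ := eventually_atTop.1
      (near_dims F C hF hC (e := (limsup u atTop - b) / 2) (by linarith))
    filter_upwards [eventually_gt_atTop n0] with n hn
    obtain ⟨n, rfl⟩ : ∃ n', n = n' + 1 := ⟨n - 1, by omega⟩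
    have h3 : limsup u atTop ≤ u (n + 1) + (limsup u atTop - b) / 2 :=
      limsup_le_of_le h2.isCoboundedUnder_le (hn0 n (by omega))
    show b < u (n + 1)
    linarith
  · exact eventually_lt_of_limsup_lt hb h1

end Pool.Agent.Work.MP_84019e_co
end
end

-- merged part: Pool.Agent.Work.MP_84019e_co.Cube.UpMain
section
set_option autoImplicit false

namespace Pool.Agent.Work.MP_84019e_co.Cube

open Finset
open Filter Topology

variable {P : Type} [PartialOrder P] [Fintype P] [Nonempty P]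

lemma upm_card {n : ℕ} (F : Finset (B n)) :
    (F.card : ℝ) = ∑ s ∈ range (n + 1), pd (· ∈ F) s * n.choose s := by
  rw [card_eq_sum_card_fiberwise (f := fun A : B n => A.card) (t := range (n + 1)) fun A _ =>
    mem_coe.2 (mem_range.2 (Nat.lt_succ_of_le (by simpa using card_le_univ A))), Nat.cast_sum]
  refine sum_congr rfl fun s hs => ?_
  have h := Nat.le_of_lt_succ (mem_range.1 hs)
  rw [pd_eq F h, div_mul_cancel₀ _ (Nat.cast_ne_zero.2 (Nat.choose_pos h).ne')]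

/-- Central levels of the grid are nearly as large as the width. -/
lemma upm_mid {m n k s : ℕ} {δ γ : ℝ} (hδ : 0 < δ) (hδ1 : δ ≤ 1 / 20)
    (hd : 36 ≤ δ ^ 6 * ((m + 1 : ℕ) + 1)) (hk : 2 ≤ δ * k ^ 2) (hn : k = n / (m + 2) + 1)
    (hs : |(s : ℝ) - n / 2| < γ * n)
    (hW : (γ * n + (m + 2)) * (k : ℝ) ^ m ≤ δ * G (Fin 2) (m + 2) k) :
    (1 - 16 * δ) * G (Fin 2) (m + 2) k ≤ (levZ (m + 2) k s).card := by
  have h1 := mid_lower hδ hδ1 hd hk
  obtain ⟨s0, hs0⟩ : ∃ s0 : ℤ, s0 = (((m + 2 : ℕ) : ℤ) * (k - 1) - 1) / 2 := ⟨_, rfl⟩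
  have h2 : midLev (m + 1 + 1) k = levZ (m + 2) k s0 := by rw [hs0]; rfl
  have h3 := levZ_lip m k s0 s
  have h4 : ((m + 2 : ℕ) : ℤ) * (k - 1) = (((m + 2) * (n / (m + 2)) : ℕ) : ℤ) := by
    rw [hn, Nat.cast_succ (n / (m + 2)), add_sub_cancel_right, Nat.cast_mul]
  have h5 := Nat.div_add_mod n (m + 2)
  have h6 := Nat.mod_lt n (show 0 < m + 2 by omega)
  rw [h4] at hs0
  have h7 : 2 * s0 ≤ n ∧ (n : ℤ) ≤ 2 * s0 + 2 * (m + 2) := by omega
  have h8 : 2 * (s0 : ℝ) ≤ n := by exact_mod_cast h7.1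
  have h9 : (n : ℝ) ≤ 2 * s0 + 2 * (m + 2) := by exact_mod_cast h7.2
  obtain ⟨a, b⟩ := abs_lt.1 hs
  have h10 : |(s0 : ℝ) - ((s : ℤ) : ℝ)| ≤ γ * n + (m + 2) := by
    rw [Int.cast_natCast, abs_le]
    have : (0 : ℝ) ≤ m := Nat.cast_nonneg m
    constructor <;> linarith
  have h11 := mul_le_mul_of_nonneg_right h10 (show 0 ≤ (k : ℝ) ^ m by positivity)
  rw [h2] at h1
  have h12 : G (Fin 2) (m + 1 + 1) k = G (Fin 2) (m + 2) k := rfl
  rw [h12] at h1
  linarith

/-- Paper, U. -/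
theorem upper {m : ℕ} {δ f c ε : ℝ} (hδ : 0 < δ) (hδ1 : δ ≤ 1 / 20) (hd : 36 ≤ δ ^ 6 * (m + 1))
    (hf : Tendsto (fun k : ℕ => (G P (m + 1) k : ℝ) / k ^ m) atTop (𝓝 f))
    (hc : Tendsto (fun k : ℕ => (G (Fin 2) (m + 1) k : ℝ) / k ^ m) atTop (𝓝 c)) (hε : 0 < ε) :
    ∀ᶠ n : ℕ in atTop, (La (B n) P : ℝ) ≤ (f / c / (1 - 16 * δ) + ε) * n.choose (n / 2) := by
  have c0 := lim_two_pos hc
  have b0 : 0 < 1 - 16 * δ := by linarith
  have h0 : (0 : ℝ) < Fintype.card P := by exact_mod_cast Fintype.card_pos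
  obtain ⟨m, rfl⟩ : ∃ m', m = m' + 1 := by
    refine ⟨m - 1, ?_⟩
    rcases Nat.eq_zero_or_pos m with rfl | h
    · have := pow_le_one₀ (n := 6) hδ.le (by linarith)
      norm_num at hd
      linarith
    · omega
  obtain ⟨A, hA⟩ : ∃ A, A = f / c / (1 - 16 * δ) + ε / 2 := ⟨_, rfl⟩
  have d0 : (0 : ℝ) < m + 2 := by positivity
  have p : 0 < A * (1 - 16 * δ) * c - f := by
    have : A * (1 - 16 * δ) * c - f = ε / 2 * (1 - 16 * δ) * c := by
      rw [hA]
      field_simp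
      ring
    rw [this]
    positivity
  have e1 := ((hc.const_mul (A * (1 - 16 * δ))).sub hf).eventually (lt_mem_nhds p)
  have tk : Tendsto (fun n : ℕ => n / (m + 2) + 1) atTop atTop :=
    (tendsto_add_atTop_nat 1).comp (Nat.tendsto_div_const_atTop (by omega))
  filter_upwards [tk.eventually (e1.and ((ev_le_G (half_pos c0) hc).and ((ev_ge_mul hδ 2).and
      (ev_ge_mul (show 0 < δ * c / 4 by positivity) (m + 2))))),
    choose_far (γ := δ * c / (4 * (m + 2))) (δ := ε / 2 / Fintype.card P) (by positivity)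
      (by positivity)] with n hn hfar
  obtain ⟨k, hk⟩ : ∃ k, k = n / (m + 2) + 1 := ⟨_, rfl⟩
  rw [← hk] at hn
  obtain ⟨a1, a2, a3, a4⟩ := hn
  have k1 : (1 : ℝ) ≤ k := by exact_mod_cast (hk ▸ Nat.le_add_left 1 _ : 1 ≤ k)
  have k0 : (0 : ℝ) < k := by linarith
  have nk : (n : ℝ) ≤ (m + 2) * k := by
    have := (Nat.lt_mul_div_succ n (show 0 < m + 2 by omega)).le
    rw [← hk] at this
    exact_mod_cast this
  have kp : (0 : ℝ) < k ^ (m + 1) := by positivity
  have w0 : (0 : ℝ) < G (Fin 2) (m + 2) k := lt_of_lt_of_le (mul_pos (by linarith) kp) a2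
  have a5 : (G P (m + 2) k : ℝ) ≤ A * ((1 - 16 * δ) * G (Fin 2) (m + 2) k) := by
    rw [← mul_div_assoc, ← sub_div, div_pos_iff_of_pos_right kp, mul_assoc] at a1
    exact (sub_pos.1 a1).le
  have hW : (δ * c / (4 * (m + 2)) * n + (m + 2)) * (k : ℝ) ^ m ≤ δ * G (Fin 2) (m + 2) k := by
    have t1 : δ * c / (4 * (m + 2)) * n ≤ δ * c / 4 * k :=
      (mul_le_mul_of_nonneg_left nk (by positivity)).trans (le_of_eq (by field_simp))
    calc _ ≤ (δ * c / 4 * k + δ * c / 4 * k) * (k : ℝ) ^ m :=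
          mul_le_mul_of_nonneg_right (add_le_add t1 a4) (by positivity)
      _ = δ * ((c - c / 2) * (k : ℝ) ^ (m + 1)) := by ring
      _ ≤ _ := mul_le_mul_of_nonneg_left a2 hδ.le
  obtain ⟨F, hF, hFc⟩ := La_spec (P := P) n
  obtain ⟨lev, l1, l2⟩ := exists_lev hF
  have g1 := grid_avg (d := m + 2) (k := k) (by rw [hk]; exact Nat.mul_div_le n (m + 2)) hF
  have g2 : Lub F ≤ Fintype.card P := Lub_le ⟨l1, l2⟩
  have hk2 : 2 ≤ δ * (k : ℝ) ^ 2 := by nlinarith
  obtain ⟨Bq, hB⟩ : ∃ Bq, Bq = (1 - 16 * δ) * (G (Fin 2) (m + 2) k : ℝ) := ⟨_, rfl⟩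
  have B0 : 0 < Bq := hB ▸ mul_pos b0 w0
  obtain ⟨η, hη⟩ : ∃ η, η = ε / 2 / (Fintype.card P : ℝ) := ⟨_, rfl⟩
  have η0 : 0 < η := by rw [hη]; positivity
  have ηh : η * Fintype.card P = ε / 2 := by rw [hη, div_mul_cancel₀ _ h0.ne']
  rw [← hη] at hfar
  rw [← hB] at a5
  have C0 : (0 : ℝ) ≤ n.choose (n / 2) := Nat.cast_nonneg _
  have g3 : ∀ s ∈ range (n + 1), pd (· ∈ F) s * n.choose s * Bq ≤
      n.choose (n / 2) * (((levZ (m + 2) k s).card : ℝ) * pd (· ∈ F) s) +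
        η * n.choose (n / 2) * Bq * pd (· ∈ F) s := fun s _ => by
    have q := pd_nonneg (· ∈ F) s
    rcases lt_or_ge |(s : ℝ) - n / 2| (δ * c / (4 * (m + 2)) * n) with h | h
    · have t1 := upm_mid hδ hδ1 hd hk2 hk h hW
      have t2 : (n.choose s : ℝ) ≤ n.choose (n / 2) := by exact_mod_cast Nat.choose_le_middle s n
      rw [← hB] at t1
      have t3 := mul_le_mul_of_nonneg_left (mul_le_mul t2 t1 B0.le C0) q
      have t4 : 0 ≤ η * n.choose (n / 2) * Bq * pd (· ∈ F) s := by positivity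
      linarith
    · have t3 := mul_le_mul_of_nonneg_left (hfar s h) (mul_nonneg q B0.le)
      have t4 : 0 ≤ n.choose (n / 2) * (((levZ (m + 2) k s).card : ℝ) * pd (· ∈ F) s) := by
        positivity
      linarith
  have g4 := sum_le_sum g3
  rw [← sum_mul, ← upm_card, sum_add_distrib, ← mul_sum, ← mul_sum, hFc] at g4
  have g5 := mul_le_mul_of_nonneg_left (g1.trans a5) C0
  have g6 := mul_le_mul_of_nonneg_left g2 (show 0 ≤ η * n.choose (n / 2) * Bq by positivity)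
  refine le_of_mul_le_mul_right (g4.trans ((add_le_add g5 g6).trans (le_of_eq ?_))) B0
  have : f / c / (1 - 16 * δ) + ε = A + η * Fintype.card P := by rw [ηh, hA]; ring
  rw [this]
  ring

end Pool.Agent.Work.MP_84019e_co.Cube
end
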